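import Mathlib

/-!
# Combinatorial Banach spaces

The space `X_F` of a hereditary family `F` of finite subsets of `ℕ` which covers `ℕ`.
-/

set_option autoImplicit false

open Filter Topology
open scoped ENNReal

namespace Pool.Agent.R269.Comb

/-- A hereditary family of finite subsets of `ℕ` which covers `ℕ`. -/
structure HereditaryCover where
  /-- the members of the family -/
  sets : Set (Finset ℕ)
  hereditary : ∀ A ∈ sets, ∀ B : Finset ℕ, B ⊆ A → B ∈ sets
  covers : ∀ n : ℕ, ∃ A ∈ sets, n ∈ A

/-- The closure of the family in the Cantor set of all subsets of `ℕ`: all sets `A` whose finite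
subsets belong to the family. -/
def HereditaryCover.closure (F : HereditaryCover) : Set (Set ℕ) :=
  {A | ∀ B : Finset ℕ, (B : Set ℕ) ⊆ A → B ∈ F.sets}

/-- `‖x‖_F = sup {∑_{k ∈ A} |x k| : A ∈ F}`, a value in `[0, ∞]`. -/
noncomputable def famNorm (F : HereditaryCover) (x : ℕ → ℝ) : ℝ≥0∞ :=
  ⨆ A ∈ F.sets, ENNReal.ofReal (∑ k ∈ A, |x k|)

/-- The coordinate projection onto `A`. -/
noncomputable def proj (A : Set ℕ) (x : ℕ → ℝ) : ℕ → ℝ := A.indicator x

section
variable (F : HereditaryCover)

theorem singleton_mem (n : ℕ) : {n} ∈ F.sets := by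
  obtain ⟨A, hA, hn⟩ := F.covers n
  exact F.hereditary A hA _ (Finset.singleton_subset_iff.2 hn)

theorem empty_mem : ∅ ∈ F.sets := F.hereditary _ (singleton_mem F 0) _ (Finset.empty_subset _)

theorem le_famNorm (x : ℕ → ℝ) {A : Finset ℕ} (hA : A ∈ F.sets) :
    ENNReal.ofReal (∑ k ∈ A, |x k|) ≤ famNorm F x :=
  le_iSup₂ (f := fun (A : Finset ℕ) (_ : A ∈ F.sets) => ENNReal.ofReal (∑ k ∈ A, |x k|)) A hA

theorem famNorm_le {x : ℕ → ℝ} {c : ℝ≥0∞}
    (h : ∀ A ∈ F.sets, ENNReal.ofReal (∑ k ∈ A, |x k|) ≤ c) : famNorm F x ≤ c :=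
  iSup₂_le h

theorem famNorm_mono {x y : ℕ → ℝ} (h : ∀ k, |x k| ≤ |y k|) : famNorm F x ≤ famNorm F y :=
  famNorm_le F fun _ hA =>
    (ENNReal.ofReal_le_ofReal (Finset.sum_le_sum fun k _ => h k)).trans (le_famNorm F y hA)

theorem famNorm_add_le (x y : ℕ → ℝ) : famNorm F (x + y) ≤ famNorm F x + famNorm F y := by
  refine famNorm_le F fun A hA => ?_
  calc ENNReal.ofReal (∑ k ∈ A, |(x + y) k|)
      ≤ ENNReal.ofReal (∑ k ∈ A, |x k| + ∑ k ∈ A, |y k|) := by
        apply ENNReal.ofReal_le_ofReal
        rw [← Finset.sum_add_distrib]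
        exact Finset.sum_le_sum fun k _ => abs_add_le _ _
    _ = ENNReal.ofReal (∑ k ∈ A, |x k|) + ENNReal.ofReal (∑ k ∈ A, |y k|) :=
        ENNReal.ofReal_add (Finset.sum_nonneg fun _ _ => abs_nonneg _)
          (Finset.sum_nonneg fun _ _ => abs_nonneg _)
    _ ≤ _ := add_le_add (le_famNorm F x hA) (le_famNorm F y hA)

theorem famNorm_zero : famNorm F 0 = 0 := by
  refine le_antisymm (famNorm_le F fun A _ => ?_) zero_le
  simp

theorem famNorm_smul_le (c : ℝ) (x : ℕ → ℝ) :
    famNorm F (c • x) ≤ ENNReal.ofReal |c| * famNorm F x := by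
  refine famNorm_le F fun A hA => ?_
  have : ∑ k ∈ A, |(c • x) k| = |c| * ∑ k ∈ A, |x k| := by
    rw [Finset.mul_sum]
    exact Finset.sum_congr rfl fun k _ => by rw [Pi.smul_apply, smul_eq_mul, abs_mul]
  rw [this, ENNReal.ofReal_mul (abs_nonneg c)]
  exact mul_le_mul_right (le_famNorm F x hA) _

theorem proj_add (A : Set ℕ) (x y : ℕ → ℝ) : proj A (x + y) = proj A x + proj A y :=
  Set.indicator_add' A x y

theorem proj_smul (A : Set ℕ) (c : ℝ) (x : ℕ → ℝ) : proj A (c • x) = c • proj A x :=
  Set.indicator_const_smul A c x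

/-- The combinatorial space as a linear subspace of the space of all sequences: all `x` for which
`‖P_{[n, ∞)} x‖_F` tends to `0`. -/
def combSub : Submodule ℝ (ℕ → ℝ) where
  carrier := {x | Tendsto (fun n => famNorm F (proj (Set.Ici n) x)) atTop (𝓝 0)}
  add_mem' := by
    intro x y hx hy
    have h := Tendsto.add hx hy
    rw [add_zero] at h
    refine tendsto_of_tendsto_of_tendsto_of_le_of_le tendsto_const_nhds h (fun _ => zero_le)
      fun n => ?_
    rw [proj_add]
    exact famNorm_add_le F _ _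
  zero_mem' := by
    have h : (fun n : ℕ => famNorm F (proj (Set.Ici n) 0)) = fun _ => 0 := by
      funext n
      have : proj (Set.Ici n) 0 = 0 := Set.indicator_zero' _
      rw [this, famNorm_zero]
    change Tendsto (fun n : ℕ => famNorm F (proj (Set.Ici n) 0)) atTop (𝓝 0)
    rw [h]
    exact tendsto_const_nhds
  smul_mem' := by
    intro c x hx
    have h := ENNReal.Tendsto.const_mul (a := ENNReal.ofReal |c|) hx
      (Or.inr ENNReal.ofReal_ne_top)
    rw [mul_zero] at h
    refine tendsto_of_tendsto_of_tendsto_of_le_of_le tendsto_const_nhds h (fun _ => zero_le)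
      fun n => ?_
    rw [proj_smul]
    exact famNorm_smul_le F _ _

/-- The combinatorial Banach space `X_F`; its norm is `‖·‖_F`. -/
def CombSpace : Type := combSub F

instance : AddCommGroup (CombSpace F) := inferInstanceAs (AddCommGroup (combSub F))
instance : Module ℝ (CombSpace F) := inferInstanceAs (Module ℝ (combSub F))

/-- The coordinates of an element of `X_F`. -/
def CombSpace.val {F : HereditaryCover} (x : CombSpace F) : ℕ → ℝ := Subtype.val x

end

variable {F : HereditaryCover}

theorem val_add (x y : CombSpace F) : (x + y).val = x.val + y.val := rfl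
theorem val_sub (x y : CombSpace F) : (x - y).val = x.val - y.val := rfl
theorem val_neg (x : CombSpace F) : (-x).val = -x.val := rfl
theorem val_zero : (0 : CombSpace F).val = 0 := rfl
theorem val_smul (c : ℝ) (x : CombSpace F) : (c • x).val = c • x.val := rfl

theorem val_mem (x : CombSpace F) :
    Tendsto (fun n => famNorm F (proj (Set.Ici n) x.val)) atTop (𝓝 0) := Subtype.prop x

theorem val_injective : Function.Injective (CombSpace.val : CombSpace F → ℕ → ℝ) :=
  Subtype.val_injective

theorem famNorm_ne_top (x : CombSpace F) : famNorm F x.val ≠ ⊤ := by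
  have h := (ENNReal.tendsto_nhds_zero.1 (val_mem x)) 1 one_pos
  obtain ⟨n, hn⟩ := h.exists
  have h1 : famNorm F x.val ≤
      famNorm F (proj (Set.Iio n) x.val) + famNorm F (proj (Set.Ici n) x.val) := by
    refine le_trans (le_of_eq ?_) (famNorm_add_le F _ _)
    congr 1
    funext k
    rw [Pi.add_apply]
    unfold proj
    by_cases hk : k < n
    · rw [Set.indicator_of_mem (show k ∈ Set.Iio n from hk),
        Set.indicator_of_notMem (show k ∉ Set.Ici n from not_le.2 hk), add_zero]
    · rw [Set.indicator_of_notMem (show k ∉ Set.Iio n from hk),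
        Set.indicator_of_mem (show k ∈ Set.Ici n from not_lt.1 hk), zero_add]
  have h2 : famNorm F (proj (Set.Iio n) x.val) ≤
      ENNReal.ofReal (∑ k ∈ Finset.range n, |x.val k|) := by
    refine famNorm_le F fun A _ => ENNReal.ofReal_le_ofReal ?_
    calc ∑ k ∈ A, |proj (Set.Iio n) x.val k|
        = ∑ k ∈ A.filter (· < n), |x.val k| := by
          rw [Finset.sum_filter]
          refine Finset.sum_congr rfl fun k _ => ?_
          unfold proj
          by_cases hk : k < n
          · rw [Set.indicator_of_mem (show k ∈ Set.Iio n from hk), if_pos hk]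
          · rw [Set.indicator_of_notMem (show k ∉ Set.Iio n from hk), if_neg hk, abs_zero]
      _ ≤ ∑ k ∈ Finset.range n, |x.val k| := by
          refine Finset.sum_le_sum_of_subset_of_nonneg ?_ fun _ _ _ => abs_nonneg _
          intro k hk
          exact Finset.mem_range.2 (Finset.mem_filter.1 hk).2
  exact ne_top_of_le_ne_top
    (ENNReal.add_ne_top.2 ⟨ne_top_of_le_ne_top ENNReal.ofReal_ne_top h2,
      ne_top_of_le_ne_top ENNReal.one_ne_top hn⟩) h1

theorem sum_le_toReal (x : CombSpace F) {A : Finset ℕ} (hA : A ∈ F.sets) :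
    ∑ k ∈ A, |x.val k| ≤ (famNorm F x.val).toReal := by
  have h := (ENNReal.toReal_le_toReal ENNReal.ofReal_ne_top (famNorm_ne_top x)).2
    (le_famNorm F x.val hA)
  rwa [ENNReal.toReal_ofReal (Finset.sum_nonneg fun _ _ => abs_nonneg _)] at h

theorem toReal_le (x : CombSpace F) {c : ℝ} (h : ∀ A ∈ F.sets, ∑ k ∈ A, |x.val k| ≤ c) :
    (famNorm F x.val).toReal ≤ c := by
  have hc : 0 ≤ c := by simpa using h ∅ (empty_mem F)
  have h1 : famNorm F x.val ≤ ENNReal.ofReal c :=
    famNorm_le F fun A hA => ENNReal.ofReal_le_ofReal (h A hA)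
  have h2 := (ENNReal.toReal_le_toReal (famNorm_ne_top x) ENNReal.ofReal_ne_top).2 h1
  rwa [ENNReal.toReal_ofReal hc] at h2

noncomputable instance : NormedAddCommGroup (CombSpace F) :=
  AddGroupNorm.toNormedAddCommGroup
    { toFun := fun x => (famNorm F x.val).toReal
      map_zero' := by
        change (famNorm F (0 : CombSpace F).val).toReal = 0
        rw [val_zero, famNorm_zero]
        rfl
      add_le' := by
        intro x y
        refine toReal_le _ fun A hA => ?_
        calc ∑ k ∈ A, |(x + y).val k| ≤ ∑ k ∈ A, (|x.val k| + |y.val k|) :=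
              Finset.sum_le_sum fun k _ => abs_add_le _ _
          _ = ∑ k ∈ A, |x.val k| + ∑ k ∈ A, |y.val k| := Finset.sum_add_distrib
          _ ≤ _ := add_le_add (sum_le_toReal x hA) (sum_le_toReal y hA)
      neg' := by
        intro x
        refine le_antisymm (toReal_le _ fun A hA => ?_) (toReal_le _ fun A hA => ?_)
        · refine le_trans (le_of_eq ?_) (sum_le_toReal x hA)
          exact Finset.sum_congr rfl fun k _ => by rw [val_neg, Pi.neg_apply, abs_neg]
        · refine le_trans (le_of_eq ?_) (sum_le_toReal (-x) hA)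
          exact Finset.sum_congr rfl fun k _ => by rw [val_neg, Pi.neg_apply, abs_neg]
      eq_zero_of_map_eq_zero' := by
        intro x hx
        apply val_injective
        funext k
        have h := sum_le_toReal x (singleton_mem F k)
        rw [Finset.sum_singleton] at h
        have h2 : |x.val k| ≤ 0 := h.trans (le_of_eq hx)
        rw [val_zero, Pi.zero_apply]
        exact abs_eq_zero.1 (le_antisymm h2 (abs_nonneg _)) }

theorem norm_def (x : CombSpace F) : ‖x‖ = (famNorm F x.val).toReal := rfl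

theorem sum_le_norm (x : CombSpace F) {A : Finset ℕ} (hA : A ∈ F.sets) :
    ∑ k ∈ A, |x.val k| ≤ ‖x‖ := sum_le_toReal x hA

theorem norm_le_of (x : CombSpace F) {c : ℝ} (h : ∀ A ∈ F.sets, ∑ k ∈ A, |x.val k| ≤ c) :
    ‖x‖ ≤ c := toReal_le x h

noncomputable instance : NormedSpace ℝ (CombSpace F) where
  norm_smul_le := by
    intro c x
    refine norm_le_of _ fun A hA => ?_
    have : ∑ k ∈ A, |(c • x).val k| = |c| * ∑ k ∈ A, |x.val k| := by
      rw [Finset.mul_sum]
      exact Finset.sum_congr rfl fun k _ => by rw [val_smul, Pi.smul_apply, smul_eq_mul, abs_mul]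
    rw [this, Real.norm_eq_abs]
    exact mul_le_mul_of_nonneg_left (sum_le_norm x hA) (abs_nonneg c)

theorem coord_le_norm (x : CombSpace F) (k : ℕ) : |x.val k| ≤ ‖x‖ := by
  have h := sum_le_norm x (singleton_mem F k)
  rwa [Finset.sum_singleton] at h

theorem exists_lt_sum (x : CombSpace F) {c : ℝ} (h : c < ‖x‖) :
    ∃ A ∈ F.sets, c < ∑ k ∈ A, |x.val k| := by
  by_contra hc
  push Not at hc
  exact absurd (norm_le_of x hc) (not_le.2 h)

theorem tail_small (x : CombSpace F) {ε : ℝ} (hε : 0 < ε) :
    ∃ N : ℕ, ∀ A ∈ F.sets, (∀ k ∈ A, N ≤ k) → ∑ k ∈ A, |x.val k| ≤ ε := by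
  have h := (ENNReal.tendsto_nhds_zero.1 (val_mem x)) (ENNReal.ofReal ε) (ENNReal.ofReal_pos.2 hε)
  obtain ⟨n, hn⟩ := h.exists
  refine ⟨n, fun A hA hk => ?_⟩
  have h1 := (le_famNorm F (proj (Set.Ici n) x.val) hA).trans hn
  rw [ENNReal.ofReal_le_ofReal_iff hε.le] at h1
  refine le_trans (le_of_eq ?_) h1
  refine Finset.sum_congr rfl fun k hkA => ?_
  unfold proj
  rw [Set.indicator_of_mem (show k ∈ Set.Ici n from hk k hkA)]

theorem summable_of_closure (x : CombSpace F) {A : Set ℕ} (hA : A ∈ F.closure) {g : ℕ → ℝ}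
    (hg : ∀ k, |g k| ≤ 1) (hgA : ∀ k, k ∉ A → g k = 0) :
    Summable (fun k => g k * x.val k) ∧ |∑' k, g k * x.val k| ≤ ‖x‖ := by
  classical
  have hb : ∀ s : Finset ℕ, ∑ k ∈ s, |g k * x.val k| ≤ ‖x‖ := by
    intro s
    have h1 : ∑ k ∈ s, |g k * x.val k| = ∑ k ∈ s.filter (· ∈ A), |g k * x.val k| := by
      rw [Finset.sum_filter]
      refine Finset.sum_congr rfl fun k _ => ?_
      split_ifs with hk
      · rfl
      · rw [hgA k hk, zero_mul, abs_zero]
    rw [h1]
    have h2 : s.filter (· ∈ A) ∈ F.sets := hA _ (by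
      intro k hk
      exact (Finset.mem_filter.1 (Finset.mem_coe.1 hk)).2)
    refine le_trans (Finset.sum_le_sum fun k _ => ?_) (sum_le_norm x h2)
    rw [abs_mul]
    exact mul_le_of_le_one_left (abs_nonneg _) (hg k)
  have hs : Summable (fun k => |g k * x.val k|) :=
    summable_of_sum_le (fun _ => abs_nonneg _) hb
  refine ⟨hs.of_abs, ?_⟩
  have h3 : ‖∑' k, g k * x.val k‖ ≤ ∑' k, ‖g k * x.val k‖ := norm_tsum_le_tsum_norm hs
  have h4 : ∑' k, |g k * x.val k| ≤ ‖x‖ := hs.tsum_le_of_sum_le hb
  exact h3.trans h4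

/-- The functional `x ↦ ∑ g k x k` for `g` supported on a set in the closure of the family, with
`|g| ≤ 1`. -/
noncomputable def functional {A : Set ℕ} (hA : A ∈ F.closure) {g : ℕ → ℝ}
    (hg : ∀ k, |g k| ≤ 1) (hgA : ∀ k, k ∉ A → g k = 0) : StrongDual ℝ (CombSpace F) :=
  LinearMap.mkContinuous
    { toFun := fun x => ∑' k, g k * x.val k
      map_add' := by
        intro x y
        rw [← (summable_of_closure x hA hg hgA).1.tsum_add (summable_of_closure y hA hg hgA).1]
        congr 1
        funext k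
        rw [val_add, Pi.add_apply]
        ring
      map_smul' := by
        intro c x
        rw [RingHom.id_apply, smul_eq_mul, ← tsum_mul_left]
        congr 1
        funext k
        rw [val_smul, Pi.smul_apply, smul_eq_mul]
        ring } 1 (by
      intro x
      rw [one_mul]
      exact (summable_of_closure x hA hg hgA).2)

theorem functional_apply {A : Set ℕ} (hA : A ∈ F.closure) {g : ℕ → ℝ}
    (hg : ∀ k, |g k| ≤ 1) (hgA : ∀ k, k ∉ A → g k = 0) (x : CombSpace F) :
    functional hA hg hgA x = ∑' k, g k * x.val k := rfl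

/-- A normed space has the Schur property if every weakly convergent sequence in it converges in
norm. -/
def SchurProperty (X : Type) [NormedAddCommGroup X] [NormedSpace ℝ X] : Prop :=
  ∀ (x : ℕ → X) (a : X), (∀ f : StrongDual ℝ X, Tendsto (fun n => f (x n)) atTop (𝓝 (f a))) →
    Tendsto x atTop (𝓝 a)

end Pool.Agent.R269.Comb
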