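import Mathlib

/-!
# A positive version of Elton's theorem on extremely weakly unconditionally convergent series

Let `φ n` be nonnegative continuous functions of norm one on a compact Hausdorff space `K` with
`∑ φ n t < ∞` for every `t`. Then there are successive nonnegative combinations of norm one of the
`φ n` whose sum is bounded on `K`.
-/

set_option autoImplicit false

open Filter Topology

namespace Pool.Agent.R269.Elton

variable {K : Type} [TopologicalSpace K] [CompactSpace K]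

/-- the combination `∑ c n φ n` -/
noncomputable def comb (φ : ℕ → C(K, ℝ)) (c : ℕ →₀ ℝ) : C(K, ℝ) := Finsupp.linearCombination ℝ φ c

theorem comb_apply (φ : ℕ → C(K, ℝ)) (c : ℕ →₀ ℝ) (t : K) :
    comb φ c t = ∑ n ∈ c.support, c n * φ n t := by
  unfold comb
  rw [Finsupp.linearCombination_apply, Finsupp.sum, ContinuousMap.sum_apply]
  rfl

theorem comb_add (φ : ℕ → C(K, ℝ)) (c d : ℕ →₀ ℝ) : comb φ (c + d) = comb φ c + comb φ d :=
  map_add _ _ _

theorem comb_smul (φ : ℕ → C(K, ℝ)) (a : ℝ) (c : ℕ →₀ ℝ) : comb φ (a • c) = a • comb φ c :=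
  map_smul _ _ _

theorem comb_sum (φ : ℕ → C(K, ℝ)) {ι : Type} (s : Finset ι) (c : ι → ℕ →₀ ℝ) :
    comb φ (∑ i ∈ s, c i) = ∑ i ∈ s, comb φ (c i) := map_sum _ _ _

/-- A cone of finitely supported nonnegative coefficient vectors which contains nonzero vectors
supported arbitrarily far out. -/
structure IsCone (V : Set (ℕ →₀ ℝ)) : Prop where
  nonneg : ∀ c ∈ V, ∀ n, 0 ≤ c n
  add : ∀ c ∈ V, ∀ d ∈ V, c + d ∈ V
  smul : ∀ c ∈ V, ∀ a : ℝ, 0 < a → a • c ∈ V
  far : ∀ N, ∃ c ∈ V, c ≠ 0 ∧ ∀ n ∈ c.support, N ≤ n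

/-- `C` is small: in each cone there is a vector `c ≠ 0` such that `∑ c n φ n` is small on `C`
relative to its norm. -/
def Null (φ : ℕ → C(K, ℝ)) (C : Set K) : Prop :=
  ∀ V, IsCone V → ∀ δ : ℝ, 0 < δ → ∃ c ∈ V, c ≠ 0 ∧ ∀ t ∈ C, comb φ c t ≤ δ * ‖comb φ c‖

/-- There are no successive blocks spanning `c₀`. -/
def NoC0 (φ : ℕ → C(K, ℝ)) : Prop :=
  ∀ c : ℕ → ℕ →₀ ℝ, (∀ j n, 0 ≤ c j n) →
    (∀ j, ∀ n ∈ (c j).support, ∀ m ∈ (c (j + 1)).support, n < m) → (∀ j, ‖comb φ (c j)‖ = 1) →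
    ∀ B : ℝ, ∃ (t : K) (J : ℕ), B < ∑ j ∈ Finset.range J, comb φ (c j) t

section
variable {φ : ℕ → C(K, ℝ)} (h0 : ∀ n t, 0 ≤ φ n t)

include h0 in
theorem comb_nonneg {c : ℕ →₀ ℝ} (hc : ∀ n, 0 ≤ c n) (t : K) : 0 ≤ comb φ c t := by
  rw [comb_apply]
  exact Finset.sum_nonneg fun n _ => mul_nonneg (hc n) (h0 n t)

include h0 in
theorem le_comb {c : ℕ →₀ ℝ} (hc : ∀ n, 0 ≤ c n) (n : ℕ) (t : K) :
    c n * φ n t ≤ comb φ c t := by
  rw [comb_apply]
  by_cases hn : n ∈ c.support
  · exact Finset.single_le_sum (f := fun n => c n * φ n t)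
      (fun m _ => mul_nonneg (hc m) (h0 m t)) hn
  · rw [Finsupp.notMem_support_iff.1 hn, zero_mul]
    exact Finset.sum_nonneg fun n _ => mul_nonneg (hc n) (h0 n t)

theorem apply_le_norm (f : C(K, ℝ)) (t : K) : f t ≤ ‖f‖ :=
  (le_abs_self _).trans (f.norm_coe_le_norm t)

variable (h1 : ∀ n, ‖φ n‖ = 1)

include h0 h1 in
theorem coeff_le {c : ℕ →₀ ℝ} (hc : ∀ n, 0 ≤ c n) (n : ℕ) : c n ≤ ‖comb φ c‖ := by
  rcases (hc n).eq_or_lt with h | h
  · rw [← h]; exact norm_nonneg _
  · have h2 : ‖φ n‖ ≤ ‖comb φ c‖ / c n := by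
      rw [ContinuousMap.norm_le _ (div_nonneg (norm_nonneg _) (hc n))]
      intro t
      rw [Real.norm_eq_abs, abs_of_nonneg (h0 n t), le_div_iff₀ h, mul_comm]
      exact (le_comb h0 hc n t).trans (apply_le_norm _ t)
    rw [h1, le_div_iff₀ h, one_mul] at h2
    exact h2

include h0 h1 in
theorem norm_pos_of {c : ℕ →₀ ℝ} (hc : ∀ n, 0 ≤ c n) (hne : c ≠ 0) : 0 < ‖comb φ c‖ := by
  obtain ⟨n, hn⟩ := Finsupp.ne_iff.1 hne
  rw [Finsupp.zero_apply] at hn
  exact lt_of_lt_of_le (lt_of_le_of_ne (hc n) (Ne.symm hn)) (coeff_le h0 h1 hc n)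

theorem IsCone.tail {V : Set (ℕ →₀ ℝ)} (hV : IsCone V) (N : ℕ) :
    IsCone {c | c ∈ V ∧ ∀ n ∈ c.support, N ≤ n} where
  nonneg c hc := hV.nonneg c hc.1
  add := by
    rintro c ⟨hc, hc2⟩ d ⟨hd, hd2⟩
    refine ⟨hV.add c hc d hd, fun n hn => ?_⟩
    rcases Finset.mem_union.1 (Finsupp.support_add hn) with h | h
    · exact hc2 n h
    · exact hd2 n h
  smul := by
    rintro c ⟨hc, hc2⟩ a ha
    exact ⟨hV.smul c hc a ha, fun n hn => hc2 n (Finsupp.support_smul hn)⟩
  far := by
    intro M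
    obtain ⟨c, hc, hne, hs⟩ := hV.far (max M N)
    exact ⟨c, ⟨hc, fun n hn => (le_max_right _ _).trans (hs n hn)⟩, hne,
      fun n hn => (le_max_left _ _).trans (hs n hn)⟩

include h0 h1 in
/-- normalised vectors supported far out which are small on a null set -/
theorem Null.exists {C : Set K} (hC : Null φ C) {V : Set (ℕ →₀ ℝ)} (hV : IsCone V) (N : ℕ)
    {δ : ℝ} (hδ : 0 < δ) : ∃ c ∈ V, (∀ n ∈ c.support, N ≤ n) ∧ ‖comb φ c‖ = 1 ∧
      ∀ t ∈ C, comb φ c t ≤ δ := by
  obtain ⟨c, ⟨hc, hcs⟩, hne, hct⟩ := hC _ (hV.tail N) δ hδ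
  have hpos := norm_pos_of h0 h1 (hV.nonneg c hc) hne
  refine ⟨‖comb φ c‖⁻¹ • c, hV.smul c hc _ (inv_pos.2 hpos),
    fun n hn => hcs n (Finsupp.support_smul hn), ?_, ?_⟩
  · rw [comb_smul, norm_smul, norm_inv, norm_norm, inv_mul_cancel₀ hpos.ne']
  · intro t ht
    rw [comb_smul, ContinuousMap.smul_apply, smul_eq_mul, inv_mul_le_iff₀ hpos, mul_comm]
    exact hct t ht

theorem null_mono {C D : Set K} (h : C ⊆ D) (hD : Null φ D) : Null φ C := fun V hV δ hδ =>
  let ⟨c, hc, hne, hct⟩ := hD V hV δ hδ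
  ⟨c, hc, hne, fun t ht => hct t (h ht)⟩

theorem null_empty : Null φ (∅ : Set K) := fun V hV δ _ =>
  let ⟨c, hc, hne, _⟩ := hV.far 0
  ⟨c, hc, hne, fun t ht => absurd ht (Set.notMem_empty t)⟩

theorem sum_mem {V : Set (ℕ →₀ ℝ)} (hV : IsCone V) (c : ℕ → ℕ →₀ ℝ) (hc : ∀ j, c j ∈ V) (J : ℕ) :
    ∑ j ∈ Finset.range (J + 1), c j ∈ V := by
  induction J with
  | zero => rw [Finset.sum_range_one]; exact hc 0
  | succ J ih => rw [Finset.sum_range_succ]; exact hV.add _ ih _ (hc _)

include h0 in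
/-- If the sum of a successive normalised sequence in `V` is bounded on `C`, then there is a vector
in `V` which is small on `C`. -/
theorem flat (hno : NoC0 φ) {V : Set (ℕ →₀ ℝ)} (hV : IsCone V) {C : Set K}
    (c : ℕ → ℕ →₀ ℝ) (hc : ∀ j, c j ∈ V)
    (hs : ∀ j, ∀ n ∈ (c j).support, ∀ m ∈ (c (j + 1)).support, n < m)
    (hn : ∀ j, ‖comb φ (c j)‖ = 1) {B : ℝ}
    (hB : ∀ t ∈ C, ∀ J, ∑ j ∈ Finset.range J, comb φ (c j) t ≤ B) {δ : ℝ} (hδ : 0 < δ) :
    ∃ d ∈ V, d ≠ 0 ∧ ∀ t ∈ C, comb φ d t ≤ δ * ‖comb φ d‖ := by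
  obtain ⟨t0, J, hJ⟩ := hno c (fun j => hV.nonneg _ (hc j)) hs hn (max (B / δ) 0)
  have hJ2 : max (B / δ) 0 < ∑ j ∈ Finset.range (J + 1), comb φ (c j) t0 := by
    rw [Finset.sum_range_succ]
    have := comb_nonneg h0 (hV.nonneg _ (hc J)) t0
    linarith
  have hnorm : ∑ j ∈ Finset.range (J + 1), comb φ (c j) t0 ≤
      ‖comb φ (∑ j ∈ Finset.range (J + 1), c j)‖ := by
    refine le_trans (le_of_eq ?_) (apply_le_norm _ t0)
    rw [comb_sum, ContinuousMap.sum_apply]
  refine ⟨∑ j ∈ Finset.range (J + 1), c j, sum_mem hV c hc J, ?_, ?_⟩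
  · intro h
    rw [h] at hnorm
    have e : comb φ (0 : ℕ →₀ ℝ) = 0 := map_zero _
    rw [e, norm_zero] at hnorm
    have := le_max_right (B / δ) 0
    linarith
  · intro t ht
    rw [comb_sum, ContinuousMap.sum_apply]
    rw [comb_sum] at hnorm
    refine (hB t ht (J + 1)).trans ?_
    have h2 := le_max_left (B / δ) 0
    have h3 : B / δ < ‖∑ j ∈ Finset.range (J + 1), comb φ (c j)‖ := by linarith
    rw [div_lt_iff₀ hδ] at h3
    linarith

end

section
variable {φ : ℕ → C(K, ℝ)} (h0 : ∀ n t, 0 ≤ φ n t) (h1 : ∀ n, ‖φ n‖ = 1)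

/-- recursive choice of successive vectors depending on a state -/
theorem choose_seq {S : Type} (P : ℕ → S → (ℕ →₀ ℝ) → Prop) (nxt : ℕ → S → (ℕ →₀ ℝ) → S) (s0 : S)
    (h : ∀ k s N, ∃ c : ℕ →₀ ℝ, P k s c ∧ ∀ n ∈ c.support, N ≤ n) :
    ∃ (c : ℕ → ℕ →₀ ℝ) (s : ℕ → S), s 0 = s0 ∧ (∀ k, s (k + 1) = nxt k (s k) (c k)) ∧
      (∀ k, P k (s k) (c k)) ∧ ∀ j, ∀ n ∈ (c j).support, ∀ m ∈ (c (j + 1)).support, n < m := by
  choose f hf1 hf2 using h
  let st : ℕ → S × ℕ := fun k => Nat.rec (s0, 0)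
    (fun k p => (nxt k p.1 (f k p.1 p.2), (f k p.1 p.2).support.sup id + 1)) k
  refine ⟨fun k => f k (st k).1 (st k).2, fun k => (st k).1, rfl, fun k => rfl,
    fun k => hf1 _ _ _, ?_⟩
  intro j n hn m hm
  have e1 : n ≤ (f j (st j).1 (st j).2).support.sup id := Finset.le_sup (f := id) hn
  have e2 : (st (j + 1)).2 ≤ m := hf2 _ _ _ m hm
  have e3 : (st (j + 1)).2 = (f j (st j).1 (st j).2).support.sup id + 1 := rfl
  omega

include h0 h1 in
theorem null_union {C D : Set K} (hC : Null φ C) (hD : Null φ D) : Null φ (C ∪ D) := by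
  intro V hV δ hδ
  obtain ⟨c, -, -, -, hP, hs⟩ := choose_seq (S := Unit)
    (fun k _ c => c ∈ V ∧ ‖comb φ c‖ = 1 ∧ ∀ t ∈ C, comb φ c t ≤ δ * (1 / 2) ^ (k + 1))
    (fun _ _ _ => ()) () (by
      intro k _ N
      obtain ⟨c, h2, h3, h4, h5⟩ := hC.exists h0 h1 hV N
        (δ := δ * (1 / 2) ^ (k + 1)) (by positivity)
      exact ⟨c, ⟨h2, h4, h5⟩, h3⟩)
  have hcn : ∀ k n, 0 ≤ c k n := fun k => hV.nonneg _ (hP k).1
  -- the supports move to infinity
  have hcne : ∀ k, (c k).support.Nonempty := by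
    intro k
    rw [Finsupp.support_nonempty_iff]
    intro h
    have h2 := (hP k).2.1
    rw [h] at h2
    have e : comb φ (0 : ℕ →₀ ℝ) = 0 := map_zero _
    rw [e, norm_zero] at h2
    norm_num at h2
  have hfar : ∀ k, ∀ n ∈ (c k).support, k ≤ n := by
    intro k
    induction k with
    | zero => intro n _; exact Nat.zero_le n
    | succ k ih =>
      intro n hn
      obtain ⟨m, hm⟩ := hcne k
      have h2 := ih m hm
      have h3 := hs k m hm n hn
      omega
  -- the cone spanned by the sequence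
  let W : Set (ℕ →₀ ℝ) := {d | ∃ a : ℕ →₀ ℝ, (∀ j, 0 ≤ a j) ∧ d = Finsupp.linearCombination ℝ c a}
  have hW : IsCone W := by
    constructor
    · rintro d ⟨a, ha, rfl⟩ n
      rw [Finsupp.linearCombination_apply, Finsupp.sum, Finsupp.finsetSum_apply]
      exact Finset.sum_nonneg fun j _ => mul_nonneg (ha j) (hcn j n)
    · rintro d ⟨a, ha, rfl⟩ d' ⟨b, hb, rfl⟩
      exact ⟨a + b, fun j => add_nonneg (ha j) (hb j), (map_add _ _ _).symm⟩
    · rintro d ⟨a, ha, rfl⟩ r hr
      exact ⟨r • a, fun j => mul_nonneg hr.le (ha j), (map_smul _ _ _).symm⟩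
    · intro N
      refine ⟨c N, ⟨Finsupp.single N 1, ?_, ?_⟩, Finsupp.support_nonempty_iff.1 (hcne N), hfar N⟩
      · intro j
        rw [Finsupp.single_apply]
        split_ifs <;> norm_num
      · rw [Finsupp.linearCombination_single, one_smul]
  obtain ⟨d, ⟨a, ha, hdef⟩, hne, hd⟩ := hD W hW δ hδ
  rw [Finsupp.linearCombination_apply, Finsupp.sum] at hdef
  have hdV : d ∈ V := by
    have hane : a.support.Nonempty := by
      rw [Finsupp.support_nonempty_iff]
      rintro rfl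
      exact hne (by rw [hdef, Finsupp.support_zero, Finset.sum_empty])
    have key : ∀ s : Finset ℕ, s.Nonempty → (∀ j ∈ s, 0 < a j) → ∑ j ∈ s, a j • c j ∈ V := by
      intro s hs'
      induction hs' using Finset.Nonempty.cons_induction with
      | singleton j =>
        intro h
        rw [Finset.sum_singleton]
        exact hV.smul _ (hP j).1 _ (h j (Finset.mem_singleton_self j))
      | cons j s hj hs' ih =>
        intro h
        rw [Finset.sum_cons]
        exact hV.add _ (hV.smul _ (hP j).1 _ (h j (Finset.mem_cons_self j s))) _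
          (ih fun i hi => h i (Finset.mem_cons_of_mem hi))
    rw [hdef]
    exact key a.support hane fun j hj =>
      lt_of_le_of_ne (ha j) (Ne.symm (Finsupp.mem_support_iff.1 hj))
  have hdn := hV.nonneg d hdV
  refine ⟨d, hdV, hne, ?_⟩
  have hexp : ∀ t, comb φ d t = ∑ j ∈ a.support, a j * comb φ (c j) t := by
    intro t
    rw [hdef, comb_sum, ContinuousMap.sum_apply]
    refine Finset.sum_congr rfl fun j _ => ?_
    rw [comb_smul, ContinuousMap.smul_apply, smul_eq_mul]
  -- the coefficients are bounded by the norm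
  have haj : ∀ j ∈ a.support, a j ≤ ‖comb φ d‖ := by
    intro j hj
    have hpos : 0 < a j := lt_of_le_of_ne (ha j) (Ne.symm (Finsupp.mem_support_iff.1 hj))
    have h2 : ‖comb φ (c j)‖ ≤ ‖comb φ d‖ / a j := by
      rw [ContinuousMap.norm_le _ (div_nonneg (norm_nonneg _) (ha j))]
      intro t
      rw [Real.norm_eq_abs, abs_of_nonneg (comb_nonneg h0 (hcn j) t), le_div_iff₀ hpos, mul_comm]
      refine le_trans ?_ (apply_le_norm _ t)
      rw [hexp]
      exact Finset.single_le_sum (f := fun j => a j * comb φ (c j) t)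
        (fun i _ => mul_nonneg (ha i) (comb_nonneg h0 (hcn i) t)) hj
    rw [(hP j).2.1, le_div_iff₀ hpos, one_mul] at h2
    exact h2
  rintro t (ht | ht)
  · rw [hexp]
    calc ∑ j ∈ a.support, a j * comb φ (c j) t
        ≤ ∑ j ∈ a.support, ‖comb φ d‖ * (δ * (1 / 2) ^ (j + 1)) :=
          Finset.sum_le_sum fun j hj => mul_le_mul (haj j hj) ((hP j).2.2 t ht)
            (comb_nonneg h0 (hcn j) t) (norm_nonneg _)
      _ = (‖comb φ d‖ * δ) * ∑ j ∈ a.support, (1 / 2 : ℝ) ^ (j + 1) := by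
          rw [Finset.mul_sum]
          exact Finset.sum_congr rfl fun j _ => by ring
      _ ≤ (‖comb φ d‖ * δ) * 1 := by
          refine mul_le_mul_of_nonneg_left ?_ (by positivity)
          have hsum : HasSum (fun j : ℕ => (1 / 2 : ℝ) ^ (j + 1)) 1 := by
            have := hasSum_geometric_two' (1 : ℝ)
            refine (hasSum_geometric_two' (1 : ℝ)).congr_fun ?_ |> fun h => h
            intro j
            rw [pow_succ, one_div, inv_pow]
            ring
          exact sum_le_hasSum _ (fun j _ => by positivity) hsum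
      _ = δ * ‖comb φ d‖ := by ring
  · exact hd t ht

include h0 h1 in
theorem null_compact {C : Set K} (hC : IsClosed C) (h : ∀ t ∈ C, ∃ U, IsOpen U ∧ t ∈ U ∧ Null φ U) :
    Null φ C := by
  refine hC.isCompact.induction_on (p := fun C => Null φ C) null_empty
    (fun _ _ h h2 => null_mono h h2) (fun _ _ h h2 => null_union h0 h1 h h2) ?_
  intro t ht
  obtain ⟨U, hU, htU, hn⟩ := h t ht
  exact ⟨U, mem_nhdsWithin_of_mem_nhds (hU.mem_nhds htU), hn⟩

include h0 h1 in
/-- The key step: if `∑ φ n ≤ M` on `K₁ ∩ L` and all closed subsets of `K₁` which do not meet `L`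
are null, then `K₁` is null. -/
theorem null_step (hno : NoC0 φ) {K₁ L : Set K} (hK : IsClosed K₁) {M : ℝ}
    (hM : ∀ t ∈ K₁ ∩ L, ∀ J, ∑ n ∈ Finset.range J, φ n t ≤ M)
    (hcl : ∀ C ⊆ K₁, IsClosed C → Disjoint C L → Null φ C) : Null φ K₁ := by
  -- first the set `K₁ ∩ L`
  have hL : Null φ (K₁ ∩ L) := by
    intro V hV δ hδ
    obtain ⟨c, -, -, -, hP, hs⟩ := choose_seq (S := Unit)
      (fun _ _ c => c ∈ V ∧ ‖comb φ c‖ = 1) (fun _ _ _ => ()) () (by
        intro k _ N
        obtain ⟨c, h2, h3, h4, -⟩ := (null_empty (φ := φ)).exists h0 h1 hV N one_pos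
        exact ⟨c, ⟨h2, h4⟩, h3⟩)
    refine flat h0 hno hV c (fun j => (hP j).1) hs (fun j => (hP j).2) (B := M) ?_ hδ
    intro t ht J
    have hcn : ∀ k n, 0 ≤ c k n := fun k => hV.nonneg _ (hP k).1
    have hc1 : ∀ k n, c k n ≤ 1 := fun k n => by
      rw [← (hP k).2]; exact coeff_le h0 h1 (hcn k) n
    -- the supports are disjoint and increasing
    have hcne : ∀ k, (c k).support.Nonempty := by
      intro k
      rw [Finsupp.support_nonempty_iff]
      intro h
      have h2 := (hP k).2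
      rw [h] at h2
      have e : comb φ (0 : ℕ →₀ ℝ) = 0 := map_zero _
      rw [e, norm_zero] at h2
      norm_num at h2
    have hlt : ∀ i j, i < j → ∀ n ∈ (c i).support, ∀ m ∈ (c j).support, n < m := by
      intro i j hij
      induction j, hij using Nat.le_induction with
      | base => exact hs i
      | succ j _ ih =>
        intro n hn m hm
        obtain ⟨l, hl⟩ := hcne j
        exact (ih n hn l hl).trans (hs j l hl m hm)
    have hdisj : Set.PairwiseDisjoint (Finset.range J : Set ℕ) fun j => (c j).support := by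
      intro i _ j _ hij
      rw [Function.onFun, Finset.disjoint_left]
      intro n hn hm
      rcases lt_or_gt_of_ne hij with h | h
      · exact lt_irrefl _ (hlt i j h n hn n hm)
      · exact lt_irrefl _ (hlt j i h n hm n hn)
    calc ∑ j ∈ Finset.range J, comb φ (c j) t
        ≤ ∑ j ∈ Finset.range J, ∑ n ∈ (c j).support, φ n t := by
          refine Finset.sum_le_sum fun j _ => ?_
          rw [comb_apply]
          exact Finset.sum_le_sum fun n _ => mul_le_of_le_one_left (h0 n t) (hc1 j n)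
      _ = ∑ n ∈ (Finset.range J).biUnion fun j => (c j).support, φ n t :=
          (Finset.sum_biUnion hdisj).symm
      _ ≤ ∑ n ∈ Finset.range
            (((Finset.range J).biUnion fun j => (c j).support).sup id + 1), φ n t := by
          refine Finset.sum_le_sum_of_subset_of_nonneg ?_ fun n _ _ => h0 n t
          intro n hn
          rw [Finset.mem_range]
          exact Nat.lt_succ_of_le (Finset.le_sup (f := id) hn)
      _ ≤ M := hM t ht _
  intro V hV δ hδ
  -- the states are the neighbourhoods of `K₁ ∩ L`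
  let S : Type := {U : Set K // IsOpen U}
  have hstep : ∀ (k : ℕ) (U : S) (N : ℕ), ∃ c : ℕ →₀ ℝ,
      (K₁ ∩ L ⊆ U.1 → c ∈ V ∧ ‖comb φ c‖ = 1 ∧ (∀ t ∈ K₁ ∩ L, comb φ c t ≤ (1 / 2) ^ (k + 1)) ∧
        ∀ t ∈ K₁ \ U.1, comb φ c t ≤ (1 / 2) ^ (k + 1)) ∧ ∀ n ∈ c.support, N ≤ n := by
    intro k U N
    by_cases hU : K₁ ∩ L ⊆ U.1
    · have hn : Null φ (K₁ \ U.1) := by
        refine hcl _ Set.diff_subset (hK.sdiff U.2) ?_
        rw [Set.disjoint_left]
        exact fun t ht htL => ht.2 (hU ⟨ht.1, htL⟩)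
      obtain ⟨c, h2, h3, h4, h5⟩ := (null_union h0 h1 hL hn).exists h0 h1 hV N
        (δ := (1 / 2) ^ (k + 1)) (by positivity)
      exact ⟨c, fun _ => ⟨h2, h4, fun t ht => h5 t (Or.inl ht), fun t ht => h5 t (Or.inr ht)⟩, h3⟩
    · exact ⟨0, fun h => absurd h hU, fun n hn => absurd hn (by simp)⟩
  obtain ⟨c, U, hU0, hU, hP, hs⟩ := choose_seq
    (fun (k : ℕ) (U : S) c => K₁ ∩ L ⊆ U.1 → c ∈ V ∧ ‖comb φ c‖ = 1 ∧
      (∀ t ∈ K₁ ∩ L, comb φ c t ≤ (1 / 2) ^ (k + 1)) ∧
        ∀ t ∈ K₁ \ U.1, comb φ c t ≤ (1 / 2) ^ (k + 1))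
    (fun k U c => ⟨U.1 ∩ {t | comb φ c t < (1 / 2) ^ k},
      U.2.inter (isOpen_lt (comb φ c).continuous continuous_const)⟩)
    ⟨Set.univ, isOpen_univ⟩ hstep
  have hsub : ∀ k, K₁ ∩ L ⊆ (U k).1 := by
    intro k
    induction k with
    | zero => rw [hU0]; exact Set.subset_univ _
    | succ k ih =>
      rw [hU]
      intro t ht
      refine ⟨ih ht, ?_⟩
      change comb φ (c k) t < (1 / 2) ^ k
      refine lt_of_le_of_lt ((hP k ih).2.2.1 t ht) ?_
      rw [pow_succ]
      have : (0 : ℝ) < (1 / 2) ^ k := by positivity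
      linarith
  have hQ := fun k => hP k (hsub k)
  have hcn : ∀ k n, 0 ≤ c k n := fun k => hV.nonneg _ (hQ k).1
  have hanti : ∀ i j, i ≤ j → (U j).1 ⊆ (U i).1 := by
    intro i j hij
    induction j, hij using Nat.le_induction with
    | base => exact subset_rfl
    | succ j _ ih =>
      refine subset_trans ?_ ih
      rw [hU]
      exact Set.inter_subset_left
  have hgeo : ∀ J, ∑ j ∈ Finset.range J, (1 / 2 : ℝ) ^ j ≤ 2 := fun J =>
    sum_le_hasSum _ (fun j _ => by positivity) hasSum_geometric_two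
  refine flat h0 hno hV c (fun j => (hQ j).1) hs (fun j => (hQ j).2.1) (B := 4) ?_ hδ
  intro t ht J
  have hin : ∀ k, t ∈ (U k).1 → ∑ j ∈ Finset.range k, comb φ (c j) t ≤ 2 := by
    intro k hk
    refine (Finset.sum_le_sum fun j hj => ?_).trans (hgeo k)
    have h2 := hanti (j + 1) k (Finset.mem_range.1 hj) hk
    rw [hU] at h2
    exact (show comb φ (c j) t < (1 / 2) ^ j from h2.2).le
  by_cases hall : ∀ k, t ∈ (U k).1
  · exact (hin J (hall J)).trans (by norm_num)
  · push Not at hall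
    obtain ⟨k, hk⟩ := hall
    induction k with
    | zero => rw [hU0] at hk; exact absurd (Set.mem_univ t) hk
    | succ k ih =>
      by_cases hk' : t ∈ (U k).1
      · have hge : ∀ j, k + 1 ≤ j → comb φ (c j) t ≤ (1 / 2) ^ (j + 1) := fun j hj =>
          (hQ j).2.2.2 t ⟨ht, fun h => hk (hanti _ _ hj h)⟩
        have hle : ∀ j, comb φ (c j) t ≤ (if j < k then comb φ (c j) t else 0) +
            (if j = k then 1 else 0) + (1 / 2) ^ (j + 1) := by
          intro j
          have hp : (0 : ℝ) < (1 / 2) ^ (j + 1) := by positivity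
          rcases lt_trichotomy j k with h | h | h
          · rw [if_pos h, if_neg h.ne]; linarith
          · subst h
            rw [if_neg (lt_irrefl _), if_pos rfl]
            have := apply_le_norm (comb φ (c j)) t
            rw [(hQ j).2.1] at this
            linarith
          · rw [if_neg (by omega), if_neg (by omega)]
            have := hge j h
            linarith
        refine (Finset.sum_le_sum fun j _ => hle j).trans ?_
        rw [Finset.sum_add_distrib, Finset.sum_add_distrib]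
        have e1 : ∑ j ∈ Finset.range J, (if j < k then comb φ (c j) t else 0) ≤ 2 := by
          refine le_trans ?_ (hin k hk')
          rw [← Finset.sum_filter]
          refine Finset.sum_le_sum_of_subset_of_nonneg ?_ fun j _ _ =>
            comb_nonneg h0 (hcn j) t
          intro j hj
          exact Finset.mem_range.2 (Finset.mem_filter.1 hj).2
        have e2 : ∑ j ∈ Finset.range J, (if j = k then (1 : ℝ) else 0) ≤ 1 := by
          rw [Finset.sum_ite_eq']
          split_ifs <;> norm_num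
        have e3 : ∑ j ∈ Finset.range J, (1 / 2 : ℝ) ^ (j + 1) ≤ 1 := by
          have : ∑ j ∈ Finset.range J, (1 / 2 : ℝ) ^ (j + 1) =
              (1 / 2) * ∑ j ∈ Finset.range J, (1 / 2 : ℝ) ^ j := by
            rw [Finset.mul_sum]
            exact Finset.sum_congr rfl fun j _ => by rw [pow_succ]; ring
          rw [this]
          have := hgeo J
          linarith
        linarith
      · exact ih hk'

include h0 h1 in
/-- **Positive version of Elton's theorem.** -/
theorem not_noC0 [T2Space K] (hsum : ∀ t, Summable fun n => φ n t) : ¬ NoC0 φ := by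
  intro hno
  -- the set of points without null neighbourhood
  let L : Set K := {t | ¬ ∃ U, IsOpen U ∧ t ∈ U ∧ Null φ U}
  have hLc : IsClosed L := by
    rw [← isOpen_compl_iff, isOpen_iff_mem_nhds]
    intro t ht
    have : ∃ U, IsOpen U ∧ t ∈ U ∧ Null φ U := by
      by_contra h
      exact ht h
    obtain ⟨U, hU, htU, hn⟩ := this
    refine mem_of_superset (hU.mem_nhds htU) fun s hs => ?_
    intro h
    exact h ⟨U, hU, hs, hn⟩
  have hcl : ∀ C, IsClosed C → Disjoint C L → Null φ C := by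
    intro C hC hd
    refine null_compact h0 h1 hC fun t ht => ?_
    by_contra h
    exact Set.disjoint_left.1 hd ht h
  have hLne : L.Nonempty := by
    by_contra h
    rw [Set.not_nonempty_iff_eq_empty] at h
    have hall : Null φ (Set.univ : Set K) := hcl _ isClosed_univ (by rw [h]; exact Set.disjoint_empty _)
    -- the cone of all nonnegative vectors
    have hV : IsCone {c : ℕ →₀ ℝ | ∀ n, 0 ≤ c n} := by
      refine ⟨fun c hc => hc, fun c hc d hd n => add_nonneg (hc n) (hd n),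
        fun c hc a ha n => mul_nonneg ha.le (hc n), fun N => ⟨Finsupp.single N 1, ?_, ?_, ?_⟩⟩
      · intro n
        rw [Finsupp.single_apply]
        split_ifs <;> norm_num
      · exact Finsupp.single_ne_zero.2 one_ne_zero
      · intro n hn
        rw [Finsupp.support_single_ne_zero _ one_ne_zero, Finset.mem_singleton] at hn
        exact hn.ge
    obtain ⟨c, hc, -, hn, hs⟩ := hall.exists h0 h1 hV 0 (δ := 1 / 2) (by norm_num)
    have : ‖comb φ c‖ ≤ 1 / 2 := by
      rw [ContinuousMap.norm_le _ (by norm_num)]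
      intro t
      rw [Real.norm_eq_abs, abs_of_nonneg (comb_nonneg h0 hc t)]
      exact hs t (Set.mem_univ t)
    rw [hn] at this
    norm_num at this
  -- Baire category
  haveI : CompactSpace L := isCompact_iff_compactSpace.1 hLc.isCompact
  haveI : Nonempty L := hLne.to_subtype
  let Q : ℕ → Set L := fun M => {t | ∀ J, ∑ n ∈ Finset.range J, φ n t.1 ≤ M}
  have hQc : ∀ M, IsClosed (Q M) := by
    intro M
    have : Q M = ⋂ J, {t : L | ∑ n ∈ Finset.range J, φ n t.1 ≤ M} := by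
      ext t
      rw [Set.mem_iInter]
      rfl
    rw [this]
    refine isClosed_iInter fun J => isClosed_le ?_ continuous_const
    exact continuous_finsetSum _ fun n _ => (φ n).continuous.comp continuous_subtype_val
  have hQu : ⋃ M, Q M = Set.univ := by
    rw [Set.eq_univ_iff_forall]
    intro t
    obtain ⟨M, hM⟩ := exists_nat_ge (∑' n, φ n t.1)
    refine Set.mem_iUnion.2 ⟨M, fun J => ?_⟩
    exact ((hsum t.1).sum_le_tsum _ fun n _ => h0 n t.1).trans hM
  obtain ⟨M, t0, ht0⟩ := nonempty_interior_of_iUnion_of_closed hQc hQu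
  obtain ⟨W, hW1, hW2, hW3⟩ := mem_interior.1 ht0
  obtain ⟨W', hW', rfl⟩ := isOpen_induced_iff.1 hW2
  obtain ⟨W₂, hW₂, htW, hW₂c⟩ : ∃ W₂ : Set K, IsOpen W₂ ∧ t0.1 ∈ W₂ ∧ closure W₂ ⊆ W' := by
    obtain ⟨V, hV1, hV2, hV3⟩ :=
      exists_mem_nhds_isClosed_subset (hW'.mem_nhds (show t0.1 ∈ W' from hW3))
    exact ⟨interior V, isOpen_interior, mem_interior_iff_mem_nhds.2 hV1,
      (hV2.closure_subset_iff.2 interior_subset).trans hV3⟩
  have hnull : Null φ (closure W₂) := by
    refine null_step h0 h1 hno isClosed_closure (L := L) (M := M) ?_ fun C _ hC hd => hcl C hC hd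
    rintro t ⟨ht1, ht2⟩ J
    exact hW1 (show (⟨t, ht2⟩ : L) ∈ Subtype.val ⁻¹' W' from hW₂c ht1) J
  exact t0.2 ⟨W₂, hW₂, htW, null_mono subset_closure hnull⟩

end

end Pool.Agent.R269.Elton
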