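import Pool.Agent.R269.RCLim
import Pool.Agent.H418R3.GurTower

/-!
# A family of pseudonorms on `c₀₀` indexed by a product of circles
-/

set_option autoImplicit false

open Filter Topology
open scoped InnerProductSpace

namespace Pool.Agent.R269.RC

open Pool.Agent.H418R3.Gur

/-- the Hilbert space -/
abbrev HH : Type := lp (fun _ : ℕ => ℝ) 2

/-- the basis of the Hilbert space -/
noncomputable def bb (m : ℕ) : HH := lp.single 2 m (1 : ℝ)

theorem bb_apply (m k : ℕ) : (bb m : ℕ → ℝ) k = if k = m then 1 else 0 := by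
  unfold bb
  rw [lp.single_apply]
  by_cases h : k = m
  · subst h; simp
  · rw [if_neg h, Pi.single_apply, if_neg h]

theorem norm_bb (m : ℕ) : ‖bb m‖ = 1 := by
  unfold bb
  rw [lp.norm_single (by norm_num)]
  simp

theorem inner_bb (m : ℕ) (z : HH) : ⟪bb m, z⟫_ℝ = z m := by
  unfold bb
  rw [lp.inner_single_left]
  simp

/-- the parameter space: a product of circles -/
abbrev PP1 : Type := {v : ℕ → Fin 2 → ℝ // ∀ k, |v k 0| + |v k 1| = 1}

/-- parity -/
def par (t : ℕ) : Fin 2 := if t % 2 = 0 then 0 else 1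

/-- the moving vectors -/
noncomputable def gv (v : PP1) (t : ℕ) : HH := v.1 (t / 2) (par t) • bb (t / 2 + 2)

theorem abs_v_le (v : PP1) (k : ℕ) (i : Fin 2) : |v.1 k i| ≤ 1 := by
  have h := v.2 k
  have h0 := abs_nonneg (v.1 k 0)
  have h1 := abs_nonneg (v.1 k 1)
  fin_cases i
  · change |v.1 k 0| ≤ 1; linarith
  · change |v.1 k 1| ≤ 1; linarith

theorem norm_gv_le (v : PP1) (t : ℕ) : ‖gv v t‖ ≤ 1 := by
  unfold gv
  rw [norm_smul, norm_bb, mul_one, Real.norm_eq_abs]
  exact abs_v_le v _ _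

theorem gv_apply (v : PP1) (t m : ℕ) :
    (gv v t : ℕ → ℝ) m = if m = t / 2 + 2 then v.1 (t / 2) (par t) else 0 := by
  unfold gv
  rw [lp.coeFn_smul, Pi.smul_apply, bb_apply, smul_eq_mul]
  split_ifs <;> simp

/-- the images of the basis vectors -/
noncomputable def col (v : PP1) : ℕ → HH
  | 0 => bb 0
  | 1 => bb 1
  | t + 2 => gv v t

/-- the slopes -/
noncomputable def ss (j : ℕ) : ℝ := 1 / (j + 1)

theorem ss_pos (j : ℕ) : 0 < ss j := by unfold ss; positivity

theorem ss_le (j : ℕ) : ss j ≤ 1 := by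
  unfold ss
  rw [div_le_one (by positivity)]
  linarith [Nat.cast_nonneg (α := ℝ) j]

theorem ss_inj {i j : ℕ} (h : ss i = ss j) : i = j := by
  unfold ss at h
  have hi : (0 : ℝ) < (i : ℝ) + 1 := by positivity
  have hj : (0 : ℝ) < (j : ℝ) + 1 := by positivity
  rw [div_eq_div_iff hi.ne' hj.ne', one_mul, one_mul] at h
  exact_mod_cast (add_right_cancel h).symm

/-- the moving part of the functionals -/
noncomputable def gam (v : PP1) : ℕ → HH
  | 0 => 0
  | t + 1 => gv v t

/-- the functionals -/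
noncomputable def ww : ℕ → PP1 → HH
  | 0, _ => bb 0
  | j + 1, v => bb 1 + ss j • bb 0 + gam v (j / 2)

theorem norm_gam_le (v : PP1) (t : ℕ) : ‖gam v t‖ ≤ 1 := by
  cases t with
  | zero => simp [gam]
  | succ t => exact norm_gv_le v t

theorem norm_ww_le (j : ℕ) (v : PP1) : ‖ww j v‖ ≤ 3 := by
  cases j with
  | zero =>
    change ‖bb 0‖ ≤ 3
    rw [norm_bb]; norm_num
  | succ j =>
    change ‖bb 1 + ss j • bb 0 + gam v (j / 2)‖ ≤ 3
    have h1 : ‖ss j • bb 0‖ ≤ 1 := by
      rw [norm_smul, norm_bb, mul_one, Real.norm_of_nonneg (ss_pos j).le]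
      exact ss_le j
    have h2 := norm_add_le (bb 1 + ss j • bb 0) (gam v (j / 2))
    have h3 := norm_add_le (bb 1) (ss j • bb 0)
    have h4 := norm_gam_le v (j / 2)
    have h5 := norm_bb 1
    linarith

/-- the map `c₀₀ → ℓ²` -/
noncomputable def JJ (v : PP1) : (ℕ →₀ ℝ) →ₗ[ℝ] HH := Finsupp.linearCombination ℝ (col v)

theorem JJ_single (v : PP1) (n : ℕ) : JJ v (Finsupp.single n 1) = col v n := by
  unfold JJ
  rw [Finsupp.linearCombination_single, one_smul]

/-- the value of the norm of `ℓ²` attached to `v` -/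
noncomputable def NNf (v : PP1) (z : HH) : ℝ := ‖z‖ + ∑' j, cw j * |⟪ww j v, z⟫_ℝ|

theorem abs_inner_le (j : ℕ) (v : PP1) (z : HH) : |⟪ww j v, z⟫_ℝ| ≤ 3 * ‖z‖ :=
  (abs_real_inner_le_norm _ _).trans (mul_le_mul_of_nonneg_right (norm_ww_le j v) (norm_nonneg _))

theorem summ_NN (v : PP1) (z : HH) : Summable fun j => cw j * |⟪ww j v, z⟫_ℝ| :=
  Summable.of_nonneg_of_le (fun j => mul_nonneg (cw_pos j).le (abs_nonneg _))
    (fun j => mul_le_mul_of_nonneg_left (abs_inner_le j v z) (cw_pos j).le)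
    (hasSum_cw.summable.mul_right _)

/-- the norm of `ℓ²` attached to `v` -/
noncomputable def NN (v : PP1) : Seminorm ℝ HH := Seminorm.of (NNf v)
  (fun x y => by
    unfold NNf
    have h1 := norm_add_le x y
    have h2 : ∑' j, cw j * |⟪ww j v, x + y⟫_ℝ| ≤
        ∑' j, cw j * |⟪ww j v, x⟫_ℝ| + ∑' j, cw j * |⟪ww j v, y⟫_ℝ| := by
      rw [← (summ_NN v x).tsum_add (summ_NN v y)]
      refine (summ_NN v (x + y)).tsum_le_tsum (fun j => ?_) ((summ_NN v x).add (summ_NN v y))
      rw [← mul_add, inner_add_right]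
      exact mul_le_mul_of_nonneg_left (abs_add_le _ _) (cw_pos j).le
    linarith)
  (fun a x => by
    unfold NNf
    rw [norm_smul, mul_add, ← tsum_mul_left]
    congr 1
    congr 1
    funext j
    rw [inner_smul_right, abs_mul, Real.norm_eq_abs]
    ring)

theorem NN_apply (v : PP1) (z : HH) : NN v z = ‖z‖ + ∑' j, cw j * |⟪ww j v, z⟫_ℝ| := rfl

theorem le_NN (v : PP1) (z : HH) : ‖z‖ ≤ NN v z := by
  rw [NN_apply]
  have : 0 ≤ ∑' j, cw j * |⟪ww j v, z⟫_ℝ| :=
    tsum_nonneg fun j => mul_nonneg (cw_pos j).le (abs_nonneg _)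
  linarith

theorem NN_le (v : PP1) (z : HH) : NN v z ≤ 6 / 5 * ‖z‖ := by
  rw [NN_apply]
  have h1 : ∑' j, cw j * |⟪ww j v, z⟫_ℝ| ≤ 1 / 15 * (3 * ‖z‖) := by
    refine hasSum_le (fun j => ?_) (summ_NN v z).hasSum (hasSum_cw.mul_right (3 * ‖z‖))
    exact mul_le_mul_of_nonneg_left (abs_inner_le j v z) (cw_pos j).le
  linarith

theorem continuous_NN (v : PP1) : Continuous fun z => NN v z := by
  refine (LipschitzWith.of_dist_le_mul (K := 2) fun x y => ?_).continuous
  rw [Real.dist_eq, dist_eq_norm]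
  have h1 := abs_sub_map_le_sub (NN v) x y
  have h2 := NN_le v (x - y)
  have h3 := norm_nonneg (x - y)
  have e : ((2 : NNReal) : ℝ) = 2 := rfl
  rw [e]
  linarith

/-- the pseudonorm on `c₀₀` attached to `v` -/
noncomputable def mu (v : PP1) : PN := (NN v).comp (JJ v)

theorem mu_apply (v : PP1) (x : ℕ →₀ ℝ) : mu v x = NN v (JJ v x) := rfl

/-- the sign change in the `k`-th factor -/
def flip (k : ℕ) (v : PP1) : PP1 := ⟨Function.update v.1 k (-(v.1 k)), fun i => by
  by_cases h : i = k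
  · subst h
    simp only [Function.update_self, Pi.neg_apply, abs_neg]
    exact v.2 i
  · rw [Function.update_of_ne h]
    exact v.2 i⟩

theorem flip_self (k : ℕ) (v : PP1) (i : Fin 2) : (flip k v).1 k i = - v.1 k i := by
  unfold flip
  simp

theorem flip_ne {k l : ℕ} (h : l ≠ k) (v : PP1) (i : Fin 2) : (flip k v).1 l i = v.1 l i := by
  unfold flip
  simp [Function.update_of_ne h]

/-- the signs -/
def sg (k m : ℕ) : ℝ := if m = k + 2 then -1 else 1

theorem sg_sq (k m : ℕ) : sg k m * sg k m = 1 := by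
  unfold sg; split_ifs <;> norm_num

theorem gv_flip (k : ℕ) (v : PP1) (t m : ℕ) :
    (gv (flip k v) t : ℕ → ℝ) m = sg k m * (gv v t : ℕ → ℝ) m := by
  rw [gv_apply, gv_apply]
  by_cases h : m = t / 2 + 2
  · rw [if_pos h, if_pos h]
    by_cases h2 : t / 2 = k
    · subst h2
      rw [flip_self]
      subst h
      simp [sg]
    · rw [flip_ne h2]
      have : ¬ m = k + 2 := by omega
      simp [sg, this]
  · rw [if_neg h, if_neg h, mul_zero]

theorem sg_zero (k : ℕ) : sg k 0 = 1 := by simp [sg]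

theorem sg_one (k : ℕ) : sg k 1 = 1 := by simp [sg]

theorem bb_sg (k m i : ℕ) (hi : i < 2) : (bb i : ℕ → ℝ) m = sg k m * (bb i : ℕ → ℝ) m := by
  rw [bb_apply]
  by_cases h : m = i
  · subst h
    have : ¬ m = k + 2 := by omega
    simp [sg, this]
  · rw [if_neg h, mul_zero]

theorem col_flip (k : ℕ) (v : PP1) (n m : ℕ) :
    (col (flip k v) n : ℕ → ℝ) m = sg k m * (col v n : ℕ → ℝ) m := by
  match n with
  | 0 => exact bb_sg k m 0 (by norm_num)
  | 1 => exact bb_sg k m 1 (by norm_num)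
  | t + 2 => exact gv_flip k v t m

theorem ww_flip (j k : ℕ) (v : PP1) (m : ℕ) :
    (ww j (flip k v) : ℕ → ℝ) m = sg k m * (ww j v : ℕ → ℝ) m := by
  match j with
  | 0 => exact bb_sg k m 0 (by norm_num)
  | j + 1 =>
    change ((bb 1 + ss j • bb 0 + gam (flip k v) (j / 2) : HH) : ℕ → ℝ) m =
      sg k m * ((bb 1 + ss j • bb 0 + gam v (j / 2) : HH) : ℕ → ℝ) m
    simp only [lp.coeFn_add, lp.coeFn_smul, Pi.add_apply, Pi.smul_apply, smul_eq_mul]
    have h1 := bb_sg k m 1 (by norm_num)
    have h0 := bb_sg k m 0 (by norm_num)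
    have hg : (gam (flip k v) (j / 2) : ℕ → ℝ) m = sg k m * (gam v (j / 2) : ℕ → ℝ) m := by
      cases j / 2 with
      | zero => simp [gam]
      | succ t => exact gv_flip k v t m
    rw [hg]
    nth_rewrite 1 [h1]
    nth_rewrite 1 [h0]
    ring

theorem JJ_coord (v : PP1) (x : ℕ →₀ ℝ) (m : ℕ) :
    (JJ v x : ℕ → ℝ) m = x.sum fun n c => c * (col v n : ℕ → ℝ) m := by
  unfold JJ
  rw [← inner_bb, Finsupp.linearCombination_apply, Finsupp.sum, inner_sum, Finsupp.sum]
  refine Finset.sum_congr rfl fun n _ => ?_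
  rw [inner_smul_right, inner_bb]

theorem JJ_flip (k : ℕ) (v : PP1) (x : ℕ →₀ ℝ) (m : ℕ) :
    (JJ (flip k v) x : ℕ → ℝ) m = sg k m * (JJ v x : ℕ → ℝ) m := by
  rw [JJ_coord, JJ_coord, Finsupp.mul_sum]
  refine Finset.sum_congr rfl fun n _ => ?_
  have h := col_flip k v n m
  simp only [h]
  ring

theorem inner_flip (k : ℕ) {y z y' z' : HH} (hy : ∀ m, (y' : ℕ → ℝ) m = sg k m * (y : ℕ → ℝ) m)
    (hz : ∀ m, (z' : ℕ → ℝ) m = sg k m * (z : ℕ → ℝ) m) : ⟪y', z'⟫_ℝ = ⟪y, z⟫_ℝ := by
  rw [lp.inner_eq_tsum, lp.inner_eq_tsum]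
  congr 1
  funext m
  rw [hy, hz]
  have := sg_sq k m
  simp only [RCLike.inner_apply, conj_trivial]
  linear_combination (z : ℕ → ℝ) m * (y : ℕ → ℝ) m * this

theorem mu_flip (k : ℕ) (v : PP1) : mu (flip k v) = mu v := by
  ext x
  rw [mu_apply, mu_apply, NN_apply, NN_apply]
  have h1 : ‖JJ (flip k v) x‖ = ‖JJ v x‖ := by
    rw [← sq_eq_sq₀ (norm_nonneg _) (norm_nonneg _), ← real_inner_self_eq_norm_sq,
      ← real_inner_self_eq_norm_sq]
    exact inner_flip k (JJ_flip k v x) (JJ_flip k v x)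
  rw [h1]
  congr 2
  funext j
  rw [inner_flip k (ww_flip j k v) (JJ_flip k v x)]

/-- the isometric embedding of the coded space -/
noncomputable def Jh (v : PP1) : XX (mu v) →L[ℝ] HH := lift (mu v) (JJ v)

theorem Jh_ic (v : PP1) (x : ℕ →₀ ℝ) : Jh v (ic (mu v) x) = JJ v x :=
  lift_ic (C := 1) (fun x => by rw [one_mul, mu_apply]; exact le_NN v _) x

theorem norm_XX (v : PP1) (y : XX (mu v)) : ‖y‖ = NN v (Jh v y) := by
  have hcl : IsClosed {y : XX (mu v) | ‖y‖ = NN v (Jh v y)} :=
    isClosed_eq continuous_norm ((continuous_NN v).comp (Jh v).continuous)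
  refine (dense_ic (mu v)).induction_on (p := fun y => ‖y‖ = NN v (Jh v y)) y hcl fun x => ?_
  rw [Jh_ic, norm_ic, mu_apply]

theorem eq_zero_of_col (v : PP1) (z : HH) (h : ∀ n, ⟪z, col v n⟫_ℝ = 0) : z = 0 := by
  have h0 : (z : ℕ → ℝ) 0 = 0 := by
    have := h 0
    rw [real_inner_comm] at this
    rwa [col, inner_bb] at this
  have h1 : (z : ℕ → ℝ) 1 = 0 := by
    have := h 1
    rw [real_inner_comm] at this
    rwa [col, inner_bb] at this
  have hk : ∀ k, (z : ℕ → ℝ) (k + 2) = 0 := by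
    intro k
    have e0 : par (2 * k) = 0 := by simp [par]
    have e1 : par (2 * k + 1) = 1 := by simp [par, Nat.add_mod]
    have d0 : (2 * k) / 2 = k := by omega
    have d1 : (2 * k + 1) / 2 = k := by omega
    have a0 := h (2 * k + 2)
    have a1 := h (2 * k + 1 + 2)
    rw [real_inner_comm] at a0 a1
    rw [col, gv, inner_smul_left, inner_bb, e0, d0, conj_trivial] at a0
    rw [col, gv, inner_smul_left, inner_bb, e1, d1, conj_trivial] at a1
    by_contra hne
    have b0 : v.1 k 0 = 0 := by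
      rcases mul_eq_zero.1 a0 with h | h
      · exact h
      · exact absurd h hne
    have b1 : v.1 k 1 = 0 := by
      rcases mul_eq_zero.1 a1 with h | h
      · exact h
      · exact absurd h hne
    have := v.2 k
    rw [b0, b1, abs_zero, add_zero] at this
    norm_num at this
  ext m
  match m with
  | 0 => rw [h0]; rfl
  | 1 => rw [h1]; rfl
  | k + 2 => rw [hk]; rfl

theorem eq_zero_of_Jh (v : PP1) (z : HH) (h : ∀ y, ⟪z, Jh v y⟫_ℝ = 0) : z = 0 := by
  refine eq_zero_of_col v z fun n => ?_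
  have := h (ic (mu v) (Finsupp.single n 1))
  rwa [Jh_ic, JJ_single] at this

theorem mu_mem (v : PP1) : mu v ∈ PInf := by
  intro hfin
  have : FiniteDimensional ℝ (XX (mu v)) := hfin
  set R : Submodule ℝ HH := LinearMap.range (Jh v).toLinearMap with hR
  have hRfin : FiniteDimensional ℝ R := inferInstance
  have hperp : Rᗮ = ⊥ := by
    rw [Submodule.eq_bot_iff]
    intro z hz
    refine eq_zero_of_Jh v z fun y => ?_
    rw [real_inner_comm]
    exact (Submodule.mem_orthogonal R z).1 hz _ ⟨y, rfl⟩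
  have htop : R = ⊤ := by
    have h1 := Submodule.orthogonal_orthogonal R
    rw [hperp, Submodule.bot_orthogonal_eq_top] at h1
    exact h1.symm
  rw [htop] at hRfin
  have hHfin : FiniteDimensional ℝ HH := Module.Finite.equiv (Submodule.topEquiv (R := ℝ) (M := HH))
  have hli : LinearIndependent ℝ bb := by
    rw [linearIndependent_iff']
    intro s g hg i hi
    have h1 : ⟪bb i, ∑ j ∈ s, g j • bb j⟫_ℝ = 0 := by rw [hg, inner_zero_right]
    rw [inner_sum, Finset.sum_eq_single i] at h1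
    · rw [inner_smul_right, inner_bb, bb_apply, if_pos rfl, mul_one] at h1
      exact h1
    · intro j _ hj
      rw [inner_smul_right, inner_bb, bb_apply, if_neg (Ne.symm hj), mul_zero]
    · intro h
      exact absurd hi h
  have h1 := hli.finrank_eq_zero_of_infinite
  have hsub : Subsingleton HH := Module.finrank_zero_iff.1 h1
  have h2 : bb 0 = 0 := Subsingleton.elim _ _
  have h3 := norm_bb 0
  rw [h2, norm_zero] at h3
  norm_num at h3

theorem continuous_coord (k : ℕ) (i : Fin 2) : Continuous fun v : PP1 => v.1 k i :=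
  (continuous_apply i).comp ((continuous_apply k).comp continuous_subtype_val)

theorem continuous_gv (t : ℕ) : Continuous fun v : PP1 => gv v t := by
  unfold gv
  exact (continuous_coord _ _).smul continuous_const

theorem continuous_col (n : ℕ) : Continuous fun v : PP1 => col v n := by
  match n with
  | 0 => exact continuous_const
  | 1 => exact continuous_const
  | t + 2 => exact continuous_gv t

theorem continuous_ww (j : ℕ) : Continuous fun v : PP1 => ww j v := by
  match j with
  | 0 => exact continuous_const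
  | j + 1 =>
    refine continuous_const.add ?_
    cases j / 2 with
    | zero => exact continuous_const
    | succ t => exact continuous_gv t

theorem norm_col_le (v : PP1) (n : ℕ) : ‖col v n‖ ≤ 1 := by
  match n with
  | 0 => exact (norm_bb 0).le
  | 1 => exact (norm_bb 1).le
  | t + 2 => exact norm_gv_le v t

theorem continuous_JJ (x : ℕ →₀ ℝ) : Continuous fun v : PP1 => JJ v x := by
  unfold JJ
  simp only [Finsupp.linearCombination_apply, Finsupp.sum]
  exact continuous_finsetSum _ fun n _ => (continuous_col n).const_smul (x n)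

theorem norm_JJ_le (v : PP1) (x : ℕ →₀ ℝ) : ‖JJ v x‖ ≤ ∑ n ∈ x.support, |x n| := by
  unfold JJ
  rw [Finsupp.linearCombination_apply, Finsupp.sum]
  refine norm_sum_le_of_le _ fun n _ => ?_
  rw [norm_smul, Real.norm_eq_abs]
  exact mul_le_of_le_one_right (abs_nonneg _) (norm_col_le v n)

theorem continuous_mu_apply (x : ℕ →₀ ℝ) : Continuous fun v : PP1 => mu v x := by
  simp only [mu_apply, NN_apply]
  refine (continuous_JJ x).norm.add ?_
  refine continuous_tsum (u := fun j => cw j * (3 * ∑ n ∈ x.support, |x n|))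
    (fun j => continuous_const.mul (((continuous_ww j).inner (continuous_JJ x)).abs))
    (hasSum_cw.summable.mul_right _) fun j v => ?_
  rw [Real.norm_eq_abs, abs_mul, abs_of_pos (cw_pos j), abs_abs]
  refine mul_le_mul_of_nonneg_left ?_ (cw_pos j).le
  have h1 := abs_inner_le j v (JJ v x)
  have h2 := norm_JJ_le v x
  linarith

theorem continuous_mu : Continuous mu := by
  rw [continuous_induced_rng]
  exact continuous_pi fun x => continuous_mu_apply (rat x)

end Pool.Agent.R269.RC
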