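import Pool.Agent.R269.RCFam

/-!
# A continuous recoding by norms, restricted to the family
-/

set_option autoImplicit false

open Filter Topology
open scoped InnerProductSpace

namespace Pool.Agent.R269.RC

open Pool.Agent.H418R3.Gur

theorem seminorm_le_sum (p : Seminorm ℝ (ℕ →₀ ℝ)) (s : Finset ℕ) (y : ℕ →₀ ℝ)
    (hy : y.support ⊆ s) : p y ≤ ∑ n ∈ s, |y n| * p (Finsupp.single n 1) := by
  have e : y = ∑ n ∈ s, y n • Finsupp.single n (1 : ℝ) := by
    conv_lhs => rw [← Finsupp.sum_single y]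
    rw [Finsupp.sum_of_support_subset y hy _ (by simp)]
    refine Finset.sum_congr rfl fun n _ => ?_
    rw [Finsupp.smul_single, smul_eq_mul, mul_one]
  conv_lhs => rw [e]
  refine (Finset.le_sum_of_subadditive p (map_zero p).le (map_add_le_add p) s _).trans ?_
  refine Finset.sum_le_sum fun n _ => ?_
  rw [map_smul_eq_mul, Real.norm_eq_abs]

theorem rat_single (n : ℕ) : rat (Finsupp.single n 1) = Finsupp.single n 1 := by
  unfold rat
  rw [Finsupp.mapRange_single]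
  simp

/-- convergence on rational vectors implies convergence on real vectors -/
theorem tendsto_real {P : Type*} (N : P → PN) (F : Filter P) (v0 : P)
    (h : ∀ x : ℕ →₀ ℚ, Tendsto (fun v => N v (rat x)) F (𝓝 (N v0 (rat x)))) (a : ℕ →₀ ℝ) :
    Tendsto (fun v => N v a) F (𝓝 (N v0 a)) := by
  rw [Metric.tendsto_nhds]
  intro ε hε
  set S : P → ℝ := fun v => ∑ n ∈ a.support, N v (Finsupp.single n 1) with hS
  have hSt : Tendsto S F (𝓝 (S v0)) := by
    refine tendsto_finsetSum _ fun n _ => ?_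
    have := h (Finsupp.single n 1)
    rwa [rat_single] at this
  have hS0 : 0 ≤ S v0 := Finset.sum_nonneg fun n _ => apply_nonneg _ _
  set η : ℝ := ε / (4 * (S v0 + 1)) with hη
  have hηpos : 0 < η := by positivity
  have hex : ∀ r : ℝ, ∃ q : ℚ, (r = 0 → q = 0) ∧ |r - q| ≤ η := by
    intro r
    by_cases hr : r = 0
    · exact ⟨0, fun _ => rfl, by rw [hr]; simpa using hηpos.le⟩
    · obtain ⟨q, hq1, hq2⟩ := exists_rat_btwn (show r - η < r by linarith)
      refine ⟨q, fun h => absurd h hr, ?_⟩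
      rw [abs_le]
      constructor <;> linarith
  choose f hf0 hf using hex
  set x : ℕ →₀ ℚ := a.mapRange f (hf0 0 rfl) with hx
  have hdiff : ∀ v, N v (a - rat x) ≤ η * S v := by
    intro v
    have hsub : (a - rat x).support ⊆ a.support := by
      intro n hn
      rw [Finsupp.mem_support_iff] at hn ⊢
      intro h0
      apply hn
      simp [rat, hx, h0, hf0 0 rfl]
    refine (seminorm_le_sum (N v) a.support _ hsub).trans ?_
    rw [hS, Finset.mul_sum]
    refine Finset.sum_le_sum fun n _ => ?_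
    refine mul_le_mul_of_nonneg_right ?_ (apply_nonneg _ _)
    have : (a - rat x) n = a n - ((f (a n) : ℚ) : ℝ) := by simp [rat, hx]
    rw [this]
    exact hf _
  have hev1 : ∀ᶠ v in F, S v < S v0 + 1 := hSt.eventually_lt_const (lt_add_one _)
  have hev2 : ∀ᶠ v in F, |N v (rat x) - N v0 (rat x)| < ε / 4 := by
    have := (Metric.tendsto_nhds.1 (h x)) (ε / 4) (by positivity)
    exact this
  filter_upwards [hev1, hev2] with v hv1 hv2
  rw [Real.dist_eq]
  have b1 := (abs_sub_map_le_sub (N v) a (rat x)).trans (hdiff v)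
  have b2 := (abs_sub_map_le_sub (N v0) a (rat x)).trans (hdiff v0)
  have b3 : η * S v ≤ ε / 4 := by
    have : η * S v ≤ η * (S v0 + 1) := mul_le_mul_of_nonneg_left hv1.le hηpos.le
    have e : η * (S v0 + 1) = ε / 4 := by rw [hη]; field_simp
    linarith
  have b4 : η * S v0 ≤ ε / 4 := by
    have : η * S v0 ≤ η * (S v0 + 1) := mul_le_mul_of_nonneg_left (by linarith) hηpos.le
    have e : η * (S v0 + 1) = ε / 4 := by rw [hη]; field_simp
    linarith
  have b5 : N v a - N v0 a = (N v a - N v (rat x)) + (N v (rat x) - N v0 (rat x))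
      - (N v0 a - N v0 (rat x)) := by ring
  rw [b5]
  have b6 := abs_sub (N v a - N v (rat x) + (N v (rat x) - N v0 (rat x))) (N v0 a - N v0 (rat x))
  have b7 := abs_add_le (N v a - N v (rat x)) (N v (rat x) - N v0 (rat x))
  linarith

/-- a flip-invariant continuous recoding of the family by norms -/
structure Rec where
  N : PP1 → PN
  cont : ∀ x : ℕ →₀ ℚ, Continuous fun v => N v (rat x)
  norm : ∀ v x, N v x = 0 → x = 0
  flp : ∀ k v, N (flip k v) = N v
  iso : ∀ v, XX (N v) ≃ₗᵢ[ℝ] XX (mu v)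

namespace Rec

variable (R : Rec)

/-- the isometry on `c₀₀` -/
noncomputable def T (v : PP1) : (ℕ →₀ ℝ) →ₗ[ℝ] HH :=
  (Jh v).toLinearMap ∘ₗ (R.iso v).toLinearEquiv.toLinearMap ∘ₗ ic (R.N v)

theorem T_apply (v : PP1) (a : ℕ →₀ ℝ) : R.T v a = Jh v (R.iso v (ic (R.N v) a)) := rfl

theorem hN_eq (v : PP1) (a : ℕ →₀ ℝ) : hN R.T ww v a = R.N v a := by
  have h1 : hN R.T ww v a = NN v (R.T v a) := rfl
  rw [h1, T_apply, ← norm_XX, LinearIsometryEquiv.norm_map, norm_ic]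

theorem inj (v : PP1) (a : ℕ →₀ ℝ) (h : R.T v a = 0) : a = 0 := by
  apply R.norm v
  rw [← norm_ic, ← (R.iso v).norm_map, norm_XX, ← T_apply, h, map_zero]

theorem dense (v : PP1) (z : HH) (h : ∀ a, ⟪z, R.T v a⟫_ℝ = 0) : z = 0 := by
  refine eq_zero_of_Jh v z fun y => ?_
  have hcl : IsClosed {y : XX (R.N v) | ⟪z, Jh v (R.iso v y)⟫_ℝ = 0} :=
    isClosed_eq (continuous_const.inner ((Jh v).continuous.comp (R.iso v).continuous))
      continuous_const
  have h1 : ∀ y : XX (R.N v), ⟪z, Jh v (R.iso v y)⟫_ℝ = 0 := fun y =>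
    (dense_ic (R.N v)).induction_on (p := fun y => ⟪z, Jh v (R.iso v y)⟫_ℝ = 0) y hcl
      fun a => h a
  have h2 := h1 ((R.iso v).symm y)
  rwa [LinearIsometryEquiv.apply_symm_apply] at h2

end Rec

theorem gam_coord (v : PP1) (t m : ℕ) (hm : m < 2) : (gam v t : ℕ → ℝ) m = 0 := by
  cases t with
  | zero => simp [gam]
  | succ t =>
    change (gv v t : ℕ → ℝ) m = 0
    rw [gv_apply, if_neg (by omega)]

theorem ww_zero_coord (v : PP1) (m : ℕ) : (ww 0 v : ℕ → ℝ) m = if m = 0 then 1 else 0 :=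
  bb_apply 0 m

theorem ww_succ_zero (j : ℕ) (v : PP1) : (ww (j + 1) v : ℕ → ℝ) 0 = ss j := by
  change ((bb 1 + ss j • bb 0 + gam v (j / 2) : HH) : ℕ → ℝ) 0 = ss j
  simp only [lp.coeFn_add, lp.coeFn_smul, Pi.add_apply, Pi.smul_apply, smul_eq_mul]
  rw [gam_coord v _ 0 (by norm_num), bb_apply, bb_apply]
  simp

theorem ww_succ_one (j : ℕ) (v : PP1) : (ww (j + 1) v : ℕ → ℝ) 1 = 1 := by
  change ((bb 1 + ss j • bb 0 + gam v (j / 2) : HH) : ℕ → ℝ) 1 = 1
  simp only [lp.coeFn_add, lp.coeFn_smul, Pi.add_apply, Pi.smul_apply, smul_eq_mul]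
  rw [gam_coord v _ 1 (by norm_num), bb_apply, bb_apply]
  simp

theorem ww_indep (v : PP1) (m j : ℕ) (hmj : m ≠ j) (c : ℝ) : ww j v ≠ c • ww m v := by
  intro h
  have hc : ∀ i, (ww j v : ℕ → ℝ) i = c * (ww m v : ℕ → ℝ) i := by
    intro i
    rw [h]
    rfl
  match m, j, hmj with
  | 0, 0, hmj => exact hmj rfl
  | 0, j + 1, _ =>
    have h1 := hc 1
    rw [ww_succ_one, ww_zero_coord] at h1
    norm_num at h1
  | m + 1, 0, _ =>
    have h1 := hc 1
    have h0 := hc 0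
    rw [ww_succ_one, ww_zero_coord] at h1
    rw [ww_succ_zero, ww_zero_coord] at h0
    norm_num at h1 h0
    rw [← h1, zero_mul] at h0
    norm_num at h0
  | m + 1, j + 1, hmj =>
    have h1 := hc 1
    have h0 := hc 0
    rw [ww_succ_one, ww_succ_one, mul_one] at h1
    rw [ww_succ_zero, ww_succ_zero, ← h1, one_mul] at h0
    exact hmj (by rw [ss_inj h0])

theorem one_le_norm_ww (j : ℕ) (v : PP1) : 1 ≤ ‖ww j v‖ := by
  cases j with
  | zero =>
    change 1 ≤ ‖bb 0‖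
    rw [norm_bb]
  | succ j =>
    have h := abs_real_inner_le_norm (bb 1) (ww (j + 1) v)
    rw [inner_bb, ww_succ_one, norm_bb, abs_one, one_mul] at h
    exact h

namespace Rec

variable (R : Rec)

theorem hind (v : PP1) (m j : ℕ) (hmj : m ≠ j) :
    ∃ z, psi R.T ww v m z = 0 ∧ psi R.T ww v j z ≠ 0 := by
  by_contra hcon
  push Not at hcon
  by_cases h0 : ∀ x, psi R.T ww v m x = 0
  · have h1 : ww m v = 0 := R.dense v _ fun a => h0 a
    have h2 := one_le_norm_ww m v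
    rw [h1, norm_zero] at h2
    norm_num at h2
  · push Not at h0
    obtain ⟨x0, hx0⟩ := h0
    set c : ℝ := psi R.T ww v j x0 / psi R.T ww v m x0 with hc
    have h1 : ww j v - c • ww m v = 0 := by
      refine R.dense v _ fun a => ?_
      rw [inner_sub_left, inner_smul_left, conj_trivial, ← psi_apply, ← psi_apply]
      have h2 := hcon (a - (psi R.T ww v m a / psi R.T ww v m x0) • x0) (by
        rw [map_sub, map_smul, smul_eq_mul, div_mul_cancel₀ _ hx0, sub_self])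
      rw [map_sub, map_smul, smul_eq_mul] at h2
      rw [hc]
      rw [← h2]
      field_simp
    exact ww_indep v m j hmj c (sub_eq_zero.1 h1)

theorem hw (v : PP1) (m : ℕ) :
    ∃ x, 0 < |psi R.T ww v m x| ∧ hN R.T ww v x ≤ 2 * |psi R.T ww v m x| := by
  have htop : (LinearMap.range (R.T v)).topologicalClosure = ⊤ := by
    rw [Submodule.topologicalClosure_eq_top_iff, Submodule.eq_bot_iff]
    intro z hz
    refine R.dense v z fun a => ?_
    rw [real_inner_comm]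
    exact (Submodule.mem_orthogonal _ z).1 hz _ ⟨a, rfl⟩
  have hmem : ww m v ∈ closure (LinearMap.range (R.T v) : Set HH) := by
    rw [← Submodule.topologicalClosure_coe, htop]
    trivial
  obtain ⟨z, ⟨x, rfl⟩, hz⟩ := Metric.mem_closure_iff.1 hmem (1 / 4) (by norm_num)
  rw [dist_eq_norm] at hz
  have hw1 := one_le_norm_ww m v
  have hwn := norm_ww_le m v
  have h1 : psi R.T ww v m x = ‖ww m v‖ ^ 2 - ⟪ww m v, ww m v - R.T v x⟫_ℝ := by
    rw [psi_apply, inner_sub_right, real_inner_self_eq_norm_sq]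
    ring
  have h2 := abs_real_inner_le_norm (ww m v) (ww m v - R.T v x)
  have h3 : ‖ww m v‖ * ‖ww m v - R.T v x‖ ≤ ‖ww m v‖ * (1 / 4) :=
    mul_le_mul_of_nonneg_left hz.le (norm_nonneg _)
  have h4 := (abs_le.1 h2).2
  have h5 : 3 / 4 * ‖ww m v‖ ≤ psi R.T ww v m x := by nlinarith
  have h6 : ‖R.T v x‖ ≤ ‖ww m v‖ + 1 / 4 := by
    have := norm_sub_norm_le (R.T v x) (ww m v)
    rw [norm_sub_rev] at hz
    linarith
  have h7 := hN_le (T := R.T) norm_ww_le v x
  have h8 : 0 < psi R.T ww v m x := by linarith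
  refine ⟨x, ?_⟩
  rw [abs_of_pos h8]
  exact ⟨h8, by linarith⟩

theorem lim (F : Filter PP1) (v0 : PP1)
    (hF : ∀ a, Tendsto (fun v => R.N v a) F (𝓝 (R.N v0 a))) (j : ℕ) (a : ℕ →₀ ℝ) :
    Tendsto (fun v => |psi R.T ww v j a|) F (𝓝 |psi R.T ww v0 j a|) := by
  refine limit_lemma R.T ww norm_ww_le v0 (R.inj v0) (R.hind v0) (R.hw v0) F (fun a => ?_) j a
  simp only [hN_eq]
  exact hF a

/-- the squares of the functionals -/
noncomputable def Ps (j : ℕ) (v : PP1) (a : ℕ →₀ ℝ) : ℝ := psi R.T ww v j a ^ 2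

theorem continuous_Ps (j : ℕ) (a : ℕ →₀ ℝ) : Continuous fun v => R.Ps j v a := by
  rw [continuous_iff_continuousAt]
  intro v0
  have h := (R.lim (𝓝 v0) v0 (tendsto_real R.N (𝓝 v0) v0 fun x => (R.cont x).tendsto v0) j a).pow 2
  simp only [sq_abs] at h
  exact h

theorem Ps_flip (k j : ℕ) (v : PP1) (a : ℕ →₀ ℝ) : R.Ps j (flip k v) a = R.Ps j v a := by
  have h := R.lim (pure (flip k v)) v (fun a => by
    have : R.N v a = R.N (flip k v) a := by rw [R.flp]
    rw [this]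
    exact tendsto_pure_nhds _ _) j a
  have h2 := tendsto_nhds_unique (tendsto_pure_nhds _ _) h
  unfold Ps
  rw [← sq_abs, h2, sq_abs]

/-- the coordinates of `T v a` -/
noncomputable def y (v : PP1) (a : ℕ →₀ ℝ) (m : ℕ) : ℝ := (R.T v a : ℕ → ℝ) m

theorem y_add (v : PP1) (a b : ℕ →₀ ℝ) (m : ℕ) : R.y v (a + b) m = R.y v a m + R.y v b m := by
  unfold y
  rw [map_add]
  rfl

/-- the coordinate functionals with a moving part -/
noncomputable def Lf (t : ℕ) (v : PP1) (a : ℕ →₀ ℝ) : ℝ := R.y v a 1 + ⟪gam v t, R.T v a⟫_ℝ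

theorem Lf_add (t : ℕ) (v : PP1) (a b : ℕ →₀ ℝ) :
    R.Lf t v (a + b) = R.Lf t v a + R.Lf t v b := by
  unfold Lf
  rw [y_add, map_add, inner_add_right]
  ring

theorem psi_zero (v : PP1) (a : ℕ →₀ ℝ) : psi R.T ww v 0 a = R.y v a 0 := by
  rw [psi_apply]
  exact inner_bb 0 _

theorem psi_succ (j : ℕ) (v : PP1) (a : ℕ →₀ ℝ) :
    psi R.T ww v (j + 1) a = R.Lf (j / 2) v a + ss j * R.y v a 0 := by
  rw [psi_apply]
  change ⟪bb 1 + ss j • bb 0 + gam v (j / 2), R.T v a⟫_ℝ = _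
  rw [inner_add_left, inner_add_left, inner_smul_left, inner_bb, inner_bb, conj_trivial]
  unfold Lf y
  ring

/-- the quadratic forms `L t * y 0` -/
theorem Lam_eq (t : ℕ) (v : PP1) (a : ℕ →₀ ℝ) :
    R.Lf t v a * R.y v a 0 = (R.Ps (2 * t + 1) v a - R.Ps (2 * t + 2) v a
      - (ss (2 * t) ^ 2 - ss (2 * t + 1) ^ 2) * R.Ps 0 v a) / (2 * (ss (2 * t) - ss (2 * t + 1))) := by
  have hne : ss (2 * t) - ss (2 * t + 1) ≠ 0 := by
    intro h
    have := ss_inj (sub_eq_zero.1 h)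
    omega
  unfold Ps
  rw [psi_zero, psi_succ, show 2 * t + 2 = (2 * t + 1) + 1 from rfl, psi_succ]
  have d0 : (2 * t) / 2 = t := by omega
  have d1 : (2 * t + 1) / 2 = t := by omega
  rw [d0, d1]
  field_simp
  ring

theorem continuous_Lam (t : ℕ) (a : ℕ →₀ ℝ) : Continuous fun v => R.Lf t v a * R.y v a 0 := by
  simp only [Lam_eq]
  exact (((R.continuous_Ps _ a).sub (R.continuous_Ps _ a)).sub
    (continuous_const.mul (R.continuous_Ps _ a))).div_const _

theorem Lam_flip (k t : ℕ) (v : PP1) (a : ℕ →₀ ℝ) :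
    R.Lf t (flip k v) a * R.y (flip k v) a 0 = R.Lf t v a * R.y v a 0 := by
  simp only [Lam_eq, Ps_flip]

theorem Ps_zero (v : PP1) (a : ℕ →₀ ℝ) : R.Ps 0 v a = R.y v a 0 ^ 2 := by
  unfold Ps
  rw [psi_zero]

theorem continuous_y0 (a b : ℕ →₀ ℝ) : Continuous fun v => R.y v a 0 * R.y v b 0 := by
  have e : (fun v => R.y v a 0 * R.y v b 0) =
      fun v => (R.Ps 0 v (a + b) - R.Ps 0 v a - R.Ps 0 v b) / 2 := by
    funext v
    rw [Ps_zero, Ps_zero, Ps_zero, y_add]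
    ring
  rw [e]
  exact (((R.continuous_Ps _ _).sub (R.continuous_Ps _ _)).sub (R.continuous_Ps _ _)).div_const _

theorem y0_flip (k : ℕ) (v : PP1) (a b : ℕ →₀ ℝ) :
    R.y (flip k v) a 0 * R.y (flip k v) b 0 = R.y v a 0 * R.y v b 0 := by
  have e : ∀ v, R.y v a 0 * R.y v b 0 = (R.Ps 0 v (a + b) - R.Ps 0 v a - R.Ps 0 v b) / 2 := by
    intro v
    rw [Ps_zero, Ps_zero, Ps_zero, y_add]
    ring
  rw [e, e, Ps_flip, Ps_flip, Ps_flip]

/-- the product of `L t` at `a` and `y 0` at `a0` -/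
theorem M_eq (t : ℕ) (v : PP1) (a a0 : ℕ →₀ ℝ) (h0 : R.y v a0 0 ≠ 0) :
    R.Lf t v a * R.y v a0 0 = ((R.Lf t v (a + a0) * R.y v (a + a0) 0 - R.Lf t v a * R.y v a 0
      - R.Lf t v a0 * R.y v a0 0) * (R.y v a0 0 * R.y v a0 0)
      - R.Lf t v a0 * R.y v a0 0 * (R.y v a 0 * R.y v a0 0)) / (R.y v a0 0 * R.y v a0 0) := by
  rw [Lf_add, y_add]
  field_simp
  ring

theorem continuousAt_M (t : ℕ) (v : PP1) (a a0 : ℕ →₀ ℝ) (h0 : R.y v a0 0 ≠ 0) :
    ContinuousAt (fun v => R.Lf t v a * R.y v a0 0) v := by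
  have hopen : IsOpen {v : PP1 | R.y v a0 0 * R.y v a0 0 ≠ 0} :=
    isOpen_ne_fun (R.continuous_y0 a0 a0) continuous_const
  have hev : ∀ᶠ u in 𝓝 v, R.y u a0 0 * R.y u a0 0 ≠ 0 := hopen.mem_nhds (mul_ne_zero h0 h0)
  have hc : ContinuousAt (fun v => ((R.Lf t v (a + a0) * R.y v (a + a0) 0 - R.Lf t v a * R.y v a 0
      - R.Lf t v a0 * R.y v a0 0) * (R.y v a0 0 * R.y v a0 0)
      - R.Lf t v a0 * R.y v a0 0 * (R.y v a 0 * R.y v a0 0)) / (R.y v a0 0 * R.y v a0 0)) v := by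
    refine ContinuousAt.div ?_ (R.continuous_y0 a0 a0).continuousAt (mul_ne_zero h0 h0)
    exact ((((((R.continuous_Lam t (a + a0)).sub (R.continuous_Lam t a)).sub
      (R.continuous_Lam t a0)).mul (R.continuous_y0 a0 a0)).sub
      ((R.continuous_Lam t a0).mul (R.continuous_y0 a a0)))).continuousAt
  refine hc.congr ?_
  filter_upwards [hev] with u hu
  exact (R.M_eq t u a a0 (left_ne_zero_of_mul hu)).symm

theorem y_ne_flip (k : ℕ) (v : PP1) (a0 : ℕ →₀ ℝ) (h0 : R.y v a0 0 ≠ 0) :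
    R.y (flip k v) a0 0 ≠ 0 := by
  have h := R.y0_flip k v a0 a0
  intro h1
  rw [h1, mul_zero] at h
  exact mul_ne_zero h0 h0 h.symm

theorem M_flip (k t : ℕ) (v : PP1) (a a0 : ℕ →₀ ℝ) (h0 : R.y v a0 0 ≠ 0) :
    R.Lf t (flip k v) a * R.y (flip k v) a0 0 = R.Lf t v a * R.y v a0 0 := by
  rw [R.M_eq t v a a0 h0, R.M_eq t (flip k v) a a0 (R.y_ne_flip k v a0 h0)]
  simp only [Lam_flip, y0_flip]

/-- the product of the `m`-th coordinate at `a` and `y 0` at `a0` -/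
noncomputable def Q (m : ℕ) (a0 : ℕ →₀ ℝ) (v : PP1) (a : ℕ →₀ ℝ) : ℝ := R.y v a m * R.y v a0 0

theorem Lf_zero (v : PP1) (a : ℕ →₀ ℝ) : R.Lf 0 v a = R.y v a 1 := by
  unfold Lf gam
  rw [inner_zero_left, add_zero]

theorem Lf_odd (k : ℕ) (v : PP1) (a : ℕ →₀ ℝ) :
    R.Lf (2 * k + 1) v a = R.y v a 1 + v.1 k 0 * R.y v a (k + 2) := by
  unfold Lf
  change _ + ⟪gv v (2 * k), R.T v a⟫_ℝ = _
  have e0 : par (2 * k) = 0 := by simp [par]
  have d0 : (2 * k) / 2 = k := by omega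
  rw [gv, inner_smul_left, inner_bb, e0, d0, conj_trivial]
  rfl

theorem Lf_even (k : ℕ) (v : PP1) (a : ℕ →₀ ℝ) :
    R.Lf (2 * k + 2) v a = R.y v a 1 + v.1 k 1 * R.y v a (k + 2) := by
  unfold Lf
  change _ + ⟪gv v (2 * k + 1), R.T v a⟫_ℝ = _
  have e1 : par (2 * k + 1) = 1 := by simp [par, Nat.add_mod]
  have d1 : (2 * k + 1) / 2 = k := by omega
  rw [gv, inner_smul_left, inner_bb, e1, d1, conj_trivial]
  rfl

theorem sq_pos_v (v : PP1) (k : ℕ) : 0 < v.1 k 0 ^ 2 + v.1 k 1 ^ 2 := by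
  have h := v.2 k
  by_contra hcon
  have h0 : v.1 k 0 = 0 := by nlinarith [sq_nonneg (v.1 k 0), sq_nonneg (v.1 k 1)]
  have h1 : v.1 k 1 = 0 := by nlinarith [sq_nonneg (v.1 k 0), sq_nonneg (v.1 k 1)]
  rw [h0, h1, abs_zero, add_zero] at h
  norm_num at h

theorem Q_succ (k : ℕ) (a0 : ℕ →₀ ℝ) (v : PP1) (a : ℕ →₀ ℝ) :
    R.Q (k + 2) a0 v a = (v.1 k 0 * (R.Lf (2 * k + 1) v a * R.y v a0 0
      - R.Lf 0 v a * R.y v a0 0) + v.1 k 1 * (R.Lf (2 * k + 2) v a * R.y v a0 0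
      - R.Lf 0 v a * R.y v a0 0)) / (v.1 k 0 ^ 2 + v.1 k 1 ^ 2) := by
  have h := (sq_pos_v v k).ne'
  rw [eq_div_iff h, Lf_zero, Lf_odd, Lf_even]
  unfold Q
  ring

theorem continuousAt_Q (m : ℕ) (a0 : ℕ →₀ ℝ) (v : PP1) (a : ℕ →₀ ℝ) (h0 : R.y v a0 0 ≠ 0) :
    ContinuousAt (fun v => R.Q m a0 v a) v := by
  match m with
  | 0 => exact (R.continuous_y0 a a0).continuousAt
  | 1 =>
    have := R.continuousAt_M 0 v a a0 h0
    simp only [Lf_zero] at this
    exact this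
  | k + 2 =>
    simp only [Q_succ]
    refine ContinuousAt.div ?_ ?_ (sq_pos_v v k).ne'
    · exact ((continuous_coord k 0).continuousAt.mul ((R.continuousAt_M _ v a a0 h0).sub
        (R.continuousAt_M _ v a a0 h0))).add ((continuous_coord k 1).continuousAt.mul
        ((R.continuousAt_M _ v a a0 h0).sub (R.continuousAt_M _ v a a0 h0)))
    · exact (((continuous_coord k 0).pow 2).add ((continuous_coord k 1).pow 2)).continuousAt

theorem Q_flip (k m : ℕ) (a0 : ℕ →₀ ℝ) (v : PP1) (a : ℕ →₀ ℝ) (h0 : R.y v a0 0 ≠ 0) :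
    R.Q m a0 (flip k v) a = sg k m * R.Q m a0 v a := by
  match m with
  | 0 =>
    rw [sg_zero, one_mul]
    exact R.y0_flip k v a a0
  | 1 =>
    rw [sg_one, one_mul]
    have := R.M_flip k 0 v a a0 h0
    simp only [Lf_zero] at this
    exact this
  | l + 2 =>
    rw [Q_succ, Q_succ, M_flip _ _ _ _ _ _ h0, M_flip _ _ _ _ _ _ h0, M_flip _ _ _ _ _ _ h0]
    by_cases h : l = k
    · subst h
      rw [flip_self, flip_self]
      have : sg l (l + 2) = -1 := by simp [sg]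
      rw [this]
      ring
    · rw [flip_ne h, flip_ne h]
      have : sg k (l + 2) = 1 := by
        simp [sg, h]
      rw [this]
      ring

end Rec

end Pool.Agent.R269.RC
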