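import Pool.Agent.R269.RCUniq

/-!
# The functionals of the decomposition depend continuously on the norm
-/

set_option autoImplicit false

open Filter Topology
open scoped InnerProductSpace

namespace Pool.Agent.R269.RC

section
variable {E : Type*} [AddCommGroup E] [Module ℝ E]
variable {P : Type*} {H : Type*} [NormedAddCommGroup H] [InnerProductSpace ℝ H]

/-- the functional `⟪w j v, T v ·⟫` -/
noncomputable def psi (T : P → E →ₗ[ℝ] H) (w : ℕ → P → H) (v : P) (j : ℕ) : E →ₗ[ℝ] ℝ :=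
  (innerSL ℝ (w j v)).toLinearMap ∘ₗ T v

theorem psi_apply (T : P → E →ₗ[ℝ] H) (w : ℕ → P → H) (v : P) (j : ℕ) (a : E) :
    psi T w v j a = ⟪w j v, T v a⟫_ℝ := rfl

/-- the norm attached to `v` -/
noncomputable def hN (T : P → E →ₗ[ℝ] H) (w : ℕ → P → H) (v : P) (a : E) : ℝ :=
  hh (fun a => ‖T v a‖) (psi T w v) a

theorem quad_T {S : E →ₗ[ℝ] H} (hinj : ∀ a, S a = 0 → a = 0) : Quad fun a => ‖S a‖ where
  nn x := norm_nonneg _
  pos x hx := norm_pos_iff.2 fun h => hx (hinj x h)
  tri x y := by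
    have h := norm_add_le (S (x + y)) (S (x - y))
    have e : S (x + y) + S (x - y) = (2 : ℝ) • S x := by
      rw [map_add, map_sub, two_smul]
      abel
    rw [e, norm_smul, Real.norm_of_nonneg (by norm_num)] at h
    exact h
  par x y := by
    have h := parallelogram_law_with_norm ℝ (S x) (S y)
    simp only [map_add, map_sub]
    linarith
  hom t x := by
    rw [map_smul, norm_smul, Real.norm_eq_abs]

theorem psi_le {T : P → E →ₗ[ℝ] H} {w : ℕ → P → H} (hwn : ∀ j v, ‖w j v‖ ≤ 3) (v : P) (j : ℕ)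
    (a : E) : |psi T w v j a| ≤ 3 * ‖T v a‖ := by
  rw [psi_apply]
  refine (abs_real_inner_le_norm _ _).trans ?_
  exact mul_le_mul_of_nonneg_right (hwn j v) (norm_nonneg _)

theorem le_hN {T : P → E →ₗ[ℝ] H} {w : ℕ → P → H} (v : P) (a : E) :
    ‖T v a‖ ≤ hN T w v a := by
  unfold hN hh
  have : 0 ≤ ∑' j, cw j * |psi T w v j a| :=
    tsum_nonneg fun j => mul_nonneg (cw_pos j).le (abs_nonneg _)
  linarith

theorem hN_le {T : P → E →ₗ[ℝ] H} {w : ℕ → P → H} (hwn : ∀ j v, ‖w j v‖ ≤ 3) (v : P) (a : E) :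
    hN T w v a ≤ 6 / 5 * ‖T v a‖ := by
  unfold hN hh
  have h1 : ∑' j, cw j * |psi T w v j a| ≤ 1 / 15 * (3 * ‖T v a‖) := by
    refine hasSum_le (fun j => ?_) (summ (q := fun a => ‖T v a‖) (psi_le hwn v) a).hasSum
      (hasSum_cw.mul_right (3 * ‖T v a‖))
    exact mul_le_mul_of_nonneg_left (psi_le hwn v j a) (cw_pos j).le
  linarith

theorem limit_lemma (T : P → E →ₗ[ℝ] H) (w : ℕ → P → H) (hwn : ∀ j v, ‖w j v‖ ≤ 3) (v0 : P)
    (hinj : ∀ a, T v0 a = 0 → a = 0)
    (hind : ∀ m j, m ≠ j → ∃ z, psi T w v0 m z = 0 ∧ psi T w v0 j z ≠ 0)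
    (hw : ∀ m, ∃ x, 0 < |psi T w v0 m x| ∧ hN T w v0 x ≤ 2 * |psi T w v0 m x|)
    (F : Filter P) (hF : ∀ a, Tendsto (fun v => hN T w v a) F (𝓝 (hN T w v0 a))) (j : ℕ) (a : E) :
    Tendsto (fun v => |psi T w v j a|) F (𝓝 |psi T w v0 j a|) := by
  rw [tendsto_iff_ultrafilter]
  intro U hU
  have hUF : ∀ a, Tendsto (fun v => hN T w v a) U (𝓝 (hN T w v0 a)) := fun a => (hF a).mono_left hU
  have hbd : ∀ a, ∀ᶠ v in (U : Filter P), hN T w v a ≤ hN T w v0 a + 1 := fun a =>
    ((hUF a).eventually_lt_const (lt_add_one _)).mono fun v hv => hv.le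
  have hex1 : ∀ (j : ℕ) (a : E), ∃ ℓ : ℝ, Tendsto (fun v => psi T w v j a) U (𝓝 ℓ) := by
    intro j a
    set C : ℝ := 3 * (hN T w v0 a + 1) with hC
    have hmem : Set.Icc (-C) C ∈ U.map (fun v => psi T w v j a) := by
      rw [Ultrafilter.mem_map]
      filter_upwards [hbd a] with v hv
      have h1 := psi_le (T := T) hwn v j a
      have h2 := le_hN (T := T) (w := w) v a
      exact abs_le.1 (by rw [hC]; linarith)
    obtain ⟨ℓ, _, hℓ⟩ := isCompact_Icc.ultrafilter_le_nhds (U.map (fun v => psi T w v j a))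
      (by rwa [le_principal_iff])
    exact ⟨ℓ, hℓ⟩
  have hex2 : ∀ (a : E), ∃ ℓ : ℝ, Tendsto (fun v => ‖T v a‖) U (𝓝 ℓ) := by
    intro a
    set C : ℝ := hN T w v0 a + 1 with hC
    have hmem : Set.Icc 0 C ∈ U.map (fun v => ‖T v a‖) := by
      rw [Ultrafilter.mem_map]
      filter_upwards [hbd a] with v hv
      have h2 := le_hN (T := T) (w := w) v a
      exact ⟨norm_nonneg _, h2.trans hv⟩
    obtain ⟨ℓ, _, hℓ⟩ := isCompact_Icc.ultrafilter_le_nhds (U.map (fun v => ‖T v a‖))
      (by rwa [le_principal_iff])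
    exact ⟨ℓ, hℓ⟩
  choose L hL using hex1
  choose q' hq' using hex2
  let ψ' : ℕ → E →ₗ[ℝ] ℝ := fun j =>
    { toFun := L j
      map_add' := fun x y => by
        refine tendsto_nhds_unique (hL j (x + y)) ?_
        simp only [map_add]
        exact (hL j x).add (hL j y)
      map_smul' := fun t x => by
        refine tendsto_nhds_unique (hL j (t • x)) ?_
        simp only [map_smul, RingHom.id_apply]
        exact (hL j x).const_mul t }
  have hψ' : ∀ j a, Tendsto (fun v => psi T w v j a) U (𝓝 (ψ' j a)) := hL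
  have hQ' : Quad q' := by
    refine ⟨fun x => ?_, fun x hx => ?_, fun x y => ?_, fun x y => ?_, fun t x => ?_⟩
    · exact ge_of_tendsto' (hq' x) fun v => norm_nonneg _
    · have h1 : hN T w v0 x ≤ 6 / 5 * q' x :=
        le_of_tendsto_of_tendsto' (hUF x) ((hq' x).const_mul (6 / 5)) fun v => hN_le hwn v x
      have h2 := le_hN (T := T) (w := w) v0 x
      have h3 : 0 < ‖T v0 x‖ := norm_pos_iff.2 fun h => hx (hinj x h)
      linarith
    · refine le_of_tendsto_of_tendsto' ((hq' x).const_mul 2) ((hq' (x + y)).add (hq' (x - y)))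
        fun v => ?_
      have h := norm_add_le (T v (x + y)) (T v (x - y))
      have e : T v (x + y) + T v (x - y) = (2 : ℝ) • T v x := by
        rw [map_add, map_sub, two_smul]
        abel
      rw [e, norm_smul, Real.norm_of_nonneg (by norm_num)] at h
      exact h
    · refine tendsto_nhds_unique (((hq' (x + y)).pow 2).add ((hq' (x - y)).pow 2)) ?_
      refine ((((hq' x).pow 2).const_mul 2).add (((hq' y).pow 2).const_mul 2)).congr fun v => ?_
      have h := parallelogram_law_with_norm ℝ (T v x) (T v y)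
      simp only [map_add, map_sub]
      linarith
    · refine tendsto_nhds_unique (hq' (t • x)) ?_
      simp only [map_smul, norm_smul, Real.norm_eq_abs]
      exact (hq' x).const_mul |t|
  have hb' : ∀ j x, |ψ' j x| ≤ 3 * q' x := fun j x =>
    le_of_tendsto_of_tendsto' (hψ' j x).abs ((hq' x).const_mul 3) fun v => psi_le hwn v j x
  have heq : ∀ x, hh (fun a => ‖T v0 a‖) (psi T w v0) x = hh q' ψ' x := by
    intro x
    refine tendsto_nhds_unique (hUF x) ?_
    have h1 : Tendsto (fun v => ∑' j, cw j * |psi T w v j x|) U (𝓝 (∑' j, cw j * |ψ' j x|)) := by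
      refine tendsto_tsum_of_dominated_convergence
        (bound := fun j => cw j * (3 * (hN T w v0 x + 1))) (hasSum_cw.summable.mul_right _)
        (fun j => (hψ' j x).abs.const_mul _) ?_
      filter_upwards [hbd x] with v hv j
      rw [Real.norm_eq_abs, abs_mul, abs_of_pos (cw_pos j), abs_abs]
      refine mul_le_mul_of_nonneg_left ?_ (cw_pos j).le
      have h1 := psi_le (T := T) hwn v j x
      have h2 := le_hN (T := T) (w := w) v x
      linarith
    exact (hq' x).add h1
  have hfin := uniq (quad_T hinj) hQ' (psi_le hwn v0) hb' heq hind hw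
  rw [← hfin j a]
  exact (hψ' j a).abs

end

end Pool.Agent.R269.RC
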