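import Pool.Agent.R269.RCIso
import Pool.Agent.Helper133.BUProd

/-!
# The topological obstruction
-/

set_option autoImplicit false

open Filter Topology
open scoped InnerProductSpace

namespace Pool.Agent.R269.RC

open Pool.Agent.H418R3.Gur Pool.Agent.Helper133.BT Pool.Agent.Helper133.BU

/-- the dimensions of the spheres -/
def nn (J : ℕ) : ℕ → ℕ
  | 0 => J + 2
  | _ + 1 => 1

/-- the base point -/
def base : PP1 := ⟨fun _ i => if i = 0 then 1 else 0, fun k => by simp⟩

/-- the circles among the factors -/
def tl (J : ℕ) (x : Om (nn J)) (m : ℕ) : Fin 2 → ℝ := x (m + 1)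

theorem tl_mem (J : ℕ) (x : Om (nn J)) (hx : x ∈ PP (nn J)) (m : ℕ) :
    |tl J x m 0| + |tl J x m 1| = 1 := by
  have h1 : ∑ i : Fin 2, |tl J x m i| = 1 := hx (m + 1)
  rwa [Fin.sum_univ_two] at h1

theorem continuous_tl (J m : ℕ) : Continuous fun x : Om (nn J) => tl J x m := by
  have : Continuous fun x : Om (nn J) => x (m + 1) := continuous_apply (m + 1)
  exact this

theorem tl_flp_zero (J : ℕ) (x : Om (nn J)) (m : ℕ) : tl J (flp (nn J) 0 x) m = tl J x m := by
  have h : flp (nn J) 0 x (m + 1) = x (m + 1) := by
    unfold flp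
    rw [Function.update_of_ne (by omega)]
  exact h

theorem tl_flp_self (J : ℕ) (x : Om (nn J)) (k : ℕ) :
    tl J (flp (nn J) (k + 1) x) k = - tl J x k := by
  have h : flp (nn J) (k + 1) x (k + 1) = - x (k + 1) := by
    unfold flp
    rw [Function.update_self]
  exact h

theorem tl_flp_ne (J : ℕ) (x : Om (nn J)) (k m : ℕ) (hm : m ≠ k) :
    tl J (flp (nn J) (k + 1) x) m = tl J x m := by
  have h : flp (nn J) (k + 1) x (m + 1) = x (m + 1) := by
    unfold flp
    rw [Function.update_of_ne (by omega)]
  exact h

/-- the coefficients, in the first factor -/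
def hd (J : ℕ) (x : Om (nn J)) : Fin (J + 3) → ℝ := x 0

theorem hd_mem (J : ℕ) (x : Om (nn J)) (hx : x ∈ PP (nn J)) : ∑ l, |hd J x l| = 1 := hx 0

theorem continuous_hd (J : ℕ) (l : Fin (J + 3)) : Continuous fun x : Om (nn J) => hd J x l := by
  have h1 : Continuous fun x : Om (nn J) => x 0 := continuous_apply 0
  have h2 : Continuous (hd J) := h1
  exact (continuous_apply l).comp h2

theorem hd_flp_zero (J : ℕ) (x : Om (nn J)) : hd J (flp (nn J) 0 x) = - hd J x := by
  have h : flp (nn J) 0 x 0 = - x 0 := by
    unfold flp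
    rw [Function.update_self]
  exact h

theorem hd_flp_succ (J k : ℕ) (x : Om (nn J)) : hd J (flp (nn J) (k + 1) x) = hd J x := by
  have h : flp (nn J) (k + 1) x 0 = x 0 := by
    unfold flp
    rw [Function.update_of_ne (by omega)]
  exact h

/-- the point of the product of circles attached to a point of the new product -/
def vv (J : ℕ) (x : Om (nn J)) : ℕ → Fin 2 → ℝ := fun k =>
  if k < J then base.1 k else tl J x (k - J)

theorem vv_mem (J : ℕ) (x : Om (nn J)) (hx : x ∈ PP (nn J)) (k : ℕ) :
    |vv J x k 0| + |vv J x k 1| = 1 := by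
  unfold vv
  by_cases h : k < J
  · rw [if_pos h]
    exact base.2 k
  · rw [if_neg h]
    exact tl_mem J x hx _

/-- the same as a point of the parameter space -/
def pt (J : ℕ) (x : PP (nn J)) : PP1 := ⟨vv J x.1, vv_mem J x.1 x.2⟩

theorem continuous_pt (J : ℕ) : Continuous (pt J) := by
  refine Continuous.subtype_mk (continuous_pi fun k => ?_) _
  by_cases h : k < J
  · have : (fun x : PP (nn J) => vv J x.1 k) = fun _ => base.1 k := by
      funext x
      simp [vv, h]
    rw [this]
    exact continuous_const
  · have : (fun x : PP (nn J) => vv J x.1 k) = fun x => tl J x.1 (k - J) := by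
      funext x
      simp [vv, h]
    rw [this]
    exact (continuous_tl J (k - J)).comp continuous_subtype_val

/-- the index of the coordinate which is killed -/
def idx (J i r : ℕ) : ℕ := if i = 0 then r else J + 1 + i

/-- the parities -/
def pari (i k : ℕ) : ZMod 2 := if k = 0 ∨ k = i then 1 else 0

/-- the flips on the subtype -/
def fl (J k : ℕ) (x : PP (nn J)) : PP (nn J) := ⟨flp (nn J) k x.1, flp_mem (nn J) k x.2⟩

theorem pt_fl_zero (J : ℕ) (x : PP (nn J)) : pt J (fl J 0 x) = pt J x := by
  apply Subtype.ext
  funext k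
  change vv J (flp (nn J) 0 x.1) k = vv J x.1 k
  unfold vv
  rw [tl_flp_zero]

theorem pt_fl_succ (J k : ℕ) (x : PP (nn J)) : pt J (fl J (k + 1) x) = flip (J + k) (pt J x) := by
  apply Subtype.ext
  funext l
  change vv J (flp (nn J) (k + 1) x.1) l = Function.update (vv J x.1) (J + k) (-(vv J x.1 (J + k))) l
  by_cases hl : l = J + k
  · subst hl
    rw [Function.update_self]
    have h : ¬ J + k < J := by omega
    unfold vv
    rw [if_neg h, if_neg h]
    have e : J + k - J = k := by omega
    rw [e, tl_flp_self]
  · rw [Function.update_of_ne hl]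
    unfold vv
    by_cases h : l < J
    · rw [if_pos h, if_pos h]
    · rw [if_neg h, if_neg h, tl_flp_ne _ _ _ _ (by omega)]

namespace Rec

variable (R : Rec)

/-- the vector with coefficients in the first factor -/
noncomputable def av (J : ℕ) (x : Om (nn J)) : ℕ →₀ ℝ :=
  ∑ l : Fin (J + 3), (hd J x l) • Finsupp.single (l : ℕ) (1 : ℝ)

/-- the system of functions -/
noncomputable def F (J : ℕ) (a0 : ℕ →₀ ℝ) (i r : ℕ) (x : PP (nn J)) : ℝ :=
  ∑ l : Fin (J + 3), (hd J x.1 l) * R.Q (idx J i r) a0 (pt J x) (Finsupp.single (l : ℕ) 1)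

theorem y_sum {ι : Type*} (s : Finset ι) (v : PP1) (c : ι → ℝ) (b : ι → ℕ →₀ ℝ) (m : ℕ) :
    R.y v (∑ l ∈ s, c l • b l) m = ∑ l ∈ s, c l * R.y v (b l) m := by
  unfold y
  rw [← inner_bb, map_sum, inner_sum]
  refine Finset.sum_congr rfl fun l _ => ?_
  rw [map_smul, inner_smul_right, inner_bb]

theorem F_eq (J : ℕ) (a0 : ℕ →₀ ℝ) (i r : ℕ) (x : PP (nn J)) :
    R.F J a0 i r x = R.Q (idx J i r) a0 (pt J x) (av J x.1) := by
  unfold F Q av
  rw [y_sum, Finset.sum_mul]
  refine Finset.sum_congr rfl fun l _ => ?_
  ring

theorem exists_a0 : ∃ a0, R.y base a0 0 ≠ 0 := by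
  by_contra hcon
  push Not at hcon
  have h : bb 0 = 0 := R.dense base _ fun a => by
    rw [inner_bb]
    exact hcon a
  have h2 := norm_bb 0
  rw [h, norm_zero] at h2
  norm_num at h2

theorem exists_J (a0 : ℕ →₀ ℝ) (h0 : R.y base a0 0 ≠ 0) :
    ∃ J, ∀ v : PP1, (∀ k < J, v.1 k = base.1 k) → R.y v a0 0 ≠ 0 := by
  by_contra hcon
  push Not at hcon
  choose v hv1 hv2 using hcon
  have hlim : Tendsto v atTop (𝓝 base) := by
    rw [tendsto_subtype_rng, tendsto_pi_nhds]
    intro k
    refine tendsto_const_nhds.congr' ?_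
    filter_upwards [eventually_gt_atTop k] with J hJ
    exact (hv1 J k hJ).symm
  have h1 := ((R.continuous_y0 a0 a0).tendsto base).comp hlim
  have h2 : (fun v => R.y v a0 0 * R.y v a0 0) ∘ v = fun _ => 0 := by
    funext J
    simp only [Function.comp, hv2 J, mul_zero]
  rw [h2] at h1
  have h3 := tendsto_nhds_unique h1 tendsto_const_nhds
  exact mul_ne_zero h0 h0 h3

theorem absurd_rec (R : Rec) : False := by
  obtain ⟨a0, ha0⟩ := R.exists_a0
  obtain ⟨J, hJ⟩ := R.exists_J a0 ha0
  have hne : ∀ x : PP (nn J), R.y (pt J x) a0 0 ≠ 0 := by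
    intro x
    apply hJ
    intro k hk
    change vv J x.1 k = _
    unfold vv
    rw [if_pos hk]
  have hcont : ∀ i r, Continuous (R.F J a0 i r) := by
    intro i r
    unfold F
    refine continuous_finsetSum _ fun l _ => ?_
    refine Continuous.mul ?_ ?_
    · exact (continuous_hd J l).comp continuous_subtype_val
    · rw [continuous_iff_continuousAt]
      intro x
      exact (R.continuousAt_Q (idx J i r) a0 (pt J x) (Finsupp.single (l : ℕ) 1) (hne x)).comp
        (continuous_pt J).continuousAt
  have hflip : ∀ i r k (x : PP (nn J)), r < nn J i →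
      R.F J a0 i r (fl J k x) = sgn (pari i k) * R.F J a0 i r x := by
    intro i r k x hr
    cases k with
    | zero =>
      have h1 : pari i 0 = 1 := by simp [pari]
      have h2 : sgn 1 = -1 := by simp [sgn]
      rw [h1, h2]
      unfold F
      rw [pt_fl_zero, Finset.mul_sum]
      refine Finset.sum_congr rfl fun l _ => ?_
      have h3 : hd J (fl J 0 x).1 l = - hd J x.1 l := by
        change hd J (Pool.Agent.Helper133.BT.flp (nn J) 0 x.1) l = _
        rw [hd_flp_zero]
        rfl
      rw [h3]
      ring
    | succ k =>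
      unfold F
      rw [pt_fl_succ, Finset.mul_sum]
      refine Finset.sum_congr rfl fun l _ => ?_
      have h3 : hd J (fl J (k + 1) x).1 l = hd J x.1 l := by
        change hd J (Pool.Agent.Helper133.BT.flp (nn J) (k + 1) x.1) l = _
        rw [hd_flp_succ]
      rw [h3, Q_flip _ _ _ _ _ _ (hne x)]
      have h4 : sg (J + k) (idx J i r) = sgn (pari i (k + 1)) := by
        cases i with
        | zero =>
          have h5 : r < J + 2 := hr
          have h6 : ¬ r = J + k + 2 := by omega
          simp [sg, idx, pari, sgn, h6]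
        | succ i =>
          by_cases h : k = i
          · subst h
            have h6 : J + 1 + (k + 1) = J + k + 2 := by omega
            simp [sg, idx, pari, sgn, h6]
          · have h6 : ¬ J + 1 + (i + 1) = J + k + 2 := by omega
            simp [sg, idx, pari, sgn, h6, h]
      rw [h4]
      ring
  -- the common zeros of the first `M` blocks
  have hex : ∀ M, ∃ x : PP (nn J), ∀ i < M, ∀ r < nn J i, R.F J a0 i r x = 0 := by
    intro M
    classical
    let f : ℕ → ℕ → Om (nn J) → ℝ := fun i r x =>
      if hx : x ∈ PP (nn J) then R.F J a0 i r ⟨x, hx⟩ else 0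
    have hfx : ∀ i r (x : PP (nn J)), f i r x.1 = R.F J a0 i r x := by
      intro i r x
      simp only [f]
      rw [dif_pos x.2]
    obtain ⟨x, hx, hx2⟩ := triangular (nn J) (fun i => by cases i <;> simp [nn]) M
      (fun i _ k => pari i k) (fun i r => by simp [pari]) (fun i r k hik => by
        have h1 : ¬ (k = 0 ∨ k = i) := by omega
        simp [pari, h1]) f
      (fun i r => by
        rw [continuousOn_iff_continuous_domRestrict]
        have : (PP (nn J)).domRestrict (f i r) = R.F J a0 i r := by
          funext x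
          exact hfx i r x
        rw [this]
        exact hcont i r)
      (fun i _ r hr k _ v hv => by
        have h1 := hflip i r k ⟨v, hv⟩ hr
        have h2 := hfx i r (fl J k ⟨v, hv⟩)
        have h3 := hfx i r ⟨v, hv⟩
        change f i r (Pool.Agent.Helper133.BT.flp (nn J) k v) = _ at h2
        rw [h2, h1, ← h3])
    refine ⟨⟨x, hx⟩, fun i hi r hr => ?_⟩
    rw [← hfx]
    exact hx2 i hi r hr
  have hcomp : CompactSpace (PP (nn J)) := isCompact_iff_compactSpace.mp (PP_compact (nn J))
  have hall : (⋂ M, {x : PP (nn J) | ∀ i < M, ∀ r < nn J i, R.F J a0 i r x = 0}).Nonempty := by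
    refine IsCompact.nonempty_iInter_of_sequence_nonempty_isCompact_isClosed _
      (fun M x hx i hi r hr => hx i (by omega) r hr) (fun M => hex M) ?_ ?_
    · refine IsClosed.isCompact ?_
      simp only [Set.ofPred_forall]
      exact isClosed_iInter fun i => isClosed_iInter fun _ => isClosed_iInter fun r =>
        isClosed_iInter fun _ => isClosed_eq (hcont i r) continuous_const
    · intro M
      simp only [Set.ofPred_forall]
      exact isClosed_iInter fun i => isClosed_iInter fun _ => isClosed_iInter fun r =>
        isClosed_iInter fun _ => isClosed_eq (hcont i r) continuous_const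
  obtain ⟨x, hx⟩ := hall
  have hx' : ∀ i r, r < nn J i → R.F J a0 i r x = 0 := fun i r hr =>
    (Set.mem_iInter.1 hx (i + 1)) i (Nat.lt_succ_self i) r hr
  have hy : ∀ m, R.y (pt J x) (av J x.1) m = 0 := by
    intro m
    have hQ : R.Q m a0 (pt J x) (av J x.1) = 0 := by
      by_cases hm : m < J + 2
      · have := hx' 0 m hm
        rw [F_eq] at this
        simpa [idx] using this
      · have := hx' (m - J - 1) 0 (by
          have : m - J - 1 = (m - J - 2) + 1 := by omega
          rw [this]
          simp [nn])
        rw [F_eq] at this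
        have e : idx J (m - J - 1) 0 = m := by
          unfold idx
          rw [if_neg (by omega)]
          omega
        rwa [e] at this
    rcases mul_eq_zero.1 hQ with h | h
    · exact h
    · exact absurd h (hne x)
  have hT : R.T (pt J x) (av J x.1) = 0 := by
    ext m
    exact hy m
  have ha := R.inj _ _ hT
  have hz : ∀ l : Fin (J + 3), hd J x.1 l = 0 := by
    intro l
    have h1 := DFunLike.congr_fun ha (l : ℕ)
    unfold av at h1
    rw [Finsupp.finsetSum_apply, Finset.sum_eq_single l] at h1
    · simpa using h1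
    · intro l' _ hl'
      have : (l' : ℕ) ≠ (l : ℕ) := fun h => hl' (Fin.ext h)
      simp [this]
    · intro h
      exact absurd (Finset.mem_univ l) h
  have hsum := hd_mem J x.1 x.2
  simp only [hz, abs_zero, Finset.sum_const_zero] at hsum
  norm_num at hsum

end Rec

/-- the compact set of pseudonorms -/
def CC : Set PN := Set.range mu

theorem isCompact_CC : IsCompact CC := by
  have hc : IsCompact {v : ℕ → Fin 2 → ℝ | ∀ k, |v k 0| + |v k 1| = 1} := by
    have h1 : IsCompact (Set.univ.pi fun _ : ℕ => {u : Fin 2 → ℝ | |u 0| + |u 1| = 1}) := by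
      refine isCompact_univ_pi fun _ => ?_
      refine Metric.isCompact_of_isClosed_isBounded ?_ ?_
      · exact isClosed_eq (((continuous_apply 0).abs).add ((continuous_apply 1).abs))
          continuous_const
      · refine (Metric.isBounded_closedBall (x := (0 : Fin 2 → ℝ)) (r := 1)).subset ?_
        intro u hu
        rw [mem_closedBall_zero_iff, pi_norm_le_iff_of_nonneg zero_le_one]
        have hu' : |u 0| + |u 1| = 1 := hu
        have h0 := abs_nonneg (u 0)
        have h1 := abs_nonneg (u 1)
        intro i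
        rw [Real.norm_eq_abs]
        fin_cases i
        · change |u 0| ≤ 1; linarith
        · change |u 1| ≤ 1; linarith
    convert h1 using 1
    ext v
    simp
  have : CompactSpace PP1 := isCompact_iff_compactSpace.mp hc
  exact isCompact_range continuous_mu

theorem CC_sub : CC ⊆ PInf := by
  rintro _ ⟨v, rfl⟩
  exact mu_mem v

theorem no_recoding : ¬ ∃ Φ : CC → BB, Continuous Φ ∧
    ∀ μ : CC, Nonempty (XX (Φ μ).1 ≃ₗᵢ[ℝ] XX μ.1) := by
  rintro ⟨Φ, hΦ, hiso⟩
  let c : PP1 → CC := fun v => ⟨mu v, v, rfl⟩
  have hc : Continuous c := Continuous.subtype_mk continuous_mu _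
  refine Rec.absurd_rec
    { N := fun v => (Φ (c v)).1
      cont := fun x => ?_
      norm := fun v x h => (Φ (c v)).2.2 x h
      flp := fun k v => ?_
      iso := fun v => (hiso (c v)).some }
  · have h1 : Continuous fun v => (Φ (c v)).1 := continuous_subtype_val.comp (hΦ.comp hc)
    exact (continuous_pi_iff.1 (continuous_induced_rng.1 h1)) x
  · have : c (flip k v) = c v := Subtype.ext (mu_flip k v)
    rw [this]

end Pool.Agent.R269.RC
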