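import Mathlib

/-!
# Uniqueness of the decomposition of a norm into a Hilbertian part and a series of functionals
-/

set_option autoImplicit false

open Filter Topology

namespace Pool.Agent.R269.RC

/-- weights -/
noncomputable def cw (j : ℕ) : ℝ := (1 / 16 : ℝ) ^ (j + 1)

theorem cw_pos (j : ℕ) : 0 < cw j := by unfold cw; positivity

theorem hasSum_cw : HasSum cw (1 / 15) := by
  have h := (hasSum_geometric_of_lt_one (r := (1 / 16 : ℝ)) (by norm_num) (by norm_num)).mul_right
    (1 / 16)
  have e : ((1 : ℝ) - 1 / 16)⁻¹ * (1 / 16) = 1 / 15 := by norm_num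
  rw [e] at h
  have e2 : cw = fun i => (1 / 16 : ℝ) ^ i * (1 / 16) := by
    funext i
    rw [cw, pow_succ]
  rw [e2]
  exact h

theorem hasSum_tail (m : ℕ) : HasSum (fun j => cw (j + (m + 1))) (cw m / 15) := by
  have h := hasSum_cw.mul_left (cw m)
  have e : (fun i => cw m * cw i) = fun j => cw (j + (m + 1)) := by
    funext i
    unfold cw
    rw [← pow_add]
    congr 1
    ring
  rw [e] at h
  rw [div_eq_mul_one_div]
  exact h

section
variable {E : Type*} [AddCommGroup E] [Module ℝ E]

/-- a Hilbertian norm -/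
structure Quad (q : E → ℝ) : Prop where
  nn : ∀ x, 0 ≤ q x
  pos : ∀ x, x ≠ 0 → 0 < q x
  tri : ∀ x y, 2 * q x ≤ q (x + y) + q (x - y)
  par : ∀ x y, q (x + y) ^ 2 + q (x - y) ^ 2 = 2 * q x ^ 2 + 2 * q y ^ 2
  hom : ∀ (t : ℝ) x, q (t • x) = |t| * q x

theorem Quad.diff {q : E → ℝ} (hq : Quad q) {z : E} (hz : z ≠ 0) (w : E) :
    Tendsto (fun t : ℝ => (q (z + t • w) + q (z - t • w) - 2 * q z) / (2 * t)) (𝓝[>] 0) (𝓝 0) := by
  have hp := hq.pos z hz
  have hlim : Tendsto (fun t : ℝ => t * (q w ^ 2 / (2 * q z))) (𝓝[>] 0) (𝓝 0) := by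
    have : Tendsto (fun t : ℝ => t * (q w ^ 2 / (2 * q z))) (𝓝 0) (𝓝 (0 * (q w ^ 2 / (2 * q z)))) :=
      tendsto_id.mul_const _
    rw [zero_mul] at this
    exact this.mono_left nhdsWithin_le_nhds
  refine squeeze_zero' ?_ ?_ hlim
  · filter_upwards [self_mem_nhdsWithin] with t ht
    have ht' : (0 : ℝ) < t := ht
    have := hq.tri z (t • w)
    apply div_nonneg _ (by positivity)
    linarith
  · filter_upwards [self_mem_nhdsWithin] with t ht
    have ht' : (0 : ℝ) < t := ht
    have h1 := hq.par z (t • w)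
    rw [hq.hom, abs_of_pos ht'] at h1
    set A := q (z + t • w)
    set B := q (z - t • w)
    set p := q z
    set r := q w
    have hA : 0 ≤ A := hq.nn _
    have hB : 0 ≤ B := hq.nn _
    rw [div_le_iff₀ (by positivity)]
    have e : t * (r ^ 2 / (2 * p)) * (2 * t) = t ^ 2 * r ^ 2 / p := by
      field_simp
    rw [e]
    have hs : (A + B) ^ 2 ≤ (2 * p + t ^ 2 * r ^ 2 / p) ^ 2 := by
      have e2 : (2 * p + t ^ 2 * r ^ 2 / p) ^ 2 = 4 * p ^ 2 + 4 * (t ^ 2 * r ^ 2)
          + (t ^ 2 * r ^ 2 / p) ^ 2 := by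
        field_simp
        ring
      rw [e2]
      nlinarith [sq_nonneg (A - B), sq_nonneg (t ^ 2 * r ^ 2 / p)]
    have h3 := abs_le_of_sq_le_sq hs (by positivity)
    have := (abs_le.1 h3).2
    linarith

theorem abs_second (a s : ℝ) : 0 ≤ |a + s| + |a - s| - 2 * |a| ∧
    |a + s| + |a - s| - 2 * |a| ≤ 2 * |s| := by
  constructor
  · have h := abs_add_le (a + s) (a - s)
    have e : a + s + (a - s) = 2 * a := by ring
    rw [e, abs_mul, abs_two] at h
    linarith
  · have h1 := abs_add_le a s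
    have h2 := abs_sub a s
    linarith

theorem fun_diff (φ : E →ₗ[ℝ] ℝ) (z w : E) :
    Tendsto (fun t : ℝ => (|φ (z + t • w)| + |φ (z - t • w)| - 2 * |φ z|) / (2 * t)) (𝓝[>] 0)
      (𝓝 (if φ z = 0 then |φ w| else 0)) := by
  by_cases h : φ z = 0
  · rw [if_pos h]
    refine tendsto_const_nhds.congr' ?_
    filter_upwards [self_mem_nhdsWithin] with t ht
    have ht' : (0 : ℝ) < t := ht
    simp only [map_add, map_sub, map_smul, h, smul_eq_mul, zero_add, zero_sub, abs_neg, abs_zero,
      mul_zero, sub_zero, abs_mul, abs_of_pos ht']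
    field_simp
    ring
  · rw [if_neg h]
    refine tendsto_const_nhds.congr' ?_
    have hev : ∀ᶠ t : ℝ in 𝓝[>] 0, |t * φ w| < |φ z| := by
      have h1 : Tendsto (fun t : ℝ => |t * φ w|) (𝓝 0) (𝓝 |0 * φ w|) :=
        (tendsto_id.mul_const _).abs
      rw [zero_mul, abs_zero] at h1
      exact (h1.mono_left nhdsWithin_le_nhds).eventually_lt_const (abs_pos.2 h)
    filter_upwards [hev] with t ht
    simp only [map_add, map_sub, map_smul, smul_eq_mul]
    set a := φ z
    set s := t * φ w
    have key : |a + s| + |a - s| - 2 * |a| = 0 := by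
      rcases abs_lt.1 ht with ⟨h1, h2⟩
      rcases le_total 0 a with ha | ha
      · rw [abs_of_nonneg ha] at h1 h2 ⊢
        rw [abs_of_nonneg (by linarith), abs_of_nonneg (by linarith)]
        ring
      · rw [abs_of_nonpos ha] at h1 h2 ⊢
        rw [abs_of_nonpos (by linarith), abs_of_nonpos (by linarith)]
        ring
    rw [key, zero_div]

/-- the kink of the sum of the functionals at `z` in the direction `w` -/
noncomputable def KK (ψ : ℕ → E →ₗ[ℝ] ℝ) (z w : E) : ℝ :=
  ∑' j, cw j * (if ψ j z = 0 then |ψ j w| else 0)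

/-- the norm -/
noncomputable def hh (q : E → ℝ) (ψ : ℕ → E →ₗ[ℝ] ℝ) (x : E) : ℝ := q x + ∑' j, cw j * |ψ j x|

theorem summ {q : E → ℝ} {ψ : ℕ → E →ₗ[ℝ] ℝ} (hb : ∀ j x, |ψ j x| ≤ 3 * q x) (x : E) :
    Summable fun j => cw j * |ψ j x| := by
  refine Summable.of_nonneg_of_le (fun j => mul_nonneg (cw_pos j).le (abs_nonneg _))
    (fun j => mul_le_mul_of_nonneg_left (hb j x) (cw_pos j).le) (hasSum_cw.summable.mul_right _)

theorem hh_diff {q : E → ℝ} {ψ : ℕ → E →ₗ[ℝ] ℝ} (hq : Quad q) (hb : ∀ j x, |ψ j x| ≤ 3 * q x)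
    {z : E} (hz : z ≠ 0) (w : E) :
    Tendsto (fun t : ℝ => (hh q ψ (z + t • w) + hh q ψ (z - t • w) - 2 * hh q ψ z) / (2 * t))
      (𝓝[>] 0) (𝓝 (KK ψ z w)) := by
  have h1 : Tendsto (fun t : ℝ => ∑' j, cw j *
      ((|ψ j (z + t • w)| + |ψ j (z - t • w)| - 2 * |ψ j z|) / (2 * t))) (𝓝[>] 0)
      (𝓝 (KK ψ z w)) := by
    refine tendsto_tsum_of_dominated_convergence (summ hb w) (fun j => ?_) ?_
    · exact (fun_diff (ψ j) z w).const_mul (cw j)
    · filter_upwards [self_mem_nhdsWithin] with t ht j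
      have ht' : (0 : ℝ) < t := ht
      have h := abs_second (ψ j z) (t * ψ j w)
      rw [abs_mul, abs_of_pos ht'] at h
      simp only [map_add, map_sub, map_smul, smul_eq_mul]
      rw [Real.norm_eq_abs, abs_mul, abs_of_pos (cw_pos j), abs_of_nonneg (by
        apply div_nonneg h.1 (by positivity))]
      refine mul_le_mul_of_nonneg_left ?_ (cw_pos j).le
      rw [div_le_iff₀ (by positivity)]
      linarith [h.2]
  have h2 := (hq.diff hz w).add h1
  rw [zero_add] at h2
  refine h2.congr fun t => ?_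
  have ha := (summ hb (z + t • w)).hasSum
  have hb' := (summ hb (z - t • w)).hasSum
  have hc := (summ hb z).hasSum
  have hS := ((ha.add hb').sub (hc.mul_left 2)).div_const (2 * t)
  have e : ∑' j, cw j * ((|ψ j (z + t • w)| + |ψ j (z - t • w)| - 2 * |ψ j z|) / (2 * t))
      = (∑' j, cw j * |ψ j (z + t • w)| + ∑' j, cw j * |ψ j (z - t • w)|
        - 2 * ∑' j, cw j * |ψ j z|) / (2 * t) := by
    rw [← hS.tsum_eq]
    congr 1
    funext j
    ring
  rw [e]
  unfold hh
  ring

theorem kink_eq {q q' : E → ℝ} {ψ ψ' : ℕ → E →ₗ[ℝ] ℝ} (hq : Quad q) (hq' : Quad q')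
    (hb : ∀ j x, |ψ j x| ≤ 3 * q x) (hb' : ∀ j x, |ψ' j x| ≤ 3 * q' x)
    (heq : ∀ x, hh q ψ x = hh q' ψ' x) {z : E} (hz : z ≠ 0) (w : E) : KK ψ z w = KK ψ' z w := by
  have h1 := hh_diff hq hb hz w
  have h2 := hh_diff hq' hb' hz w
  simp only [heq] at h1
  exact tendsto_nhds_unique h1 h2

theorem uniq {q q' : E → ℝ} {ψ ψ' : ℕ → E →ₗ[ℝ] ℝ} (hq : Quad q) (hq' : Quad q')
    (hb : ∀ j x, |ψ j x| ≤ 3 * q x) (hb' : ∀ j x, |ψ' j x| ≤ 3 * q' x)
    (heq : ∀ x, hh q ψ x = hh q' ψ' x)
    (hind : ∀ m j, m ≠ j → ∃ z, ψ m z = 0 ∧ ψ j z ≠ 0)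
    (hw : ∀ m, ∃ w, 0 < |ψ m w| ∧ hh q ψ w ≤ 2 * |ψ m w|) :
    ∀ m x, |ψ' m x| = |ψ m x| := by
  classical
  -- the primed functionals vanishing on the kernel of `ψ m`
  set A : ℕ → ℕ → Prop := fun m j => ∀ z, ψ m z = 0 → ψ' j z = 0 with hA
  have eqm : ∀ m w, cw m * |ψ m w| = ∑' j, cw j * (if A m j then |ψ' j w| else 0) := by
    intro m w
    have hex : ∀ N : ℕ, ∃ z : E, z ≠ 0 ∧ ψ m z = 0 ∧ (∀ l < N, l ≠ m → ψ l z ≠ 0) ∧
        ∀ l < N, ¬ A m l → ψ' l z ≠ 0 := by
      intro N
      let f : (Fin (N + m + 2)) ⊕ (Fin (N + m + 2)) → Module.Dual ℝ E := fun s =>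
        match s with
        | Sum.inl l => if (l : ℕ) ≠ m then ψ l else ψ (m + 1)
        | Sum.inr l => if ¬ A m l then ψ' l else ψ (m + 1)
      have hf : ∀ i, ∃ x ∈ LinearMap.ker (ψ m), f i x ≠ 0 := by
        have h1 : ∃ x ∈ LinearMap.ker (ψ m), ψ (m + 1) x ≠ 0 := by
          obtain ⟨z, hz1, hz2⟩ := hind m (m + 1) (by omega)
          exact ⟨z, hz1, hz2⟩
        rintro (l | l)
        · by_cases hl : (l : ℕ) ≠ m
          · obtain ⟨z, hz1, hz2⟩ := hind m l (Ne.symm hl)
            refine ⟨z, hz1, ?_⟩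
            simp only [f, if_pos hl]
            exact hz2
          · simp only [f, if_neg hl]
            exact h1
        · by_cases hl : ¬ A m l
          · simp only [f, if_pos hl]
            simp only [hA, not_forall] at hl
            obtain ⟨z, hz1, hz2⟩ := hl
            exact ⟨z, hz1, hz2⟩
          · simp only [f, if_neg hl]
            exact h1
      obtain ⟨z, hz, hfz⟩ := Module.Dual.exists_forall_mem_ne_zero_of_forall_exists
        (LinearMap.ker (ψ m)) f hf
      have hz1 : ∀ l < N + m + 2, l ≠ m → ψ l z ≠ 0 := by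
        intro l hl hlm
        have := hfz (Sum.inl ⟨l, hl⟩)
        simp only [f] at this
        rwa [if_pos (by exact hlm)] at this
      refine ⟨z, ?_, hz, fun l hl hlm => hz1 l (by omega) hlm, fun l hl hlA => ?_⟩
      · rintro rfl
        exact hz1 (m + 1) (by omega) (by omega) (map_zero _)
      · have := hfz (Sum.inr ⟨l, by omega⟩)
        simp only [f] at this
        rwa [if_pos hlA] at this
    choose z hz0 hzm hz1 hz2 using hex
    have hlim1 : Tendsto (fun N => KK ψ (z N) w) atTop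
        (𝓝 (∑' j, cw j * (if j = m then |ψ j w| else 0))) := by
      refine tendsto_tsum_of_dominated_convergence (summ hb w) (fun j => ?_) ?_
      · refine tendsto_const_nhds.congr' ?_
        filter_upwards [eventually_gt_atTop j] with N hN
        by_cases hj : j = m
        · subst hj
          rw [if_pos rfl, if_pos (hzm N)]
        · rw [if_neg hj, if_neg (hz1 N j hN hj)]
      · refine Eventually.of_forall fun N j => ?_
        rw [Real.norm_eq_abs, abs_mul, abs_of_pos (cw_pos j)]
        refine mul_le_mul_of_nonneg_left ?_ (cw_pos j).le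
        split_ifs <;> simp
    have hlim2 : Tendsto (fun N => KK ψ' (z N) w) atTop
        (𝓝 (∑' j, cw j * (if A m j then |ψ' j w| else 0))) := by
      refine tendsto_tsum_of_dominated_convergence (summ hb' w) (fun j => ?_) ?_
      · refine tendsto_const_nhds.congr' ?_
        filter_upwards [eventually_gt_atTop j] with N hN
        by_cases hj : A m j
        · rw [if_pos hj, if_pos (hj _ (hzm N))]
        · rw [if_neg hj, if_neg (hz2 N j hN hj)]
      · refine Eventually.of_forall fun N j => ?_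
        rw [Real.norm_eq_abs, abs_mul, abs_of_pos (cw_pos j)]
        refine mul_le_mul_of_nonneg_left ?_ (cw_pos j).le
        split_ifs <;> simp
    have hkk : ∀ N, KK ψ (z N) w = KK ψ' (z N) w := fun N => kink_eq hq hq' hb hb' heq (hz0 N) w
    simp only [hkk] at hlim1
    have h3 := tendsto_nhds_unique hlim1 hlim2
    rw [← h3, tsum_eq_single m (fun j hj => by rw [if_neg hj, mul_zero]), if_pos rfl]
  -- two proportionality relations
  have hexcl : ∀ m j, m ≠ j → A m j → A j j → ∀ x, ψ' j x = 0 := by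
    intro m j hmj h1 h2 x
    obtain ⟨z, hz1, hz2⟩ := hind m j hmj
    have h3 : ψ' j (x - (ψ j x / ψ j z) • z) = 0 := by
      apply h2
      rw [map_sub, map_smul, smul_eq_mul, div_mul_cancel₀ _ hz2, sub_self]
    rw [map_sub, map_smul, h1 z hz1, smul_zero, sub_zero] at h3
    exact h3
  have main : ∀ m, A m m ∧ ∃ x, ψ' m x ≠ 0 := by
    intro m
    induction m using Nat.strong_induction_on with
    | _ m ih =>
      by_contra hcon
      obtain ⟨w, hw1, hw2⟩ := hw m
      have he := eqm m w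
      have hS := (summ hb' w).of_nonneg_of_le (f := fun j => cw j * |ψ' j w|)
        (g := fun j => cw j * (if A m j then |ψ' j w| else 0)) (fun j => by
          apply mul_nonneg (cw_pos j).le
          split_ifs <;> simp) (fun j => by
          apply mul_le_mul_of_nonneg_left _ (cw_pos j).le
          split_ifs <;> simp)
      have hzero : ∀ j ∈ Finset.range (m + 1), cw j * (if A m j then |ψ' j w| else 0) = 0 := by
        intro j hj
        rw [Finset.mem_range] at hj
        by_cases hAj : A m j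
        · rw [if_pos hAj]
          rcases Nat.lt_succ_iff_lt_or_eq.1 hj with h | h
          · obtain ⟨h4, x, hx⟩ := ih j h
            exact absurd (hexcl m j (by omega) hAj h4 x) hx
          · subst h
            have : ψ' j w = 0 := by
              by_contra hne
              exact hcon ⟨hAj, w, hne⟩
            rw [this, abs_zero, mul_zero]
        · rw [if_neg hAj, mul_zero]
      have h5 := hS.sum_add_tsum_nat_add (m + 1)
      rw [Finset.sum_eq_zero hzero, zero_add, ← he] at h5
      have hh0 : 0 ≤ hh q ψ w := le_trans (by positivity) (show 0 ≤ hh q ψ w by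
        unfold hh
        exact add_nonneg (hq.nn w) (tsum_nonneg fun j => mul_nonneg (cw_pos j).le (abs_nonneg _)))
      have hq'w : q' w ≤ hh q ψ w := by
        rw [heq]
        unfold hh
        have h9 : 0 ≤ ∑' j, cw j * |ψ' j w| :=
          tsum_nonneg fun j => mul_nonneg (cw_pos j).le (abs_nonneg (ψ' j w))
        linarith
      have h6 : ∑' j, cw (j + (m + 1)) * (if A m (j + (m + 1)) then |ψ' (j + (m + 1)) w| else 0)
          ≤ cw m / 15 * (3 * hh q ψ w) := by
        refine hasSum_le (fun j => ?_) ((summable_nat_add_iff (m + 1)).2 hS).hasSum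
          ((hasSum_tail m).mul_right (3 * hh q ψ w))
        refine mul_le_mul_of_nonneg_left ?_ (cw_pos _).le
        split_ifs
        · exact (hb' _ w).trans (by linarith)
        · positivity
      have h7 : cw m / 15 * (3 * hh q ψ w) ≤ cw m / 15 * (3 * (2 * |ψ m w|)) := by
        have := cw_pos m
        gcongr
      have h8 : 0 < cw m * |ψ m w| := mul_pos (cw_pos m) hw1
      nlinarith
  intro m x
  have he := eqm m x
  rw [tsum_eq_single m (fun j hj => by
    by_cases hAj : A m j
    · obtain ⟨h4, y, hy⟩ := main j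
      exact absurd (hexcl m j (Ne.symm hj) hAj h4 y) hy
    · rw [if_neg hAj, mul_zero]), if_pos (main m).1] at he
  exact (mul_left_cancel₀ (cw_pos m).ne' he).symm

end

end Pool.Agent.R269.RC
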