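import Pool.Agent.R271.Weak

/-!
# The super alternative Daugavet property: basic consequences
-/

set_option autoImplicit false

open Filter Topology Metric Set

namespace Pool.Agent.R269.SD

section
variable {𝕜 X : Type*} [RCLike 𝕜] [NormedAddCommGroup X] [NormedSpace 𝕜 X]

variable (𝕜 X) in
/-- The super alternative Daugavet property: for every `x` in the unit sphere and every relatively
weakly open subset `W = {y ∈ B_X : y ∈ U}` of the unit ball which meets the unit sphere, the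
supremum of `‖x + θ y‖` over `y ∈ W` and `|θ| = 1` is `2`. -/
def SuperADP : Prop :=
  ∀ x : X, ‖x‖ = 1 → ∀ U : Set (WeakSpace 𝕜 X), IsOpen U →
    (∃ y : X, ‖y‖ = 1 ∧ toWeakSpace 𝕜 X y ∈ U) →
      IsLUB {r : ℝ | ∃ y : X, ‖y‖ ≤ 1 ∧ toWeakSpace 𝕜 X y ∈ U ∧
        ∃ θ : 𝕜, ‖θ‖ = 1 ∧ r = ‖x + θ • y‖} 2

theorem exists_ker (hX : ¬ FiniteDimensional 𝕜 X) (F : Finset (StrongDual 𝕜 X)) :
    ∃ h : X, h ≠ 0 ∧ ∀ f ∈ F, f h = 0 := by
  classical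
  by_contra hcon
  push Not at hcon
  refine hX ?_
  set G : X →ₗ[𝕜] (F → 𝕜) := LinearMap.pi fun f : F => (f.1 : X →ₗ[𝕜] 𝕜) with hG
  have hinj : Function.Injective G := by
    rw [← LinearMap.ker_eq_bot, LinearMap.ker_eq_bot']
    intro m hm
    by_contra hne
    obtain ⟨f, hf, hfm⟩ := hcon m hne
    exact hfm (congrFun hm ⟨f, hf⟩)
  exact FiniteDimensional.of_injective G hinj

theorem exists_sphere (hX : ¬ FiniteDimensional 𝕜 X) (F : Finset (StrongDual 𝕜 X)) {a : X}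
    (ha : ‖a‖ ≤ 1) : ∃ b : X, ‖b‖ = 1 ∧ ∀ f ∈ F, f b = f a := by
  obtain ⟨h, hne, hker⟩ := exists_ker hX F
  have hpos : 0 < ‖h‖ := norm_pos_iff.2 hne
  set φ : ℝ → ℝ := fun t => ‖a + ((t : ℝ) : 𝕜) • h‖ with hφ
  have hc : Continuous φ := by
    have : Continuous fun t : ℝ => ((t : ℝ) : 𝕜) := RCLike.continuous_ofReal
    fun_prop
  have h0 : φ 0 ≤ 1 := by
    simpa [hφ] using ha
  have h1 : 1 ≤ φ (2 / ‖h‖) := by
    have h2 : ‖(((2 / ‖h‖ : ℝ) : ℝ) : 𝕜) • h‖ = 2 := by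
      rw [norm_smul, RCLike.norm_ofReal, abs_of_pos (by positivity)]
      field_simp
    have h3 : ‖(((2 / ‖h‖ : ℝ) : ℝ) : 𝕜) • h‖ ≤ φ (2 / ‖h‖) + ‖a‖ := by
      have : (((2 / ‖h‖ : ℝ) : ℝ) : 𝕜) • h = (a + (((2 / ‖h‖ : ℝ) : ℝ) : 𝕜) • h) - a := by abel
      calc ‖(((2 / ‖h‖ : ℝ) : ℝ) : 𝕜) • h‖
          = ‖(a + (((2 / ‖h‖ : ℝ) : ℝ) : 𝕜) • h) - a‖ := by rw [← this]
        _ ≤ _ := norm_sub_le _ _
    linarith
  obtain ⟨t, -, ht⟩ := intermediate_value_Icc (by positivity : (0 : ℝ) ≤ 2 / ‖h‖)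
    hc.continuousOn ⟨h0, h1⟩
  refine ⟨a + ((t : ℝ) : 𝕜) • h, ht, fun f hf => ?_⟩
  rw [map_add, map_smul, hker f hf, smul_zero, add_zero]

/-- The form of the property used in the proofs. -/
theorem SuperADP.basic (hX : ¬ FiniteDimensional 𝕜 X) (h : SuperADP 𝕜 X) {x : X} (hx : ‖x‖ = 1)
    {U : Set (WeakSpace 𝕜 X)} (hU : IsOpen U) {a : X} (ha : ‖a‖ ≤ 1)
    (haU : toWeakSpace 𝕜 X a ∈ U) {δ : ℝ} (hδ : 0 < δ) :
    ∃ y : X, ‖y‖ ≤ 1 ∧ toWeakSpace 𝕜 X y ∈ U ∧ ∃ θ : 𝕜, ‖θ‖ = 1 ∧ 2 - δ < ‖x + θ • y‖ := by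
  obtain ⟨F, ε, hε, hF⟩ := Pool.Agent.R271.exists_basic_weak_nhd hU haU
  obtain ⟨b, hb, hbF⟩ := exists_sphere hX F ha
  have hbU : toWeakSpace 𝕜 X b ∈ U := hF b fun f hf => by
    rw [hbF f hf, sub_self, norm_zero]
    exact hε
  have hlub := h x hx U hU ⟨b, hb, hbU⟩
  obtain ⟨r, ⟨y, hy1, hy2, θ, hθ, rfl⟩, hr, -⟩ := hlub.exists_between (by linarith : 2 - δ < 2)
  exact ⟨y, hy1, hy2, θ, hθ, hr⟩

/-- Adding one more vector almost increases the norm by one. -/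
theorem step (hX : ¬ FiniteDimensional 𝕜 X) (h : SuperADP 𝕜 X) {s : X} (hs : 1 ≤ ‖s‖)
    {U : Set (WeakSpace 𝕜 X)} (hU : IsOpen U) {a : X} (ha : ‖a‖ ≤ 1)
    (haU : toWeakSpace 𝕜 X a ∈ U) {δ : ℝ} (hδ : 0 < δ) :
    ∃ y : X, ‖y‖ ≤ 1 ∧ toWeakSpace 𝕜 X y ∈ U ∧
      ∃ θ : 𝕜, ‖θ‖ = 1 ∧ ‖s‖ + 1 - δ < ‖s + θ • y‖ := by
  have hpos : 0 < ‖s‖ := by linarith
  set x : X := ((‖s‖⁻¹ : ℝ) : 𝕜) • s with hxdef
  have hx : ‖x‖ = 1 := by
    rw [hxdef, norm_smul, RCLike.norm_ofReal, abs_of_pos (by positivity)]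
    exact inv_mul_cancel₀ hpos.ne'
  obtain ⟨y, hy1, hy2, θ, hθ, hr⟩ := h.basic hX hx hU ha haU
    (show 0 < δ / ‖s‖ from div_pos hδ hpos)
  refine ⟨y, hy1, hy2, θ, hθ, ?_⟩
  have e1 : s = ((‖s‖ : ℝ) : 𝕜) • x := by
    rw [hxdef, smul_smul, ← RCLike.ofReal_mul, mul_inv_cancel₀ hpos.ne', RCLike.ofReal_one,
      one_smul]
  have e2 : ((‖s‖ : ℝ) : 𝕜) • (x + θ • y) = (s + θ • y) + (((‖s‖ - 1 : ℝ)) : 𝕜) • (θ • y) := by
    rw [smul_add, ← e1, RCLike.ofReal_sub, RCLike.ofReal_one, sub_smul, one_smul]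
    abel
  have e3 : ‖s‖ * ‖x + θ • y‖ ≤ ‖s + θ • y‖ + (‖s‖ - 1) := by
    calc ‖s‖ * ‖x + θ • y‖ = ‖((‖s‖ : ℝ) : 𝕜) • (x + θ • y)‖ := by
          rw [norm_smul, RCLike.norm_ofReal, abs_of_pos hpos]
      _ = ‖(s + θ • y) + (((‖s‖ - 1 : ℝ)) : 𝕜) • (θ • y)‖ := by rw [e2]
      _ ≤ ‖s + θ • y‖ + ‖(((‖s‖ - 1 : ℝ)) : 𝕜) • (θ • y)‖ := norm_add_le _ _
      _ ≤ _ := by
          rw [norm_smul, norm_smul, RCLike.norm_ofReal, abs_of_nonneg (by linarith), hθ, one_mul]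
          have := mul_le_mul_of_nonneg_left hy1 (by linarith : 0 ≤ ‖s‖ - 1)
          linarith
  have e4 : ‖s‖ * (2 - δ / ‖s‖) < ‖s‖ * ‖x + θ • y‖ := mul_lt_mul_of_pos_left hr hpos
  have e5 : ‖s‖ * (2 - δ / ‖s‖) = 2 * ‖s‖ - δ := by
    field_simp
  linarith

/-- Sequential version: finitely many weakly open sets at once. -/
theorem multi (hX : ¬ FiniteDimensional 𝕜 X) (h : SuperADP 𝕜 X) {x : X} (hx : ‖x‖ = 1) (n : ℕ)
    (U : ℕ → Set (WeakSpace 𝕜 X)) (hU : ∀ i, IsOpen (U i)) (a : ℕ → X) (ha : ∀ i, ‖a i‖ ≤ 1)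
    (haU : ∀ i, toWeakSpace 𝕜 X (a i) ∈ U i) :
    ∀ δ : ℝ, 0 < δ → δ ≤ 1 → ∃ (y : ℕ → X) (θ : ℕ → 𝕜), (∀ i, ‖y i‖ ≤ 1) ∧
      (∀ i, toWeakSpace 𝕜 X (y i) ∈ U i) ∧ (∀ i, ‖θ i‖ = 1) ∧
        (n : ℝ) + 1 - δ < ‖x + ∑ i ∈ Finset.range n, θ i • y i‖ := by
  induction n with
  | zero =>
    intro δ hδ _
    refine ⟨a, fun _ => 1, ha, haU, fun _ => norm_one, ?_⟩
    simp [hx, hδ]
  | succ n ih =>
    intro δ hδ hδ1
    obtain ⟨y, θ, hy, hyU, hθ, hs⟩ := ih (δ / 2) (by linarith) (by linarith)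
    set s : X := x + ∑ i ∈ Finset.range n, θ i • y i with hsdef
    have hs1 : 1 ≤ ‖s‖ := by
      rcases Nat.eq_zero_or_pos n with rfl | hn
      · rw [hsdef]
        simp [hx]
      · have : (1 : ℝ) ≤ n := by exact_mod_cast hn
        linarith
    obtain ⟨z, hz, hzU, τ, hτ, hzs⟩ := step hX h hs1 (hU n) (ha n) (haU n)
      (show 0 < δ / 2 by linarith)
    refine ⟨Function.update y n z, Function.update θ n τ, fun i => ?_, fun i => ?_, fun i => ?_, ?_⟩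
    · by_cases hi : i = n
      · subst hi; simpa using hz
      · simpa [Function.update_of_ne hi] using hy i
    · by_cases hi : i = n
      · subst hi; simpa using hzU
      · simpa [Function.update_of_ne hi] using hyU i
    · by_cases hi : i = n
      · subst hi; simpa using hτ
      · simpa [Function.update_of_ne hi] using hθ i
    · have e1 : ∑ i ∈ Finset.range n, Function.update θ n τ i • Function.update y n z i =
          ∑ i ∈ Finset.range n, θ i • y i := Finset.sum_congr rfl fun i hi => by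
        have : i ≠ n := (Finset.mem_range.1 hi).ne
        rw [Function.update_of_ne this, Function.update_of_ne this]
      rw [Finset.sum_range_succ, e1, Function.update_self, Function.update_self, ← add_assoc,
        ← hsdef]
      push_cast
      linarith

end

end Pool.Agent.R269.SD
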