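import Mathlib

/-!
# An extreme functional of the dual ball and its weak-star slices (Choquet's lemma)
-/

set_option autoImplicit false

open Filter Topology Metric Set

namespace Pool.Agent.R269.SD

section
variable {E : Type*} [AddCommGroup E] [Module ℝ E] [TopologicalSpace E] [T2Space E]
  [IsTopologicalAddGroup E] [ContinuousSMul ℝ E]

theorem isCompact_convexJoin {A B : Set E} (hA : IsCompact A) (hB : IsCompact B) :
    IsCompact (convexJoin ℝ A B) := by
  have h1 : IsCompact ((Icc (0 : ℝ) 1) ×ˢ (A ×ˢ B)) := isCompact_Icc.prod (hA.prod hB)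
  have h2 : Continuous fun q : ℝ × (E × E) => (1 - q.1) • q.2.1 + q.1 • q.2.2 := by fun_prop
  have h3 : convexJoin ℝ A B = (fun q : ℝ × (E × E) => (1 - q.1) • q.2.1 + q.1 • q.2.2) ''
      ((Icc (0 : ℝ) 1) ×ˢ (A ×ˢ B)) := by
    ext x
    rw [mem_convexJoin]
    constructor
    · rintro ⟨a, ha, b, hb, hx⟩
      rw [segment_eq_image] at hx
      obtain ⟨t, ht, rfl⟩ := hx
      exact ⟨(t, a, b), ⟨ht, ha, hb⟩, rfl⟩
    · rintro ⟨⟨t, a, b⟩, ⟨ht, ha, hb⟩, rfl⟩
      refine ⟨a, ha, b, hb, ?_⟩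
      rw [segment_eq_image]
      exact ⟨t, ht, rfl⟩
  rw [h3]
  exact h1.image h2

theorem exists_hull {K : Set E} {g : E} (hg : g ∈ K.extremePoints ℝ) {ι : Type*} (s : Finset ι)
    (P : ι → Set E) (hPc : ∀ i, IsCompact (P i)) (hPv : ∀ i, Convex ℝ (P i)) (hPK : ∀ i, P i ⊆ K)
    (hKv : Convex ℝ K) (hgP : ∀ i, g ∉ P i) :
    ∃ H : Set E, IsCompact H ∧ Convex ℝ H ∧ H ⊆ K ∧ g ∉ H ∧ ∀ i ∈ s, P i ⊆ H := by
  classical
  induction s using Finset.induction_on with
  | empty => exact ⟨∅, isCompact_empty, convex_empty, empty_subset _, notMem_empty _, by simp⟩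
  | insert i s _ ih =>
    obtain ⟨H, hHc, hHv, hHK, hgH, hPH⟩ := ih
    rcases H.eq_empty_or_nonempty with rfl | hHne
    · refine ⟨P i, hPc i, hPv i, hPK i, hgP i, fun j hj => ?_⟩
      rcases Finset.mem_insert.1 hj with rfl | hj
      · exact subset_rfl
      · exact (hPH j hj).trans (empty_subset _)
    rcases (P i).eq_empty_or_nonempty with hPe | hPne
    · refine ⟨H, hHc, hHv, hHK, hgH, fun j hj => ?_⟩
      rcases Finset.mem_insert.1 hj with rfl | hj
      · rw [hPe]; exact empty_subset _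
      · exact hPH j hj
    refine ⟨convexJoin ℝ H (P i), isCompact_convexJoin hHc (hPc i), hHv.convexJoin (hPv i),
      ?_, ?_, fun j hj => ?_⟩
    · intro x hx
      obtain ⟨a, ha, b, hb, hab⟩ := mem_convexJoin.1 hx
      exact hKv.segment_subset (hHK ha) (hPK i hb) hab
    · intro hmem
      obtain ⟨a, ha, b, hb, hab⟩ := mem_convexJoin.1 hmem
      have hne1 : a ≠ g := fun h => hgH (h ▸ ha)
      have hne2 : b ≠ g := fun h => hgP i (h ▸ hb)
      have hopen : g ∈ openSegment ℝ a b := mem_openSegment_of_ne_left_right hne1 hne2 hab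
      exact hne1 (hg.2 (hHK ha) (hPK i hb) hopen)
    · rcases Finset.mem_insert.1 hj with rfl | hj
      · exact subset_convexJoin_right hHne
      · exact (hPH j hj).trans (subset_convexJoin_left hPne)

end

/-- A functional `g₀` of norm at most one such that functionals which almost norm a suitable unit
vector `x` are close to `g₀` at finitely many prescribed points. -/
theorem exists_functional (X : Type*) [NormedAddCommGroup X] [NormedSpace ℝ X] [Nontrivial X] :
    ∃ g₀ : StrongDual ℝ X, ‖g₀‖ ≤ 1 ∧ ∀ (s : Finset X) (η : ℝ), 0 < η →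
      ∃ x : X, ‖x‖ = 1 ∧ ∃ δ : ℝ, 0 < δ ∧
        ∀ g : StrongDual ℝ X, ‖g‖ ≤ 1 → 1 - δ < g x → ∀ a ∈ s, |g a - g₀ a| < η := by
  classical
  set K : Set (WeakDual ℝ X) := WeakDual.toStrongDual ⁻¹' closedBall (0 : StrongDual ℝ X) 1
    with hK
  have hmem : ∀ g : WeakDual ℝ X, g ∈ K ↔ ‖WeakDual.toStrongDual g‖ ≤ 1 := fun g => by
    rw [hK, mem_preimage, mem_closedBall_zero_iff]
  have hKc : IsCompact K := WeakDual.isCompact_closedBall 0 1
  have hKv : Convex ℝ K := (convex_closedBall (0 : StrongDual ℝ X) 1).linear_preimage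
    (WeakDual.toStrongDual (𝕜 := ℝ) (E := X)).toLinearMap
  have hKne : K.Nonempty := ⟨0, by rw [hmem]; simp⟩
  haveI : LocallyConvexSpace ℝ (WeakDual ℝ X) :=
    inferInstanceAs (LocallyConvexSpace ℝ (WeakBilin (topDualPairing ℝ X)))
  haveI : T2Space (WeakDual ℝ X) := inferInstance
  haveI : IsTopologicalAddGroup (WeakDual ℝ X) :=
    inferInstanceAs (IsTopologicalAddGroup (WeakBilin (topDualPairing ℝ X)))
  obtain ⟨g₀, hg₀⟩ := hKc.extremePoints_nonempty hKne
  refine ⟨WeakDual.toStrongDual g₀, (hmem g₀).1 hg₀.1, fun s η hη => ?_⟩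
  have heval : ∀ a : X, Continuous fun g : WeakDual ℝ X => g a := fun a =>
    WeakDual.eval_continuous a
  -- the pieces of the complement of the neighbourhood
  set P : X × Bool → Set (WeakDual ℝ X) := fun q =>
    K ∩ (if q.2 then {g | η ≤ g q.1 - g₀ q.1} else {g | g q.1 - g₀ q.1 ≤ -η}) with hP
  have hPc : ∀ q, IsCompact (P q) := by
    intro q
    refine hKc.inter_right ?_
    rcases q with ⟨a, b⟩
    cases b
    · have h : IsClosed {g : WeakDual ℝ X | g a - g₀ a ≤ -η} :=
        isClosed_le ((heval a).sub continuous_const) continuous_const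
      exact h
    · have h : IsClosed {g : WeakDual ℝ X | η ≤ g a - g₀ a} :=
        isClosed_le continuous_const ((heval a).sub continuous_const)
      exact h
  have hPv : ∀ q, Convex ℝ (P q) := by
    intro q
    refine hKv.inter ?_
    rcases q with ⟨a, b⟩
    cases b
    · intro g hg h hh u v hu hv huv
      simp only [Bool.false_eq_true, if_false, mem_ofPred_eq] at hg hh ⊢
      have e : (u • g + v • h) a - g₀ a = u * (g a - g₀ a) + v * (h a - g₀ a) := by
        have : (u • g + v • h) a = u * g a + v * h a := rfl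
        rw [this]
        linear_combination (g₀ a) * huv
      rw [e]
      have e2 : -η = u * (-η) + v * (-η) := by linear_combination η * huv
      rw [e2]
      gcongr
    · intro g hg h hh u v hu hv huv
      simp only [if_true, mem_ofPred_eq] at hg hh ⊢
      have e : (u • g + v • h) a - g₀ a = u * (g a - g₀ a) + v * (h a - g₀ a) := by
        have : (u • g + v • h) a = u * g a + v * h a := rfl
        rw [this]
        linear_combination (g₀ a) * huv
      rw [e]
      have e2 : η = u * η + v * η := by linear_combination -η * huv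
      rw [e2]
      gcongr
  have hgP : ∀ q, g₀ ∉ P q := by
    rintro ⟨a, b⟩ ⟨-, h⟩
    cases b
    · simp only [Bool.false_eq_true, if_false, mem_ofPred_eq, sub_self] at h
      linarith
    · simp only [if_true, mem_ofPred_eq, sub_self] at h
      linarith
  obtain ⟨H, hHc, hHv, -, hgH, hPH⟩ := exists_hull hg₀ (s ×ˢ Finset.univ) P hPc hPv
    (fun q => inter_subset_left) hKv hgP
  -- separation
  obtain ⟨F, c, hFg, hFH⟩ := geometric_hahn_banach_point_closed hHv hHc.isClosed hgH
  obtain ⟨x₀, hx₀⟩ := (topDualPairing ℝ X).dualEmbedding_surjective F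
  have hFx : ∀ g : WeakDual ℝ X, F g = g x₀ := by
    intro g
    rw [← hx₀]
    rfl
  have hsep : ∀ g : WeakDual ℝ X, g ∈ K → g x₀ ≤ c → ∀ a ∈ s, |g a - g₀ a| < η := by
    intro g hgK hgc a ha
    by_contra hcon
    push Not at hcon
    have hgH' : g ∈ H := by
      rcases le_abs'.1 hcon with h | h
      · refine hPH (a, false) (Finset.mem_product.2 ⟨ha, Finset.mem_univ _⟩) ⟨hgK, ?_⟩
        simpa using h
      · refine hPH (a, true) (Finset.mem_product.2 ⟨ha, Finset.mem_univ _⟩) ⟨hgK, ?_⟩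
        simpa using h
    have := hFH g hgH'
    rw [hFx] at this
    linarith
  rw [hFx] at hFg
  by_cases hx : x₀ = 0
  · subst hx
    rw [map_zero] at hFg
    obtain ⟨z, hz⟩ := exists_ne (0 : X)
    refine ⟨‖z‖⁻¹ • z, ?_, 1, one_pos, fun g hg _ a ha => ?_⟩
    · rw [norm_smul, norm_inv, norm_norm]
      exact inv_mul_cancel₀ (norm_ne_zero_iff.2 hz)
    · refine hsep (StrongDual.toWeakDual g) ?_ ?_ a ha
      · rw [hmem]
        exact hg
      · rw [map_zero]
        exact hFg.le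
  · have hpos : 0 < ‖x₀‖ := norm_pos_iff.2 hx
    have hneg : -‖x₀‖ < c := by
      have h1 : ‖(WeakDual.toStrongDual g₀) x₀‖ ≤ 1 * ‖x₀‖ :=
        (WeakDual.toStrongDual g₀).le_of_opNorm_le ((hmem g₀).1 hg₀.1) x₀
      rw [one_mul, Real.norm_eq_abs] at h1
      have h2 := neg_le_of_abs_le h1
      have h3 : (WeakDual.toStrongDual g₀) x₀ = g₀ x₀ := rfl
      rw [h3] at h2
      linarith
    refine ⟨-(‖x₀‖⁻¹ • x₀), ?_, (‖x₀‖ + c) / ‖x₀‖, div_pos (by linarith) hpos,
      fun g hg hgx a ha => ?_⟩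
    · rw [norm_neg, norm_smul, norm_inv, norm_norm]
      exact inv_mul_cancel₀ hpos.ne'
    · refine hsep (StrongDual.toWeakDual g) ?_ ?_ a ha
      · rw [hmem]
        exact hg
      · change g x₀ ≤ c
        rw [map_neg, map_smul, smul_eq_mul] at hgx
        have h4 : 1 - (‖x₀‖ + c) / ‖x₀‖ = -(‖x₀‖⁻¹ * c) := by
          field_simp
          ring
        rw [h4] at hgx
        have h5 : ‖x₀‖⁻¹ * g x₀ < ‖x₀‖⁻¹ * c := by linarith
        exact (lt_of_mul_lt_mul_left h5 (by positivity)).le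

/-- The same over the real or complex numbers. -/
theorem exists_functional' (𝕜 X : Type*) [RCLike 𝕜] [NormedAddCommGroup X] [NormedSpace 𝕜 X]
    [Nontrivial X] :
    ∃ g₀ : StrongDual 𝕜 X, ∀ (s : Finset X) (η : ℝ), 0 < η →
      ∃ x : X, ‖x‖ = 1 ∧ ∃ δ : ℝ, 0 < δ ∧
        ∀ g : StrongDual 𝕜 X, ‖g‖ ≤ 1 → 1 - δ < RCLike.re (g x) → ∀ a ∈ s, ‖g a - g₀ a‖ < η := by
  classical
  letI : NormedSpace ℝ X := NormedSpace.restrictScalars ℝ 𝕜 X
  haveI : IsScalarTower ℝ 𝕜 X := ⟨fun r c x => by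
    change (r • c) • x = (algebraMap ℝ 𝕜 r) • (c • x)
    rw [Algebra.smul_def, mul_smul]⟩
  obtain ⟨g₀, -, h⟩ := exists_functional X
  refine ⟨g₀.extendRCLike, fun s η hη => ?_⟩
  obtain ⟨x, hx, δ, hδ, hg⟩ := h (s ∪ s.image fun a => (RCLike.I : 𝕜) • a) (η / 2) (by linarith)
  refine ⟨x, hx, δ, hδ, fun g hgn hgx a ha => ?_⟩
  set r : StrongDual ℝ X := (RCLike.reCLM : 𝕜 →L[ℝ] ℝ).comp (g.restrictScalars ℝ) with hr
  have hrv : ∀ y, r y = RCLike.re (g y) := fun y => rfl
  have hrn : ‖r‖ ≤ 1 := by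
    refine ContinuousLinearMap.opNorm_le_bound _ zero_le_one fun y => ?_
    rw [hrv, one_mul, Real.norm_eq_abs]
    refine (RCLike.abs_re_le_norm _).trans ?_
    have := g.le_of_opNorm_le hgn y
    rwa [one_mul] at this
  have h1 := hg r hrn hgx a (Finset.mem_union_left _ ha)
  have h2 := hg r hrn hgx ((RCLike.I : 𝕜) • a)
    (Finset.mem_union_right _ (Finset.mem_image_of_mem _ ha))
  set z : 𝕜 := g a - g₀.extendRCLike a with hz
  have hre : RCLike.re z = r a - g₀ a := by
    rw [hz, map_sub, hrv]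
    congr 1
    exact StrongDual.re_extendRCLike_apply g₀ a
  have him : RCLike.im z = -(r ((RCLike.I : 𝕜) • a) - g₀ ((RCLike.I : 𝕜) • a)) := by
    rw [hz, map_sub, hrv, map_smul, smul_eq_mul, RCLike.I_mul_re,
      StrongDual.im_extendRCLike_apply]
    ring
  have hn : ‖z‖ ≤ |RCLike.re z| + |RCLike.im z| := by
    calc ‖z‖ = ‖((RCLike.re z : ℝ) : 𝕜) + ((RCLike.im z : ℝ) : 𝕜) * RCLike.I‖ := by
          rw [RCLike.re_add_im]
      _ ≤ ‖((RCLike.re z : ℝ) : 𝕜)‖ + ‖((RCLike.im z : ℝ) : 𝕜) * RCLike.I‖ := norm_add_le _ _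
      _ ≤ _ := by
          rw [norm_mul, RCLike.norm_ofReal, RCLike.norm_ofReal]
          have : ‖(RCLike.I : 𝕜)‖ ≤ 1 := by
            rcases eq_or_ne (RCLike.I : 𝕜) 0 with h0 | h0
            · rw [h0, norm_zero]
              exact zero_le_one
            · rw [RCLike.norm_I_of_ne_zero h0]
          have := mul_le_mul_of_nonneg_left this (abs_nonneg (RCLike.im z))
          linarith
  rw [hre, him, abs_neg] at hn
  linarith

end Pool.Agent.R269.SD
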