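import Pool.Agent.R269.SDBasic

/-!
# Unconditional expansions and the super alternative Daugavet property
-/

set_option autoImplicit false

open Filter Topology Metric Set

namespace Pool.Agent.R269.SD

section
variable {β 𝕜 X : Type*} [RCLike 𝕜] [NormedAddCommGroup X] [NormedSpace 𝕜 X]

theorem norm_le_re_add_im (z : 𝕜) : ‖z‖ ≤ |RCLike.re z| + |RCLike.im z| := by
  calc ‖z‖ = ‖((RCLike.re z : ℝ) : 𝕜) + ((RCLike.im z : ℝ) : 𝕜) * RCLike.I‖ := by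
        rw [RCLike.re_add_im]
    _ ≤ ‖((RCLike.re z : ℝ) : 𝕜)‖ + ‖((RCLike.im z : ℝ) : 𝕜) * RCLike.I‖ := norm_add_le _ _
    _ ≤ _ := by
        rw [norm_mul, RCLike.norm_ofReal, RCLike.norm_ofReal]
        have h8 : ‖(RCLike.I : 𝕜)‖ ≤ 1 := by
          rcases eq_or_ne (RCLike.I : 𝕜) 0 with h0 | h0
          · rw [h0, norm_zero]
            exact zero_le_one
          · rw [RCLike.norm_I_of_ne_zero h0]
        have := mul_le_mul_of_nonneg_left h8 (abs_nonneg (RCLike.im z))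
        linarith

theorem norm_apply_le {g : StrongDual 𝕜 X} (hg : ‖g‖ ≤ 1) (x : X) : ‖g x‖ ≤ ‖x‖ := by
  have := g.le_of_opNorm_le hg x
  rwa [one_mul] at this

theorem sum_abs_le {f : β → X} {A : Finset β} {r : ℝ} (h : ∀ t ⊆ A, ‖∑ i ∈ t, f i‖ ≤ r)
    {g : StrongDual 𝕜 X} (hg : ‖g‖ ≤ 1) (ρ : 𝕜 →+ ℝ) (hρ : ∀ z, |ρ z| ≤ ‖z‖) :
    ∑ i ∈ A, |ρ (g (f i))| ≤ 2 * r := by
  classical
  have key : ∀ t ⊆ A, |∑ i ∈ t, ρ (g (f i))| ≤ r := by
    intro t ht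
    rw [← map_sum, ← map_sum]
    exact (hρ _).trans ((norm_apply_le hg _).trans (h t ht))
  rw [← Finset.sum_filter_add_sum_filter_not A (fun i => 0 ≤ ρ (g (f i)))]
  have e1 : ∑ i ∈ A with 0 ≤ ρ (g (f i)), |ρ (g (f i))| =
      ∑ i ∈ A with 0 ≤ ρ (g (f i)), ρ (g (f i)) :=
    Finset.sum_congr rfl fun i hi => abs_of_nonneg (Finset.mem_filter.1 hi).2
  have e2 : ∑ i ∈ A with ¬ 0 ≤ ρ (g (f i)), |ρ (g (f i))| =
      -∑ i ∈ A with ¬ 0 ≤ ρ (g (f i)), ρ (g (f i)) := by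
    rw [← Finset.sum_neg_distrib]
    exact Finset.sum_congr rfl fun i hi => abs_of_neg (not_le.1 (Finset.mem_filter.1 hi).2)
  rw [e1, e2]
  have k1 := key _ (Finset.filter_subset (fun i => 0 ≤ ρ (g (f i))) A)
  have k2 := key _ (Finset.filter_subset (fun i => ¬ 0 ≤ ρ (g (f i))) A)
  have k3 := le_of_abs_le k1
  have k4 := neg_le_of_abs_le k2
  linarith

theorem sum_norm_le {f : β → X} {A : Finset β} {r : ℝ} (h : ∀ t ⊆ A, ‖∑ i ∈ t, f i‖ ≤ r)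
    {g : StrongDual 𝕜 X} (hg : ‖g‖ ≤ 1) : ∑ i ∈ A, ‖g (f i)‖ ≤ 4 * r := by
  have h1 := sum_abs_le h hg RCLike.re (fun z => RCLike.abs_re_le_norm z)
  have h2 := sum_abs_le h hg RCLike.im (fun z => RCLike.abs_im_le_norm z)
  have h3 : ∑ i ∈ A, ‖g (f i)‖ ≤
      ∑ i ∈ A, |RCLike.re (g (f i))| + ∑ i ∈ A, |RCLike.im (g (f i))| := by
    rw [← Finset.sum_add_distrib]
    exact Finset.sum_le_sum fun i _ => norm_le_re_add_im _
  linarith

/-- The terms of the expansion. -/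
def fr (e : β → X) (c : β → StrongDual 𝕜 X) (x : X) (i : β) : X := c i x • e i

theorem fr_add (e : β → X) (c : β → StrongDual 𝕜 X) (x y : X) (i : β) :
    fr e c (x + y) i = fr e c x i + fr e c y i := by
  simp [fr, add_smul]

theorem fr_sub (e : β → X) (c : β → StrongDual 𝕜 X) (x y : X) (i : β) :
    fr e c (x - y) i = fr e c x i - fr e c y i := by
  simp [fr, sub_smul]

theorem fr_smul (e : β → X) (c : β → StrongDual 𝕜 X) (t : 𝕜) (x : X) (i : β) :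
    fr e c (t • x) i = t • fr e c x i := by
  simp [fr, smul_smul]

variable {e : β → X} {c : β → StrongDual 𝕜 X}

theorem exists_tail (hexp : ∀ x, HasSum (fr e c x) x) (x : X) {ε : ℝ} (hε : 0 < ε) :
    ∃ T : Finset β, ∀ A : Finset β, Disjoint A T → ∀ g : StrongDual 𝕜 X, ‖g‖ ≤ 1 →
      ∑ i ∈ A, ‖g (fr e c x i)‖ ≤ ε := by
  classical
  have h0 : Tendsto (fun s : Finset β => ∑ i ∈ s, fr e c x i) atTop (𝓝 x) := hexp x
  have h1 : CauchySeq fun s : Finset β => ∑ i ∈ s, fr e c x i := h0.cauchySeq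
  have h2 := (cauchySeq_finset_iff_vanishing_norm.1 h1) (ε / 4) (by linarith)
  obtain ⟨T, hT⟩ := h2
  refine ⟨T, fun A hA g hg => ?_⟩
  have := sum_norm_le (r := ε / 4) (f := fr e c x) (A := A)
    (fun t ht => (hT t (Finset.disjoint_of_subset_left ht hA)).le) hg
  linarith

theorem exists_bound [CompleteSpace X] (hexp : ∀ x, HasSum (fr e c x) x) :
    ∃ K : ℝ, ∀ (A : Finset β) (x : X), ‖x‖ ≤ 1 → ∀ g : StrongDual 𝕜 X, ‖g‖ ≤ 1 →
      ∑ i ∈ A, ‖g (fr e c x i)‖ ≤ K := by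
  classical
  obtain ⟨K, hK⟩ := banach_steinhaus (g := fun A : Finset β =>
    (∑ i ∈ A, (c i).smulRight (e i) : X →L[𝕜] X)) (fun x => by
      have h0 : Tendsto (fun s : Finset β => ∑ i ∈ s, fr e c x i) atTop (𝓝 x) := hexp x
      have h1 : CauchySeq fun s : Finset β => ∑ i ∈ s, fr e c x i := h0.cauchySeq
      obtain ⟨T, hT⟩ := (cauchySeq_finset_iff_vanishing_norm.1 h1) 1 one_pos
      refine ⟨∑ i ∈ T, ‖fr e c x i‖ + 1, fun A => ?_⟩
      have e1 : (∑ i ∈ A, (c i).smulRight (e i) : X →L[𝕜] X) x = ∑ i ∈ A, fr e c x i := by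
        simp [fr]
      rw [e1, ← Finset.sum_inter_add_sum_sdiff A T]
      have h2 : ‖∑ i ∈ A ∩ T, fr e c x i‖ ≤ ∑ i ∈ T, ‖fr e c x i‖ :=
        (norm_sum_le _ _).trans (Finset.sum_le_sum_of_subset_of_nonneg Finset.inter_subset_right
          fun _ _ _ => norm_nonneg _)
      have h3 : ‖∑ i ∈ A \ T, fr e c x i‖ < 1 := hT _ Finset.sdiff_disjoint
      exact (norm_add_le _ _).trans (by linarith))
  refine ⟨4 * K, fun A x hx g hg => sum_norm_le (fun t _ => ?_) hg⟩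
  have e1 : ∑ i ∈ t, fr e c x i = (∑ i ∈ t, (c i).smulRight (e i) : X →L[𝕜] X) x := by
    simp [fr]
  rw [e1]
  have h4 := (∑ i ∈ t, (c i).smulRight (e i) : X →L[𝕜] X).le_of_opNorm_le (hK t) x
  have h5 : 0 ≤ K := (norm_nonneg _).trans (hK t)
  calc _ ≤ K * ‖x‖ := h4
    _ ≤ K * 1 := mul_le_mul_of_nonneg_left hx h5
    _ = K := mul_one K

theorem norm_sub_one_sq {z : 𝕜} (hz : ‖z‖ ≤ 1) : ‖z - 1‖ ^ 2 ≤ 2 - 2 * RCLike.re z := by
  have h1 : ‖z - 1‖ ^ 2 = ‖z‖ ^ 2 - 2 * RCLike.re z + 1 := by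
    rw [RCLike.norm_sq_eq_def, RCLike.norm_sq_eq_def]
    simp only [map_sub, RCLike.one_re, RCLike.one_im, sub_zero]
    ring
  rw [h1]
  have h2 : ‖z‖ ^ 2 ≤ 1 := pow_le_one₀ (norm_nonneg _) hz
  linarith

/-- One more vector. -/
theorem extend (hX : ¬ FiniteDimensional 𝕜 X) (h : SuperADP 𝕜 X)
    (hexp : ∀ x, HasSum (fr e c x) x) {s : X} (hs : 1 ≤ ‖s‖) {a : X} (ha : ‖a‖ ≤ 1)
    (N : Finset β) {ε : ℝ} (hε : 0 < ε) :
    ∃ (S z : X) (θ : 𝕜) (A : Finset β) (ε₁ : ℝ), 0 < ε₁ ∧ 1 ≤ ‖S‖ ∧ ‖z‖ ≤ 1 ∧ ‖θ‖ = 1 ∧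
      Disjoint A N ∧ ∑ i ∈ N, ‖fr e c (z - θ • a) i‖ < ε ∧
      ∀ g : StrongDual 𝕜 X, ‖g‖ ≤ 1 → ‖S‖ - ε₁ < RCLike.re (g S) →
        ‖s‖ - ε < RCLike.re (g s) ∧ ‖g z - 1‖ < ε ∧
          ‖g z - ∑ i ∈ N, g (fr e c z i)‖ - ε ≤ ∑ i ∈ A, ‖g (fr e c z i)‖ := by
  classical
  set R : ℝ := 1 + ∑ i ∈ N, ‖e i‖ with hR
  have hRpos : 0 < R := by
    have := Finset.sum_nonneg (s := N) fun i _ => norm_nonneg (e i)
    linarith
  set r : ℝ := ε / R with hr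
  have hrpos : 0 < r := div_pos hε hRpos
  set U : Set (WeakSpace 𝕜 X) := {y | ∀ i ∈ N, ‖c i ((toWeakSpace 𝕜 X).symm y) - c i a‖ < r}
    with hU
  have hUo : IsOpen U := Pool.Agent.R271.isOpen_weak_finset N c (fun i => c i a) r
  have haU : toWeakSpace 𝕜 X a ∈ U := fun i _ => by
    rw [LinearEquiv.symm_apply_apply, sub_self, norm_zero]
    exact hrpos
  set δ : ℝ := min (min (ε / 4) (ε ^ 2 / 8)) 1 with hδdef
  have hδ : 0 < δ := lt_min (lt_min (by positivity) (by positivity)) one_pos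
  have hδ1 : δ ≤ ε / 4 := (min_le_left _ _).trans (min_le_left _ _)
  have hδ2 : δ ≤ ε ^ 2 / 8 := (min_le_left _ _).trans (min_le_right _ _)
  have hδ3 : δ ≤ 1 := min_le_right _ _
  obtain ⟨y, hy, hyU, θ, hθ, hS⟩ := step hX h hs hUo ha haU hδ
  have hz : ‖θ • y‖ ≤ 1 := by rw [norm_smul, hθ, one_mul]; exact hy
  -- the tail of `z`
  have htail : ∀ᶠ T : Finset β in atTop, ‖(∑ i ∈ T, fr e c (θ • y) i) - θ • y‖ < ε := by
    have h1 : Tendsto (fun T : Finset β => ∑ i ∈ T, fr e c (θ • y) i) atTop (𝓝 (θ • y)) :=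
      hexp (θ • y)
    have h2 := (Metric.tendsto_nhds.1 h1) ε hε
    filter_upwards [h2] with T hT
    rwa [dist_eq_norm] at hT
  obtain ⟨T, hT, hNT⟩ := (htail.and (eventually_ge_atTop N)).exists
  refine ⟨s + θ • y, θ • y, θ, T \ N, δ, hδ, by linarith, hz, hθ, Finset.sdiff_disjoint, ?_,
    fun g hg hgS => ?_⟩
  · have e1 : ∀ i ∈ N, ‖fr e c (θ • y - θ • a) i‖ ≤ r * ‖e i‖ := by
      intro i hi
      have h1 := hyU i hi
      rw [LinearEquiv.symm_apply_apply] at h1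
      rw [← smul_sub, fr_smul, norm_smul, hθ, one_mul]
      unfold fr
      rw [norm_smul, map_sub]
      exact mul_le_mul_of_nonneg_right h1.le (norm_nonneg _)
    calc ∑ i ∈ N, ‖fr e c (θ • y - θ • a) i‖ ≤ ∑ i ∈ N, r * ‖e i‖ := Finset.sum_le_sum e1
      _ = r * ∑ i ∈ N, ‖e i‖ := by rw [Finset.mul_sum]
      _ < r * R := mul_lt_mul_of_pos_left (by rw [hR]; linarith) hrpos
      _ = ε := by rw [hr]; field_simp
  · have hre : ∀ w : X, RCLike.re (g w) ≤ ‖w‖ := fun w =>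
      (RCLike.re_le_norm _).trans (norm_apply_le hg w)
    rw [map_add, map_add] at hgS
    have k1 : RCLike.re (g s) ≤ ‖s‖ := hre s
    have k2 : RCLike.re (g (θ • y)) ≤ 1 := (hre _).trans hz
    refine ⟨by linarith, ?_, ?_⟩
    · have k3 : 1 - 2 * δ < RCLike.re (g (θ • y)) := by linarith
      have k4 := norm_sub_one_sq (z := g (θ • y)) ((norm_apply_le hg _).trans hz)
      have k5 : ‖g (θ • y) - 1‖ ^ 2 < ε ^ 2 := by
        have : 0 < ε ^ 2 := by positivity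
        linarith
      exact lt_of_pow_lt_pow_left₀ 2 hε.le k5
    · have k6 : ∑ i ∈ T, g (fr e c (θ • y) i) =
          ∑ i ∈ N, g (fr e c (θ • y) i) + ∑ i ∈ T \ N, g (fr e c (θ • y) i) := by
        rw [add_comm, Finset.sum_sdiff hNT]
      have k7 : ‖∑ i ∈ T, g (fr e c (θ • y) i) - g (θ • y)‖ ≤ ε := by
        rw [← map_sum, ← map_sub]
        exact (norm_apply_le hg _).trans hT.le
      have k8 : g (θ • y) - ∑ i ∈ N, g (fr e c (θ • y) i) =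
          ∑ i ∈ T \ N, g (fr e c (θ • y) i) -
            (∑ i ∈ T, g (fr e c (θ • y) i) - g (θ • y)) := by
        rw [k6]
        abel
      rw [k8]
      have k9 := norm_sub_le (∑ i ∈ T \ N, g (fr e c (θ • y) i))
        (∑ i ∈ T, g (fr e c (θ • y) i) - g (θ • y))
      have k10 := norm_sum_le (T \ N) fun i => g (fr e c (θ • y) i)
      linarith

theorem norm_half : ‖(1 / 2 : 𝕜)‖ = 1 / 2 := by
  rw [norm_div, norm_one, RCLike.norm_two]

theorem piece {g : StrongDual 𝕜 X} (hg : ‖g‖ ≤ 1) {θ : 𝕜} (hθ : ‖θ‖ = 1) {f p u w : β → X}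
    (hf : ∀ i, f i = p i + θ • ((1 / 2 : 𝕜) • (u i - w i))) (A : Finset β) {η₁ η₂ M : ℝ}
    (hp : ∑ i ∈ A, ‖p i‖ ≤ η₁) (hw : ∑ i ∈ A, ‖g (w i)‖ ≤ η₂) (hu : M ≤ ∑ i ∈ A, ‖g (u i)‖) :
    (1 / 2) * M - (1 / 2) * η₂ - η₁ ≤ ∑ i ∈ A, ‖g (f i)‖ := by
  have hlow : ∀ i, (1 / 2) * ‖g (u i)‖ - (1 / 2) * ‖g (w i)‖ - ‖p i‖ ≤ ‖g (f i)‖ := by
    intro i
    have e1 : g (f i) = g (p i) + θ • ((1 / 2 : 𝕜) • (g (u i) - g (w i))) := by
      rw [hf i, map_add, map_smul, map_smul, map_sub]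
    have e2 : ‖θ • ((1 / 2 : 𝕜) • (g (u i) - g (w i)))‖ ≤ ‖g (f i)‖ + ‖g (p i)‖ := by
      have e3 : θ • ((1 / 2 : 𝕜) • (g (u i) - g (w i))) = g (f i) - g (p i) := by
        rw [e1]
        abel
      rw [e3]
      exact norm_sub_le _ _
    rw [norm_smul, norm_smul, hθ, one_mul, norm_half] at e2
    have e3 := norm_apply_le hg (p i)
    have e4 := norm_sub_norm_le (g (u i)) (g (w i))
    linarith
  have v1 := Finset.sum_le_sum fun i (_ : i ∈ A) => hlow i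
  rw [Finset.sum_sub_distrib, Finset.sum_sub_distrib, ← Finset.mul_sum, ← Finset.mul_sum] at v1
  linarith

theorem one_le_of {z w : 𝕜} : (1 : ℝ) ≤ ‖z - w‖ + ‖w‖ + ‖z - 1‖ := by
  have e1 : (1 : 𝕜) = (z - w) + w - (z - 1) := by abel
  calc (1 : ℝ) = ‖(1 : 𝕜)‖ := norm_one.symm
    _ = ‖(z - w) + w - (z - 1)‖ := by rw [← e1]
    _ ≤ _ := (norm_sub_le _ _).trans (by gcongr; exact norm_add_le _ _)

theorem last_piece {g : StrongDual 𝕜 X} (hg : ‖g‖ ≤ 1) {θ : 𝕜} (hθ : ‖θ‖ = 1) {f p q : β → X}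
    (hf : ∀ i, f i = p i + θ • q i) {a z : X} (N A : Finset β) {η : ℝ}
    (hp : ∑ i ∈ N, ‖p i‖ ≤ η) (hq : ‖(∑ i ∈ N, q i) - a‖ ≤ η) (ha : ‖g a‖ ≤ η)
    (hz : ‖g z - 1‖ ≤ η) (hA : ‖g z - ∑ i ∈ N, g (f i)‖ - η ≤ ∑ i ∈ A, ‖g (f i)‖) :
    1 - 5 * η ≤ ∑ i ∈ A, ‖g (f i)‖ := by
  have v2 : ‖∑ i ∈ N, g (q i)‖ ≤ 2 * η := by
    have e1 : ∑ i ∈ N, g (q i) = g ((∑ i ∈ N, q i) - a) + g a := by
      rw [map_sub, map_sum]
      abel
    rw [e1]
    have e2 := norm_apply_le hg ((∑ i ∈ N, q i) - a)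
    have e3 := norm_add_le (g ((∑ i ∈ N, q i) - a)) (g a)
    linarith
  have v3 : ‖∑ i ∈ N, g (f i)‖ ≤ 3 * η := by
    have e1 : ∑ i ∈ N, g (f i) = ∑ i ∈ N, g (p i) + θ • ∑ i ∈ N, g (q i) := by
      rw [Finset.smul_sum, ← Finset.sum_add_distrib]
      refine Finset.sum_congr rfl fun i _ => ?_
      rw [hf i, map_add, map_smul]
    rw [e1]
    have e2 : ‖∑ i ∈ N, g (p i)‖ ≤ η := by
      refine (norm_sum_le _ _).trans (le_trans ?_ hp)
      exact Finset.sum_le_sum fun i _ => norm_apply_le hg _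
    have e3 := norm_add_le (∑ i ∈ N, g (p i)) (θ • ∑ i ∈ N, g (q i))
    rw [norm_smul, hθ, one_mul] at e3
    linarith
  have v4 := one_le_of (z := g z) (w := ∑ i ∈ N, g (f i))
  linarith

/-- The main induction: vectors with large coefficient sums. -/
theorem main_induction (hX : ¬ FiniteDimensional 𝕜 X) (h : SuperADP 𝕜 X)
    (hexp : ∀ x, HasSum (fr e c x) x) (m : ℕ) :
    ∀ (s : X), 1 ≤ ‖s‖ → ∀ (N : Finset β) (ε : ℝ), 0 < ε →
    ∃ (S z : X) (A : Finset β) (ε₁ : ℝ), 0 < ε₁ ∧ 1 ≤ ‖S‖ ∧ ‖z‖ ≤ 1 ∧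
      Disjoint A N ∧ ∑ i ∈ N, ‖fr e c z i‖ < ε ∧
      ∀ g : StrongDual 𝕜 X, ‖g‖ ≤ 1 → ‖S‖ - ε₁ < RCLike.re (g S) →
        ‖s‖ - ε < RCLike.re (g s) ∧ ‖g z - 1‖ < ε ∧
          (m : ℝ) + 1 - ε ≤ ∑ i ∈ A, ‖g (fr e c z i)‖ := by
  classical
  induction m with
  | zero =>
    intro s hs N ε hε
    obtain ⟨S, z, θ, A, ε₁, hε₁, hS, hz, -, hA, hN, hg⟩ := extend hX h hexp hs
      (a := 0) (by simp) N (show 0 < ε / 4 by linarith only [hε])
    rw [smul_zero, sub_zero] at hN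
    refine ⟨S, z, A, ε₁, hε₁, hS, hz, hA, by linarith only [hN, hε], fun g hg1 hg2 => ?_⟩
    obtain ⟨h1, h2, h3⟩ := hg g hg1 hg2
    refine ⟨by linarith only [h1, hε], by linarith only [h2, hε], ?_⟩
    have h4 : ‖∑ i ∈ N, g (fr e c z i)‖ ≤ ε / 4 := by
      refine (norm_sum_le _ _).trans (le_trans ?_ hN.le)
      exact Finset.sum_le_sum fun i _ => norm_apply_le hg1 _
    have h5 := one_le_of (z := g z) (w := ∑ i ∈ N, g (fr e c z i))
    rw [Nat.cast_zero]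
    linarith only [h2, h3, h4, h5, hε]
  | succ m ih =>
    intro s hs N ε hε
    obtain ⟨ε', hε'⟩ : ∃ ε' : ℝ, ε' = ε / 16 := ⟨_, rfl⟩
    have hε'pos : 0 < ε' := by rw [hε']; positivity
    obtain ⟨S₁, z₁, A₁, ε₁, hε₁, hS₁, hz₁, hA₁, hN₁, hg₁⟩ := ih s hs N ε' hε'pos
    obtain ⟨T₁, hT₁⟩ := exists_tail hexp z₁ hε'pos
    obtain ⟨N₁, hN₁def⟩ : ∃ N₁ : Finset β, N₁ = N ∪ A₁ ∪ T₁ := ⟨_, rfl⟩
    obtain ⟨S₂, z₂, A₂, ε₂, hε₂, hS₂, hz₂, hA₂, hN₂, hg₂⟩ := ih S₁ hS₁ N₁ (min ε₁ ε')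
      (lt_min hε₁ hε'pos)
    clear ih
    obtain ⟨a, hadef⟩ : ∃ a : X, a = (1 / 2 : 𝕜) • (z₁ - z₂) := ⟨_, rfl⟩
    have ha : ‖a‖ ≤ 1 := by
      rw [hadef, norm_smul, norm_half]
      have := norm_sub_le z₁ z₂
      linarith only [this, hz₁, hz₂]
    have htail : ∀ᶠ T : Finset β in atTop, ‖(∑ i ∈ T, fr e c a i) - a‖ < ε' := by
      have h1 : Tendsto (fun T : Finset β => ∑ i ∈ T, fr e c a i) atTop (𝓝 a) := hexp a
      have h2 := (Metric.tendsto_nhds.1 h1) ε' hε'pos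
      filter_upwards [h2] with T hT
      rwa [dist_eq_norm] at hT
    obtain ⟨N₂, hN₂a, hN₂sub⟩ := (htail.and (eventually_ge_atTop (N₁ ∪ A₂))).exists
    obtain ⟨S, z, θ, A₃, ε₃, hε₃, hS, hz, hθ, hA₃, hN₃, hg₃⟩ := extend hX h hexp hS₂ ha N₂
      (lt_min hε₂ hε'pos)
    have hmin1 : min ε₁ ε' ≤ ε₁ := min_le_left _ _
    have hmin1' : min ε₁ ε' ≤ ε' := min_le_right _ _
    have hmin2 : min ε₂ ε' ≤ ε₂ := min_le_left _ _
    have hmin2' : min ε₂ ε' ≤ ε' := min_le_right _ _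
    -- inclusions
    have sN : N ⊆ N₁ := by
      rw [hN₁def]; exact Finset.subset_union_left.trans Finset.subset_union_left
    have sA₁ : A₁ ⊆ N₁ := by
      rw [hN₁def]; exact Finset.subset_union_right.trans Finset.subset_union_left
    have sT₁ : T₁ ⊆ N₁ := by rw [hN₁def]; exact Finset.subset_union_right
    have sN₁ : N₁ ⊆ N₂ := Finset.subset_union_left.trans hN₂sub
    have sA₂ : A₂ ⊆ N₂ := Finset.subset_union_right.trans hN₂sub
    -- the terms of `z`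
    have hfa : ∀ i, fr e c a i = (1 / 2 : 𝕜) • (fr e c z₁ i - fr e c z₂ i) := fun i => by
      rw [hadef, fr_smul, fr_sub]
    have hga : ∀ g : StrongDual 𝕜 X, g a = (1 / 2 : 𝕜) • ((g z₁ - 1) - (g z₂ - 1)) := fun g => by
      rw [hadef, map_smul, map_sub, sub_sub_sub_cancel_right]
    have hterm' : ∀ i, fr e c z i = fr e c (z - θ • a) i + θ • fr e c a i := fun i => by
      rw [← fr_smul, ← fr_add, sub_add_cancel]
    have hterm : ∀ i, fr e c z i = fr e c (z - θ • a) i +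
        θ • ((1 / 2 : 𝕜) • (fr e c z₁ i - fr e c z₂ i)) := fun i => by
      rw [hterm' i, hfa i]
    have hterm2 : ∀ i, fr e c z i = fr e c (z - θ • a) i +
        (-θ) • ((1 / 2 : 𝕜) • (fr e c z₂ i - fr e c z₁ i)) := fun i => by
      rw [hterm i, neg_smul, ← smul_neg, ← smul_neg, neg_sub]
    clear hadef hfa htail
    have hsmall : ∀ B ⊆ N₂, ∑ i ∈ B, ‖fr e c (z - θ • a) i‖ ≤ ε' := fun B hB =>
      ((Finset.sum_le_sum_of_subset_of_nonneg hB fun _ _ _ => norm_nonneg _).trans hN₃.le).trans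
        hmin2'
    have hsmall₂ : ∀ B ⊆ N₁, ∑ i ∈ B, ‖fr e c z₂ i‖ ≤ ε' := fun B hB =>
      ((Finset.sum_le_sum_of_subset_of_nonneg hB fun _ _ _ => norm_nonneg _).trans hN₂.le).trans
        hmin1'
    refine ⟨S, z, A₁ ∪ A₂ ∪ A₃, ε₃, hε₃, hS, hz, ?_, ?_, fun g hg hgS => ?_⟩
    · rw [Finset.disjoint_union_left, Finset.disjoint_union_left]
      exact ⟨⟨hA₁, Finset.disjoint_of_subset_right sN hA₂⟩,
        Finset.disjoint_of_subset_right (sN.trans sN₁) hA₃⟩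
    · have k1 : ∀ i ∈ N, ‖fr e c z i‖ ≤ ‖fr e c (z - θ • a) i‖ +
          (1 / 2) * (‖fr e c z₁ i‖ + ‖fr e c z₂ i‖) := by
        intro i _
        rw [hterm i]
        refine (norm_add_le _ _).trans ?_
        rw [norm_smul, norm_smul, hθ, one_mul, norm_half]
        gcongr
        exact norm_sub_le _ _
      have k2 := Finset.sum_le_sum k1
      rw [Finset.sum_add_distrib, ← Finset.mul_sum, Finset.sum_add_distrib] at k2
      have k3 := hsmall N (sN.trans sN₁)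
      have k4 := hsmall₂ N sN
      have k5 : 16 * ε' = ε := by rw [hε']; ring
      linarith only [k2, k3, k4, k5, hN₁, hε'pos]
    · obtain ⟨p1, p2, p3⟩ := hg₃ g hg hgS
      obtain ⟨q1, q2, q3⟩ := hg₂ g hg (by linarith only [p1, hmin2])
      obtain ⟨r1, r2, r3⟩ := hg₁ g hg (by linarith only [q1, hmin1])
      have k5 : 16 * ε' = ε := by rw [hε']; ring
      refine ⟨by linarith only [r1, k5, hε'pos], by linarith only [p2, hmin2', k5, hε'pos], ?_⟩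
      -- lower bounds on the three pieces
      have u1 := piece hg hθ hterm A₁ (hsmall A₁ (sA₁.trans sN₁))
        ((Finset.sum_le_sum fun i _ => norm_apply_le hg _).trans (hsmall₂ A₁ sA₁)) r3
      have u2 := piece hg (show ‖-θ‖ = 1 by rw [norm_neg, hθ]) hterm2 A₂ (hsmall A₂ sA₂)
        (hT₁ A₂ (Finset.disjoint_of_subset_right sT₁ hA₂) g hg) q3
      have v1 : ‖g a‖ ≤ ε' := by
        rw [hga g, norm_smul, norm_half]
        have := norm_sub_le (g z₁ - 1) (g z₂ - 1)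
        linarith only [this, r2, q2, hmin1']
      have u3 := last_piece hg hθ hterm' N₂ A₃ (hsmall N₂ subset_rfl) hN₂a.le v1
        (p2.le.trans hmin2') (by linarith only [p3, hmin2'])
      have hd1 : Disjoint (A₁ ∪ A₂) A₃ := by
        rw [Finset.disjoint_union_left]
        exact ⟨(Finset.disjoint_of_subset_right (sA₁.trans sN₁) hA₃).symm,
          (Finset.disjoint_of_subset_right sA₂ hA₃).symm⟩
      have hd2 : Disjoint A₁ A₂ := (Finset.disjoint_of_subset_right sA₁ hA₂).symm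
      rw [Finset.sum_union hd1, Finset.sum_union hd2, Nat.cast_succ]
      linarith only [u1, u2, u3, k5, hε'pos, hmin1']

/-- A Banach space in which every vector has an unconditional expansion does not have the super
alternative Daugavet property. -/
theorem no_superADP [CompleteSpace X] (hX : ¬ FiniteDimensional 𝕜 X)
    (hexp : ∀ x, HasSum (fr e c x) x) : ¬ SuperADP 𝕜 X := by
  intro h
  obtain ⟨K, hK⟩ := exists_bound hexp
  obtain ⟨m, hm⟩ := exists_nat_gt K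
  obtain ⟨s, hs⟩ : ∃ s : X, ‖s‖ = 1 := by
    obtain ⟨b, hb, -⟩ := exists_sphere hX (∅ : Finset (StrongDual 𝕜 X)) (a := (0 : X)) (by simp)
    exact ⟨b, hb⟩
  obtain ⟨S, z, A, ε₁, hε₁, hS, hz, -, -, hg⟩ := main_induction hX h hexp m s hs.ge ∅ 1 one_pos
  obtain ⟨g, hg1, hgS⟩ := exists_dual_vector'' 𝕜 S
  have h1 := (hg g hg1 (by rw [hgS, RCLike.ofReal_re]; linarith)).2.2
  have h2 := hK A z hz g hg1
  linarith

end

end Pool.Agent.R269.SD
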