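import Pool.Agent.R269.SMSum

/-!
# Repeated averages
-/

set_option autoImplicit false

namespace Pool.Agent.R269.SM

/-- `F` is the union of `j` successive members of the Schreier family of order `k` -/
def UnionOf (k j : ℕ) (F : Finset ℕ) : Prop :=
  ∃ Ls : List (Finset ℕ), Ls.length = j ∧ (∀ G ∈ Ls, G ∈ Schreier k) ∧
    Ls.Pairwise (fun G H => ∀ a ∈ G, ∀ b ∈ H, a < b) ∧ ∀ x, x ∈ F ↔ ∃ G ∈ Ls, x ∈ G

theorem Cov.single (k : ℕ) {x : ℕ} (hx : 1 ≤ x) : Cov k {x} := by
  induction k with
  | zero => exact (Finset.card_singleton x).le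
  | succ k ih =>
    refine ⟨[{x}], ?_, ?_, ?_⟩
    · intro a ha
      rw [Finset.mem_singleton] at ha
      simpa [ha] using hx
    · intro E hE
      rw [List.mem_singleton] at hE
      rw [hE]
      exact ih
    · intro a ha
      exact ⟨{x}, by simp, ha⟩

/-- Conclusion of the lemma on repeated averages. -/
def RAC (a M : ℕ → ℕ) (k j R : ℕ) : Prop :=
  ∃ (Q : Finset ℕ) (lam : ℕ → ℝ), (∀ q ∈ Q, R ≤ q) ∧ (∀ q, 0 ≤ lam q) ∧ (∀ q, q ∉ Q → lam q = 0) ∧
    ∑ q ∈ Q, lam q = 1 ∧ UnionOf k j (Q.image a) ∧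
    ∀ G ⊆ Q, Cov k (G.image M) → ∑ q ∈ G, lam q ≤ 2 / j

/-- One level of blocks. -/
theorem blocks {a M : ℕ → ℕ} (ha : StrictMono a) (hM : StrictMono M) (ha1 : ∀ r, 1 ≤ a r)
    (haM : ∀ r, 4 * 2 ^ (r + 1) * M r ≤ a (r + 1)) {k : ℕ}
    (ih : ∀ j R, 1 ≤ j → 1 ≤ R → RAC a M k j R) :
    ∀ i R : ℕ, 1 ≤ R → ∃ (Q : Finset ℕ) (lam : ℕ → ℝ), (∀ q ∈ Q, R ≤ q) ∧ (∀ q, 0 ≤ lam q) ∧
      (∀ q, q ∉ Q → lam q = 0) ∧ ∑ q ∈ Q, lam q = i ∧ UnionOf (k + 1) i (Q.image a) ∧
      (∀ G ⊆ Q, Cov (k + 1) (G.image M) → ∑ q ∈ G, lam q ≤ 1 + (1 / 2) ^ R) ∧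
      (∀ g : ℕ, ∀ G ⊆ Q, (∃ Ls : List (Finset ℕ), Ls.length ≤ g ∧ (∀ E ∈ Ls, Cov k E) ∧
        ∀ q ∈ G, ∃ E ∈ Ls, M q ∈ E) → (∑ q ∈ G, lam q) * M (R - 1) ≤ g * (1 / 2) ^ R) := by
  classical
  intro i
  induction i with
  | zero =>
    intro R hR
    refine ⟨∅, fun _ => 0, by simp, fun _ => le_rfl, fun _ _ => rfl, by simp,
      ⟨[], rfl, by simp, List.Pairwise.nil, by simp⟩, ?_, ?_⟩
    · intro G _ _
      simp only [Finset.sum_const_zero]
      positivity
    · intro g G _ _
      simp only [Finset.sum_const_zero, zero_mul]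
      positivity
  | succ i ihi =>
    intro R hR
    obtain ⟨Q0, lam0, hQ0, hl0, hz0, hs0, hu0, hc0⟩ := ih (a R) R (ha1 R) hR
    have hne0 : Q0.Nonempty := by
      rw [Finset.nonempty_iff_ne_empty]
      rintro rfl
      simp at hs0
    obtain ⟨R', hR'⟩ : ∃ R', R' = Q0.sup id + 1 := ⟨_, rfl⟩
    have hQ0R' : ∀ q ∈ Q0, q < R' := by
      intro q hq
      have := Finset.le_sup (f := id) hq
      simp only [id] at this
      omega
    have hRR' : R + 1 ≤ R' := by
      obtain ⟨q, hq⟩ := hne0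
      have h1 := hQ0 q hq
      have h2 := hQ0R' q hq
      omega
    obtain ⟨Q', lam', hQ', hl', hz', hs', hu', hc', hp'⟩ := ihi R' (by omega)
    have hdisj : Disjoint Q0 Q' := by
      rw [Finset.disjoint_left]
      intro q hq hq'
      have h1 := hQ0R' q hq
      have h2 := hQ' q hq'
      omega
    have hsplit : ∀ G ⊆ Q0 ∪ Q', ∑ q ∈ G, (lam0 q + lam' q)
        = ∑ q ∈ G ∩ Q0, lam0 q + ∑ q ∈ G ∩ Q', lam' q := by
      intro G hG
      rw [Finset.sum_add_distrib]
      congr 1
      · symm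
        refine Finset.sum_subset Finset.inter_subset_left fun q hq hq' => hz0 q fun h => ?_
        exact hq' (Finset.mem_inter.2 ⟨hq, h⟩)
      · symm
        refine Finset.sum_subset Finset.inter_subset_left fun q hq hq' => hz' q fun h => ?_
        exact hq' (Finset.mem_inter.2 ⟨hq, h⟩)
    have hpow : ((1 : ℝ) / 2) ^ R' ≤ 1 / 2 * (1 / 2) ^ R := by
      rw [← pow_succ']
      exact pow_le_pow_of_le_one (by norm_num) (by norm_num) hRR'
    have hpow0 : (0 : ℝ) < (1 / 2) ^ R := by positivity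
    have hsum0 : ∀ G, ∑ q ∈ G ∩ Q0, lam0 q ≤ 1 := by
      intro G
      rw [← hs0]
      exact Finset.sum_le_sum_of_subset_of_nonneg Finset.inter_subset_right fun q _ _ => hl0 q
    refine ⟨Q0 ∪ Q', fun q => lam0 q + lam' q, ?_, ?_, ?_, ?_, ?_, ?_, ?_⟩
    · intro q hq
      rw [Finset.mem_union] at hq
      obtain hq | hq := hq
      · exact hQ0 q hq
      · have := hQ' q hq
        omega
    · intro q
      exact add_nonneg (hl0 q) (hl' q)
    · intro q hq
      rw [Finset.mem_union, not_or] at hq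
      change lam0 q + lam' q = 0
      rw [hz0 q hq.1, hz' q hq.2, add_zero]
    · rw [hsplit _ (Finset.Subset.refl _)]
      have h1 : (Q0 ∪ Q') ∩ Q0 = Q0 := Finset.union_inter_cancel_left
      have h2 : (Q0 ∪ Q') ∩ Q' = Q' := Finset.union_inter_cancel_right
      rw [h1, h2, hs0, hs']
      push_cast
      ring
    · obtain ⟨Ls0, h1, h2, h3, h4⟩ := hu0
      obtain ⟨Ls, g1, g2, g3, g4⟩ := hu'
      have hblock : Q0.image a ∈ Schreier (k + 1) := by
        refine ⟨Ls0, ?_, h2, h3, ?_, h4⟩
        · intro h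
          rw [h] at h1
          have := ha1 R
          simp at h1
          omega
        · intro x hx
          rw [Finset.mem_image] at hx
          obtain ⟨q, hq, rfl⟩ := hx
          rw [h1]
          exact ha.monotone (hQ0 q hq)
      refine ⟨Q0.image a :: Ls, ?_, ?_, ?_, ?_⟩
      · rw [List.length_cons, g1]
      · intro G hG
        rw [List.mem_cons] at hG
        obtain rfl | hG := hG
        · exact hblock
        · exact g2 G hG
      · rw [List.pairwise_cons]
        refine ⟨?_, g3⟩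
        intro H hH x hx y hy
        rw [Finset.mem_image] at hx
        obtain ⟨q, hq, rfl⟩ := hx
        have hy' : y ∈ Q'.image a := (g4 y).2 ⟨H, hH, hy⟩
        rw [Finset.mem_image] at hy'
        obtain ⟨q', hq', rfl⟩ := hy'
        refine ha ?_
        have e1 := hQ0R' q hq
        have e2 := hQ' q' hq'
        omega
      · intro x
        rw [Finset.image_union, Finset.mem_union, g4]
        constructor
        · rintro (hx | ⟨G, hG, hx⟩)
          · exact ⟨_, List.mem_cons_self, hx⟩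
          · exact ⟨G, List.mem_cons_of_mem _ hG, hx⟩
        · rintro ⟨G, hG, hx⟩
          rw [List.mem_cons] at hG
          obtain rfl | hG := hG
          · exact Or.inl hx
          · exact Or.inr ⟨G, hG, hx⟩
    · intro G hG hcov
      rw [hsplit G hG]
      obtain ⟨Ls, c1, c2, c3⟩ := hcov
      by_cases hG0 : (G ∩ Q0).Nonempty
      · obtain ⟨q0, hq0⟩ := hG0
        rw [Finset.mem_inter] at hq0
        have e1 : Ls.length ≤ M (R' - 1) := by
          refine (c1 _ (Finset.mem_image_of_mem _ hq0.1)).trans (hM.monotone ?_)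
          have := hQ0R' q0 hq0.2
          omega
        have e2 := hp' (M (R' - 1)) (G ∩ Q') Finset.inter_subset_right
          ⟨Ls, e1, c2, fun q hq => c3 _ (Finset.mem_image_of_mem _ (Finset.mem_inter.1 hq).1)⟩
        have hMpos : (0 : ℝ) < M (R' - 1) := by
          have h1 : M 0 < M (R' - 1) := hM (by omega)
          exact_mod_cast (by omega : 0 < M (R' - 1))
        have e3 : ∑ q ∈ G ∩ Q', lam' q ≤ (1 / 2) ^ R' := by
          rw [mul_comm (M (R' - 1) : ℝ)] at e2
          exact le_of_mul_le_mul_right e2 hMpos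
        have e4 := hsum0 G
        linarith
      · rw [Finset.not_nonempty_iff_eq_empty] at hG0
        rw [hG0, Finset.sum_empty, zero_add]
        have e5 : Cov (k + 1) ((G ∩ Q').image M) := by
          refine ⟨Ls, fun x hx => ?_, c2, fun x hx => ?_⟩
          · exact c1 x (Finset.image_subset_image Finset.inter_subset_left hx)
          · exact c3 x (Finset.image_subset_image Finset.inter_subset_left hx)
        have e6 := hc' (G ∩ Q') Finset.inter_subset_right e5
        linarith
    · rintro g G hG ⟨Ls, c1, c2, c3⟩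
      rw [hsplit G hG, add_mul]
      have haR : (0 : ℝ) < a R := by exact_mod_cast ha1 R
      have e1 : ∑ q ∈ G ∩ Q0, lam0 q ≤ Ls.length * (2 / (a R : ℝ)) := by
        refine capture (fun G' hG' hcov => hc0 G' hG' hcov) Ls c2 (G ∩ Q0) M (fun q => q)
          ?_ ?_ ?_ ?_ ?_
        · intro q _ q' _ h
          exact hM.injective h
        · intro q _ q' _ h
          exact h
        · intro q hq
          exact (Finset.mem_inter.1 hq).2
        · intro q _
          exact le_rfl
        · intro q hq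
          exact c3 q (Finset.mem_inter.1 hq).1
      have e2 : (∑ q ∈ G ∩ Q0, lam0 q) * M (R - 1) ≤ g * (1 / 2 * (1 / 2) ^ R) := by
        have h1 : (4 * 2 ^ R * M (R - 1) : ℝ) ≤ a R := by
          have h2 := haM (R - 1)
          rw [Nat.sub_add_cancel hR] at h2
          exact_mod_cast h2
        have h3 : (Ls.length : ℝ) ≤ g := by exact_mod_cast c1
        have h4 : 2 / (a R : ℝ) * M (R - 1) ≤ 1 / 2 * (1 / 2) ^ R := by
          rw [one_div_pow, div_mul_eq_mul_div, div_le_iff₀ haR]
          have h5 : (0 : ℝ) < 2 ^ R := by positivity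
          calc (2 : ℝ) * M (R - 1) = 1 / 2 * (1 / 2 ^ R) * (4 * 2 ^ R * M (R - 1)) := by
                field_simp
                ring
            _ ≤ 1 / 2 * (1 / 2 ^ R) * a R := mul_le_mul_of_nonneg_left h1 (by positivity)
        calc (∑ q ∈ G ∩ Q0, lam0 q) * M (R - 1)
            ≤ (Ls.length * (2 / (a R : ℝ))) * M (R - 1) :=
              mul_le_mul_of_nonneg_right e1 (Nat.cast_nonneg _)
          _ = Ls.length * (2 / (a R : ℝ) * M (R - 1)) := by ring
          _ ≤ Ls.length * (1 / 2 * (1 / 2) ^ R) := mul_le_mul_of_nonneg_left h4 (Nat.cast_nonneg _)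
          _ ≤ g * (1 / 2 * (1 / 2) ^ R) := mul_le_mul_of_nonneg_right h3 (by positivity)
      have e3 : (∑ q ∈ G ∩ Q', lam' q) * M (R - 1) ≤ g * (1 / 2) ^ R' := by
        have h1 := hp' g (G ∩ Q') Finset.inter_subset_right
          ⟨Ls, c1, c2, fun q hq => c3 q (Finset.mem_inter.1 hq).1⟩
        refine le_trans (mul_le_mul_of_nonneg_left ?_ (Finset.sum_nonneg fun q _ => hl' q)) h1
        exact_mod_cast hM.monotone (by omega : R - 1 ≤ R' - 1)
      have e4 : (g : ℝ) * (1 / 2) ^ R' ≤ g * (1 / 2 * (1 / 2) ^ R) :=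
        mul_le_mul_of_nonneg_left hpow (Nat.cast_nonneg _)
      calc _ ≤ (g : ℝ) * (1 / 2 * (1 / 2) ^ R) + (g : ℝ) * (1 / 2 * (1 / 2) ^ R) :=
            add_le_add e2 (e3.trans e4)
        _ = (g : ℝ) * (1 / 2) ^ R := by ring

/-- The lemma on repeated averages. -/
theorem repAvg {a M : ℕ → ℕ} (ha : StrictMono a) (hM : StrictMono M) (ha1 : ∀ r, 1 ≤ a r)
    (haM : ∀ r, 4 * 2 ^ (r + 1) * M r ≤ a (r + 1)) (k : ℕ) :
    ∀ j R, 1 ≤ j → 1 ≤ R → RAC a M k j R := by
  classical
  induction k with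
  | zero =>
    intro j R hj hR
    have hj0 : (0 : ℝ) < j := by exact_mod_cast hj
    refine ⟨Finset.Ico R (R + j), fun q => if q ∈ Finset.Ico R (R + j) then 1 / (j : ℝ) else 0,
      ?_, ?_, ?_, ?_, ?_, ?_⟩
    · intro q hq
      exact (Finset.mem_Ico.1 hq).1
    · intro q
      dsimp only
      split_ifs <;> positivity
    · intro q hq
      exact if_neg hq
    · rw [Finset.sum_ite_mem, Finset.inter_self, Finset.sum_const, Nat.card_Ico, nsmul_eq_mul]
      rw [Nat.add_sub_cancel_left]
      field_simp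
    · refine ⟨(List.range' R j).map fun r => {a r}, by simp, ?_, ?_, ?_⟩
      · intro G hG
        rw [List.mem_map] at hG
        obtain ⟨r, -, rfl⟩ := hG
        exact ⟨a r, ha1 r, rfl⟩
      · rw [List.pairwise_map]
        refine List.Pairwise.imp ?_ (List.pairwise_lt_range' (s := R) (n := j))
        intro r r' h x hx y hy
        rw [Finset.mem_singleton] at hx hy
        rw [hx, hy]
        exact ha h
      · intro x
        rw [Finset.mem_image]
        constructor
        · rintro ⟨q, hq, rfl⟩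
          rw [Finset.mem_Ico] at hq
          refine ⟨{a q}, List.mem_map.2 ⟨q, ?_, rfl⟩, by simp⟩
          rw [List.mem_range'_1]
          exact hq
        · rintro ⟨G, hG, hx⟩
          rw [List.mem_map] at hG
          obtain ⟨r, hr, rfl⟩ := hG
          rw [Finset.mem_singleton] at hx
          rw [List.mem_range'_1] at hr
          exact ⟨r, Finset.mem_Ico.2 hr, hx.symm⟩
    · intro G hG hcov
      change (G.image M).card ≤ 1 at hcov
      rw [Finset.card_image_of_injective _ hM.injective] at hcov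
      calc ∑ q ∈ G, (if q ∈ Finset.Ico R (R + j) then 1 / (j : ℝ) else 0)
          ≤ ∑ q ∈ G, 1 / (j : ℝ) := by
            refine Finset.sum_le_sum fun q _ => ?_
            split_ifs
            · exact le_rfl
            · positivity
        _ = G.card * (1 / (j : ℝ)) := by rw [Finset.sum_const, nsmul_eq_mul]
        _ ≤ 1 * (1 / (j : ℝ)) := mul_le_mul_of_nonneg_right (by exact_mod_cast hcov) (by positivity)
        _ ≤ 2 / j := by
          rw [one_mul]
          exact div_le_div_of_nonneg_right (by norm_num) hj0.le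
  | succ k ih =>
    intro j R hj hR
    have hj0 : (0 : ℝ) < j := by exact_mod_cast hj
    obtain ⟨Q, lam, h1, h2, h3, h4, h5, h6, -⟩ := blocks ha hM ha1 haM ih j R hR
    refine ⟨Q, fun q => lam q / j, h1, fun q => div_nonneg (h2 q) hj0.le, fun q hq => ?_, ?_, h5,
      fun G hG hc => ?_⟩
    · change lam q / j = 0
      rw [h3 q hq, zero_div]
    · rw [← Finset.sum_div, h4, div_self hj0.ne']
    · rw [← Finset.sum_div]
      refine div_le_div_of_nonneg_right ((h6 G hG hc).trans ?_) hj0.le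
      have : ((1 : ℝ) / 2) ^ R ≤ 1 := pow_le_one₀ (by norm_num) (by norm_num)
      linarith

end Pool.Agent.R269.SM
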