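import Pool.Agent.R269.SMNorm

/-!
# Closure properties of the Schreier families and of the norming set
-/

set_option autoImplicit false

namespace Pool.Agent.R269.SM

/-- spreads of subsets of members of the Schreier families are members -/
theorem Schreier.spread (k : ℕ) : ∀ {ι : Type} (F : Finset ℕ), F ∈ Schreier k →
    ∀ (P : Finset ι) (a b : ι → ℕ), P.Nonempty → (∀ p ∈ P, a p ∈ F) → (∀ p ∈ P, a p ≤ b p) →
    (∀ p ∈ P, ∀ p' ∈ P, a p < a p' → b p < b p') →
    (∀ p ∈ P, ∀ p' ∈ P, a p = a p' → b p = b p') → P.image b ∈ Schreier k := by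
  classical
  induction k with
  | zero =>
    rintro ι F ⟨m, hm, rfl⟩ P a b ⟨p, hp⟩ h1 h2 h3 h4
    refine ⟨b p, ?_, ?_⟩
    · have := Finset.mem_singleton.1 (h1 p hp)
      have := h2 p hp
      omega
    · ext x
      rw [Finset.mem_image, Finset.mem_singleton]
      constructor
      · rintro ⟨p', hp', rfl⟩
        refine h4 p' hp' p hp ?_
        rw [Finset.mem_singleton.1 (h1 p hp), Finset.mem_singleton.1 (h1 p' hp')]
      · rintro rfl
        exact ⟨p, hp, rfl⟩
  | succ k ih =>
    rintro ι F ⟨L, hL1, hL2, hL3, hL4, hL5⟩ P a b ⟨p0, hp0⟩ h1 h2 h3 h4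
    obtain ⟨G, hG⟩ : ∃ G : Finset ℕ → Finset ℕ,
        G = fun E => (P.filter fun p => a p ∈ E).image b := ⟨_, rfl⟩
    have hGm : ∀ E x, x ∈ G E ↔ ∃ p ∈ P, a p ∈ E ∧ b p = x := by
      intro E x
      rw [hG]
      simp only [Finset.mem_image, Finset.mem_filter]
      constructor
      · rintro ⟨p, ⟨hp, hpE⟩, rfl⟩
        exact ⟨p, hp, hpE, rfl⟩
      · rintro ⟨p, hp, hpE, rfl⟩
        exact ⟨p, ⟨hp, hpE⟩, rfl⟩
    have hmem : ∀ x, x ∈ P.image b ↔ ∃ E ∈ (L.map G).filter (fun E => E.Nonempty), x ∈ E := by
      intro x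
      rw [Finset.mem_image]
      constructor
      · rintro ⟨p, hp, rfl⟩
        obtain ⟨E, hE, hpE⟩ := (hL5 (a p)).1 (h1 p hp)
        have hx : b p ∈ G E := (hGm E (b p)).2 ⟨p, hp, hpE, rfl⟩
        refine ⟨G E, ?_, hx⟩
        rw [List.mem_filter, List.mem_map]
        exact ⟨⟨E, hE, rfl⟩, by simpa using ⟨b p, hx⟩⟩
      · rintro ⟨E', hE', hx⟩
        rw [List.mem_filter, List.mem_map] at hE'
        obtain ⟨⟨E, hE, rfl⟩, -⟩ := hE'
        obtain ⟨p, hp, -, hpx⟩ := (hGm E x).1 hx
        exact ⟨p, hp, hpx⟩
    refine ⟨(L.map G).filter (fun E => E.Nonempty), ?_, ?_, ?_, ?_, hmem⟩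
    · intro h
      have := (hmem (b p0)).1 (Finset.mem_image_of_mem b hp0)
      rw [h] at this
      obtain ⟨E, hE, -⟩ := this
      simp at hE
    · intro E' hE'
      rw [List.mem_filter, List.mem_map] at hE'
      obtain ⟨⟨E, hE, rfl⟩, hne⟩ := hE'
      have hne' : (G E).Nonempty := by simpa using hne
      obtain ⟨x, hx⟩ := hne'
      obtain ⟨p, hp, hpE, -⟩ := (hGm E x).1 hx
      rw [hG]
      refine ih E (hL2 E hE) _ a b ⟨p, Finset.mem_filter.2 ⟨hp, hpE⟩⟩ ?_ ?_ ?_ ?_
      · intro q hq
        exact (Finset.mem_filter.1 hq).2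
      · intro q hq
        exact h2 q (Finset.mem_filter.1 hq).1
      · intro q hq q' hq'
        exact h3 q (Finset.mem_filter.1 hq).1 q' (Finset.mem_filter.1 hq').1
      · intro q hq q' hq'
        exact h4 q (Finset.mem_filter.1 hq).1 q' (Finset.mem_filter.1 hq').1
    · refine List.Pairwise.filter _ ?_
      rw [List.pairwise_map]
      refine hL3.imp ?_
      intro E E' h x hx y hy
      obtain ⟨p, hp, hpE, rfl⟩ := (hGm E x).1 hx
      obtain ⟨p', hp', hpE', rfl⟩ := (hGm E' y).1 hy
      exact h3 p hp p' hp' (h _ hpE _ hpE')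
    · intro x hx
      rw [Finset.mem_image] at hx
      obtain ⟨p, hp, rfl⟩ := hx
      have e1 : ((L.map G).filter (fun E => E.Nonempty)).length ≤ L.length := by
        refine (List.length_filter_le _ _).trans ?_
        rw [List.length_map]
      exact e1.trans ((hL4 _ (h1 p hp)).trans (h2 p hp))

/-! ### negation and restriction -/

theorem Bef.neg {f g : C00} (h : Bef f g) : Bef (-f) (-g) := by
  intro a ha b hb
  rw [Finsupp.support_neg] at ha hb
  exact h a ha b hb

theorem list_sum_neg (L : List C00) : (L.map fun f => -f).sum = -L.sum := by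
  induction L with
  | nil => simp
  | cons f L ih => rw [List.map_cons, List.sum_cons, List.sum_cons, ih, neg_add]

theorem IsAvg.neg {V : Set C00} (hV : ∀ f ∈ V, -f ∈ V) {l : ℕ} {α : C00} (h : IsAvg V l α) :
    IsAvg V l (-α) := by
  obtain ⟨h1, L, h2, h3, h4, h5, rfl⟩ := h
  refine ⟨h1, L.map fun f => -f, by simpa using h2, by simpa using h3, ?_, ?_, ?_⟩
  · intro f hf
    rw [List.mem_map] at hf
    obtain ⟨g, hg, rfl⟩ := hf
    exact hV g (h4 g hg)
  · rw [List.pairwise_map]
    exact h5.imp fun h => h.neg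
  · rw [← smul_neg, list_sum_neg]

theorem minSupp_neg (f : C00) : minSupp (-f) = minSupp f := by
  unfold minSupp
  rw [Finsupp.support_neg]

theorem Wlev_neg {𝒮 : Set (Finset ℕ)} (m : ℕ) : ∀ f ∈ Wlev 𝒮 m, -f ∈ Wlev 𝒮 m := by
  induction m with
  | zero =>
    rintro f ⟨i, hi, rfl | rfl⟩
    · exact ⟨i, hi, Or.inr (Finsupp.single_neg _ _).symm⟩
    · refine ⟨i, hi, Or.inl ?_⟩
      rw [← Finsupp.single_neg, neg_neg]
  | succ m ih =>
    rintro f ((hf | ⟨l, hf⟩) | hf)
    · exact Or.inl (Or.inl (ih f hf))
    · exact Or.inl (Or.inr ⟨l, hf.neg ih⟩)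
    · obtain ⟨L, h1, h2, h3, h4, h5, rfl⟩ := hf
      refine Or.inr ⟨L.map fun p => (p.1, -p.2), by simpa using h1, ?_, ?_, ?_, ?_, ?_⟩
      · intro p hp
        rw [List.mem_map] at hp
        obtain ⟨q, hq, rfl⟩ := hp
        exact (h2 q hq).neg ih
      · rw [List.pairwise_map]
        exact h3.imp fun h => h.neg
      · rw [List.map_map]
        have : ((fun p : ℕ × C00 => minSupp p.2) ∘ fun p : ℕ × C00 => (p.1, -p.2))
            = fun p => minSupp p.2 := by
          funext p
          exact minSupp_neg p.2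
        rw [this]
        exact h4
      · rw [List.pairwise_map]
        refine h5.imp ?_
        rintro p q ⟨h, h'⟩
        refine ⟨h, fun a ha => h' a ?_⟩
        rwa [Finsupp.support_neg] at ha
      · rw [List.map_map]
        have : (Prod.snd ∘ fun p : ℕ × C00 => (p.1, -p.2)) = fun p => -p.2 := rfl
        rw [this]
        have h6 := list_sum_neg (L.map Prod.snd)
        rw [List.map_map] at h6
        exact h6.symm

theorem WW_neg {𝒮 : Set (Finset ℕ)} {f : C00} (hf : f ∈ WW 𝒮) : -f ∈ WW 𝒮 := by
  obtain ⟨m, hm⟩ := Set.mem_iUnion.1 hf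
  exact Set.mem_iUnion.2 ⟨m, Wlev_neg m f hm⟩

/-- restriction of a finitely supported sequence -/
noncomputable def res (A : Set ℕ) (f : C00) : C00 := by
  classical
  exact f.filter (· ∈ A)

theorem res_apply (A : Set ℕ) (f : C00) (i : ℕ) [Decidable (i ∈ A)] :
    res A f i = if i ∈ A then f i else 0 := by
  unfold res
  rw [Finsupp.filter_apply]
  split_ifs <;> rfl

theorem mem_support_res {A : Set ℕ} {f : C00} {i : ℕ} :
    i ∈ (res A f).support ↔ i ∈ f.support ∧ i ∈ A := by
  classical
  rw [Finsupp.mem_support_iff, res_apply, Finsupp.mem_support_iff]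
  split_ifs with h
  · simp [h]
  · simp [h]

theorem res_add (A : Set ℕ) (f g : C00) : res A (f + g) = res A f + res A g := by
  classical
  ext i
  rw [Finsupp.add_apply, res_apply, res_apply, res_apply, Finsupp.add_apply]
  split_ifs <;> simp

theorem res_smul (A : Set ℕ) (r : ℝ) (f : C00) : res A (r • f) = r • res A f := by
  classical
  ext i
  rw [Finsupp.smul_apply, res_apply, res_apply, Finsupp.smul_apply]
  split_ifs <;> simp

theorem res_zero (A : Set ℕ) : res A (0 : C00) = 0 := by
  classical
  ext i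
  rw [res_apply]
  split_ifs <;> simp

theorem res_list (A : Set ℕ) (L : List C00) : res A L.sum = (L.map (res A)).sum := by
  induction L with
  | nil => exact res_zero A
  | cons f L ih => rw [List.sum_cons, List.map_cons, List.sum_cons, res_add, ih]

theorem Bef.res {A : Set ℕ} {f g : C00} (h : Bef f g) : Bef (res A f) (res A g) := by
  intro a ha b hb
  exact h a (mem_support_res.1 ha).1 b (mem_support_res.1 hb).1

theorem sum_filter_ne_zero {ι : Type} (L : List ι) (g : ι → C00) [DecidablePred fun p => g p ≠ 0] :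
    ((L.filter fun p => g p ≠ 0).map g).sum = (L.map g).sum := by
  induction L with
  | nil => rfl
  | cons p L ih =>
    rw [List.filter_cons]
    by_cases h : g p ≠ 0
    · rw [if_pos (by simpa using h), List.map_cons, List.sum_cons, ih, List.map_cons, List.sum_cons]
    · rw [if_neg (by simpa using h), ih, List.map_cons, List.sum_cons]
      rw [not_not] at h
      rw [h, zero_add]

theorem IsAvg.res {V : Set C00} {A : Set ℕ} (hV : ∀ f ∈ V, SM.res A f = 0 ∨ SM.res A f ∈ V)
    {l : ℕ} {α : C00} (h : IsAvg V l α) (hne : SM.res A α ≠ 0) : IsAvg V l (SM.res A α) := by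
  classical
  obtain ⟨h1, L, h2, h3, h4, h5, rfl⟩ := h
  have hl : (0 : ℝ) < l := by exact_mod_cast (by omega : 0 < l)
  have hsum : (((L.filter fun f => SM.res A f ≠ 0).map (SM.res A))).sum = SM.res A L.sum := by
    rw [sum_filter_ne_zero, res_list]
  refine ⟨h1, (L.filter fun f => SM.res A f ≠ 0).map (SM.res A), ?_, ?_, ?_, ?_, ?_⟩
  · intro h
    rw [h] at hsum
    apply hne
    rw [res_smul, ← hsum]
    simp
  · rw [List.length_map]
    exact (List.length_filter_le _ _).trans h3
  · intro f hf
    rw [List.mem_map] at hf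
    obtain ⟨g, hg, rfl⟩ := hf
    rw [List.mem_filter] at hg
    have hg2 : SM.res A g ≠ 0 := by simpa using hg.2
    exact (hV g (h4 g hg.1)).resolve_left hg2
  · rw [List.pairwise_map]
    exact (h5.filter _).imp fun h => h.res
  · rw [hsum, res_smul]

theorem list_pairwise_total {ι : Type} {R : ι → ι → Prop} {L : List ι} (h : L.Pairwise R)
    {p q : ι} (hp : p ∈ L) (hq : q ∈ L) : p = q ∨ R p q ∨ R q p := by
  by_cases hpq : p = q
  · exact Or.inl hpq
  · have hsym : Std.Symm (fun p q : ι => R p q ∨ R q p) := ⟨fun p q h => h.symm⟩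
    exact Or.inr (List.Pairwise.forall (R := fun p q : ι => R p q ∨ R q p)
      (h.imp fun h => Or.inl h) hp hq hpq)

theorem Wlev_res (n : ℕ) (A : Set ℕ) (m : ℕ) :
    ∀ f ∈ Wlev (Schreier n) m, res A f = 0 ∨ res A f ∈ Wlev (Schreier n) m := by
  classical
  induction m with
  | zero =>
    rintro f ⟨i, hi, hf⟩
    have key : ∀ r : ℝ, res A (Finsupp.single i r : C00) = if i ∈ A then Finsupp.single i r
        else 0 := by
      intro r
      ext j
      rw [res_apply]
      by_cases hij : i = j
      · subst hij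
        split_ifs <;> simp
      · rw [Finsupp.single_eq_of_ne (Ne.symm hij)]
        split_ifs <;> simp [Finsupp.single_eq_of_ne (Ne.symm hij)]
    by_cases hiA : i ∈ A
    · right
      obtain rfl | rfl := hf
      · rw [key, if_pos hiA]
        exact ⟨i, hi, Or.inl rfl⟩
      · rw [key, if_pos hiA]
        exact ⟨i, hi, Or.inr rfl⟩
    · left
      obtain rfl | rfl := hf <;> rw [key, if_neg hiA]
  | succ m ih =>
    rintro f ((hf | ⟨l, hf⟩) | hf)
    · exact (ih f hf).imp id fun h => Or.inl (Or.inl h)
    · by_cases h0 : res A f = 0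
      · exact Or.inl h0
      · exact Or.inr (Or.inl (Or.inr ⟨l, hf.res ih h0⟩))
    · by_cases h0 : res A f = 0
      · exact Or.inl h0
      · refine Or.inr (Or.inr ?_)
        obtain ⟨L, h1, h2, h3, h4, h5, rfl⟩ := hf
        obtain ⟨L', hL'⟩ : ∃ L' : List (ℕ × C00), L' = L.filter fun p => res A p.2 ≠ 0 := ⟨_, rfl⟩
        have hL'm : ∀ p, p ∈ L' ↔ p ∈ L ∧ res A p.2 ≠ 0 := by
          intro p
          rw [hL', List.mem_filter]
          simp
        have hsum : ((L'.map fun p => (p.1, res A p.2)).map Prod.snd).sum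
            = res A (L.map Prod.snd).sum := by
          rw [List.map_map, res_list, List.map_map]
          have := sum_filter_ne_zero L (fun p => res A p.2)
          rw [← hL'] at this
          exact this
        have hne : L' ≠ [] := by
          intro h
          rw [h] at hsum
          apply h0
          rw [← hsum]
          rfl
        have hms : ∀ p ∈ L', minSupp (res A p.2) ∈ (res A p.2).support := by
          intro p hp
          exact minSupp_mem (Finsupp.support_nonempty_iff.2 ((hL'm p).1 hp).2)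
        have hms' : ∀ p ∈ L, minSupp p.2 ∈ p.2.support := by
          intro p hp
          exact minSupp_mem ((h2 p hp).nice (fun f hf => Wlev_nice m f hf)).1.1
        refine ⟨L'.map fun p => (p.1, res A p.2), by simpa using hne, ?_, ?_, ?_, ?_, hsum.symm⟩
        · intro p hp
          rw [List.mem_map] at hp
          obtain ⟨q, hq, rfl⟩ := hp
          obtain ⟨hqL, hq0⟩ := (hL'm q).1 hq
          exact (h2 q hqL).res ih hq0
        · rw [List.pairwise_map, hL']
          exact (h3.filter _).imp fun h => h.res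
        · have himg : ((L'.map fun p => (p.1, res A p.2)).map fun p => minSupp p.2).toFinset
              = L'.toFinset.image fun p => minSupp (res A p.2) := by
            ext x
            simp only [List.mem_toFinset, List.mem_map, Finset.mem_image]
            constructor
            · rintro ⟨p, ⟨q, hq, rfl⟩, rfl⟩
              exact ⟨q, hq, rfl⟩
            · rintro ⟨q, hq, rfl⟩
              exact ⟨_, ⟨q, hq, rfl⟩, rfl⟩
          rw [himg]
          obtain ⟨p0, hp0⟩ := List.exists_mem_of_ne_nil L' hne
          refine Schreier.spread n _ h4 L'.toFinset (fun p => minSupp p.2)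
            (fun p => minSupp (res A p.2)) ⟨p0, List.mem_toFinset.2 hp0⟩ ?_ ?_ ?_ ?_
          · intro p hp
            rw [List.mem_toFinset] at hp ⊢
            rw [List.mem_map]
            exact ⟨p, ((hL'm p).1 hp).1, rfl⟩
          · intro p hp
            rw [List.mem_toFinset] at hp
            exact minSupp_le (mem_support_res.1 (hms p hp)).1
          · intro p hp p' hp' hlt
            rw [List.mem_toFinset] at hp hp'
            obtain ⟨hpL, -⟩ := (hL'm p).1 hp
            obtain ⟨hpL', -⟩ := (hL'm p').1 hp'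
            obtain h | h | h := list_pairwise_total h3 hpL hpL'
            · rw [h] at hlt
              exact absurd hlt (lt_irrefl _)
            · exact h.res _ (hms p hp) _ (hms p' hp')
            · have := h _ (hms' p' hpL') _ (hms' p hpL)
              exact absurd hlt (by omega)
          · intro p hp p' hp' heq
            rw [List.mem_toFinset] at hp hp'
            obtain ⟨hpL, -⟩ := (hL'm p).1 hp
            obtain ⟨hpL', -⟩ := (hL'm p').1 hp'
            obtain h | h | h := list_pairwise_total h3 hpL hpL'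
            · rw [h]
            · have := h _ (hms' p hpL) _ (hms' p' hpL')
              exact absurd heq (by omega)
            · have := h _ (hms' p' hpL') _ (hms' p hpL)
              exact absurd heq (by omega)
        · rw [List.pairwise_map, hL']
          refine (h5.filter _).imp ?_
          rintro p q ⟨h, h'⟩
          exact ⟨h, fun a ha => h' a (mem_support_res.1 ha).1⟩

theorem WW_res {n : ℕ} (A : Set ℕ) {f : C00} (hf : f ∈ WW (Schreier n)) :
    res A f = 0 ∨ res A f ∈ WW (Schreier n) := by
  obtain ⟨m, hm⟩ := Set.mem_iUnion.1 hf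
  exact (Wlev_res n A m f hm).imp id fun h => Set.mem_iUnion.2 ⟨m, h⟩

end Pool.Agent.R269.SM
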