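import Pool.Agent.R269.SMAvg

/-!
# The construction
-/

set_option autoImplicit false

namespace Pool.Agent.R269.SM

/-- linear combinations -/
noncomputable def lc (x : ℕ → C00) : C00 →ₗ[ℝ] C00 := Finsupp.linearCombination ℝ x

theorem lc_single (x : ℕ → C00) (t : ℕ) (r : ℝ) : lc x (Finsupp.single t r) = r • x t :=
  Finsupp.linearCombination_single ℝ r t

/-- The two sequences of the construction. -/
structure Setup (k : ℕ) (x φ : ℕ → C00) : Prop where
  l1x : ∀ t, l1 (x t) ≤ 1
  far : ∀ N : ℕ, ∃ T : ℕ, ∀ t, T ≤ t → ∀ i ∈ (x t).support, N ≤ i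
  memφ : ∀ t, φ t ∈ WW (Schreier (k + 1))
  good : ∀ ε : ℝ, 0 < ε → ∀ N : ℕ, ∃ t, N ≤ t ∧ ∃ p q : ℕ,
    (∑ i ∈ (x t).support.filter (p ≤ ·), |x t i| ≤ ε) ∧ (p : ℝ) ≤ ε * q ∧ N ≤ q ∧
    ∀ i ∈ (φ t).support, q ≤ i

/-- The vectors of the construction. -/
structure Vec (k K N s : ℕ) (η : ℝ) (x φ : ℕ → C00) (a c : C00) : Prop where
  a0 : ∀ t, 0 ≤ a t
  c0 : ∀ t, 0 ≤ c t
  c1 : ∀ t, c t ≤ 1
  cN : ∀ t ∈ c.support, N ≤ t
  xN : ∀ i ∈ (lc x a).support, N ≤ i
  bd : Bd k (1 + η) (lc x a)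
  tame : Tame k s 3 η (lc x a)
  mem : lc φ c ∈ WW (Schreier (k + 1))
  φN : ∀ i ∈ (lc φ c).support, N ≤ i
  val : 1 + (K : ℝ) / 2 ≤ ev c a

/-- The blocks of the construction. -/
structure Blk (k K N l : ℕ) (η : ℝ) (x φ : ℕ → C00) (a c : C00) : Prop where
  a0 : ∀ t, 0 ≤ a t
  c0 : ∀ t, 0 ≤ c t
  c1 : ∀ t, c t ≤ 1
  cN : ∀ t ∈ c.support, N ≤ t
  xN : ∀ i ∈ (lc x a).support, N ≤ i
  bd : Bd k (1 + η) (lc x a)
  avg : IsAvg (WW (Schreier (k + 1))) l (lc φ c)
  lN : N ≤ l
  φN : ∀ i ∈ (lc φ c).support, N ≤ i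
  val : 1 + (K : ℝ) / 2 ≤ ev c a

theorem Bd.mono {k : ℕ} {B B' : ℝ} {z : C00} (h : Bd k B z) (hB : B ≤ B') : Bd k B' z :=
  fun f hf => (h f hf).trans hB

theorem Tame.mono {k s s' : ℕ} {c c' η η' : ℝ} {z : C00} (h : Tame k s c η z) (hs : s' ≤ s)
    (hc : c ≤ c') (hη : η ≤ η') : Tame k s' c' η' z := by
  intro s'' hs'' p L hL
  refine (h s'' (hs''.trans hs) p L hL).trans (add_le_add ?_ hη)
  exact div_le_div_of_nonneg_right hc (Nat.cast_nonneg _)

theorem ev_add_left (f g x : C00) : ev (f + g) x = ev f x + ev g x := by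
  classical
  have h1 : (f + g).support ⊆ f.support ∪ g.support := Finsupp.support_add
  rw [ev_eq_of_subset h1, ev_eq_of_subset (Finset.subset_union_left (s₂ := g.support)),
    ev_eq_of_subset (Finset.subset_union_right (s₁ := f.support)), ← Finset.sum_add_distrib]
  refine Finset.sum_congr rfl fun i _ => ?_
  rw [← add_mul]
  rfl

theorem ev_zero_left (x : C00) : ev 0 x = 0 := by simp [ev]

theorem ev_smul_left (r : ℝ) (f x : C00) : ev (r • f) x = r * ev f x := by
  rw [ev_eq_of_subset (Finsupp.support_smul (b := r) (g := f)), ev, Finset.mul_sum]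
  refine Finset.sum_congr rfl fun i _ => ?_
  rw [Finsupp.smul_apply, smul_eq_mul, mul_assoc]

theorem ev_smul_right (r : ℝ) (f x : C00) : ev f (r • x) = r * ev f x := by
  unfold ev
  rw [Finset.mul_sum]
  refine Finset.sum_congr rfl fun i _ => ?_
  rw [Finsupp.smul_apply, smul_eq_mul]
  ring

theorem ev_sum_left {ι : Type} (s : Finset ι) (f : ι → C00) (x : C00) :
    ev (∑ j ∈ s, f j) x = ∑ j ∈ s, ev (f j) x := by
  classical
  induction s using Finset.induction_on with
  | empty => simp [ev_zero_left]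
  | insert a s ha ih => rw [Finset.sum_insert ha, Finset.sum_insert ha, ev_add_left, ih]

theorem ev_mono_right {f x y : C00} (hf : ∀ t, 0 ≤ f t) (h : ∀ t, x t ≤ y t) : ev f x ≤ ev f y :=
  Finset.sum_le_sum fun i _ => mul_le_mul_of_nonneg_left (h i) (hf i)

theorem ev_single (t : ℕ) (r : ℝ) (x : C00) : ev (Finsupp.single t r) x = r * x t := by
  rw [ev_eq_of_subset Finsupp.support_single_subset, Finset.sum_singleton]
  simp

theorem sum_apply' {ι : Type} (s : Finset ι) (f : ι → C00) (t : ℕ) :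
    (∑ j ∈ s, f j) t = ∑ j ∈ s, f j t := Finsupp.finsetSum_apply s f t

theorem mem_support_sum {ι : Type} {s : Finset ι} {f : ι → C00} {i : ℕ}
    (h : i ∈ (∑ j ∈ s, f j).support) : ∃ j ∈ s, i ∈ (f j).support := by
  rw [Finsupp.mem_support_iff, sum_apply'] at h
  obtain ⟨j, hj, hne⟩ := Finset.exists_ne_zero_of_sum_ne_zero h
  exact ⟨j, hj, Finsupp.mem_support_iff.2 hne⟩

/-- a bound for everything in sight -/
noncomputable def bnd (x φ : ℕ → C00) (a c : C00) : ℕ :=
  c.support.sup id + (lc x a).support.sup id + (lc φ c).support.sup id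

theorem le_bnd_c {x φ : ℕ → C00} {a c : C00} {t : ℕ} (h : t ∈ c.support) : t ≤ bnd x φ a c := by
  have := Finset.le_sup (f := id) h
  simp only [id] at this
  unfold bnd
  omega

theorem le_bnd_x {x φ : ℕ → C00} {a c : C00} {t : ℕ} (h : t ∈ (lc x a).support) :
    t ≤ bnd x φ a c := by
  have := Finset.le_sup (f := id) h
  simp only [id] at this
  unfold bnd
  omega

theorem le_bnd_φ {x φ : ℕ → C00} {a c : C00} {t : ℕ} (h : t ∈ (lc φ c).support) :
    t ≤ bnd x φ a c := by
  have := Finset.le_sup (f := id) h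
  simp only [id] at this
  unfold bnd
  omega

/-- base of the construction -/
theorem vec_zero {k : ℕ} {x φ : ℕ → C00} (S : Setup k x φ) (N s : ℕ) {η : ℝ} (hη : 0 < η) :
    ∃ a c, Vec k 0 N s η x φ a c := by
  obtain ⟨T, hT⟩ := S.far N
  obtain ⟨t, ht, p, q, -, -, hq, hφ⟩ := S.good 1 one_pos (max N T)
  have htN : N ≤ t := (le_max_left _ _).trans ht
  have htT : T ≤ t := (le_max_right _ _).trans ht
  have hqN : N ≤ q := (le_max_left _ _).trans hq
  have h01 : ∀ t', 0 ≤ (Finsupp.single t 1 : C00) t' ∧ (Finsupp.single t 1 : C00) t' ≤ 1 := by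
    intro t'
    rw [Finsupp.single_apply]
    split_ifs <;> simp
  refine ⟨Finsupp.single t 1, Finsupp.single t 1, fun t' => (h01 t').1, fun t' => (h01 t').1,
    fun t' => (h01 t').2, ?_, ?_, ?_, ?_, ?_, ?_, ?_⟩
  · intro t' ht'
    have := Finsupp.support_single_subset ht'
    rw [Finset.mem_singleton] at this
    omega
  · rw [lc_single, one_smul]
    exact hT t htT
  · rw [lc_single, one_smul]
    intro h hh
    refine (act_le_l1 (WC_nice hh).2.1 _).trans ?_
    rw [one_mul]
    linarith [S.l1x t]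
  · rw [lc_single, one_smul]
    intro s' _ p L hL
    have hp2 : 2 ≤ p.1 := (hL.avg p List.mem_cons_self).1
    have hp0 : (0 : ℝ) < p.1 := by exact_mod_cast (by omega : 0 < p.1)
    refine (act_le_l1 (fn_abs_le hL) _).trans ?_
    calc 1 / (p.1 : ℝ) * l1 (x t) ≤ 1 / (p.1 : ℝ) * 1 :=
          mul_le_mul_of_nonneg_left (S.l1x t) (by positivity)
      _ ≤ 3 / (p.1 : ℝ) := by
          rw [mul_one]
          exact div_le_div_of_nonneg_right (by norm_num) hp0.le
      _ ≤ 3 / (p.1 : ℝ) + η := by linarith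
  · rw [lc_single, one_smul]
    exact S.memφ t
  · rw [lc_single, one_smul]
    intro i hi
    exact hqN.trans (hφ i hi)
  · rw [ev_single]
    simp

/-- from vectors to blocks -/
theorem blk_of_vec {k K : ℕ} {x φ : ℕ → C00}
    (hV : ∀ (N s : ℕ) (η : ℝ), 0 < η → ∃ a c, Vec k K N s η x φ a c) (N : ℕ) {η : ℝ}
    (hη : 0 < η) : ∃ l a c, Blk k K N l η x φ a c := by
  classical
  obtain ⟨e, he⟩ : ∃ e : ℝ, e = η / 5 := ⟨_, rfl⟩
  have he0 : 0 < e := by rw [he]; positivity
  have hV' : ∀ (T : ℕ) (r : ℕ), ∃ ac : C00 × C00, Vec k K T T (e * (1 / 4) ^ r) x φ ac.1 ac.2 := by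
    intro T r
    obtain ⟨a, c, h⟩ := hV T T (e * (1 / 4) ^ r) (by positivity)
    exact ⟨(a, c), h⟩
  choose F hF using hV'
  obtain ⟨l, hl⟩ : ∃ l : ℕ, l = N + 2 := ⟨_, rfl⟩
  obtain ⟨C, hC⟩ : ∃ C : ℕ → ℕ, ∀ r, 6 * (l : ℝ) / (e * (1 / 4) ^ r) ≤ C r :=
    ⟨fun r => ⌈6 * (l : ℝ) / (e * (1 / 4) ^ r)⌉₊, fun r => Nat.le_ceil _⟩
  -- the thresholds
  obtain ⟨T, hT0, hTs⟩ : ∃ T : ℕ → ℕ, T 0 = N + 1 + C 0 ∧
      ∀ r, T (r + 1) = T r + 1 + bnd x φ (F (T r) r).1 (F (T r) r).2 + C (r + 1) :=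
    ⟨fun r => Nat.rec (N + 1 + C 0)
      (fun r Tr => Tr + 1 + bnd x φ (F Tr r).1 (F Tr r).2 + C (r + 1)) r, rfl, fun r => rfl⟩
  have hTmono : StrictMono T := strictMono_nat_of_lt_succ fun r => by rw [hTs r]; omega
  have hTC : ∀ r, C r ≤ T r := by
    intro r
    cases r with
    | zero => rw [hT0]; omega
    | succ r => rw [hTs r]; omega
  have hTN : ∀ r, N + 1 ≤ T r := by
    intro r
    have := hTmono.monotone (Nat.zero_le r)
    rw [hT0] at this
    omega
  obtain ⟨a, ha⟩ : ∃ a : ℕ → C00, a = fun r => (F (T r) r).1 := ⟨_, rfl⟩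
  obtain ⟨c, hc⟩ : ∃ c : ℕ → C00, c = fun r => (F (T r) r).2 := ⟨_, rfl⟩
  have hvec : ∀ r, Vec k K (T r) (T r) (e * (1 / 4) ^ r) x φ (a r) (c r) := by
    intro r
    rw [ha, hc]
    exact hF (T r) r
  have hbnd : ∀ r, bnd x φ (a r) (c r) < T (r + 1) := by
    intro r
    rw [hTs r, ha, hc]
    dsimp only
    omega
  have hpow1 : ∀ r, ((1 : ℝ) / 4) ^ r ≤ 1 := fun r => pow_le_one₀ (by norm_num) (by norm_num)
  -- the sum
  have D : CData k l (fun r => lc x (a r)) T (fun r => T (r + 1) - 1) (1 + e) 3 e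
      (fun r => e * (1 / 4) ^ r) := by
    refine ⟨by linarith, by norm_num, he0.le, ?_, ?_, ?_, ?_, ?_, ?_, ?_, ?_⟩
    · intro r i hi
      exact (hvec r).xN i hi
    · intro r i hi
      have h1 := le_bnd_x (φ := φ) (c := c r) hi
      have h2 := hbnd r
      omega
    · intro r r' hrr
      have h1 := hTmono.monotone (Nat.succ_le_of_lt hrr)
      have h2 := hTN (r + 1)
      change T (r + 1) - 1 < T r'
      change T (r + 1) ≤ T r' at h1
      omega
    · intro r
      have := hTN r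
      omega
    · intro r _
      refine (hvec r).bd.mono ?_
      have := mul_le_mul_of_nonneg_left (hpow1 r) he0.le
      linarith
    · intro r _ r' hr'
      refine (hvec r).tame.mono ?_ le_rfl le_rfl
      have h1 := hTmono.monotone (Nat.succ_le_of_lt hr')
      change T (r' + 1) ≤ T r at h1
      change T (r' + 1) - 1 ≤ T r
      omega
    · intro r _
      have h1 : (l : ℝ) * 3 / T r ≤ 1 / 2 * (e * (1 / 4) ^ r) := by
        have h2 : (0 : ℝ) < T r := by exact_mod_cast (by have := hTN r; omega : 0 < T r)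
        have h3 : 6 * (l : ℝ) / (e * (1 / 4) ^ r) ≤ T r :=
          (hC r).trans (by exact_mod_cast hTC r)
        rw [div_le_iff₀ (by positivity)] at h3
        rw [div_le_iff₀ h2]
        linarith
      have h2 : ∑ j ∈ Finset.Ico (r + 1) l, e * (1 / 4) ^ j ≤ 1 / 2 * (e * (1 / 4) ^ r) := by
        have h3 : ∀ n, ∑ j ∈ Finset.Ico (r + 1) n, e * (1 / 4 : ℝ) ^ j
            ≤ 1 / 3 * (e * (1 / 4) ^ r) - (if r + 1 ≤ n then 4 / 3 * (e * (1 / 4) ^ n) else 0) := by
          intro n
          induction n with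
          | zero =>
            simp only [Finset.Ico_eq_empty_of_le (Nat.zero_le _), Finset.sum_empty]
            rw [if_neg (by omega)]
            rw [sub_zero]
            positivity
          | succ n ih =>
            by_cases hn : r + 1 ≤ n
            · rw [Finset.sum_Ico_succ_top hn, if_pos (by omega)]
              rw [if_pos hn] at ih
              have : (0 : ℝ) < e * (1 / 4) ^ n := by positivity
              rw [pow_succ]
              linarith
            · by_cases hn2 : r + 1 ≤ n + 1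
              · have : n = r := by omega
                subst this
                rw [if_pos le_rfl, Finset.Ico_self, Finset.sum_empty, pow_succ]
                have : (0 : ℝ) < e * (1 / 4) ^ n := by positivity
                linarith
              · rw [if_neg hn2, Finset.Ico_eq_empty_of_le (by omega), Finset.sum_empty, sub_zero]
                positivity
        refine (h3 l).trans ?_
        have h4 : (0 : ℝ) ≤ if r + 1 ≤ l then 4 / 3 * (e * (1 / 4) ^ l) else 0 := by
          split_ifs <;> positivity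
        have h5 : (0 : ℝ) < e * (1 / 4) ^ r := by positivity
        linarith
      calc _ ≤ 1 / 2 * (e * (1 / 4) ^ r) + 1 / 2 * (e * (1 / 4) ^ r) := add_le_add h1 h2
        _ = _ := by ring
    · intro r
      positivity
  have hl0 : (0 : ℝ) < l := by exact_mod_cast (by omega : 0 < l)
  refine ⟨l, ∑ r ∈ Finset.range l, a r, (1 / (l : ℝ)) • ∑ r ∈ Finset.range l, c r,
    ?_, ?_, ?_, ?_, ?_, ?_, ?_, ?_, ?_, ?_⟩
  · intro t
    rw [sum_apply']
    exact Finset.sum_nonneg fun r _ => (hvec r).a0 t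
  · intro t
    rw [Finsupp.smul_apply, sum_apply', smul_eq_mul]
    exact mul_nonneg (by positivity) (Finset.sum_nonneg fun r _ => (hvec r).c0 t)
  · intro t
    rw [Finsupp.smul_apply, sum_apply', smul_eq_mul]
    have h1 : ∑ r ∈ Finset.range l, c r t ≤ ∑ r ∈ Finset.range l, (1 : ℝ) :=
      Finset.sum_le_sum fun r _ => (hvec r).c1 t
    rw [Finset.sum_const, Finset.card_range, nsmul_eq_mul, mul_one] at h1
    calc 1 / (l : ℝ) * ∑ r ∈ Finset.range l, c r t ≤ 1 / (l : ℝ) * l :=
          mul_le_mul_of_nonneg_left h1 (by positivity)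
      _ = 1 := by field_simp
  · intro t ht
    obtain ⟨r, -, hr⟩ := mem_support_sum (Finsupp.support_smul ht)
    have h1 := (hvec r).cN t hr
    have h2 := hTN r
    omega
  · rw [map_sum]
    intro i hi
    obtain ⟨r, -, hr⟩ := mem_support_sum hi
    have h1 := (hvec r).xN i hr
    have h2 := hTN r
    omega
  · rw [map_sum]
    refine D.bound.mono ?_
    rw [he]
    linarith
  · refine ⟨by omega, (List.range l).map fun r => lc φ (c r), ?_, ?_, ?_, ?_, ?_⟩
    · intro h
      rw [List.map_eq_nil_iff, List.range_eq_nil] at h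
      omega
    · simp
    · intro f hf
      rw [List.mem_map] at hf
      obtain ⟨r, -, rfl⟩ := hf
      exact (hvec r).mem
    · rw [List.pairwise_map]
      refine List.Pairwise.imp ?_ (List.pairwise_lt_range (n := l))
      intro r r' hrr i hi j hj
      have h1 := le_bnd_φ (x := x) (a := a r) hi
      have h2 := hbnd r
      have h3 := (hvec r').φN j hj
      have h4 := hTmono.monotone (Nat.succ_le_of_lt hrr)
      change T (r + 1) ≤ T r' at h4
      omega
    · rw [map_smul, map_sum]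
      rfl
  · omega
  · intro i hi
    rw [map_smul, map_sum] at hi
    obtain ⟨r, -, hr⟩ := mem_support_sum (Finsupp.support_smul hi)
    have h1 := (hvec r).φN i hr
    have h2 := hTN r
    omega
  · rw [ev_smul_left, ev_sum_left]
    have h1 : ∀ r ∈ Finset.range l, 1 + (K : ℝ) / 2 ≤ ev (c r) (∑ r ∈ Finset.range l, a r) := by
      intro r hr
      refine (hvec r).val.trans (ev_mono_right (hvec r).c0 fun t => ?_)
      rw [sum_apply']
      exact Finset.single_le_sum (f := fun r => a r t) (fun r _ => (hvec r).a0 t) hr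
    have h2 := Finset.sum_le_sum h1
    rw [Finset.sum_const, Finset.card_range, nsmul_eq_mul] at h2
    calc 1 + (K : ℝ) / 2 = 1 / (l : ℝ) * (l * (1 + (K : ℝ) / 2)) := by field_simp
      _ ≤ _ := mul_le_mul_of_nonneg_left h2 (by positivity)

end Pool.Agent.R269.SM
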