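import Pool.Agent.R269.SMSpace

/-!
# The spaces with saturated norms under constraints: basic facts
-/

set_option autoImplicit false

namespace Pool.Agent.R269.SM

/-! ### basic facts on the action -/

/-- the action of the modulus of a functional on the modulus of a vector -/
noncomputable def act (f x : C00) : ℝ := ∑ i ∈ f.support, |f i| * |x i|

theorem act_eq_of_subset {f x : C00} {A : Finset ℕ} (h : f.support ⊆ A) :
    act f x = ∑ i ∈ A, |f i| * |x i| := by
  refine Finset.sum_subset h fun i _ hi => ?_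
  rw [Finsupp.notMem_support_iff.1 hi, abs_zero, zero_mul]

theorem act_eq_of_subset' {f x : C00} {A : Finset ℕ} (h : x.support ⊆ A) :
    act f x = ∑ i ∈ A, |f i| * |x i| := by
  classical
  rw [act_eq_of_subset (Finset.subset_union_left (s₂ := A))]
  symm
  refine Finset.sum_subset Finset.subset_union_right fun i _ hi => ?_
  have : x i = 0 := by
    by_contra hne
    exact hi (h (Finsupp.mem_support_iff.2 hne))
  rw [this, abs_zero, mul_zero]

theorem ev_eq_of_subset {f x : C00} {A : Finset ℕ} (h : f.support ⊆ A) :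
    ev f x = ∑ i ∈ A, f i * x i := by
  refine Finset.sum_subset h fun i _ hi => ?_
  rw [Finsupp.notMem_support_iff.1 hi, zero_mul]

theorem act_nonneg (f x : C00) : 0 ≤ act f x :=
  Finset.sum_nonneg fun _ _ => mul_nonneg (abs_nonneg _) (abs_nonneg _)

theorem abs_ev_le_act (f x : C00) : |ev f x| ≤ act f x := by
  unfold ev act
  refine (Finset.abs_sum_le_sum_abs _ _).trans (le_of_eq ?_)
  exact Finset.sum_congr rfl fun i _ => abs_mul _ _

theorem act_zero_left (x : C00) : act 0 x = 0 := by simp [act]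

theorem act_add_left_le (f g x : C00) : act (f + g) x ≤ act f x + act g x := by
  classical
  have h1 : (f + g).support ⊆ f.support ∪ g.support := Finsupp.support_add
  rw [act_eq_of_subset h1, act_eq_of_subset (Finset.subset_union_left (s₂ := g.support)),
    act_eq_of_subset (Finset.subset_union_right (s₁ := f.support)), ← Finset.sum_add_distrib]
  refine Finset.sum_le_sum fun i _ => ?_
  rw [← add_mul]
  exact mul_le_mul_of_nonneg_right (abs_add_le _ _) (abs_nonneg _)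

theorem act_add_right_le (f x y : C00) : act f (x + y) ≤ act f x + act f y := by
  unfold act
  rw [← Finset.sum_add_distrib]
  refine Finset.sum_le_sum fun i _ => ?_
  rw [← mul_add]
  exact mul_le_mul_of_nonneg_left (abs_add_le _ _) (abs_nonneg _)

theorem act_zero_right (f : C00) : act f 0 = 0 := by simp [act]

theorem act_smul_right (c : ℝ) (f x : C00) : act f (c • x) = |c| * act f x := by
  unfold act
  rw [Finset.mul_sum]
  refine Finset.sum_congr rfl fun i _ => ?_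
  rw [Finsupp.smul_apply, smul_eq_mul, abs_mul]
  ring

theorem act_smul_left (c : ℝ) (f x : C00) : act (c • f) x =|c| * act f x := by
  rw [act_eq_of_subset (Finsupp.support_smul (b := c) (g := f)), act, Finset.mul_sum]
  refine Finset.sum_congr rfl fun i _ => ?_
  rw [Finsupp.smul_apply, smul_eq_mul, abs_mul]
  ring

theorem act_sum_right_le {ι : Type} (s : Finset ι) (f : C00) (x : ι → C00) :
    act f (∑ j ∈ s, x j) ≤ ∑ j ∈ s, act f (x j) := by
  classical
  induction s using Finset.induction_on with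
  | empty => simp [act_zero_right]
  | insert a s ha ih =>
    rw [Finset.sum_insert ha, Finset.sum_insert ha]
    exact (act_add_right_le _ _ _).trans (add_le_add le_rfl ih)

theorem act_list_le (L : List C00) (x : C00) : act L.sum x ≤ (L.map fun f => act f x).sum := by
  induction L with
  | nil => simp [act_zero_left]
  | cons f L ih =>
    rw [List.sum_cons, List.map_cons, List.sum_cons]
    exact (act_add_left_le _ _ _).trans (add_le_add le_rfl ih)

/-- the functional `f` meets the vector `x` -/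
def Meets (f x : C00) : Prop := ∃ a ∈ f.support, a ∈ x.support

theorem act_eq_zero {f x : C00} (h : ¬ Meets f x) : act f x = 0 := by
  refine Finset.sum_eq_zero fun i hi => ?_
  have : x i = 0 := by
    by_contra hne
    exact h ⟨i, hi, Finsupp.mem_support_iff.2 hne⟩
  rw [this, abs_zero, mul_zero]

theorem act_mono_right {f x y : C00} (h : ∀ i, |x i| ≤ |y i|) : act f x ≤ act f y :=
  Finset.sum_le_sum fun i _ => mul_le_mul_of_nonneg_left (h i) (abs_nonneg _)

/-- the `ℓ₁`-norm -/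
noncomputable def l1 (x : C00) : ℝ := ∑ i ∈ x.support, |x i|

theorem act_le_l1 {f : C00} {b : ℝ} (h : ∀ i, |f i| ≤ b) (x : C00) : act f x ≤ b * l1 x := by
  rw [act_eq_of_subset' (Finset.Subset.refl _), l1, Finset.mul_sum]
  exact Finset.sum_le_sum fun i _ => mul_le_mul_of_nonneg_right (h i) (abs_nonneg _)

theorem minSupp_mem {f : C00} (h : f.support.Nonempty) : minSupp f ∈ f.support := by
  have : ({a | a ∈ f.support} : Set ℕ).Nonempty := h
  exact Nat.sInf_mem this

theorem minSupp_le {f : C00} {a : ℕ} (h : a ∈ f.support) : minSupp f ≤ a :=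
  Nat.sInf_le h

/-! ### levels and closure -/

theorem IsAvg.mono {V V' : Set C00} (h : V ⊆ V') {l : ℕ} {α : C00} (ha : IsAvg V l α) :
    IsAvg V' l α := by
  obtain ⟨h1, L, h2, h3, h4, h5, h6⟩ := ha
  exact ⟨h1, L, h2, h3, fun f hf => h (h4 f hf), h5, h6⟩

theorem IsSch.mono {𝒮 𝒮' : Set (Finset ℕ)} {V V' : Set C00} (hS : 𝒮 ⊆ 𝒮') (h : V ⊆ V')
    {g : C00} (hg : IsSch 𝒮 V g) : IsSch 𝒮' V' g := by
  obtain ⟨L, h1, h2, h3, h4, h5, h6⟩ := hg
  exact ⟨L, h1, fun p hp => (h2 p hp).mono h, h3, hS h4, h5, h6⟩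

theorem Wlev_succ (𝒮 : Set (Finset ℕ)) (m : ℕ) : Wlev 𝒮 m ⊆ Wlev 𝒮 (m + 1) := by
  intro f hf
  exact Or.inl (Or.inl hf)

theorem Wlev_mono (𝒮 : Set (Finset ℕ)) {m m' : ℕ} (h : m ≤ m') : Wlev 𝒮 m ⊆ Wlev 𝒮 m' := by
  induction h with
  | refl => exact subset_rfl
  | step _ ih => exact ih.trans (Wlev_succ 𝒮 _)

theorem Wlev_subset (𝒮 : Set (Finset ℕ)) (m : ℕ) : Wlev 𝒮 m ⊆ WW 𝒮 :=
  Set.subset_iUnion (Wlev 𝒮) m

theorem Wlev_mono_fam {𝒮 𝒮' : Set (Finset ℕ)} (h : 𝒮 ⊆ 𝒮') (m : ℕ) :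
    Wlev 𝒮 m ⊆ Wlev 𝒮' m := by
  induction m with
  | zero => exact subset_rfl
  | succ m ih =>
    rintro f ((hf | ⟨l, hf⟩) | hf)
    · exact Or.inl (Or.inl (ih hf))
    · exact Or.inl (Or.inr ⟨l, hf.mono ih⟩)
    · exact Or.inr (hf.mono h ih)

theorem WW_mono {𝒮 𝒮' : Set (Finset ℕ)} (h : 𝒮 ⊆ 𝒮') : WW 𝒮 ⊆ WW 𝒮' :=
  Set.iUnion_mono fun m => Wlev_mono_fam h m

theorem exists_level {ι : Type} {𝒮 : Set (Finset ℕ)} (L : List ι) (φ : ι → C00)
    (h : ∀ p ∈ L, φ p ∈ WW 𝒮) : ∃ m, ∀ p ∈ L, φ p ∈ Wlev 𝒮 m := by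
  induction L with
  | nil => exact ⟨0, by simp⟩
  | cons a L ih =>
    obtain ⟨m, hm⟩ := ih fun p hp => h p (List.mem_cons_of_mem _ hp)
    obtain ⟨m', hm'⟩ := Set.mem_iUnion.1 (h a List.mem_cons_self)
    refine ⟨max m m', fun p hp => ?_⟩
    rw [List.mem_cons] at hp
    obtain rfl | hp := hp
    · exact Wlev_mono 𝒮 (le_max_right _ _) hm'
    · exact Wlev_mono 𝒮 (le_max_left _ _) (hm p hp)

theorem isAvg_level {𝒮 : Set (Finset ℕ)} {l : ℕ} {α : C00} (h : IsAvg (WW 𝒮) l α) :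
    ∃ m, IsAvg (Wlev 𝒮 m) l α := by
  obtain ⟨h1, L, h2, h3, h4, h5, h6⟩ := h
  obtain ⟨m, hm⟩ := exists_level L id h4
  exact ⟨m, h1, L, h2, h3, hm, h5, h6⟩

theorem avg_mem {𝒮 : Set (Finset ℕ)} {l : ℕ} {α : C00} (h : IsAvg (WW 𝒮) l α) : α ∈ WW 𝒮 := by
  obtain ⟨m, hm⟩ := isAvg_level h
  exact Set.mem_iUnion.2 ⟨m + 1, Or.inl (Or.inr ⟨l, hm⟩)⟩

theorem sch_mem {𝒮 : Set (Finset ℕ)} {g : C00} (h : IsSch 𝒮 (WW 𝒮) g) : g ∈ WW 𝒮 := by
  obtain ⟨L, h1, h2, h3, h4, h5, h6⟩ := h
  have : ∃ m, ∀ p ∈ L, IsAvg (Wlev 𝒮 m) p.1 p.2 := by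
    clear h1 h3 h4 h5 h6
    induction L with
    | nil => exact ⟨0, by simp⟩
    | cons a L ih =>
      obtain ⟨m, hm⟩ := ih fun p hp => h2 p (List.mem_cons_of_mem _ hp)
      obtain ⟨m', hm'⟩ := isAvg_level (h2 a List.mem_cons_self)
      refine ⟨max m m', fun p hp => ?_⟩
      rw [List.mem_cons] at hp
      obtain rfl | hp := hp
      · exact hm'.mono (Wlev_mono 𝒮 (le_max_right _ _))
      · exact (hm p hp).mono (Wlev_mono 𝒮 (le_max_left _ _))
  obtain ⟨m, hm⟩ := this
  exact Set.mem_iUnion.2 ⟨m + 1, Or.inr ⟨L, h1, hm, h3, h4, h5, h6⟩⟩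

theorem unit_mem {𝒮 : Set (Finset ℕ)} {i : ℕ} (hi : 1 ≤ i) :
    (Finsupp.single i 1 : C00) ∈ WW 𝒮 :=
  Set.mem_iUnion.2 ⟨0, i, hi, Or.inl rfl⟩

theorem WW_cases {𝒮 : Set (Finset ℕ)} {f : C00} (h : f ∈ WW 𝒮) :
    (∃ i : ℕ, 1 ≤ i ∧ (f = Finsupp.single i 1 ∨ f = Finsupp.single i (-1))) ∨
    (∃ l, IsAvg (WW 𝒮) l f) ∨ IsSch 𝒮 (WW 𝒮) f := by
  obtain ⟨m, hm⟩ := Set.mem_iUnion.1 h
  induction m with
  | zero => exact Or.inl hm
  | succ m ih =>
    obtain (hf | ⟨l, hf⟩) | hf := hm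
    · exact ih hf
    · exact Or.inr (Or.inl ⟨l, hf.mono (Wlev_subset 𝒮 m)⟩)
    · exact Or.inr (Or.inr (hf.mono subset_rfl (Wlev_subset 𝒮 m)))

/-! ### coefficients and supports -/

theorem list_sum_apply (L : List C00) (i : ℕ) : L.sum i = (L.map fun f => f i).sum := by
  induction L with
  | nil => simp
  | cons f L ih => rw [List.sum_cons, List.map_cons, List.sum_cons, Finsupp.add_apply, ih]

theorem mem_support_list {L : List C00} {i : ℕ} (h : i ∈ L.sum.support) :
    ∃ f ∈ L, i ∈ f.support := by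
  induction L with
  | nil => simp at h
  | cons f L ih =>
    rw [List.sum_cons, Finsupp.mem_support_iff, Finsupp.add_apply] at h
    by_cases hf : f i = 0
    · rw [hf, zero_add] at h
      obtain ⟨g, hg, hg'⟩ := ih (Finsupp.mem_support_iff.2 h)
      exact ⟨g, List.mem_cons_of_mem _ hg, hg'⟩
    · exact ⟨f, List.mem_cons_self, Finsupp.mem_support_iff.2 hf⟩

theorem list_sum_eq {L : List C00} (hL : L.Pairwise Bef) {f : C00} (hf : f ∈ L) {i : ℕ}
    (hi : i ∈ f.support) : L.sum i = f i := by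
  induction L with
  | nil => simp at hf
  | cons g L ih =>
    rw [List.pairwise_cons] at hL
    rw [List.sum_cons, Finsupp.add_apply]
    rw [List.mem_cons] at hf
    obtain rfl | hf := hf
    · have : L.sum i = 0 := by
        by_contra hne
        obtain ⟨g, hg, hg'⟩ := mem_support_list (Finsupp.mem_support_iff.2 hne)
        exact lt_irrefl _ (hL.1 g hg i hi i hg')
      rw [this, add_zero]
    · have : g i = 0 := by
        by_contra hne
        exact lt_irrefl _ (hL.1 f hf i (Finsupp.mem_support_iff.2 hne) i hi)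
      rw [this, zero_add]
      exact ih hL.2 hf

theorem list_sum_abs_le {L : List C00} (hL : L.Pairwise Bef) {b : ℝ} (hb : 0 ≤ b)
    (h : ∀ f ∈ L, ∀ i, |f i| ≤ b) (i : ℕ) : |L.sum i| ≤ b := by
  by_cases hi : i ∈ L.sum.support
  · obtain ⟨f, hf, hfi⟩ := mem_support_list hi
    rw [list_sum_eq hL hf hfi]
    exact h f hf i
  · rw [Finsupp.notMem_support_iff.1 hi, abs_zero]
    exact hb

/-- elementary properties of the members of the norming set -/
def Nice (f : C00) : Prop := f.support.Nonempty ∧ (∀ i, |f i| ≤ 1) ∧ ∀ i ∈ f.support, 1 ≤ i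

theorem IsAvg.nice {V : Set C00} (hV : ∀ f ∈ V, Nice f) {l : ℕ} {α : C00} (h : IsAvg V l α) :
    Nice α ∧ ∀ i, |α i| ≤ 1 / (l : ℝ) := by
  obtain ⟨h1, L, h2, h3, h4, h5, rfl⟩ := h
  have hl : (0 : ℝ) < l := by exact_mod_cast (by omega : 0 < l)
  have hl1 : (1 : ℝ) / l ≤ 1 := by
    rw [div_le_one hl]
    exact_mod_cast (by omega : 1 ≤ l)
  have hc : ∀ i, |((1 / (l : ℝ)) • L.sum) i| ≤ 1 / (l : ℝ) := by
    intro i
    rw [Finsupp.smul_apply, smul_eq_mul, abs_mul, abs_of_pos (by positivity : (0:ℝ) < 1 / l)]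
    have := list_sum_abs_le h5 zero_le_one (fun f hf => (hV f (h4 f hf)).2.1) i
    calc 1 / (l : ℝ) * |L.sum i| ≤ 1 / (l : ℝ) * 1 :=
          mul_le_mul_of_nonneg_left this (by positivity)
      _ = 1 / (l : ℝ) := mul_one _
  refine ⟨⟨?_, fun i => (hc i).trans hl1, ?_⟩, hc⟩
  · obtain ⟨f, hf⟩ := List.exists_mem_of_ne_nil L h2
    obtain ⟨i, hi⟩ := (hV f (h4 f hf)).1
    refine ⟨i, ?_⟩
    rw [Finsupp.mem_support_iff, Finsupp.smul_apply, smul_eq_mul, list_sum_eq h5 hf hi]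
    exact mul_ne_zero (by positivity) (Finsupp.mem_support_iff.1 hi)
  · intro i hi
    have : i ∈ L.sum.support := Finsupp.support_smul hi
    obtain ⟨f, hf, hfi⟩ := mem_support_list this
    exact (hV f (h4 f hf)).2.2 i hfi

theorem mem_snd {L : List (ℕ × C00)} {f : C00} (h : f ∈ L.map Prod.snd) : ∃ p ∈ L, p.2 = f := by
  rw [List.mem_map] at h
  exact h

theorem pairwise_snd {L : List (ℕ × C00)} (h : L.Pairwise (fun p q => Bef p.2 q.2)) :
    (L.map Prod.snd).Pairwise Bef := by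
  rw [List.pairwise_map]
  exact h

theorem Wlev_nice {𝒮 : Set (Finset ℕ)} (m : ℕ) : ∀ f ∈ Wlev 𝒮 m, Nice f := by
  induction m with
  | zero =>
    rintro f ⟨i, hi, rfl | rfl⟩
    · refine ⟨⟨i, by simp⟩, fun j => ?_, fun j hj => ?_⟩
      · rw [Finsupp.single_apply]
        split_ifs <;> simp
      · have hj := Finsupp.support_single_subset hj; rw [Finset.mem_singleton] at hj
        omega
    · refine ⟨⟨i, by simp⟩, fun j => ?_, fun j hj => ?_⟩
      · rw [Finsupp.single_apply]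
        split_ifs <;> simp
      · have hj := Finsupp.support_single_subset hj; rw [Finset.mem_singleton] at hj
        omega
  | succ m ih =>
    rintro f ((hf | ⟨l, hf⟩) | hf)
    · exact ih f hf
    · exact (hf.nice ih).1
    · obtain ⟨L, h1, h2, h3, h4, h5, rfl⟩ := hf
      have h3' := pairwise_snd h3
      refine ⟨?_, ?_, ?_⟩
      · obtain ⟨p, hp⟩ := List.exists_mem_of_ne_nil L h1
        obtain ⟨i, hi⟩ := ((h2 p hp).nice ih).1.1
        refine ⟨i, ?_⟩
        rw [Finsupp.mem_support_iff, list_sum_eq h3' (List.mem_map_of_mem hp) hi]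
        exact Finsupp.mem_support_iff.1 hi
      · refine list_sum_abs_le h3' zero_le_one ?_
        intro f hf
        obtain ⟨p, hp, rfl⟩ := mem_snd hf
        exact ((h2 p hp).nice ih).1.2.1
      · intro i hi
        obtain ⟨f, hf, hfi⟩ := mem_support_list hi
        obtain ⟨p, hp, rfl⟩ := mem_snd hf
        exact ((h2 p hp).nice ih).1.2.2 i hfi

theorem WW_nice {𝒮 : Set (Finset ℕ)} : ∀ f ∈ WW 𝒮, Nice f := by
  intro f hf
  obtain ⟨m, hm⟩ := Set.mem_iUnion.1 hf
  exact Wlev_nice m f hm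

/-! ### the covering families -/

/-- A larger version of the Schreier families, used for upper bounds. -/
def Cov : ℕ → Finset ℕ → Prop
  | 0, F => F.card ≤ 1
  | k + 1, F => ∃ Ls : List (Finset ℕ), (∀ a ∈ F, Ls.length ≤ a) ∧ (∀ E ∈ Ls, Cov k E) ∧
      ∀ a ∈ F, ∃ E ∈ Ls, a ∈ E

theorem Schreier_cov (k : ℕ) : Schreier k ⊆ {F | Cov k F} := by
  induction k with
  | zero =>
    rintro F ⟨m, -, rfl⟩
    change ({m} : Finset ℕ).card ≤ 1
    simp
  | succ k ih =>
    rintro F ⟨L, h1, h2, h3, h4, h5⟩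
    exact ⟨L, h4, fun E hE => ih (h2 E hE), fun a ha => (h5 a).1 ha⟩

/-- transfer of covers along injections into larger integers -/
theorem Cov.transfer (k : ℕ) : ∀ {ι : Type} (F : Finset ℕ), Cov k F → ∀ (G : Finset ι)
    (τ M : ι → ℕ), (∀ q ∈ G, τ q ∈ F) → (∀ q ∈ G, ∀ q' ∈ G, τ q = τ q' → q = q') →
    (∀ q ∈ G, τ q ≤ M q) → Cov k (G.image M) := by
  classical
  induction k with
  | zero =>
    intro ι F hF G τ M h1 h2 h3
    change (G.image M).card ≤ 1
    refine Finset.card_image_le.trans ?_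
    change F.card ≤ 1 at hF
    rw [Finset.card_le_one] at hF ⊢
    intro a ha b hb
    exact h2 a ha b hb (hF _ (h1 a ha) _ (h1 b hb))
  | succ k ih =>
    rintro ι F ⟨Ls, hl, hc, hu⟩ G τ M h1 h2 h3
    refine ⟨Ls.map fun E => (G.filter fun q => τ q ∈ E).image M, ?_, ?_, ?_⟩
    · intro a ha
      rw [Finset.mem_image] at ha
      obtain ⟨q, hq, rfl⟩ := ha
      rw [List.length_map]
      exact (hl _ (h1 q hq)).trans (h3 q hq)
    · intro E' hE'
      rw [List.mem_map] at hE'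
      obtain ⟨E, hE, rfl⟩ := hE'
      refine ih E (hc E hE) _ τ M ?_ ?_ ?_
      · intro q hq
        exact (Finset.mem_filter.1 hq).2
      · intro q hq q' hq' hqq
        exact h2 q (Finset.mem_filter.1 hq).1 q' (Finset.mem_filter.1 hq').1 hqq
      · intro q hq
        exact h3 q (Finset.mem_filter.1 hq).1
    · intro a ha
      rw [Finset.mem_image] at ha
      obtain ⟨q, hq, rfl⟩ := ha
      obtain ⟨E, hE, hqE⟩ := hu _ (h1 q hq)
      exact ⟨_, List.mem_map_of_mem hE, Finset.mem_image_of_mem _ (Finset.mem_filter.2 ⟨hq, hqE⟩)⟩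

theorem Cov.empty (k : ℕ) : Cov k ∅ := by
  cases k with
  | zero => exact Nat.zero_le _
  | succ k => exact ⟨[], by simp, by simp, by simp⟩

end Pool.Agent.R269.SM
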