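import Pool.Agent.R269.SMClose

/-!
# The normed space of finitely supported sequences and functionals on the completion
-/

set_option autoImplicit false

open Filter Topology

namespace Pool.Agent.R269.SM

theorem ev_add_right (f x y : C00) : ev f (x + y) = ev f x + ev f y := by
  unfold ev
  rw [← Finset.sum_add_distrib]
  refine Finset.sum_congr rfl fun i _ => ?_
  rw [Finsupp.add_apply]
  ring

theorem ev_neg_left (f x : C00) : ev (-f) x = -ev f x := by
  have := ev_smul_left (-1) f x
  simpa using this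

theorem abs_ev_le {n : ℕ} {f : C00} (hf : f ∈ WW (Schreier n)) (x : C00) : |ev f x| ≤ nrm n x := by
  rw [abs_le]
  have h1 := le_nrm hf x
  have h2 := le_nrm (WW_neg hf) x
  rw [ev_neg_left] at h2
  constructor <;> linarith

theorem nrm_nonneg (n : ℕ) (x : C00) : 0 ≤ nrm n x :=
  (abs_nonneg _).trans (abs_ev_le (unit_mem (𝒮 := Schreier n) le_rfl) x)

theorem nrm_add_le (n : ℕ) (x y : C00) : nrm n (x + y) ≤ nrm n x + nrm n y := by
  refine nrm_le fun f hf => ?_
  rw [ev_add_right]
  exact add_le_add (le_nrm hf x) (le_nrm hf y)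

theorem nrm_smul_le (n : ℕ) (r : ℝ) (x : C00) : nrm n (r • x) ≤ |r| * nrm n x := by
  refine nrm_le fun f hf => ?_
  rw [ev_smul_right]
  refine (le_abs_self _).trans ?_
  rw [abs_mul]
  exact mul_le_mul_of_nonneg_left (abs_ev_le hf x) (abs_nonneg _)

theorem abs_apply_le_nrm (n : ℕ) (x : C00) {i : ℕ} (hi : 1 ≤ i) : |x i| ≤ nrm n x := by
  have := abs_ev_le (unit_mem (𝒮 := Schreier n) hi) x
  rwa [ev_single, one_mul] at this

theorem nrm_neg (n : ℕ) (x : C00) : nrm n (-x) = nrm n x := by
  have h1 := nrm_smul_le n (-1) x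
  have h2 := nrm_smul_le n (-1) (-x)
  simp only [neg_smul, one_smul, neg_neg, abs_neg, abs_one, one_mul] at h1 h2
  exact le_antisymm h1 h2

/-- sequences with no coordinate at zero -/
def FamS : Submodule ℝ C00 where
  carrier := {a | a 0 = 0}
  add_mem' := by
    intro a b ha hb
    change (a + b) 0 = 0
    rw [Finsupp.add_apply]
    have h1 : a 0 = 0 := ha
    have h2 : b 0 = 0 := hb
    rw [h1, h2, add_zero]
  zero_mem' := rfl
  smul_mem' := by
    intro r a ha
    change (r • a) 0 = 0
    have h1 : a 0 = 0 := ha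
    rw [Finsupp.smul_apply, h1, smul_zero]

/-- The normed space of finitely supported sequences on the positive integers. -/
def Fam (_n : ℕ) : Type := FamS

noncomputable instance (n : ℕ) : AddCommGroup (Fam n) := inferInstanceAs (AddCommGroup FamS)
noncomputable instance (n : ℕ) : Module ℝ (Fam n) := inferInstanceAs (Module ℝ FamS)

/-- the underlying sequence -/
def Fam.seq {n : ℕ} (a : Fam n) : C00 := (a : FamS).1

theorem seq_add {n : ℕ} (a b : Fam n) : (a + b).seq = a.seq + b.seq := rfl
theorem seq_smul {n : ℕ} (r : ℝ) (a : Fam n) : (r • a).seq = r • a.seq := rfl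
theorem seq_zero {n : ℕ} : (0 : Fam n).seq = 0 := rfl
theorem seq_neg {n : ℕ} (a : Fam n) : (-a).seq = -a.seq := rfl
theorem seq_apply_zero {n : ℕ} (a : Fam n) : a.seq 0 = 0 := (a : FamS).2

/-- the family with the given sequence -/
def mkF (n : ℕ) (a : C00) (h : a 0 = 0) : Fam n := (⟨a, h⟩ : FamS)

theorem seq_mkF {n : ℕ} {a : C00} (h : a 0 = 0) : (mkF n a h).seq = a := rfl

noncomputable instance (n : ℕ) : NormedAddCommGroup (Fam n) :=
  AddGroupNorm.toNormedAddCommGroup
    { toFun := fun x => nrm n x.seq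
      map_zero' := by
        refine le_antisymm (nrm_le fun f _ => ?_) (nrm_nonneg _ _)
        rw [seq_zero]
        simp [ev]
      add_le' := fun x y => nrm_add_le n x.seq y.seq
      neg' := fun x => nrm_neg n x.seq
      eq_zero_of_map_eq_zero' := by
        intro x hx
        refine Subtype.ext (Finsupp.ext fun i => ?_)
        rcases Nat.eq_zero_or_pos i with rfl | hi
        · exact seq_apply_zero x
        · have h1 := abs_apply_le_nrm n x.seq hi
          have h2 : nrm n x.seq = 0 := hx
          rw [h2] at h1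
          exact abs_eq_zero.1 (le_antisymm h1 (abs_nonneg _)) }

theorem norm_fam {n : ℕ} (x : Fam n) : ‖x‖ = nrm n x.seq := rfl

noncomputable instance (n : ℕ) : NormedSpace ℝ (Fam n) where
  norm_smul_le := fun r x => nrm_smul_le n r x.seq

/-- coordinate functionals on the finitely supported sequences -/
noncomputable def coF (n i : ℕ) : Fam n →L[ℝ] ℝ :=
  LinearMap.mkContinuous
    { toFun := fun x => x.seq i
      map_add' := fun x y => by rw [seq_add]; rfl
      map_smul' := fun c x => by rw [seq_smul]; rfl } 1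
    (fun x => by
      rw [one_mul, Real.norm_eq_abs]
      change |x.seq i| ≤ nrm n x.seq
      rcases Nat.eq_zero_or_pos i with rfl | hi
      · rw [seq_apply_zero, abs_zero]
        exact nrm_nonneg _ _
      · exact abs_apply_le_nrm n x.seq hi)

section X

variable {n : ℕ} {X : Type} [NormedAddCommGroup X] [NormedSpace ℝ X] (J : Fam n →ₗᵢ[ℝ] X)

/-- coordinate functionals on the space -/
noncomputable def co (i : ℕ) : X →L[ℝ] ℝ := (coF n i).extend J.toContinuousLinearMap

/-- functionals with finite support -/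
noncomputable def hat (f : C00) : X →L[ℝ] ℝ := ∑ i ∈ f.support, f i • co J i

variable {J} (hJ : DenseRange J)
include hJ

theorem co_J (i : ℕ) (a : Fam n) : co J i (J a) = a.seq i :=
  ContinuousLinearMap.extend_eq (f := coF n i) (e := J.toContinuousLinearMap) hJ
    J.isometry.isUniformInducing a

theorem hat_J (f : C00) (a : Fam n) : hat J f (J a) = ev f a.seq := by
  unfold hat ev
  rw [_root_.sum_apply]
  refine Finset.sum_congr rfl fun i _ => ?_
  rw [_root_.smul_apply, co_J hJ, smul_eq_mul]

theorem hat_le {f : C00} (hf : f ∈ WW (Schreier n)) (x : X) : |hat J f x| ≤ ‖x‖ := by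
  refine hJ.induction_on x (isClosed_le (by fun_prop) (by fun_prop)) fun a => ?_
  rw [hat_J hJ, J.norm_map, norm_fam]
  exact abs_ev_le hf _

theorem norm_le_of_hat {x : X} {r : ℝ} (h : ∀ f ∈ WW (Schreier n), |hat J f x| ≤ r) :
    ‖x‖ ≤ r := by
  refine le_of_forall_pos_le_add fun ε hε => ?_
  obtain ⟨a, ha⟩ := hJ.exists_dist_lt x (half_pos hε)
  rw [dist_eq_norm] at ha
  have h1 : ‖J a‖ ≤ r + ε / 2 := by
    rw [J.norm_map, norm_fam]
    refine nrm_le fun f hf => ?_
    rw [← hat_J hJ]
    have h2 : hat J f (J a) = hat J f x - hat J f (x - J a) := by rw [map_sub]; ring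
    have h3 := hat_le hJ hf (x - J a)
    have h4 := h f hf
    rw [h2]
    rw [abs_le] at h3 h4
    linarith
  have h5 : ‖x‖ ≤ ‖x - J a‖ + ‖J a‖ := by
    have := norm_add_le (x - J a) (J a)
    rwa [sub_add_cancel] at this
  linarith

theorem hat_ext {F G : X →L[ℝ] ℝ} (h : ∀ a : Fam n, F (J a) = G (J a)) (x : X) : F x = G x :=
  hJ.induction_on x (isClosed_eq (by fun_prop) (by fun_prop)) h

theorem hat_lc (φ : ℕ → C00) (c : C00) (x : X) :
    hat J (lc φ c) x = ∑ m ∈ c.support, c m * hat J (φ m) x := by
  have := hat_ext hJ (F := hat J (lc φ c)) (G := ∑ m ∈ c.support, c m • hat J (φ m)) (fun a => by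
    rw [hat_J hJ, ev_lc, _root_.sum_apply]
    refine Finset.sum_congr rfl fun m _ => ?_
    rw [_root_.smul_apply, hat_J hJ, smul_eq_mul]) x
  rw [this, _root_.sum_apply]
  rfl

/-- functionals supported far away are small on a given vector -/
theorem hat_tail (x : X) {ε : ℝ} (hε : 0 < ε) : ∃ N : ℕ, ∀ f ∈ WW (Schreier n),
    (∀ i ∈ f.support, N ≤ i) → |hat J f x| ≤ ε := by
  obtain ⟨a, ha⟩ := hJ.exists_dist_lt x hε
  rw [dist_eq_norm] at ha
  refine ⟨a.seq.support.sup id + 1, fun f hf hN => ?_⟩
  have h1 : hat J f (J a) = 0 := by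
    rw [hat_J hJ]
    refine Finset.sum_eq_zero fun i hi => ?_
    have : a.seq i = 0 := by
      by_contra hne
      have h2 := Finset.le_sup (f := id) (Finsupp.mem_support_iff.2 hne)
      have h3 := hN i hi
      simp only [id] at h2
      omega
    rw [this, mul_zero]
  have h2 : hat J f x = hat J f (x - J a) := by rw [map_sub, h1, sub_zero]
  rw [h2]
  exact (hat_le hJ hf _).trans ha.le

end X

/-- the vectors of the unit vector basis -/
noncomputable def uF (n i : ℕ) : Fam n := if h : i = 0 then 0 else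
  mkF n (e i) (by rw [e, Finsupp.single_apply, if_neg h])

theorem seq_uF {n i : ℕ} (hi : 1 ≤ i) : (uF n i).seq = e i := by
  unfold uF
  rw [dif_neg (by omega)]
  rfl

theorem uF_zero (n : ℕ) : uF n 0 = 0 := by
  unfold uF
  rw [dif_pos rfl]

theorem e_apply (i j : ℕ) : e i j = if i = j then 1 else 0 := Finsupp.single_apply

end Pool.Agent.R269.SM
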