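import Pool.Agent.R269.SMUnique

/-!
# Existence of the space, and the absence of minimality
-/

set_option autoImplicit false

namespace Pool.Agent.R269.SM

theorem sum_support_eq {X : Type} [NormedAddCommGroup X] [NormedSpace ℝ X] (u : ℕ → X) (x : C00) :
    ∑ i ∈ x.support, x i • u i = Finsupp.linearCombination ℝ u x := by
  rw [Finsupp.linearCombination_apply]
  rfl

/-- The canonical isometry. -/
noncomputable def iso {n : ℕ} {X : Type} [NormedAddCommGroup X] [NormedSpace ℝ X] {u : ℕ → X}
    (h : IsXn n X u) : Fam n →ₗᵢ[ℝ] X where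
  toFun := fun a => Finsupp.linearCombination ℝ u a.seq
  map_add' := fun a b => by rw [seq_add, map_add]
  map_smul' := fun r a => by rw [seq_smul, map_smul]; rfl
  norm_map' := fun a => by
    change ‖Finsupp.linearCombination ℝ u a.seq‖ = nrm n a.seq
    rw [← sum_support_eq]
    exact implicit_unique h.norm (by simp) a.seq (seq_apply_zero a)

theorem iso_dense {n : ℕ} {X : Type} [NormedAddCommGroup X] [NormedSpace ℝ X] {u : ℕ → X}
    (h : IsXn n X u) : DenseRange (iso h) := by
  have h1 : Submodule.span ℝ (u '' {i | 1 ≤ i}) ≤ LinearMap.range (iso h).toLinearMap := by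
    rw [Submodule.span_le]
    rintro _ ⟨i, hi, rfl⟩
    refine ⟨uF n i, ?_⟩
    change Finsupp.linearCombination ℝ u (uF n i).seq = u i
    rw [seq_uF hi, e, Finsupp.linearCombination_single, one_smul]
  refine h.dense.mono ?_
  intro x hx
  obtain ⟨a, ha⟩ := h1 hx
  exact ⟨a, ha⟩

/-- The space of order `n` is not minimal. -/
theorem not_minimal {k : ℕ} {X : Type} [NormedAddCommGroup X] [NormedSpace ℝ X] {u : ℕ → X}
    (h : IsXn (k + 1) X u) : ¬ MinimalSpace X := by
  intro hmin
  have hJ := iso_dense h
  obtain ⟨Z, hZY, -, ⟨g⟩⟩ := hmin (Ysub (iso h)) (Submodule.isClosed_topologicalClosure _)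
    (Y_infinite hJ)
  refine no_embedding hJ (Z.subtypeL.comp (g.symm : X →L[ℝ] Z)) (fun x => hZY (g.symm x).2)
    (K := ‖(g : Z →L[ℝ] X)‖ + 1) (by positivity) fun x => ?_
  have h1 : ‖x‖ ≤ ‖(g : Z →L[ℝ] X)‖ * ‖g.symm x‖ := by
    have := (g : Z →L[ℝ] X).le_opNorm (g.symm x)
    simpa using this
  have h2 : ‖(Z.subtypeL.comp (g.symm : X →L[ℝ] Z)) x‖ = ‖g.symm x‖ := rfl
  rw [h2]
  have := norm_nonneg (g.symm x)
  nlinarith

/-- The space of order `n` exists. -/
theorem exists_Xn (n : ℕ) : IsXn n (UniformSpace.Completion (Fam n))
    fun i => ((uF n i : Fam n) : UniformSpace.Completion (Fam n)) := by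
  classical
  have hsum : ∀ x : C00, ∑ i ∈ x.support, x i • ((uF n i : Fam n) : UniformSpace.Completion (Fam n))
      = ((∑ i ∈ x.support, x i • uF n i : Fam n) : UniformSpace.Completion (Fam n)) := by
    intro x
    have h1 := map_sum (UniformSpace.Completion.toComplL (𝕜 := ℝ) (E := Fam n))
      (fun i => x i • uF n i) x.support
    simp only [map_smul] at h1
    exact h1.symm
  constructor
  · have h1 : Set.range ((↑) : Fam n → UniformSpace.Completion (Fam n)) ⊆
        (Submodule.span ℝ ((fun i => ((uF n i : Fam n) : UniformSpace.Completion (Fam n))) ''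
          {i | 1 ≤ i}) : Set (UniformSpace.Completion (Fam n))) := by
      rintro _ ⟨a, rfl⟩
      have h2 : a = ∑ i ∈ a.seq.support, a.seq i • uF n i := by
        refine Subtype.ext ?_
        change a.seq = (∑ i ∈ a.seq.support, a.seq i • uF n i : Fam n).seq
        rw [seq_sum]
        have h3 : ∀ i ∈ a.seq.support, (a.seq i • uF n i).seq = Finsupp.single i (a.seq i) := by
          intro i hi
          have hi1 : 1 ≤ i := by
            rcases Nat.eq_zero_or_pos i with rfl | h
            · rw [Finsupp.mem_support_iff, seq_apply_zero] at hi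
              exact absurd rfl hi
            · exact h
          rw [seq_smul, seq_uF hi1, e, Finsupp.smul_single, smul_eq_mul, mul_one]
        rw [Finset.sum_congr rfl h3]
        exact (Finsupp.sum_single a.seq).symm
      rw [h2, ← hsum]
      refine Submodule.sum_mem _ fun i hi => Submodule.smul_mem _ _ (Submodule.subset_span ?_)
      refine ⟨i, ?_, rfl⟩
      rcases Nat.eq_zero_or_pos i with rfl | h
      · rw [Finsupp.mem_support_iff, seq_apply_zero] at hi
        exact absurd rfl hi
      · exact h
    exact UniformSpace.Completion.denseRange_coe.mono h1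
  · have hN : (fun x : C00 => ‖∑ i ∈ x.support, x i •
        ((uF n i : Fam n) : UniformSpace.Completion (Fam n))‖) = nrm n := by
      funext x
      rw [hsum, UniformSpace.Completion.norm_coe, norm_fam, seq_sum]
      have hev : ∀ f ∈ WW (Schreier n), ev f (∑ i ∈ x.support, (x i • uF n i).seq) = ev f x := by
        intro f hf
        unfold ev
        refine Finset.sum_congr rfl fun j hj => ?_
        have hj1 := (WW_nice f hf).2.2 j hj
        congr 1
        rw [sum_apply']
        have h4 : ∀ i ∈ x.support, (x i • uF n i).seq j = if i = j then x i else 0 := by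
          intro i _
          rw [seq_smul, Finsupp.smul_apply, smul_eq_mul]
          rcases Nat.eq_zero_or_pos i with rfl | hi
          · rw [uF_zero, seq_zero, if_neg (by omega)]
            simp
          · rw [seq_uF_apply n i j hi]
            split_ifs <;> simp
        rw [Finset.sum_congr rfl h4, Finset.sum_ite_eq']
        split_ifs with h
        · rfl
        · exact (Finsupp.notMem_support_iff.1 h).symm
      refine le_antisymm (nrm_le fun f hf => ?_) (nrm_le fun f hf => ?_)
      · rw [hev f hf]
        exact le_nrm hf x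
      · rw [← hev f hf]
        exact le_nrm hf _
    rw [hN]
    exact nrm_implicit n

end Pool.Agent.R269.SM
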