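import Pool.Agent.R269.SMSpace

/-!
# The implicit formula for the norm, and minimality: definitions
-/

set_option autoImplicit false

namespace Pool.Agent.R269.SM

/-- The restriction `E x` of the finitely supported sequence `x` to the finite set `E`. -/
noncomputable def restr (E : Finset ℕ) (x : C00) : C00 := x.filter (· ∈ E)

/-- `‖y‖_j`, the supremum of `(1 / j) ∑ N (F_q y)` over all `F₁ < … < F_d` finite, `d ≤ j`. -/
noncomputable def avgNorm (N : C00 → ℝ) (j : ℕ) (y : C00) : ℝ :=
  sSup {r : ℝ | ∃ Fs : List (Finset ℕ), Fs.length ≤ j ∧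
    Fs.Pairwise (fun F G => ∀ a ∈ F, ∀ b ∈ G, a < b) ∧
    r = 1 / (j : ℝ) * (Fs.map fun F => N (restr F y)).sum}

/-- `Admissible n L`: the list `L` of pairs `(j_q, E_q)` consists of nonempty finite sets
`E₁ < … < E_d` with `{min E₁, …, min E_d}` in the Schreier family of order `n`, and of integers
`2 ≤ j₁ < … < j_d` such that `j_q` is larger than the elements of the preceding sets. -/
def Admissible (n : ℕ) (L : List (ℕ × Finset ℕ)) : Prop :=
  L ≠ [] ∧ (∀ p ∈ L, 2 ≤ p.1 ∧ p.2.Nonempty) ∧
    L.Pairwise (fun p q => ∀ a ∈ p.2, ∀ b ∈ q.2, a < b) ∧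
    (L.map fun p => sInf (p.2 : Set ℕ)).toFinset ∈ Schreier n ∧
    L.Pairwise (fun p q => p.1 < q.1 ∧ ∀ a ∈ p.2, a < q.1)

/-- The implicit formula `N x = max {‖x‖_∞, sup ∑ ‖E_q x‖_{j_q}}` for all finitely supported
sequences `x` on the positive integers. -/
def ImplicitNorm (n : ℕ) (N : C00 → ℝ) : Prop :=
  ∀ x : C00, x 0 = 0 → IsLUB ({r : ℝ | ∃ i, r = |x i|} ∪
    {r : ℝ | ∃ L, Admissible n L ∧ r = (L.map fun p => avgNorm N p.1 (restr p.2 x)).sum}) (N x)

/-- `IsXn n X u`: the normed space `X` with the vectors `u 1, u 2, …` is the space of order `n`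
with its unit vector basis, that is, the vectors `u i` (`i ≥ 1`) span a dense subspace and the norm
of their finite linear combinations satisfies the implicit formula. -/
structure IsXn (n : ℕ) (X : Type) [NormedAddCommGroup X] [NormedSpace ℝ X] (u : ℕ → X) : Prop where
  dense : Dense (Submodule.span ℝ (u '' {i | 1 ≤ i}) : Set X)
  norm : ImplicitNorm n fun x => ‖∑ i ∈ x.support, x i • u i‖

/-- A Banach space `X` is minimal if every closed infinite-dimensional subspace `Y` of `X` contains
a closed subspace isomorphic to `X`. -/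
def MinimalSpace (X : Type) [NormedAddCommGroup X] [NormedSpace ℝ X] : Prop :=
  ∀ Y : Submodule ℝ X, IsClosed (Y : Set X) → ¬ FiniteDimensional ℝ Y →
    ∃ Z : Submodule ℝ X, Z ≤ Y ∧ IsClosed (Z : Set X) ∧ Nonempty (Z ≃L[ℝ] X)

end Pool.Agent.R269.SM
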