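import Pool.Agent.R269.SMNotMin
import Pool.Agent.R269.SMImplicit

/-!
# The norm satisfies the implicit formula
-/

set_option autoImplicit false

namespace Pool.Agent.R269.SM

theorem restr_eq (E : Finset ℕ) (x : C00) : restr E x = res (E : Set ℕ) x := by
  classical
  ext i
  rw [res_apply]
  unfold restr
  rw [Finsupp.filter_apply]
  simp

theorem restr_apply (E : Finset ℕ) (x : C00) (i : ℕ) : restr E x i = if i ∈ E then x i else 0 := by
  classical
  unfold restr
  rw [Finsupp.filter_apply]

/-- sums of suprema over lists -/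
theorem list_sum_sSup_le {ι : Type} (L : List ι) (S : ι → Set ℝ) (hne : ∀ p ∈ L, (S p).Nonempty)
    {B : ℝ} (h : ∀ r : ι → ℝ, (∀ p ∈ L, r p ∈ S p) → (L.map r).sum ≤ B) :
    (L.map fun p => sSup (S p)).sum ≤ B := by
  classical
  refine le_of_forall_pos_le_add fun ε hε => ?_
  have hδ : 0 < ε / (L.length + 1) := by positivity
  have h1 : ∀ p : ι, ∃ r : ℝ, p ∈ L → r ∈ S p ∧ sSup (S p) - ε / (L.length + 1) < r := by
    intro p
    by_cases hp : p ∈ L
    · obtain ⟨r, hr, hlt⟩ := exists_lt_of_lt_csSup (hne p hp)
        (sub_lt_self (sSup (S p)) hδ)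
      exact ⟨r, fun _ => ⟨hr, hlt⟩⟩
    · exact ⟨0, fun h => absurd h hp⟩
  choose r hr using h1
  have h2 := h r fun p hp => (hr p hp).1
  have h3 : ∀ L' : List ι, (∀ p ∈ L', p ∈ L) →
      (L'.map fun p => sSup (S p)).sum ≤ (L'.map r).sum + L'.length * (ε / (L.length + 1)) := by
    intro L'
    induction L' with
    | nil => intro _; simp
    | cons p L' ih =>
      intro hL'
      have h4 := ih fun q hq => hL' q (List.mem_cons_of_mem _ hq)
      have h5 := (hr p (hL' p List.mem_cons_self)).2
      rw [List.map_cons, List.sum_cons, List.map_cons, List.sum_cons, List.length_cons]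
      push_cast
      linarith
  have h6 := h3 L fun p hp => hp
  have h7 : (L.length : ℝ) * (ε / (L.length + 1)) ≤ ε := by
    rw [mul_div_assoc', div_le_iff₀ (by positivity)]
    nlinarith [Nat.cast_nonneg (α := ℝ) L.length]
  linarith

theorem ev_res (A : Set ℕ) (f x : C00) : ev f (res A x) = ev (res A f) x := by
  classical
  have h1 : (res A f).support ⊆ f.support := fun i hi => (mem_support_res.1 hi).1
  rw [ev_eq_of_subset h1, ev]
  refine Finset.sum_congr rfl fun i _ => ?_
  rw [res_apply, res_apply]
  split_ifs <;> simp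

theorem ev_list (L : List C00) (x : C00) : ev L.sum x = (L.map fun f => ev f x).sum := by
  induction L with
  | nil => simp [ev]
  | cons f L ih => rw [List.sum_cons, List.map_cons, List.sum_cons, ev_add_left, ih]

/-- upper bounds for `avgNorm` -/
theorem avg_elem_le {n j : ℕ} (hj : 2 ≤ j) {y : C00} {B : ℝ} (hB : 0 ≤ B)
    (h : ∀ α, IsAvg (WW (Schreier n)) j α → ev α y ≤ B) {Fs : List (Finset ℕ)}
    (hl : Fs.length ≤ j) (hp : Fs.Pairwise (fun F G => ∀ a ∈ F, ∀ b ∈ G, a < b)) :
    1 / (j : ℝ) * (Fs.map fun F => nrm n (restr F y)).sum ≤ B := by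
  classical
  have hj0 : (0 : ℝ) < j := by exact_mod_cast (by omega : 0 < j)
  rw [one_div_mul_eq_div, div_le_iff₀ hj0]
  unfold nrm
  refine list_sum_sSup_le Fs (fun F => {r : ℝ | ∃ f ∈ WW (Schreier n), r = ev f (restr F y)})
    (fun F _ => ⟨_, _, unit_mem le_rfl, rfl⟩) fun r hr => ?_
  have h1 : ∀ F : Finset ℕ, ∃ f : C00, F ∈ Fs → f ∈ WW (Schreier n) ∧ r F = ev f (restr F y) := by
    intro F
    by_cases hF : F ∈ Fs
    · obtain ⟨f, hf, hrf⟩ := hr F hF
      exact ⟨f, fun _ => ⟨hf, hrf⟩⟩
    · exact ⟨0, fun h => absurd h hF⟩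
  choose f hf using h1
  have h2 : (Fs.map r).sum = ev (Fs.map fun F : Finset ℕ => res (F : Set ℕ) (f F)).sum y := by
    rw [ev_list, List.map_map]
    congr 1
    refine List.map_congr_left fun F hF => ?_
    rw [(hf F hF).2, restr_eq, ev_res]
    rfl
  rw [h2]
  by_cases h0 : (Fs.map fun F : Finset ℕ => res (F : Set ℕ) (f F)).sum = 0
  · rw [h0, ev_zero_left]
    positivity
  · have hsum : (((Fs.filter fun F : Finset ℕ => res (F : Set ℕ) (f F) ≠ 0).map
        fun F : Finset ℕ => res (F : Set ℕ) (f F))).sum = (Fs.map fun F : Finset ℕ => res (F : Set ℕ) (f F)).sum :=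
      sum_filter_ne_zero Fs fun F : Finset ℕ => res (F : Set ℕ) (f F)
    have h3 : IsAvg (WW (Schreier n)) j
        ((1 / (j : ℝ)) • (Fs.map fun F : Finset ℕ => res (F : Set ℕ) (f F)).sum) := by
      refine ⟨hj, (Fs.filter fun F : Finset ℕ => res (F : Set ℕ) (f F) ≠ 0).map
        fun F : Finset ℕ => res (F : Set ℕ) (f F), ?_, ?_, ?_, ?_, ?_⟩
      · intro h
        rw [h] at hsum
        exact h0 hsum.symm
      · rw [List.length_map]
        exact (List.length_filter_le _ _).trans hl
      · intro g hg
        rw [List.mem_map] at hg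
        obtain ⟨F, hF, rfl⟩ := hg
        rw [List.mem_filter] at hF
        have hF2 : res (F : Set ℕ) (f F) ≠ 0 := by simpa using hF.2
        exact (WW_res (F : Set ℕ) (hf F hF.1).1).resolve_left hF2
      · rw [List.pairwise_map]
        refine (hp.filter _).imp ?_
        intro F G hFG a ha b hb
        exact hFG a (mem_support_res.1 ha).2 b (mem_support_res.1 hb).2
      · rw [hsum]
    have h4 := h _ h3
    rw [ev_smul_left, one_div_mul_eq_div, div_le_iff₀ hj0] at h4
    exact h4

theorem avgNorm_bdd {n j : ℕ} (hj : 2 ≤ j) (y : C00) :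
    BddAbove {r : ℝ | ∃ Fs : List (Finset ℕ), Fs.length ≤ j ∧
      Fs.Pairwise (fun F G => ∀ a ∈ F, ∀ b ∈ G, a < b) ∧
      r = 1 / (j : ℝ) * (Fs.map fun F => nrm n (restr F y)).sum} := by
  refine ⟨nrm n y, ?_⟩
  rintro r ⟨Fs, hl, hp, rfl⟩
  exact avg_elem_le hj (nrm_nonneg n y) (fun α hα => le_nrm (avg_mem hα) y) hl hp

theorem avgNorm_le {n j : ℕ} (hj : 2 ≤ j) {y : C00} {B : ℝ} (hB : 0 ≤ B)
    (h : ∀ α, IsAvg (WW (Schreier n)) j α → ev α y ≤ B) : avgNorm (nrm n) j y ≤ B := by
  refine csSup_le ⟨_, [], by simp, List.Pairwise.nil, rfl⟩ ?_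
  rintro r ⟨Fs, hl, hp, rfl⟩
  exact avg_elem_le hj hB h hl hp

/-- lower bound for `avgNorm` -/
theorem le_avgNorm {n j : ℕ} {α : C00} (hα : IsAvg (WW (Schreier n)) j α) {E : Finset ℕ}
    (hE : α.support ⊆ E) (x : C00) : ev α x ≤ avgNorm (nrm n) j (restr E x) := by
  obtain ⟨hj, L, h2, h3, h4, h5, rfl⟩ := hα
  have hj0 : (0 : ℝ) < j := by exact_mod_cast (by omega : 0 < j)
  have hsub : ∀ f ∈ L, f.support ⊆ E := by
    intro f hf i hi
    refine hE ?_
    rw [Finsupp.mem_support_iff, Finsupp.smul_apply, smul_eq_mul, list_sum_eq h5 hf hi]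
    exact mul_ne_zero (by positivity) (Finsupp.mem_support_iff.1 hi)
  refine le_trans ?_ (le_csSup (avgNorm_bdd hj _) ⟨L.map fun f => f.support, by simpa using h3,
    by rw [List.pairwise_map]; exact h5, rfl⟩)
  rw [ev_smul_left, ev_list, List.map_map]
  refine mul_le_mul_of_nonneg_left ?_ (by positivity)
  refine List.sum_le_sum fun f hf => ?_
  have h6 : ev f x = ev f (restr f.support (restr E x)) := by
    unfold ev
    refine Finset.sum_congr rfl fun i hi => ?_
    rw [restr_apply, if_pos hi, restr_apply, if_pos (hsub f hf hi)]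
  rw [h6]
  exact le_nrm (h4 f hf) _

theorem sInf_coe (f : C00) : sInf (f.support : Set ℕ) = minSupp f := rfl

/-- The norm satisfies the implicit formula. -/
theorem nrm_implicit (n : ℕ) : ImplicitNorm n (nrm n) := by
  classical
  intro x hx0
  constructor
  · rintro r (⟨i, rfl⟩ | ⟨L, hL, rfl⟩)
    · rcases Nat.eq_zero_or_pos i with rfl | hi
      · rw [hx0, abs_zero]
        exact nrm_nonneg n x
      · exact abs_apply_le_nrm n x hi
    · obtain ⟨h1, h2, h3, h4, h5⟩ := hL
      -- pass to suprema over averages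
      obtain ⟨S, hS⟩ : ∃ S : ℕ × Finset ℕ → Set ℝ, S = fun p => {r : ℝ | ∃ α : C00,
          (α = 0 ∨ IsAvg (WW (Schreier n)) p.1 α) ∧ r = ev α (restr p.2 x)} := ⟨_, rfl⟩
      have hSb : ∀ p, BddAbove (S p) := by
        intro p
        refine ⟨nrm n (restr p.2 x), ?_⟩
        rw [hS]
        rintro r ⟨α, rfl | hα, rfl⟩
        · rw [ev_zero_left]
          exact nrm_nonneg _ _
        · exact le_nrm (avg_mem hα) _
      have hS0 : ∀ p, (0 : ℝ) ∈ S p := by
        intro p
        rw [hS]
        exact ⟨0, Or.inl rfl, (ev_zero_left _).symm⟩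
      have e1 : (L.map fun p => avgNorm (nrm n) p.1 (restr p.2 x)).sum
          ≤ (L.map fun p => sSup (S p)).sum := by
        refine List.sum_le_sum fun p hp => ?_
        refine avgNorm_le (h2 p hp).1 (le_csSup (hSb p) (hS0 p)) fun α hα => ?_
        refine le_csSup (hSb p) ?_
        rw [hS]
        exact ⟨α, Or.inr hα, rfl⟩
      refine e1.trans (list_sum_sSup_le L S (fun p _ => ⟨0, hS0 p⟩) fun r hr => ?_)
      have h6 : ∀ p : ℕ × Finset ℕ, ∃ α : C00, p ∈ L →
          (α = 0 ∨ IsAvg (WW (Schreier n)) p.1 α) ∧ r p = ev α (restr p.2 x) := by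
        intro p
        by_cases hp : p ∈ L
        · have := hr p hp
          rw [hS] at this
          obtain ⟨α, hα, hrα⟩ := this
          exact ⟨α, fun _ => ⟨hα, hrα⟩⟩
        · exact ⟨0, fun h => absurd h hp⟩
      choose α hα using h6
      obtain ⟨β, hβ⟩ : ∃ β : ℕ × Finset ℕ → C00, β = fun p => res (p.2 : Set ℕ) (α p) := ⟨_, rfl⟩
      have e2 : (L.map r).sum = ev (L.map β).sum x := by
        rw [ev_list, List.map_map]
        congr 1
        refine List.map_congr_left fun p hp => ?_
        rw [(hα p hp).2, restr_eq, ev_res, hβ]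
        rfl
      rw [e2]
      by_cases h0 : (L.map β).sum = 0
      · rw [h0, ev_zero_left]
        exact nrm_nonneg n x
      · refine le_nrm (sch_mem ?_) x
        obtain ⟨L', hL'⟩ : ∃ L' : List (ℕ × Finset ℕ), L' = L.filter fun p => β p ≠ 0 := ⟨_, rfl⟩
        have hL'm : ∀ p, p ∈ L' ↔ p ∈ L ∧ β p ≠ 0 := by
          intro p
          rw [hL', List.mem_filter]
          simp
        have hsum : ((L'.map fun p => (p.1, β p)).map Prod.snd).sum = (L.map β).sum := by
          rw [List.map_map]
          have := sum_filter_ne_zero L β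
          rw [← hL'] at this
          exact this
        have hne : L' ≠ [] := by
          intro h
          rw [h] at hsum
          exact h0 hsum.symm
        have hms : ∀ p ∈ L', minSupp (β p) ∈ (β p).support := fun p hp =>
          minSupp_mem (Finsupp.support_nonempty_iff.2 ((hL'm p).1 hp).2)
        have hβs : ∀ p, ∀ i ∈ (β p).support, i ∈ p.2 := by
          intro p i hi
          rw [hβ] at hi
          exact (mem_support_res.1 hi).2
        have hβavg : ∀ p ∈ L', IsAvg (WW (Schreier n)) p.1 (β p) := by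
          intro p hp
          obtain ⟨hpL, hp0⟩ := (hL'm p).1 hp
          rw [hβ] at hp0 ⊢
          obtain h | h := (hα p hpL).1
          · exfalso
            apply hp0
            change res (p.2 : Set ℕ) (α p) = 0
            rw [h, res_zero]
          · exact h.res (fun f hf => WW_res _ hf) hp0
        refine ⟨L'.map fun p => (p.1, β p), by simpa using hne, ?_, ?_, ?_, ?_, hsum.symm⟩
        · intro q hq
          rw [List.mem_map] at hq
          obtain ⟨p, hp, rfl⟩ := hq
          exact hβavg p hp
        · rw [List.pairwise_map, hL']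
          refine (h3.filter _).imp ?_
          intro p q hpq a ha b hb
          exact hpq a (hβs p a ha) b (hβs q b hb)
        · have himg : ((L'.map fun p => (p.1, β p)).map fun p => minSupp p.2).toFinset
              = L'.toFinset.image fun p => minSupp (β p) := by
            ext y
            simp only [List.mem_toFinset, List.mem_map, Finset.mem_image]
            constructor
            · rintro ⟨p, ⟨q, hq, rfl⟩, rfl⟩
              exact ⟨q, hq, rfl⟩
            · rintro ⟨q, hq, rfl⟩
              exact ⟨_, ⟨q, hq, rfl⟩, rfl⟩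
          rw [himg]
          obtain ⟨p0, hp0⟩ := List.exists_mem_of_ne_nil L' hne
          have hmin : ∀ p ∈ L', sInf (p.2 : Set ℕ) ∈ p.2 := by
            intro p hp
            have h7 : ((p.2 : Set ℕ)).Nonempty := (h2 p ((hL'm p).1 hp).1).2
            exact_mod_cast Nat.sInf_mem h7
          refine Schreier.spread n _ h4 L'.toFinset (fun p => sInf (p.2 : Set ℕ))
            (fun p => minSupp (β p)) ⟨p0, List.mem_toFinset.2 hp0⟩ ?_ ?_ ?_ ?_
          · intro p hp
            rw [List.mem_toFinset] at hp ⊢
            rw [List.mem_map]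
            exact ⟨p, ((hL'm p).1 hp).1, rfl⟩
          · intro p hp
            rw [List.mem_toFinset] at hp
            exact Nat.sInf_le (by exact_mod_cast hβs p _ (hms p hp))
          · intro p hp p' hp' hlt
            rw [List.mem_toFinset] at hp hp'
            obtain ⟨hpL, -⟩ := (hL'm p).1 hp
            obtain ⟨hpL', -⟩ := (hL'm p').1 hp'
            obtain h | h | h := list_pairwise_total h3 hpL hpL'
            · rw [h] at hlt
              exact absurd hlt (lt_irrefl _)
            · exact h _ (hβs p _ (hms p hp)) _ (hβs p' _ (hms p' hp'))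
            · have := h _ (hmin p' hp') _ (hmin p hp)
              exact absurd hlt (by omega)
          · intro p hp p' hp' heq
            rw [List.mem_toFinset] at hp hp'
            obtain ⟨hpL, -⟩ := (hL'm p).1 hp
            obtain ⟨hpL', -⟩ := (hL'm p').1 hp'
            obtain h | h | h := list_pairwise_total h3 hpL hpL'
            · rw [h]
            · have := h _ (hmin p hp) _ (hmin p' hp')
              exact absurd heq (by omega)
            · have := h _ (hmin p' hp') _ (hmin p hp)
              exact absurd heq (by omega)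
        · rw [List.pairwise_map, hL']
          refine (h5.filter _).imp ?_
          rintro p q ⟨h, h'⟩
          exact ⟨h, fun a ha => h' a (hβs p a ha)⟩
  · intro b hb
    refine nrm_le fun f hf => ?_
    obtain ⟨i, hi, hu⟩ | ⟨l, hα⟩ | hsch := WW_cases hf
    · have h1 : |x i| ≤ b := hb (Or.inl ⟨i, rfl⟩)
      rw [abs_le] at h1
      obtain rfl | rfl := hu
      · rw [ev_single, one_mul]
        exact h1.2
      · rw [ev_single]
        linarith [h1.1]
    · have hne : f.support.Nonempty := (WW_nice f hf).1
      have h1 : avgNorm (nrm n) l (restr f.support x) ≤ b := by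
        refine hb (Or.inr ⟨[(l, f.support)], ?_, by simp⟩)
        refine ⟨by simp, ?_, by simp, ?_, by simp⟩
        · intro p hp
          rw [List.mem_singleton] at hp
          rw [hp]
          exact ⟨hα.1, hne⟩
        · have h2 : (([(l, f.support)] : List (ℕ × Finset ℕ)).map
              fun p => sInf (p.2 : Set ℕ)).toFinset = {minSupp f} := by simp [sInf_coe]
          rw [h2]
          exact schreier_single n ((WW_nice f hf).2.2 _ (minSupp_mem hne))
      exact (le_avgNorm hα (Finset.Subset.refl _) x).trans h1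
    · obtain ⟨L, h1, h2, h3, h4, h5, rfl⟩ := hsch
      have hadm : Admissible n (L.map fun p => (p.1, p.2.support)) := by
        refine ⟨by simpa using h1, ?_, ?_, ?_, ?_⟩
        · intro q hq
          rw [List.mem_map] at hq
          obtain ⟨p, hp, rfl⟩ := hq
          exact ⟨(h2 p hp).1, (WW_nice _ (avg_mem (h2 p hp))).1⟩
        · rw [List.pairwise_map]
          exact h3
        · rw [List.map_map]
          exact h4
        · rw [List.pairwise_map]
          exact h5
      have h6 : ((L.map fun p => (p.1, p.2.support)).map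
          fun p => avgNorm (nrm n) p.1 (restr p.2 x)).sum ≤ b := hb (Or.inr ⟨_, hadm, rfl⟩)
      refine le_trans ?_ h6
      rw [ev_list, List.map_map, List.map_map]
      refine List.sum_le_sum fun p hp => ?_
      exact le_avgNorm (h2 p hp) (Finset.Subset.refl _) x

end Pool.Agent.R269.SM
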