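import Pool.Agent.R269.SMNorm

/-!
# Interlaced subsequences of the basis
-/

set_option autoImplicit false

namespace Pool.Agent.R269.SM

theorem setup_units {k : ℕ} {i j : ℕ → ℕ} (hi : ∀ N : ℕ, ∃ T : ℕ, ∀ t, T ≤ t → N ≤ i t)
    (hj : ∀ t, 1 ≤ j t)
    (h : ∀ ε : ℝ, 0 < ε → ∀ N : ℕ, ∃ t, N ≤ t ∧ (i t : ℝ) + 1 ≤ ε * j t ∧ N ≤ j t) :
    Setup k (fun t => e (i t)) (fun t => e (j t)) := by
  refine ⟨fun t => (l1_unit (i t)).le, ?_, fun t => unit_mem (hj t), ?_⟩
  · intro N
    obtain ⟨T, hT⟩ := hi N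
    refine ⟨T, fun t ht a ha => ?_⟩
    have := Finsupp.support_single_subset ha
    rw [Finset.mem_singleton] at this
    rw [this]
    exact hT t ht
  · intro ε hε N
    obtain ⟨t, ht, hij, hN⟩ := h ε hε N
    refine ⟨t, ht, i t + 1, j t, ?_, ?_, hN, ?_⟩
    · rw [Finset.sum_eq_zero]
      · exact hε.le
      · intro a ha
        rw [Finset.mem_filter] at ha
        have := Finsupp.support_single_subset ha.1
        rw [Finset.mem_singleton] at this
        omega
    · push_cast
      exact hij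
    · intro a ha
      have := Finsupp.support_single_subset ha
      rw [Finset.mem_singleton] at this
      rw [this]

theorem ev_units {j : ℕ → ℕ} (hj : Function.Injective j) (c a : C00) :
    ev (lc (fun m => e (j m)) c) (lc (fun m => e (j m)) a) = ev c a := by
  rw [ev_lc]
  unfold ev
  refine Finset.sum_congr rfl fun m _ => ?_
  congr 1
  have : ev (e (j m)) (lc (fun m => e (j m)) a) = (lc (fun m => e (j m)) a) (j m) := ev_unit _ _
  unfold ev at this
  rw [this, lc_unit_apply hj]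

/-- unit vectors far to the right are not dominated by unit vectors -/
theorem not_equiv_units {k : ℕ} {i j : ℕ → ℕ} (hji : Function.Injective j)
    (S : Setup k (fun t => e (i t)) (fun t => e (j t))) :
    ¬ Equiv (k + 1) (fun t => e (i t)) (fun t => e (j t)) := by
  rintro ⟨C, hC, h⟩
  obtain ⟨a, c, -, -, -, hbd, hmem, hval⟩ := not_dominated S (2 * C)
  have h1 := (h a).1
  rw [← lc_eq, ← lc_eq] at h1
  have h2 := hbd.nrm_le
  have h3 := le_nrm hmem (lc (fun t => e (j t)) a)
  rw [ev_units hji] at h3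
  have hC0 : 0 < C := by linarith
  have h4 : C⁻¹ * nrm (k + 1) (lc (fun t => e (j t)) a) ≤ 2 := h1.trans h2
  rw [inv_mul_le_iff₀ hC0] at h4
  linarith

/-- There are interlaced subsequences of the basis which are not equivalent. -/
theorem interlaced (k : ℕ) : ∃ i j : ℕ → ℕ, StrictMono i ∧ StrictMono j ∧ (∀ m, 1 ≤ i m) ∧
    (∀ m, 1 ≤ j m) ∧ (∀ m, i m < j (m + 1) ∧ j m < i (m + 1)) ∧
    ¬ Equiv (k + 1) (fun m => e (i m)) (fun m => e (j m)) := by
  obtain ⟨i, hi⟩ : ∃ i : ℕ → ℕ, i = fun m => (2 * m + 1).factorial := ⟨_, rfl⟩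
  obtain ⟨j, hj⟩ : ∃ j : ℕ → ℕ, j = fun m => (2 * m + 2).factorial := ⟨_, rfl⟩
  have h1 : ∀ m, i m < j m := by
    intro m
    rw [hi, hj]
    exact (Nat.factorial_lt (by omega)).2 (by omega)
  have h2 : ∀ m, j m < i (m + 1) := by
    intro m
    rw [hi, hj]
    exact (Nat.factorial_lt (by omega)).2 (by omega)
  have hi' : StrictMono i := strictMono_nat_of_lt_succ fun m => (h1 m).trans (h2 m)
  have hj' : StrictMono j := strictMono_nat_of_lt_succ fun m => (h2 m).trans (h1 (m + 1))
  have hi1 : ∀ m, 1 ≤ i m := fun m => by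
    rw [hi]
    exact Nat.factorial_pos _
  have hj1 : ∀ m, 1 ≤ j m := fun m => (hi1 m).trans (h1 m).le
  refine ⟨i, j, hi', hj', hi1, hj1, fun m => ⟨(h1 m).trans (hj' (Nat.lt_succ_self m)), h2 m⟩, ?_⟩
  refine not_equiv_units hj'.injective (setup_units ?_ hj1 ?_)
  · intro N
    exact ⟨N, fun t ht => ht.trans (hi'.le_apply)⟩
  · intro ε hε N
    obtain ⟨n, hn⟩ := exists_nat_gt (2 / ε)
    refine ⟨max N n, le_max_left _ _, ?_, (le_max_left _ _).trans hj'.le_apply⟩
    have h3 : (j (max N n) : ℝ) = (2 * (max N n : ℕ) + 2) * i (max N n) := by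
      rw [hi, hj]
      have : (2 * (max N n) + 2).factorial = (2 * (max N n) + 2) * (2 * (max N n) + 1).factorial :=
        Nat.factorial_succ _
      dsimp only
      rw [this]
      push_cast
      ring
    have h4 : (n : ℝ) ≤ (max N n : ℕ) := by exact_mod_cast le_max_right N n
    have h5 : (1 : ℝ) ≤ i (max N n) := by exact_mod_cast hi1 _
    rw [div_lt_iff₀ hε] at hn
    have h6 : 2 ≤ ε * (2 * (max N n : ℕ) + 2) := by nlinarith
    calc (i (max N n) : ℝ) + 1 ≤ 2 * i (max N n) := by linarith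
      _ ≤ ε * (2 * (max N n : ℕ) + 2) * i (max N n) :=
          mul_le_mul_of_nonneg_right h6 (by linarith)
      _ = ε * j (max N n) := by rw [h3]; ring

end Pool.Agent.R269.SM
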