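import Pool.Agent.R269.SMSpace

/-!
# `c₀` spreading models in the space of order `n`: definition
-/

set_option autoImplicit false

namespace Pool.Agent.R269.SM

/-- The sequence `(x_i)` of finitely supported vectors generates a `c₀` spreading model in the
space of order `n`: for some `C`, for all `F` in the Schreier family of order one and all scalars
`(a_i)` with `A = max_{i ∈ F} |a_i|` one has `C⁻¹ A ≤ ‖∑_{i ∈ F} a_i x_i‖ ≤ C A`. -/
def C0Spreading (n : ℕ) (x : ℕ → C00) : Prop :=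
  ∃ C : ℝ, 1 ≤ C ∧ ∀ F ∈ Schreier 1, ∀ (a : ℕ → ℝ) (A : ℝ),
    IsGreatest {r : ℝ | ∃ i ∈ F, r = |a i|} A →
    C⁻¹ * A ≤ nrm n (∑ i ∈ F, a i • x i) ∧ nrm n (∑ i ∈ F, a i • x i) ≤ C * A

end Pool.Agent.R269.SM
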