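import Pool.Agent.R269.SMInter
import Pool.Agent.R269.SMSpread

/-!
# A sequence with a `c₀` spreading model unlike the basis
-/

set_option autoImplicit false

namespace Pool.Agent.R269.SM

/-- positions -/
def pos (k p : ℕ) : ℕ := 4 ^ (k ^ 3 + k * p)

/-- the sequence -/
noncomputable def xs (k : ℕ) : C00 := ∑ p ∈ Finset.range (k + 1), ((1 : ℝ) / 2) ^ (p + 1) • e (pos k p)

theorem pos_pos (k p : ℕ) : 1 ≤ pos k p := Nat.one_le_pow _ _ (by norm_num)

theorem xs_apply (k i : ℕ) :
    xs k i = ∑ p ∈ Finset.range (k + 1), (if pos k p = i then ((1 : ℝ) / 2) ^ (p + 1) else 0) := by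
  unfold xs
  rw [sum_apply']
  refine Finset.sum_congr rfl fun p _ => ?_
  rw [Finsupp.smul_apply, smul_eq_mul, e, Finsupp.single_apply]
  split_ifs <;> simp

theorem xs_nonneg (k i : ℕ) : 0 ≤ xs k i := by
  rw [xs_apply]
  exact Finset.sum_nonneg fun p _ => by split_ifs <;> positivity

theorem xs_supp {k i : ℕ} (h : i ∈ (xs k).support) : ∃ p ≤ k, i = pos k p := by
  unfold xs at h
  obtain ⟨p, hp, hi⟩ := mem_support_sum h
  rw [Finset.mem_range] at hp
  have := Finsupp.support_single_subset (Finsupp.support_smul hi)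
  rw [Finset.mem_singleton] at this
  exact ⟨p, by omega, this⟩

theorem xs_low {k i : ℕ} (h : i ∈ (xs k).support) : 4 ^ (k ^ 3) ≤ i := by
  obtain ⟨p, _, rfl⟩ := xs_supp h
  exact Nat.pow_le_pow_right (by norm_num) (by omega)

theorem xs_up {k i : ℕ} (h : i ∈ (xs k).support) : i ≤ 4 ^ (k ^ 3 + k ^ 2) := by
  obtain ⟨p, hp, rfl⟩ := xs_supp h
  refine Nat.pow_le_pow_right (by norm_num) ?_
  nlinarith

theorem pow_gap {k k' : ℕ} (h : k < k') : 4 ^ (k ^ 3 + k ^ 2) < 4 ^ (k' ^ 3) := by
  refine Nat.pow_lt_pow_right (by norm_num) ?_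
  have h1 : k + 1 ≤ k' := h
  have h2 : (k + 1) ^ 3 ≤ k' ^ 3 := Nat.pow_le_pow_left h1 3
  have h3 : k ^ 3 + k ^ 2 < (k + 1) ^ 3 := by ring_nf; nlinarith
  omega

theorem le_pow3 (k : ℕ) : k ≤ 4 ^ (k ^ 3) := by
  have h1 : k < 4 ^ k := Nat.lt_pow_self (by norm_num)
  have h2 : k ≤ k ^ 3 := Nat.le_self_pow (by norm_num) k
  have h3 : 4 ^ k ≤ 4 ^ (k ^ 3) := Nat.pow_le_pow_right (by norm_num) h2
  omega

theorem half_sum (a n : ℕ) : ∑ p ∈ Finset.Ico a n, ((1 : ℝ) / 2) ^ (p + 1) ≤ (1 / 2) ^ a := by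
  have h : ∀ n, ∑ p ∈ Finset.Ico a n, ((1 : ℝ) / 2) ^ (p + 1)
      ≤ (1 / 2) ^ a - (if a ≤ n then (1 / 2) ^ n else 0) := by
    intro n
    induction n with
    | zero =>
      rw [Finset.Ico_eq_empty_of_le (Nat.zero_le _), Finset.sum_empty]
      split_ifs with h
      · have : a = 0 := by omega
        rw [this]
        simp
      · rw [sub_zero]
        positivity
    | succ n ih =>
      by_cases hn : a ≤ n
      · rw [Finset.sum_Ico_succ_top hn, if_pos (by omega)]
        rw [if_pos hn] at ih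
        rw [pow_succ]
        linarith
      · rw [Finset.Ico_eq_empty_of_le (by omega), Finset.sum_empty]
        split_ifs with h
        · have : a = n + 1 := by omega
          rw [this]
          simp
        · rw [sub_zero]
          positivity
  refine (h n).trans ?_
  have : (0 : ℝ) ≤ if a ≤ n then (1 / 2) ^ n else 0 := by split_ifs <;> positivity
  linarith

/-- the mass of the sequence beyond a position -/
theorem xs_tail {k p0 : ℕ} (A : Finset ℕ) (hA : ∀ i ∈ A, ∀ p < p0, i ≠ pos k p) :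
    ∑ i ∈ A, |xs k i| ≤ (1 / 2) ^ p0 := by
  classical
  have h1 : ∑ i ∈ A, |xs k i| = ∑ p ∈ Finset.range (k + 1), ∑ i ∈ A,
      (if pos k p = i then ((1 : ℝ) / 2) ^ (p + 1) else 0) := by
    rw [Finset.sum_comm]
    refine Finset.sum_congr rfl fun i _ => ?_
    rw [abs_of_nonneg (xs_nonneg k i), xs_apply]
  rw [h1]
  have h2 : ∀ p ∈ Finset.range (k + 1), ∑ i ∈ A,
      (if pos k p = i then ((1 : ℝ) / 2) ^ (p + 1) else 0)
      ≤ if p ∈ Finset.Ico p0 (k + 1) then ((1 : ℝ) / 2) ^ (p + 1) else 0 := by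
    intro p hp
    rw [Finset.sum_ite_eq]
    rw [Finset.mem_range] at hp
    by_cases hpp : p0 ≤ p
    · rw [if_pos (Finset.mem_Ico.2 ⟨hpp, hp⟩)]
      split_ifs
      · exact le_rfl
      · positivity
    · rw [if_neg fun h => hpp (Finset.mem_Ico.1 h).1]
      rw [if_neg fun h => hA _ h p (by omega) rfl]
  refine (Finset.sum_le_sum h2).trans ?_
  rw [Finset.sum_ite_mem]
  refine le_trans ?_ (half_sum p0 (k + 1))
  exact Finset.sum_le_sum_of_subset_of_nonneg Finset.inter_subset_right fun _ _ _ => by positivity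

theorem xs_l1 (k : ℕ) : l1 (xs k) ≤ 1 := by
  have := xs_tail (k := k) (p0 := 0) (xs k).support (by intro i _ p hp; omega)
  simpa [l1] using this

theorem xs_ge {k p : ℕ} (hp : p ≤ k) : ((1 : ℝ) / 2) ^ (p + 1) ≤ xs k (pos k p) := by
  rw [xs_apply]
  have := Finset.single_le_sum (s := Finset.range (k + 1))
    (f := fun p' => if pos k p' = pos k p then ((1 : ℝ) / 2) ^ (p' + 1) else 0)
    (fun p' _ => by split_ifs <;> positivity) (Finset.mem_range.2 (by omega : p < k + 1))
  simpa using this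

/-! ### the `c₀` spreading model -/

theorem schreier_one {F : Finset ℕ} (hF : F ∈ Schreier 1) :
    F.Nonempty ∧ ∀ a ∈ F, F.card ≤ a := by
  classical
  obtain ⟨L, h1, h2, h3, h4, h5⟩ := hF
  have hcard : ∀ (L : List (Finset ℕ)), (∀ G ∈ L, G ∈ Schreier 0) → ∀ F : Finset ℕ,
      (∀ a, a ∈ F ↔ ∃ G ∈ L, a ∈ G) → F.card ≤ L.length := by
    intro L
    induction L with
    | nil =>
      intro _ F hF
      have : F = ∅ := by
        rw [Finset.eq_empty_iff_forall_notMem]
        intro a ha
        obtain ⟨G, hG, -⟩ := (hF a).1 ha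
        simp at hG
      simp [this]
    | cons G L ih =>
      intro hL F hF
      obtain ⟨m, -, rfl⟩ := hL G List.mem_cons_self
      have h6 := ih (fun G hG => hL G (List.mem_cons_of_mem _ hG))
        (F.filter fun a => ∃ G ∈ L, a ∈ G) (by
          intro a
          rw [Finset.mem_filter, hF a]
          constructor
          · exact fun h => h.2
          · rintro ⟨G, hG, ha⟩
            exact ⟨⟨G, List.mem_cons_of_mem _ hG, ha⟩, ⟨G, hG, ha⟩⟩)
      have h7 : F ⊆ insert m (F.filter fun a => ∃ G ∈ L, a ∈ G) := by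
        intro a ha
        rw [Finset.mem_insert, Finset.mem_filter]
        obtain ⟨G, hG, haG⟩ := (hF a).1 ha
        rw [List.mem_cons] at hG
        obtain rfl | hG := hG
        · exact Or.inl (Finset.mem_singleton.1 haG)
        · exact Or.inr ⟨ha, G, hG, haG⟩
      have h8 := Finset.card_le_card h7
      have h9 := Finset.card_insert_le m (F.filter fun a => ∃ G ∈ L, a ∈ G)
      rw [List.length_cons]
      omega
  refine ⟨?_, fun a ha => (hcard L h2 F h5).trans (h4 a ha)⟩
  obtain ⟨G, hG⟩ := List.exists_mem_of_ne_nil L h1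
  obtain ⟨m, -, rfl⟩ := h2 G hG
  exact ⟨m, (h5 m).2 ⟨{m}, hG, Finset.mem_singleton_self _⟩⟩

/-- enumeration of a finite set by a strictly increasing sequence -/
theorem exists_enum (F : Finset ℕ) : ∃ g : ℕ → ℕ, StrictMono g ∧
    F = (Finset.range F.card).image g := by
  classical
  obtain ⟨g, hg⟩ : ∃ g : ℕ → ℕ, g = fun r => if h : r < F.card then F.orderEmbOfFin rfl ⟨r, h⟩
    else F.sup id + 1 + r := ⟨_, rfl⟩
  refine ⟨g, ?_, ?_⟩
  · intro r r' hrr
    rw [hg]
    dsimp only
    by_cases h' : r' < F.card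
    · rw [dif_pos (hrr.trans h'), dif_pos h']
      exact (F.orderEmbOfFin rfl).strictMono hrr
    · rw [dif_neg h']
      by_cases h : r < F.card
      · rw [dif_pos h]
        have h1 := F.orderEmbOfFin_mem rfl ⟨r, h⟩
        have h2 := Finset.le_sup (f := id) h1
        simp only [id] at h2
        omega
      · rw [dif_neg h]
        omega
  · ext a
    rw [Finset.mem_image]
    constructor
    · intro ha
      have h1 : a ∈ Set.range (F.orderEmbOfFin rfl) := by
        rw [Finset.range_orderEmbOfFin]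
        exact_mod_cast ha
      obtain ⟨⟨r, hr⟩, hra⟩ := h1
      refine ⟨r, Finset.mem_range.2 hr, ?_⟩
      rw [hg]
      dsimp only
      rw [dif_pos hr]
      exact hra
    · rintro ⟨r, hr, rfl⟩
      rw [Finset.mem_range] at hr
      rw [hg]
      dsimp only
      rw [dif_pos hr]
      exact F.orderEmbOfFin_mem rfl ⟨r, hr⟩

theorem xs_sum_le {k : ℕ} {F : Finset ℕ} (hF : F ∈ Schreier 1) {h : C00} (hh : h ∈ WC k) :
    ∑ i ∈ F, act h (xs i) ≤ 5 := by
  classical
  obtain ⟨hne, hcard⟩ := schreier_one hF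
  obtain ⟨g, hg, hFg⟩ := exists_enum F
  have hgr : ∀ r < F.card, F.card + r ≤ g r := by
    intro r hr
    have h1 : g 0 ∈ F := by
      rw [hFg]
      exact Finset.mem_image_of_mem _ (Finset.mem_range.2 (by omega))
    have h2 := hcard _ h1
    have h3 : ∀ r, g 0 + r ≤ g r := by
      intro r
      induction r with
      | zero => exact le_rfl
      | succ r ih =>
        have h4 : g r < g (r + 1) := hg (Nat.lt_succ_self r)
        omega
    have := h3 r
    omega
  have D : CData k F.card (fun r => xs (g r)) (fun r => 4 ^ ((g r) ^ 3))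
      (fun r => 4 ^ ((g r) ^ 3 + (g r) ^ 2)) 1 1 1 (fun _ => 0) := by
    refine ⟨zero_le_one, zero_le_one, zero_le_one, fun r i hi => xs_low hi, fun r i hi => xs_up hi,
      fun r r' h => pow_gap (hg h), fun r => by positivity, ?_, ?_, ?_, fun _ => le_rfl⟩
    · intro r _ f hf
      refine (act_le_l1 (WC_nice hf).2.1 _).trans ?_
      rw [one_mul]
      exact xs_l1 _
    · intro r _ r' _ s' _ p L hL
      have hp2 : 2 ≤ p.1 := (hL.avg p List.mem_cons_self).1
      have hp0 : (0 : ℝ) < p.1 := by exact_mod_cast (by omega : 0 < p.1)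
      refine (act_le_l1 (fn_abs_le hL) _).trans ?_
      rw [add_zero]
      calc 1 / (p.1 : ℝ) * l1 (xs (g r)) ≤ 1 / (p.1 : ℝ) * 1 :=
            mul_le_mul_of_nonneg_left (xs_l1 _) (by positivity)
        _ = 1 / (p.1 : ℝ) := mul_one _
    · intro r hr
      rw [Finset.sum_const_zero, add_zero, mul_one, one_mul]
      have h1 : F.card * 4 ^ r ≤ 4 ^ ((g r) ^ 3) := by
        have h2 : F.card ≤ 4 ^ F.card := (Nat.lt_pow_self (by norm_num)).le
        calc F.card * 4 ^ r ≤ 4 ^ F.card * 4 ^ r := Nat.mul_le_mul_right _ h2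
          _ = 4 ^ (F.card + r) := by rw [pow_add]
          _ ≤ 4 ^ (g r) := Nat.pow_le_pow_right (by norm_num) (hgr r hr)
          _ ≤ 4 ^ ((g r) ^ 3) := Nat.pow_le_pow_right (by norm_num)
              (Nat.le_self_pow (by norm_num) _)
      have h3 : (F.card : ℝ) * 4 ^ r ≤ ((4 ^ ((g r) ^ 3) : ℕ) : ℝ) := by exact_mod_cast h1
      rw [one_div_pow, div_le_div_iff₀ (by positivity) (by positivity), one_mul]
      exact h3
  obtain ⟨n, hn⟩ := Set.mem_iUnion.1 hh
  have h1 := D.level n h hn 0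
  unfold AA at h1
  rw [← Finset.range_eq_Ico] at h1
  have h2 : ∑ i ∈ F, act h (xs i) = ∑ r ∈ Finset.range F.card, act h (xs (g r)) := by
    conv_lhs => rw [hFg]
    rw [Finset.sum_image fun a _ b _ h => hg.injective h]
  rw [h2]
  refine h1.trans ?_
  norm_num

theorem xs_spreading (k : ℕ) : C0Spreading (k + 1) xs := by
  classical
  refine ⟨5, by norm_num, fun F hF a A hA => ?_⟩
  obtain ⟨⟨i0, hi0, rfl⟩, hub⟩ := hA
  have hle : ∀ i ∈ F, |a i| ≤ |a i0| := fun i hi => hub ⟨i, hi, rfl⟩
  constructor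
  · -- lower bound
    have hz : (∑ i ∈ F, a i • xs i) (pos i0 0) = a i0 * xs i0 (pos i0 0) := by
      rw [sum_apply', Finset.sum_eq_single_of_mem i0 hi0]
      · rw [Finsupp.smul_apply, smul_eq_mul]
      · intro i _ hne
        rw [Finsupp.smul_apply, smul_eq_mul]
        have : xs i (pos i0 0) = 0 := by
          by_contra hne'
          have h1 := Finsupp.mem_support_iff.2 hne'
          have h2 := xs_low h1
          have h3 := xs_up h1
          have h4 : pos i0 0 = 4 ^ (i0 ^ 3) := by simp [pos]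
          rw [h4] at h2 h3
          obtain h | h := lt_or_gt_of_ne hne
          · have := pow_gap h
            omega
          · have h5 := pow_gap h
            have h6 : 4 ^ (i0 ^ 3) ≤ 4 ^ (i0 ^ 3 + i0 ^ 2) :=
              Nat.pow_le_pow_right (by norm_num) (by omega)
            omega
        rw [this, mul_zero]
    have hhalf : (1 : ℝ) / 2 ≤ xs i0 (pos i0 0) := by
      have := xs_ge (k := i0) (p := 0) (Nat.zero_le _)
      simpa using this
    have h1 : |a i0| * (1 / 2) ≤ nrm (k + 1) (∑ i ∈ F, a i • xs i) := by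
      have hpos : (1 : ℕ) ≤ pos i0 0 := pos_pos i0 0
      have hm1 : (Finsupp.single (pos i0 0) (-1) : C00) ∈ WW (Schreier (k + 1)) :=
        Set.mem_iUnion.2 ⟨0, _, hpos, Or.inr rfl⟩
      have h2 := le_nrm (unit_mem (𝒮 := Schreier (k + 1)) hpos) (∑ i ∈ F, a i • xs i)
      have h3 := le_nrm hm1 (∑ i ∈ F, a i • xs i)
      rw [ev_single, hz] at h2 h3
      have h4 : |a i0 * xs i0 (pos i0 0)| ≤ nrm (k + 1) (∑ i ∈ F, a i • xs i) := by
        rw [abs_le]
        constructor <;> linarith
      rw [abs_mul, abs_of_nonneg (xs_nonneg _ _)] at h4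
      exact (mul_le_mul_of_nonneg_left hhalf (abs_nonneg _)).trans h4
    have := abs_nonneg (a i0)
    linarith
  · refine nrm_le fun f hf => ?_
    refine (le_abs_self _).trans ((abs_ev_le_act f _).trans ((act_sum_right_le F f _).trans ?_))
    calc ∑ i ∈ F, act f (a i • xs i) = ∑ i ∈ F, |a i| * act f (xs i) :=
          Finset.sum_congr rfl fun i _ => act_smul_right _ _ _
      _ ≤ ∑ i ∈ F, |a i0| * act f (xs i) :=
          Finset.sum_le_sum fun i hi => mul_le_mul_of_nonneg_right (hle i hi) (act_nonneg _ _)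
      _ = |a i0| * ∑ i ∈ F, act f (xs i) := by rw [Finset.mul_sum]
      _ ≤ |a i0| * 5 := mul_le_mul_of_nonneg_left (xs_sum_le hF (WW_sub_WC k hf)) (abs_nonneg _)
      _ = 5 * |a i0| := mul_comm _ _

/-! ### no subsequence is equivalent to a subsequence of the basis -/

theorem Equiv.comp {n : ℕ} {x y : ℕ → C00} (h : Equiv n x y) (g : ℕ → ℕ) :
    Equiv n (fun m => x (g m)) (fun m => y (g m)) := by
  obtain ⟨C, hC, h⟩ := h
  refine ⟨C, hC, fun a => ?_⟩
  have key : ∀ x : ℕ → C00, lc (fun m => x (g m)) a = lc x (a.mapDomain g) := by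
    intro x
    unfold lc
    rw [Finsupp.linearCombination_mapDomain]
    rfl
  have h1 := h (a.mapDomain g)
  rw [← lc_eq, ← lc_eq, ← key, ← key] at h1
  rw [← lc_eq, ← lc_eq]
  exact h1

theorem lc_xs_ge {κ : ℕ → ℕ} {a : C00} (ha : ∀ t, 0 ≤ a t) {t p : ℕ} (hp : p ≤ κ t) :
    (1 / 2 : ℝ) ^ (p + 1) * a t ≤ (lc (fun t => xs (κ t)) a) (pos (κ t) p) := by
  rw [lc_eq, sum_apply']
  by_cases ht : t ∈ a.support
  · have h1 := Finset.single_le_sum (s := a.support)
      (f := fun m => (a m • xs (κ m)) (pos (κ t) p)) (fun m _ => by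
        change 0 ≤ (a m • xs (κ m)) (pos (κ t) p)
        rw [Finsupp.smul_apply, smul_eq_mul]
        exact mul_nonneg (ha m) (xs_nonneg _ _)) ht
    refine le_trans ?_ h1
    change (1 / 2 : ℝ) ^ (p + 1) * a t ≤ (a t • xs (κ t)) (pos (κ t) p)
    rw [Finsupp.smul_apply, smul_eq_mul, mul_comm]
    exact mul_le_mul_of_nonneg_left (xs_ge hp) (ha t)
  · rw [Finsupp.notMem_support_iff.1 ht, mul_zero]
    refine Finset.sum_nonneg fun m _ => ?_
    rw [Finsupp.smul_apply, smul_eq_mul]
    exact mul_nonneg (ha m) (xs_nonneg _ _)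

theorem xs_not_equiv (k : ℕ) {κ j : ℕ → ℕ} (hκ : StrictMono κ) (hj : StrictMono j)
    (hj1 : ∀ m, 1 ≤ j m) : ¬ Equiv (k + 1) (fun t => xs (κ t)) (fun t => e (j t)) := by
  intro hE
  by_cases hA : ∃ p : ℕ, ∀ ε : ℝ, 0 < ε → ∀ N : ℕ, ∃ t, N ≤ t ∧
      (j t : ℝ) + 1 ≤ ε * pos (κ t) p
  · obtain ⟨p, hA⟩ := hA
    obtain ⟨C, hC, hE⟩ := hE.comp fun t => t + p
    have S : Setup k (fun t => e (j (t + p))) (fun t => e (pos (κ (t + p)) p)) := by
      refine setup_units (fun N => ⟨N, fun t ht => ?_⟩) (fun t => pos_pos _ _) ?_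
      · have := hj.le_apply (x := t + p)
        omega
      · intro ε hε N
        obtain ⟨t, ht, htp⟩ := hA ε hε (N + p)
        refine ⟨t - p, by omega, ?_, ?_⟩
        · rw [Nat.sub_add_cancel (by omega)]
          exact htp
        · rw [Nat.sub_add_cancel (by omega)]
          have h1 := hκ.le_apply (x := t)
          have h2 := le_pow3 (κ t)
          have h3 : 4 ^ ((κ t) ^ 3) ≤ pos (κ t) p :=
            Nat.pow_le_pow_right (by norm_num) (by omega)
          omega
    have hC0 : 0 < C := by linarith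
    obtain ⟨a, c, ha0, hc0, -, hbd, hmem, hval⟩ := not_dominated S (2 * C * 2 ^ (p + 1))
    have h1 := (hE a).2
    rw [← lc_eq, ← lc_eq] at h1
    have h2 := hbd.nrm_le
    have h3 := le_nrm hmem (lc (fun t => xs (κ (t + p))) a)
    rw [ev_lc] at h3
    have h4 : (1 / 2 : ℝ) ^ (p + 1) * ev c a ≤ ∑ m ∈ c.support,
        c m * ev (e (pos (κ (m + p)) p)) (lc (fun t => xs (κ (t + p))) a) := by
      unfold ev
      rw [Finset.mul_sum]
      refine Finset.sum_le_sum fun m _ => ?_
      have h5 : ev (e (pos (κ (m + p)) p)) (lc (fun t => xs (κ (t + p))) a)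
          = (lc (fun t => xs (κ (t + p))) a) (pos (κ (m + p)) p) := ev_unit _ _
      unfold ev at h5
      rw [h5]
      have h6 := lc_xs_ge (κ := fun t => κ (t + p)) ha0 (t := m) (p := p)
        ((by omega : p ≤ m + p).trans hκ.le_apply)
      have := mul_le_mul_of_nonneg_left h6 (hc0 m)
      calc (1 / 2 : ℝ) ^ (p + 1) * (c m * a m) = c m * ((1 / 2 : ℝ) ^ (p + 1) * a m) := by ring
        _ ≤ _ := this
    have h7 : (1 / 2 : ℝ) ^ (p + 1) * ev c a ≤ C * 2 :=
      (h4.trans h3).trans (h1.trans (mul_le_mul_of_nonneg_left h2 hC0.le))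
    have h8 : (0 : ℝ) < 2 ^ (p + 1) := by positivity
    rw [one_div_pow, one_div_mul_eq_div, div_le_iff₀ h8] at h7
    linarith
  · push Not at hA
    obtain ⟨C, hC, hE⟩ := hE
    have S : Setup k (fun t => xs (κ t)) (fun t => e (j t)) := by
      refine ⟨fun t => xs_l1 _, fun N => ⟨N, fun t ht i hi => ?_⟩, fun t => unit_mem (hj1 t), ?_⟩
      · have h1 := xs_low hi
        have h2 := le_pow3 (κ t)
        have h3 := hκ.le_apply (x := t)
        omega
      · intro ε hε N
        obtain ⟨p0, hp0⟩ := exists_pow_lt_of_lt_one hε (by norm_num : (1 / 2 : ℝ) < 1)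
        obtain ⟨ε', hε', N', hN'⟩ := hA (p0 + 1)
        obtain ⟨n, hn⟩ := exists_nat_gt ((2 / ε + 1) / ε')
        obtain ⟨t, ht⟩ : ∃ t, t = max (max N N') n := ⟨_, rfl⟩
        have htN : N ≤ t := by omega
        have htN' : N' ≤ t := by omega
        have htn : n ≤ t := by omega
        have h1 := hN' t htN'
        have hX1 : (1 : ℝ) ≤ pos (κ t) p0 := by exact_mod_cast pos_pos _ _
        have h2 : (pos (κ t) (p0 + 1) : ℝ) = 4 ^ (κ t) * pos (κ t) p0 := by
          unfold pos
          push_cast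
          rw [← pow_add]
          congr 1
          ring
        have h3 : (n : ℝ) ≤ 4 ^ (κ t) := by
          have h4 : κ t < 4 ^ (κ t) := Nat.lt_pow_self (by norm_num)
          have h5 := hκ.le_apply (x := t)
          exact_mod_cast (by omega : n ≤ 4 ^ (κ t))
        have h6 : 2 / ε + 1 ≤ ε' * 4 ^ (κ t) := by
          rw [div_lt_iff₀ hε'] at hn
          nlinarith
        have h7 : (2 / ε) * pos (κ t) p0 ≤ j t := by
          rw [h2] at h1
          have h8 : (2 / ε + 1) * pos (κ t) p0 ≤ ε' * (4 ^ (κ t) * pos (κ t) p0) := by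
            rw [← mul_assoc]
            exact mul_le_mul_of_nonneg_right h6 (by linarith)
          linarith
        refine ⟨t, htN, pos (κ t) p0 + 1, j t, ?_, ?_, htN.trans hj.le_apply, ?_⟩
        · refine (xs_tail (p0 := p0) _ ?_).trans hp0.le
          intro i hi p hp hip
          rw [Finset.mem_filter] at hi
          have h9 : pos (κ t) p ≤ pos (κ t) p0 := by
            refine Nat.pow_le_pow_right (by norm_num) ?_
            have := Nat.mul_le_mul_left (κ t) hp.le
            omega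
          omega
        · push_cast
          have h9 : 2 * (pos (κ t) p0 : ℝ) ≤ ε * j t := by
            have := mul_le_mul_of_nonneg_left h7 hε.le
            calc 2 * (pos (κ t) p0 : ℝ) = ε * (2 / ε * pos (κ t) p0) := by field_simp
              _ ≤ ε * j t := this
          linarith
        · intro i hi
          have := Finsupp.support_single_subset hi
          rw [Finset.mem_singleton] at this
          rw [this]
    have hC0 : 0 < C := by linarith
    obtain ⟨a, c, -, -, -, hbd, hmem, hval⟩ := not_dominated S (2 * C)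
    have h1 := (hE a).1
    rw [← lc_eq, ← lc_eq] at h1
    have h2 := hbd.nrm_le
    have h3 := le_nrm hmem (lc (fun t => e (j t)) a)
    rw [ev_units hj.injective] at h3
    have h4 : C⁻¹ * nrm (k + 1) (lc (fun t => e (j t)) a) ≤ 2 := h1.trans h2
    rw [inv_mul_le_iff₀ hC0] at h4
    linarith

end Pool.Agent.R269.SM
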