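import Pool.Agent.R269.SMFam
import Pool.Agent.R269.SMSeq

/-!
# Operators on the space of order `n`
-/

set_option autoImplicit false

open Filter Topology

namespace Pool.Agent.R269.SM

theorem mem_support_e {i j : ℕ} (h : j ∈ (e i).support) : j = i := by
  have := Finsupp.support_single_subset h
  rwa [Finset.mem_singleton] at this

theorem c0_units {k : ℕ} {M : ℕ} {κ : ℕ → ℕ} (hκ : StrictMono κ) (h1 : ∀ r, 1 ≤ κ r)
    (hM : ∀ r, M * 4 ^ r ≤ κ r) {h : C00} (hh : h ∈ WC k) :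
    ∑ r ∈ Finset.range M, act h (e (κ r)) ≤ 5 := by
  have D : CData k M (fun r => e (κ r)) κ κ 1 1 1 (fun _ => 0) := by
    refine ⟨zero_le_one, zero_le_one, zero_le_one, fun r i hi => (mem_support_e hi).ge,
      fun r i hi => (mem_support_e hi).le, fun r r' h => hκ h, fun r => h1 r, ?_, ?_, ?_,
      fun _ => le_rfl⟩
    · intro r _ f hf
      refine (act_le_l1 (WC_nice hf).2.1 _).trans ?_
      rw [one_mul]
      exact (l1_unit _).le
    · intro r _ r' _ s' _ p L hL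
      have hp2 : 2 ≤ p.1 := (hL.avg p List.mem_cons_self).1
      have hp0 : (0 : ℝ) < p.1 := by exact_mod_cast (by omega : 0 < p.1)
      refine (act_le_l1 (fn_abs_le hL) _).trans ?_
      rw [add_zero, l1_unit, mul_one]
    · intro r _
      rw [Finset.sum_const_zero, add_zero, mul_one, one_mul]
      have h2 : (0 : ℝ) < κ r := by exact_mod_cast h1 r
      have h3 : (M : ℝ) * 4 ^ r ≤ κ r := by exact_mod_cast hM r
      rw [one_div_pow, div_le_div_iff₀ h2 (by positivity), one_mul]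
      exact h3
  obtain ⟨n, hn⟩ := Set.mem_iUnion.1 hh
  have h2 := D.level n h hn 0
  unfold AA at h2
  rw [← Finset.range_eq_Ico] at h2
  refine h2.trans ?_
  norm_num

section X

variable {k : ℕ} {X : Type} [NormedAddCommGroup X] [NormedSpace ℝ X] {J : Fam (k + 1) →ₗᵢ[ℝ] X}

theorem seq_sum {n : ℕ} {ι : Type} (s : Finset ι) (f : ι → Fam n) :
    (∑ j ∈ s, f j).seq = ∑ j ∈ s, (f j).seq := by
  classical
  induction s using Finset.induction_on with
  | empty => rfl
  | insert a s ha ih => rw [Finset.sum_insert ha, Finset.sum_insert ha, seq_add, ih]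

theorem norm_sum_units {ι : Type} (s : Finset ι) (a : ι → ℝ) {κ : ι → ℕ} (h1 : ∀ r, 1 ≤ κ r) :
    ‖∑ r ∈ s, a r • J (uF (k + 1) (κ r))‖ = nrm (k + 1) (∑ r ∈ s, a r • e (κ r)) := by
  have h2 : ∑ r ∈ s, a r • J (uF (k + 1) (κ r)) = J (∑ r ∈ s, a r • uF (k + 1) (κ r)) := by
    rw [map_sum]
    exact Finset.sum_congr rfl fun r _ => by rw [map_smul]
  rw [h2, J.norm_map, norm_fam, seq_sum]
  congr 1
  exact Finset.sum_congr rfl fun r _ => by rw [seq_smul, seq_uF (h1 r)]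

theorem norm_unit_le (i : ℕ) : ‖J (uF (k + 1) i)‖ ≤ 1 := by
  rw [J.norm_map, norm_fam]
  refine nrm_le fun f hf => ?_
  refine (le_abs_self _).trans ((abs_ev_le_act f _).trans ?_)
  refine (act_le_l1 (WW_nice f hf).2.1 _).trans ?_
  rw [one_mul]
  rcases Nat.eq_zero_or_pos i with rfl | hi
  · rw [uF_zero, seq_zero]
    simp [l1]
  · rw [seq_uF hi]
    exact (l1_unit i).le

/-- the basis is weakly null -/
theorem weak_null (F : X →L[ℝ] ℝ) {ε : ℝ} (hε : 0 < ε) :
    ∃ N : ℕ, ∀ j, N ≤ j → |F (J (uF (k + 1) j))| ≤ ε := by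
  by_contra hcon
  push Not at hcon
  choose g hg hgε using hcon
  obtain ⟨M, hM⟩ := exists_nat_gt (5 * ‖F‖ / ε)
  rw [div_lt_iff₀ hε] at hM
  obtain ⟨κ, hκ0, hκs⟩ : ∃ κ : ℕ → ℕ, κ 0 = g (M + 1) ∧
      ∀ r, κ (r + 1) = g (κ r + 1 + M * 4 ^ (r + 1)) :=
    ⟨fun r => Nat.rec (g (M + 1)) (fun r κr => g (κr + 1 + M * 4 ^ (r + 1))) r, rfl, fun r => rfl⟩
  have hmono : StrictMono κ := strictMono_nat_of_lt_succ fun r => by
    rw [hκs r]
    have := hg (κ r + 1 + M * 4 ^ (r + 1))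
    omega
  have h1 : ∀ r, 1 ≤ κ r := by
    intro r
    have h2 := hmono.monotone (Nat.zero_le r)
    have h3 := hg (M + 1)
    rw [hκ0] at h2
    omega
  have h4 : ∀ r, M * 4 ^ r ≤ κ r := by
    intro r
    cases r with
    | zero =>
      rw [hκ0, pow_zero, mul_one]
      have := hg (M + 1)
      omega
    | succ r =>
      rw [hκs r]
      have := hg (κ r + 1 + M * 4 ^ (r + 1))
      omega
  have h5 : ∀ r, ε < |F (J (uF (k + 1) (κ r)))| := by
    intro r
    cases r with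
    | zero =>
      rw [hκ0]
      exact hgε _
    | succ r =>
      rw [hκs r]
      exact hgε _
  obtain ⟨s, hs⟩ : ∃ s : ℕ → ℝ, ∀ r, |s r| = 1 ∧ s r * F (J (uF (k + 1) (κ r)))
      = |F (J (uF (k + 1) (κ r)))| := by
    refine ⟨fun r => if 0 ≤ F (J (uF (k + 1) (κ r))) then 1 else -1, fun r => ?_⟩
    dsimp only
    split_ifs with h
    · exact ⟨abs_one, by rw [one_mul, abs_of_nonneg h]⟩
    · rw [not_le] at h
      exact ⟨by rw [abs_neg, abs_one], by rw [abs_of_neg h]; ring⟩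
  have h6 : ‖∑ r ∈ Finset.range M, s r • J (uF (k + 1) (κ r))‖ ≤ 5 := by
    rw [norm_sum_units _ _ h1]
    refine nrm_le fun f hf => ?_
    refine (le_abs_self _).trans ((abs_ev_le_act f _).trans ((act_sum_right_le _ _ _).trans ?_))
    refine le_trans (le_of_eq ?_) (c0_units hmono h1 h4 (WW_sub_WC k hf))
    refine Finset.sum_congr rfl fun r _ => ?_
    rw [act_smul_right, (hs r).1, one_mul]
  have h7 : F (∑ r ∈ Finset.range M, s r • J (uF (k + 1) (κ r)))
      = ∑ r ∈ Finset.range M, |F (J (uF (k + 1) (κ r)))| := by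
    rw [map_sum]
    refine Finset.sum_congr rfl fun r _ => ?_
    rw [map_smul, smul_eq_mul, (hs r).2]
  have h8 : (M : ℝ) * ε ≤ ∑ r ∈ Finset.range M, |F (J (uF (k + 1) (κ r)))| := by
    have := Finset.sum_le_sum (s := Finset.range M) fun r _ => (h5 r).le
    rwa [Finset.sum_const, Finset.card_range, nsmul_eq_mul] at this
  have h9 : F (∑ r ∈ Finset.range M, s r • J (uF (k + 1) (κ r))) ≤ ‖F‖ * 5 :=
    (le_abs_self _).trans ((F.le_opNorm _).trans (mul_le_mul_of_nonneg_left h6 (norm_nonneg _)))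
  rw [h7] at h9
  linarith

theorem geom_half (s : Finset ℕ) : ∑ t ∈ s, ((1 : ℝ) / 2) ^ (t + 1) ≤ 1 := by
  obtain ⟨n, hn⟩ := s.exists_nat_subset_range
  have h1 := half_sum 0 n
  rw [← Finset.range_eq_Ico, pow_zero] at h1
  exact (Finset.sum_le_sum_of_subset_of_nonneg hn fun _ _ _ => by positivity).trans h1

/-- images of the basis vectors do not escape -/
theorem claimA (hJ : DenseRange J) (T : X →L[ℝ] X) {δ : ℝ} (hδ : 0 < δ) :
    ∃ N : ℕ, ∀ j, N ≤ j → ∀ f ∈ WW (Schreier (k + 1)), (∀ i ∈ f.support, j ^ 2 ≤ i) →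
      |hat J f (T (J (uF (k + 1) j)))| ≤ δ := by
  classical
  by_contra hcon
  push Not at hcon
  have hcon' : ∀ N : ℕ, ∃ j, N ≤ j ∧ ∃ f ∈ WW (Schreier (k + 1)), (∀ i ∈ f.support, j ^ 2 ≤ i) ∧
      δ < hat J f (T (J (uF (k + 1) j))) := by
    intro N
    obtain ⟨j, hj, f, hf, hfs, hlt⟩ := hcon N
    rcases le_or_gt 0 (hat J f (T (J (uF (k + 1) j)))) with h | h
    · rw [abs_of_nonneg h] at hlt
      exact ⟨j, hj, f, hf, hfs, hlt⟩
    · rw [abs_of_neg h] at hlt
      refine ⟨j, hj, -f, WW_neg hf, ?_, ?_⟩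
      · intro i hi
        rw [Finsupp.support_neg] at hi
        exact hfs i hi
      · have : hat J (-f) (T (J (uF (k + 1) j))) = -hat J f (T (J (uF (k + 1) j))) := by
          have h2 := hat_ext hJ (F := hat J (-f)) (G := -hat J f) (fun a => by
            rw [_root_.neg_apply, hat_J hJ, hat_J hJ, ev_neg_left])
            (T (J (uF (k + 1) j)))
          rw [h2]
          rfl
        rw [this]
        exact hlt
  obtain ⟨ep, hep⟩ : ∃ ep : ℕ → ℝ, ep = fun t => (1 / 2 : ℝ) ^ (2 * t + 2) := ⟨_, rfl⟩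
  have hep0 : ∀ t, 0 < ep t := fun t => by rw [hep]; positivity
  have hepm : ∀ t t', t ≤ t' → ep t' ≤ ep t := by
    intro t t' h
    rw [hep]
    exact pow_le_pow_of_le_one (by norm_num) (by norm_num) (by omega)
  -- the subsequence
  obtain ⟨y, hyP, hyr⟩ := exists_seq_of_forall_finset_exists
    (fun x : ℕ × ℕ × C00 => 1 ≤ x.2.1 ∧ x.2.2 ∈ WW (Schreier (k + 1)) ∧
      (∀ i ∈ x.2.2.support, x.2.1 ^ 2 ≤ i) ∧ δ < hat J x.2.2 (T (J (uF (k + 1) x.2.1))))
    (fun x y : ℕ × ℕ × C00 => x.1 < y.1 ∧ x.2.1 < y.2.1 ∧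
      |hat J y.2.2 (T (J (uF (k + 1) x.2.1)))| ≤ ep y.1 ∧
      |hat J x.2.2 (T (J (uF (k + 1) y.2.1)))| ≤ ep y.1) (by
    intro s _
    obtain ⟨t, ht⟩ : ∃ t : ℕ, t = s.sup (fun x => x.1) + 1 := ⟨_, rfl⟩
    have h1 : ∀ x : ℕ × ℕ × C00, ∃ N : ℕ, ∀ f ∈ WW (Schreier (k + 1)), (∀ i ∈ f.support, N ≤ i) →
        |hat J f (T (J (uF (k + 1) x.2.1)))| ≤ ep t := fun x => hat_tail hJ _ (hep0 t)
    choose N1 hN1 using h1
    have h2 : ∀ x : ℕ × ℕ × C00, ∃ N : ℕ, ∀ j, N ≤ j →
        |hat J x.2.2 (T (J (uF (k + 1) j)))| ≤ ep t := fun x =>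
      weak_null ((hat J x.2.2).comp T) (hep0 t)
    choose N2 hN2 using h2
    obtain ⟨j, hj, f, hf, hfs, hlt⟩ := hcon' (s.sup (fun x => x.2.1) + s.sup N1 + s.sup N2 + 1)
    refine ⟨(t, j, f), ⟨by change 1 ≤ j; omega, hf, hfs, hlt⟩, ?_⟩
    intro x hx
    have e1 := Finset.le_sup (f := fun x : ℕ × ℕ × C00 => x.1) hx
    have e2 := Finset.le_sup (f := fun x : ℕ × ℕ × C00 => x.2.1) hx
    have e3 := Finset.le_sup (f := N1) hx
    have e4 := Finset.le_sup (f := N2) hx
    refine ⟨by change x.1 < t; omega, by change x.2.1 < j; omega, ?_, ?_⟩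
    · refine hN1 x f hf fun i hi => ?_
      have h3 := hfs i hi
      have h4 : j ≤ j ^ 2 := Nat.le_self_pow (by norm_num) j
      omega
    · exact hN2 x j (by omega))
  obtain ⟨κ, hκ⟩ : ∃ κ : ℕ → ℕ, κ = fun t => (y t).2.1 := ⟨_, rfl⟩
  obtain ⟨φ, hφ⟩ : ∃ φ : ℕ → C00, φ = fun t => (y t).2.2 := ⟨_, rfl⟩
  have hκ1 : ∀ t, 1 ≤ κ t := fun t => by rw [hκ]; exact (hyP t).1
  have hφW : ∀ t, φ t ∈ WW (Schreier (k + 1)) := fun t => by rw [hφ]; exact (hyP t).2.1
  have hφs : ∀ t, ∀ i ∈ (φ t).support, κ t ^ 2 ≤ i := fun t => by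
    rw [hφ, hκ]; exact (hyP t).2.2.1
  have hφδ : ∀ t, δ < hat J (φ t) (T (J (uF (k + 1) (κ t)))) := fun t => by
    rw [hφ, hκ]; exact (hyP t).2.2.2
  have hκm : StrictMono κ := fun t t' h => by rw [hκ]; exact (hyr t t' h).2.1
  have hidx : StrictMono fun t => (y t).1 := fun t t' h => (hyr t t' h).1
  have hoff : ∀ t t', t ≠ t' → |hat J (φ t) (T (J (uF (k + 1) (κ t'))))|
      ≤ (1 / 2 : ℝ) ^ (t + 1) * (1 / 2) ^ (t' + 1) := by
    intro t t' hne
    have hpw : ∀ a b : ℕ, a < b → ep (y b).1 ≤ (1 / 2 : ℝ) ^ (a + 1) * (1 / 2) ^ (b + 1) := by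
      intro a b hab
      refine (hepm b _ hidx.le_apply).trans ?_
      rw [hep, ← pow_add]
      exact pow_le_pow_of_le_one (by norm_num) (by norm_num) (by omega)
    obtain h | h := lt_or_gt_of_ne hne
    · have h1 := (hyr t t' h).2.2.2
      rw [hφ, hκ]
      exact h1.trans (hpw t t' h)
    · have h1 := (hyr t' t h).2.2.1
      rw [hφ, hκ]
      refine h1.trans ((hpw t' t h).trans (le_of_eq ?_))
      ring
  have S : Setup k (fun t => e (κ t)) φ := by
    refine ⟨fun t => (l1_unit _).le, fun N => ⟨N, fun t ht i hi => ?_⟩, hφW, ?_⟩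
    · rw [mem_support_e hi]
      exact ht.trans hκm.le_apply
    · intro ε hε N
      obtain ⟨m, hm⟩ := exists_nat_gt (2 / ε)
      obtain ⟨t, ht⟩ : ∃ t, t = max N m := ⟨_, rfl⟩
      have htκ := hκm.le_apply (x := t)
      have hsq : κ t ≤ κ t ^ 2 := Nat.le_self_pow (by norm_num) _
      refine ⟨t, by omega, κ t + 1, κ t ^ 2, ?_, ?_, by omega, hφs t⟩
      · rw [Finset.sum_eq_zero]
        · exact hε.le
        · intro a ha
          rw [Finset.mem_filter] at ha
          have := mem_support_e ha.1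
          omega
      · have h1 : (1 : ℝ) ≤ κ t := by exact_mod_cast hκ1 t
        have h2 : (m : ℝ) ≤ κ t := by exact_mod_cast (by omega : m ≤ κ t)
        rw [div_lt_iff₀ hε] at hm
        have h3 : 2 ≤ ε * κ t := by nlinarith
        push_cast
        nlinarith
  obtain ⟨a, c, ha0, hc0, hc1, hbd, hmem, hval⟩ := not_dominated S ((2 * ‖T‖ + 3) / δ)
  rw [div_lt_iff₀ hδ] at hval
  have ha2 : ∀ t, a t ≤ 2 := by
    intro t
    have h1 := hbd (e (κ t)) (WW_sub_WC k (unit_mem (hκ1 t)))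
    have h2 : act (e (κ t)) (lc (fun t => e (κ t)) a) = a t := by
      rw [e, act_eq_of_subset Finsupp.support_single_subset, Finset.sum_singleton,
        lc_unit_apply hκm.injective]
      rw [Finsupp.single_eq_same, abs_one, one_mul, abs_of_nonneg (ha0 t)]
    linarith
  obtain ⟨z, hz⟩ : ∃ z : X, z = ∑ t ∈ a.support, a t • J (uF (k + 1) (κ t)) := ⟨_, rfl⟩
  have hzn : ‖z‖ ≤ 2 := by
    rw [hz, norm_sum_units _ _ hκ1]
    have := hbd.nrm_le
    rwa [lc_eq] at this
  have hup : hat J (lc φ c) (T z) ≤ ‖T‖ * 2 := by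
    refine (le_abs_self _).trans ((hat_le hJ hmem _).trans ((T.le_opNorm z).trans ?_))
    exact mul_le_mul_of_nonneg_left hzn (norm_nonneg _)
  have hTz : T z = ∑ t' ∈ a.support, a t' • T (J (uF (k + 1) (κ t'))) := by
    rw [hz, map_sum]
    exact Finset.sum_congr rfl fun t _ => by rw [map_smul]
  have hlow : ∀ t, a t * δ - (1 / 2 : ℝ) ^ (t + 1) * 2 ≤ hat J (φ t) (T z) := by
    intro t
    have h1 : hat J (φ t) (T z)
        = ∑ t' ∈ a.support, a t' * hat J (φ t) (T (J (uF (k + 1) (κ t')))) := by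
      rw [hTz, map_sum]
      exact Finset.sum_congr rfl fun t' _ => by rw [map_smul, smul_eq_mul]
    have h2 : ∀ t' ∈ a.support, (if t' = t then a t' * δ else 0)
        - 2 * ((1 / 2 : ℝ) ^ (t + 1) * (1 / 2) ^ (t' + 1))
        ≤ a t' * hat J (φ t) (T (J (uF (k + 1) (κ t')))) := by
      intro t' _
      have hp : (0 : ℝ) ≤ (1 / 2 : ℝ) ^ (t + 1) * (1 / 2) ^ (t' + 1) := by positivity
      by_cases h : t' = t
      · rw [if_pos h, h]
        have h3 := mul_le_mul_of_nonneg_left (hφδ t).le (ha0 t)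
        rw [h] at hp
        linarith
      · rw [if_neg h]
        have h3 := hoff t t' (Ne.symm h)
        rw [abs_le] at h3
        have h4 := mul_le_mul_of_nonneg_left h3.1 (ha0 t')
        have h5 := mul_le_mul_of_nonneg_right (ha2 t') hp
        linarith
    have h3 := Finset.sum_le_sum h2
    rw [Finset.sum_sub_distrib, Finset.sum_ite_eq' a.support t, ← Finset.mul_sum,
      ← Finset.mul_sum] at h3
    have h4 := geom_half a.support
    have h5 : (if t ∈ a.support then a t * δ else 0) = a t * δ := by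
      split_ifs with h
      · rfl
      · rw [Finsupp.notMem_support_iff.1 h, zero_mul]
    rw [h5] at h3
    rw [h1]
    refine le_trans ?_ h3
    have h6 : (0 : ℝ) < (1 / 2) ^ (t + 1) := by positivity
    nlinarith
  have hfin : δ * ev c a - 2 ≤ hat J (lc φ c) (T z) := by
    rw [hat_lc hJ]
    have h1 : ∀ t ∈ c.support, c t * (a t * δ) - 2 * (1 / 2 : ℝ) ^ (t + 1)
        ≤ c t * hat J (φ t) (T z) := by
      intro t _
      have h2 := mul_le_mul_of_nonneg_left (hlow t) (hc0 t)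
      have h3 : c t * ((1 / 2 : ℝ) ^ (t + 1) * 2) ≤ 1 * ((1 / 2 : ℝ) ^ (t + 1) * 2) :=
        mul_le_mul_of_nonneg_right (hc1 t) (by positivity)
      linarith
    have h2 := Finset.sum_le_sum h1
    rw [Finset.sum_sub_distrib, ← Finset.mul_sum] at h2
    have h3 := geom_half c.support
    have h4 : ∑ t ∈ c.support, c t * (a t * δ) = δ * ev c a := by
      unfold ev
      rw [Finset.mul_sum]
      exact Finset.sum_congr rfl fun t _ => by ring
    rw [h4] at h2
    linarith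
  linarith

end X

end Pool.Agent.R269.SM
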