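import Pool.Agent.R269.SMCon

/-!
# The inductive step of the construction
-/

set_option autoImplicit false

namespace Pool.Agent.R269.SM

theorem schreier_single (k : ℕ) {m : ℕ} (hm : 1 ≤ m) : ({m} : Finset ℕ) ∈ Schreier k := by
  induction k with
  | zero => exact ⟨m, hm, rfl⟩
  | succ k ih =>
    refine ⟨[{m}], by simp, ?_, by simp, ?_, ?_⟩
    · intro G hG
      rw [List.mem_singleton] at hG
      rw [hG]
      exact ih
    · intro a ha
      rw [Finset.mem_singleton] at ha
      simpa [ha] using hm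
    · intro a
      simp

/-- from blocks to vectors of the next order -/
theorem vec_succ {k K : ℕ} {x φ : ℕ → C00} (S : Setup k x φ)
    (hB : ∀ (N : ℕ) (η : ℝ), 0 < η → ∃ l a c, Blk k K N l η x φ a c) (N s : ℕ) {η : ℝ}
    (hη : 0 < η) : ∃ a c, Vec k (K + 1) N s η x φ a c := by
  classical
  obtain ⟨e, he⟩ : ∃ e : ℝ, e = min η 1 / 2 := ⟨_, rfl⟩
  have he0 : 0 < e := by rw [he]; positivity
  have he1 : e ≤ 1 / 2 := by
    rw [he]
    have := min_le_right η 1
    linarith
  have he2 : 2 * e ≤ η := by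
    rw [he]
    have := min_le_left η 1
    linarith
  obtain ⟨N1, hN1, hN1a, hN1b⟩ : ∃ N1 : ℕ, N + 2 ≤ N1 ∧ 64 / e ≤ (N1 : ℝ) ∧
      16 * (s : ℝ) / η ≤ N1 := by
    refine ⟨N + 2 + ⌈64 / e⌉₊ + ⌈16 * (s : ℝ) / η⌉₊, by omega, ?_, ?_⟩
    · have h1 := Nat.le_ceil (64 / e)
      push_cast
      have h2 : (0 : ℝ) ≤ (⌈16 * (s : ℝ) / η⌉₊ : ℝ) := Nat.cast_nonneg _
      have h3 : (0 : ℝ) ≤ (N : ℝ) := Nat.cast_nonneg _
      linarith
    · have h1 := Nat.le_ceil (16 * (s : ℝ) / η)
      push_cast
      have h2 : (0 : ℝ) ≤ (⌈64 / e⌉₊ : ℝ) := Nat.cast_nonneg _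
      have h3 : (0 : ℝ) ≤ (N : ℝ) := Nat.cast_nonneg _
      linarith
  obtain ⟨TF, hTF⟩ := S.far N1
  obtain ⟨t, ht, p, q, htail, hpq, hq, hφ⟩ := S.good (e / 64) (by positivity) (max N1 TF)
  have htN : N1 ≤ t := (le_max_left _ _).trans ht
  have htT : TF ≤ t := (le_max_right _ _).trans ht
  have hqN : N1 ≤ q := (le_max_left _ _).trans hq
  have hxN : ∀ i ∈ (x t).support, N1 ≤ i := hTF t htT
  -- blocks
  have hB' : ∀ T : ℕ, ∃ lac : ℕ × C00 × C00, Blk k K T lac.1 e x φ lac.2.1 lac.2.2 := by
    intro T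
    obtain ⟨l, a, c, h⟩ := hB T e he0
    exact ⟨(l, a, c), h⟩
  choose F hF using hB'
  obtain ⟨MF, hMF⟩ : ∃ MF : ℕ → ℕ,
      MF = fun T => T + bnd x φ (F T).2.1 (F T).2.2 + (F T).1 + 1 := ⟨_, rfl⟩
  obtain ⟨T, hT0, hTs⟩ : ∃ T : ℕ → ℕ,
      T 0 = t + q + (x t).support.sup id + (φ t).support.sup id + 3 ∧
      ∀ r, T (r + 1) = 4 * 2 ^ (r + 1) * MF (T r) :=
    ⟨fun r => Nat.rec (t + q + (x t).support.sup id + (φ t).support.sup id + 3)
      (fun r Tr => 4 * 2 ^ (r + 1) * MF Tr) r, rfl, fun r => rfl⟩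
  have hMFT : ∀ U, U + 1 ≤ MF U := by
    intro U
    rw [hMF]
    dsimp only
    omega
  have hMT : ∀ r, MF (T r) < T (r + 1) := by
    intro r
    rw [hTs r]
    have h1 : 1 ≤ 2 ^ (r + 1) := Nat.one_le_two_pow
    have h2 := hMFT (T r)
    nlinarith
  have hTmono : StrictMono T := strictMono_nat_of_lt_succ fun r => by
    have h1 := hMT r
    have h2 := hMFT (T r)
    omega
  have hT0' : ∀ r, T 0 ≤ T r := fun r => hTmono.monotone (Nat.zero_le r)
  have hTlt : ∀ r r', r < r' → MF (T r) < T r' := fun r r' h =>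
    (hMT r).trans_le (hTmono.monotone (Nat.succ_le_of_lt h))
  obtain ⟨l, hl⟩ : ∃ l : ℕ → ℕ, l = fun r => (F (T r)).1 := ⟨_, rfl⟩
  obtain ⟨a, ha⟩ : ∃ a : ℕ → C00, a = fun r => (F (T r)).2.1 := ⟨_, rfl⟩
  obtain ⟨c, hc⟩ : ∃ c : ℕ → C00, c = fun r => (F (T r)).2.2 := ⟨_, rfl⟩
  have hblk : ∀ r, Blk k K (T r) (l r) e x φ (a r) (c r) := by
    intro r
    rw [hl, ha, hc]
    exact hF (T r)
  have hbnd : ∀ r, bnd x φ (a r) (c r) + l r < MF (T r) := by
    intro r
    rw [hMF, hl, ha, hc]
    dsimp only
    omega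
  obtain ⟨w, hw⟩ : ∃ w : ℕ → C00, w = fun r => lc x (a r) := ⟨_, rfl⟩
  obtain ⟨g, hg⟩ : ∃ g : ℕ → C00, g = fun r => lc φ (c r) := ⟨_, rfl⟩
  have hwlow : ∀ r, ∀ i ∈ (w r).support, T r ≤ i := by
    intro r i hi
    rw [hw] at hi
    exact (hblk r).xN i hi
  have hwup : ∀ r, ∀ i ∈ (w r).support, i < MF (T r) := by
    intro r i hi
    rw [hw] at hi
    have h1 := le_bnd_x (φ := φ) (c := c r) hi
    have h2 := hbnd r
    omega
  have hglow : ∀ r, ∀ i ∈ (g r).support, T r ≤ i := by
    intro r i hi
    rw [hg] at hi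
    exact (hblk r).φN i hi
  have hgup : ∀ r, ∀ i ∈ (g r).support, i < MF (T r) := by
    intro r i hi
    rw [hg] at hi
    have h1 := le_bnd_φ (x := x) (a := a r) hi
    have h2 := hbnd r
    omega
  have hgavg : ∀ r, IsAvg (WW (Schreier (k + 1))) (l r) (g r) := by
    intro r
    rw [hg]
    exact (hblk r).avg
  have hgne : ∀ r, (g r).support.Nonempty := fun r => (WW_nice _ (avg_mem (hgavg r))).1
  have hms : ∀ r, minSupp (g r) ∈ (g r).support := fun r => minSupp_mem (hgne r)
  obtain ⟨M, hM⟩ : ∃ M : ℕ → ℕ, M = fun r => MF (T r) := ⟨_, rfl⟩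
  have hMr : ∀ r, M r = MF (T r) := fun r => by rw [hM]
  have hMmono : StrictMono M := strictMono_nat_of_lt_succ fun r => by
    rw [hMr, hMr]
    have h1 := hMT r
    have h2 := hMFT (T (r + 1))
    omega
  have hAmono : StrictMono fun r => minSupp (g r) := by
    refine strictMono_nat_of_lt_succ fun r => ?_
    have h1 := hgup r _ (hms r)
    have h2 := hglow (r + 1) _ (hms (r + 1))
    have h3 := hMT r
    omega
  have hA1 : ∀ r, 1 ≤ minSupp (g r) := by
    intro r
    have h1 := hglow r _ (hms r)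
    have h2 := hT0' r
    omega
  have hAM : ∀ r, 4 * 2 ^ (r + 1) * M r ≤ minSupp (g (r + 1)) := by
    intro r
    have h1 := hglow (r + 1) _ (hms (r + 1))
    rw [hTs r] at h1
    rw [hMr]
    exact h1
  obtain ⟨Q, lam, hQ1, hlam0, hlamz, hlams, hunion, hcap⟩ :=
    repAvg hAmono hMmono hA1 hAM k (q - 1) 1 (by omega) le_rfl
  -- the step data
  have hq0 : (0 : ℝ) < q := by exact_mod_cast (by omega : 0 < q)
  have hj0 : (0 : ℝ) < ((q - 1 : ℕ) : ℝ) := by exact_mod_cast (by omega : 0 < q - 1)
  obtain ⟨κ, hκ⟩ : ∃ κ : ℝ, κ = 2 / ((q - 1 : ℕ) : ℝ) := ⟨_, rfl⟩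
  have hκ0 : 0 < κ := by rw [hκ]; positivity
  have hκq : κ ≤ 4 / q := by
    rw [hκ, div_le_div_iff₀ hj0 hq0]
    have h1 : (q : ℝ) ≤ 2 * ((q - 1 : ℕ) : ℝ) := by exact_mod_cast (by omega : q ≤ 2 * (q - 1))
    linarith
  have hlamκ : ∀ r ∈ Q, lam r ≤ κ := by
    intro r hr
    have h1 := hcap {r} (by simpa using hr) (by
      rw [Finset.image_singleton]
      refine Cov.single k ?_
      rw [hMr]
      have := hMFT (T r)
      omega)
    rw [Finset.sum_singleton] at h1
    rw [hκ]
    exact h1
  have hwbef : ∀ r r', r < r' → Bef (w r) (w r') := by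
    intro r r' h i hi j hj
    have h1 := hwup r i hi
    have h2 := hwlow r' j hj
    have h3 := hTlt r r' h
    omega
  have St : Step k (x t) w lam M Q (1 + e) κ := by
    refine ⟨S.l1x t, by linarith, hκ0.le, hlam0, hwbef, ?_, ?_, ?_, ?_, hlamκ, hlams.le, ?_⟩
    · intro r i hi
      rw [hMr]
      exact (hwup r i hi).le
    · intro r r' h i hi
      rw [hMr]
      exact (hTlt r r' h).trans_le (hwlow r' i hi)
    · intro r _
      rw [hw]
      exact (hblk r).bd
    · intro G hG hcov
      rw [hκ]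
      exact hcap G hG hcov
    · intro r _ i hi j hj
      have h1 := Finset.le_sup (f := id) hi
      simp only [id] at h1
      have h2 := hwlow r j hj
      have h3 := hT0' r
      rw [hT0] at h3
      omega
  -- the vector
  have hvec : lc x (Finsupp.single t 1 + ∑ r ∈ Q, lam r • a r)
      = x t + ∑ r ∈ Q, lam r • w r := by
    rw [map_add, lc_single, one_smul, map_sum]
    congr 1
    refine Finset.sum_congr rfl fun r _ => ?_
    rw [map_smul, hw]
  have hfun : lc φ ((1 / 2 : ℝ) • Finsupp.single t 1 + ∑ r ∈ Q, c r)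
      = (1 / 2 : ℝ) • φ t + ∑ r ∈ Q, g r := by
    rw [map_add, map_smul, lc_single, one_smul, map_sum, hg]
  have hzN : ∀ i ∈ (x t + ∑ r ∈ Q, lam r • w r).support, N1 ≤ i := by
    intro i hi
    have h1 := Finsupp.support_add hi
    rw [Finset.mem_union] at h1
    obtain h1 | h1 := h1
    · exact hxN i h1
    · obtain ⟨r, _, hr⟩ := mem_support_sum h1
      have h2 := hwlow r i (Finsupp.support_smul hr)
      have h3 := hT0' r
      rw [hT0] at h3
      omega
  have hm00 : (0 : ℝ) < N1 := by exact_mod_cast (by omega : 0 < N1)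
  have hs1 : (1 : ℝ) / N1 ≤ e / 64 := by
    rw [div_le_div_iff₀ hm00 (by norm_num)]
    rw [div_le_iff₀ he0] at hN1a
    linarith
  have hqN1 : (N1 : ℝ) ≤ q := by exact_mod_cast hqN
  have hs2 : (1 : ℝ) / q ≤ e / 64 := (one_div_le_one_div_of_le hm00 hqN1).trans hs1
  have hκe : κ ≤ e / 16 := by
    refine hκq.trans ?_
    have : (4 : ℝ) / q = 4 * (1 / q) := by ring
    rw [this]
    linarith
  have hpκ : (p : ℝ) * κ ≤ e / 16 := by
    calc (p : ℝ) * κ ≤ (e / 64 * q) * (4 / q) :=
          mul_le_mul hpq hκq hκ0.le (by positivity)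
      _ = e / 16 := by field_simp; ring
  have hsκ : (s : ℝ) * κ ≤ η / 4 := by
    have h1 : (s : ℝ) / q ≤ η / 16 := by
      rw [div_le_div_iff₀ hq0 (by norm_num)]
      rw [div_le_iff₀ hη] at hN1b
      have := mul_le_mul_of_nonneg_right hqN1 hη.le
      linarith
    calc (s : ℝ) * κ ≤ s * (4 / q) := mul_le_mul_of_nonneg_left hκq (Nat.cast_nonneg _)
      _ = 4 * (s / q) := by ring
      _ ≤ η / 4 := by linarith
  -- supports of the coefficient functionals
  have hclow : ∀ r, ∀ i ∈ (c r).support, T r ≤ i := fun r i hi => (hblk r).cN i hi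
  have hcup : ∀ r, ∀ i ∈ (c r).support, i < MF (T r) := by
    intro r i hi
    have h1 := le_bnd_c (x := x) (φ := φ) (a := a r) hi
    have h2 := hbnd r
    omega
  refine ⟨Finsupp.single t 1 + ∑ r ∈ Q, lam r • a r,
    (1 / 2 : ℝ) • Finsupp.single t 1 + ∑ r ∈ Q, c r, ?_, ?_, ?_, ?_, ?_, ?_, ?_, ?_, ?_, ?_⟩
  · -- a0
    intro i
    rw [Finsupp.add_apply, sum_apply', Finsupp.single_apply]
    refine add_nonneg (by split_ifs <;> simp) (Finset.sum_nonneg fun r _ => ?_)
    rw [Finsupp.smul_apply, smul_eq_mul]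
    exact mul_nonneg (hlam0 r) ((hblk r).a0 i)
  · -- c0
    intro i
    rw [Finsupp.add_apply, sum_apply', Finsupp.smul_apply, Finsupp.single_apply]
    refine add_nonneg (by split_ifs <;> simp) (Finset.sum_nonneg fun r _ => (hblk r).c0 i)
  · -- c1
    intro i
    rw [Finsupp.add_apply, sum_apply', Finsupp.smul_apply, Finsupp.single_apply]
    by_cases hi : ∃ r ∈ Q, i ∈ (c r).support
    · obtain ⟨r, hr, hir⟩ := hi
      have h1 : ∑ r ∈ Q, c r i = c r i := by
        refine Finset.sum_eq_single_of_mem r hr fun r' _ hne => ?_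
        by_contra hne'
        have hir' : i ∈ (c r').support := Finsupp.mem_support_iff.2 hne'
        have u1 := hclow r i hir
        have u2 := hcup r i hir
        have u3 := hclow r' i hir'
        have u4 := hcup r' i hir'
        obtain h | h := lt_or_gt_of_ne hne
        · have := hTlt r' r h
          omega
        · have := hTlt r r' h
          omega
      have h2 : t ≠ i := by
        rintro rfl
        have u1 := hclow r t hir
        have u2 := hT0' r
        rw [hT0] at u2
        omega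
      rw [h1, if_neg h2, smul_zero, zero_add]
      exact (hblk r).c1 i
    · have h1 : ∑ r ∈ Q, c r i = 0 := by
        refine Finset.sum_eq_zero fun r hr => ?_
        by_contra hne
        exact hi ⟨r, hr, Finsupp.mem_support_iff.2 hne⟩
      rw [h1, add_zero]
      split_ifs
      · norm_num
      · norm_num
  · -- cN
    intro i hi
    have h1 := Finsupp.support_add hi
    rw [Finset.mem_union] at h1
    obtain h1 | h1 := h1
    · have h2 := Finsupp.support_single_subset (Finsupp.support_smul h1)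
      rw [Finset.mem_singleton] at h2
      omega
    · obtain ⟨r, _, hr⟩ := mem_support_sum h1
      have h2 := hclow r i hr
      have h3 := hT0' r
      rw [hT0] at h3
      omega
  · -- xN
    rw [hvec]
    intro i hi
    have := hzN i hi
    omega
  · -- bd
    rw [hvec]
    refine (St.bound (P := p) (m0 := N1) (ε := e / 64) (E := e) (by omega) hzN htail
      (by linarith) he0.le ?_).mono (by linarith)
    have b1 : (1 + e) * κ ≤ 2 * (e / 16) := mul_le_mul (by linarith) hκe hκ0.le (by norm_num)
    have b2 : (1 + (1 + e)) / (N1 : ℝ) ≤ 3 * (e / 64) := by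
      rw [div_eq_mul_one_div]
      exact mul_le_mul (by linarith) hs1 (by positivity) (by norm_num)
    have b3 : 2 * (1 + e) * p * κ ≤ 4 * (e / 16) := by
      calc 2 * (1 + e) * p * κ = 2 * (1 + e) * (p * κ) := by ring
        _ ≤ 4 * (e / 16) := mul_le_mul (by linarith) hpκ (by positivity) (by norm_num)
    linarith
  · -- tame
    rw [hvec]
    refine (St.tame s).mono le_rfl (by linarith) ?_
    calc 2 * (1 + e) * s * κ = 2 * (1 + e) * (s * κ) := by ring
      _ ≤ 4 * (η / 4) := mul_le_mul (by linarith) hsκ (by positivity) (by norm_num)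
      _ = η := by ring
  · -- mem
    rw [hfun]
    refine sch_mem ?_
    refine ⟨(2, (1 / 2 : ℝ) • φ t) :: (Q.sort (· ≤ ·)).map fun r => (l r, g r), by simp, ?_, ?_,
      ?_, ?_, ?_⟩
    · intro p' hp'
      rw [List.mem_cons] at hp'
      obtain rfl | hp' := hp'
      · refine ⟨le_rfl, [φ t], by simp, by simp, ?_, by simp, by simp⟩
        intro f hf
        rw [List.mem_singleton] at hf
        rw [hf]
        exact S.memφ t
      · rw [List.mem_map] at hp'
        obtain ⟨r, _, rfl⟩ := hp'
        exact hgavg r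
    · rw [List.pairwise_cons, List.pairwise_map]
      refine ⟨?_, ?_⟩
      · intro p' hp' i hi j hj
        rw [List.mem_map] at hp'
        obtain ⟨r, _, rfl⟩ := hp'
        have h1 := Finset.le_sup (f := id) (Finsupp.support_smul hi)
        simp only [id] at h1
        have h2 := hglow r j hj
        have h3 := hT0' r
        rw [hT0] at h3
        omega
      · refine List.Pairwise.imp ?_ (Finset.sortedLT_sort Q).pairwise
        intro r r' h i hi j hj
        have h1 := hgup r i hi
        have h2 := hglow r' j hj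
        have h3 := hTlt r r' h
        omega
    · obtain ⟨Ls, hLs1, hLs2, hLs3, hLs4⟩ := hunion
      obtain ⟨m, hm⟩ : ∃ m, m = minSupp ((1 / 2 : ℝ) • φ t) := ⟨_, rfl⟩
      have hne : (φ t).support.Nonempty := (WW_nice _ (S.memφ t)).1
      have hmmem : m ∈ (φ t).support := by
        have h1 : ((1 / 2 : ℝ) • φ t).support.Nonempty := by
          obtain ⟨i, hi⟩ := hne
          refine ⟨i, ?_⟩
          rw [Finsupp.mem_support_iff, Finsupp.smul_apply, smul_eq_mul]
          exact mul_ne_zero (by norm_num) (Finsupp.mem_support_iff.1 hi)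
        rw [hm]
        exact Finsupp.support_smul (minSupp_mem h1)
      have hmq : q ≤ m := hφ m hmmem
      have hset : ∀ y, y ∈ (((2, (1 / 2 : ℝ) • φ t) :: (Q.sort (· ≤ ·)).map
          fun r => (l r, g r)).map fun p => minSupp p.2).toFinset ↔
          y = m ∨ y ∈ Q.image fun r => minSupp (g r) := by
        intro y
        rw [List.mem_toFinset, List.map_cons, List.mem_cons, List.map_map, hm, Finset.mem_image,
          List.mem_map]
        constructor
        · rintro (h | ⟨r, hr, h⟩)
          · exact Or.inl h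
          · exact Or.inr ⟨r, (Finset.mem_sort _).1 hr, h⟩
        · rintro (h | ⟨r, hr, h⟩)
          · exact Or.inl h
          · exact Or.inr ⟨r, (Finset.mem_sort _).2 hr, h⟩
      refine ⟨{m} :: Ls, by simp, ?_, ?_, ?_, ?_⟩
      · intro G hG
        rw [List.mem_cons] at hG
        obtain rfl | hG := hG
        · exact schreier_single k (by omega)
        · exact hLs2 G hG
      · rw [List.pairwise_cons]
        refine ⟨?_, hLs3⟩
        intro G hG y hy y' hy'
        rw [Finset.mem_singleton] at hy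
        have h1 : y' ∈ Q.image fun r => minSupp (g r) := (hLs4 y').2 ⟨G, hG, hy'⟩
        rw [Finset.mem_image] at h1
        obtain ⟨r, _, rfl⟩ := h1
        have h2 := Finset.le_sup (f := id) hmmem
        simp only [id] at h2
        have h3 := hglow r _ (hms r)
        have h4 := hT0' r
        rw [hT0] at h4
        omega
      · intro y hy
        rw [hset y] at hy
        rw [List.length_cons, hLs1]
        obtain rfl | hy := hy
        · omega
        · rw [Finset.mem_image] at hy
          obtain ⟨r, _, rfl⟩ := hy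
          have h3 := hglow r _ (hms r)
          have h4 := hT0' r
          rw [hT0] at h4
          omega
      · intro y
        rw [hset y]
        constructor
        · rintro (rfl | hy)
          · exact ⟨{y}, List.mem_cons_self, Finset.mem_singleton_self _⟩
          · obtain ⟨G, hG, hyG⟩ := (hLs4 y).1 hy
            exact ⟨G, List.mem_cons_of_mem _ hG, hyG⟩
        · rintro ⟨G, hG, hyG⟩
          rw [List.mem_cons] at hG
          obtain rfl | hG := hG
          · exact Or.inl (Finset.mem_singleton.1 hyG)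
          · exact Or.inr ((hLs4 y).2 ⟨G, hG, hyG⟩)
    · rw [List.pairwise_cons, List.pairwise_map]
      refine ⟨?_, ?_⟩
      · intro p' hp'
        rw [List.mem_map] at hp'
        obtain ⟨r, _, rfl⟩ := hp'
        have h2 := (hblk r).lN
        have h3 := hT0' r
        rw [hT0] at h3
        refine ⟨by change 2 < l r; omega, ?_⟩
        intro i hi
        have h1 := Finset.le_sup (f := id) (Finsupp.support_smul hi)
        simp only [id] at h1
        change i < l r
        omega
      · refine List.Pairwise.imp ?_ (Finset.sortedLT_sort Q).pairwise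
        intro r r' h
        have h1 := hbnd r
        have h2 := (hblk r').lN
        have h3 := hTlt r r' h
        refine ⟨by change l r < l r'; omega, ?_⟩
        intro i hi
        have h4 := hgup r i hi
        change i < l r'
        omega
    · rw [List.map_cons, List.sum_cons, List.map_map]
      congr 1
      rw [← List.sum_toFinset _ (Finset.sort_nodup Q _), Finset.sort_toFinset]
      rfl
  · -- φN
    rw [hfun]
    intro i hi
    have h1 := Finsupp.support_add hi
    rw [Finset.mem_union] at h1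
    obtain h1 | h1 := h1
    · have := hφ i (Finsupp.support_smul h1)
      omega
    · obtain ⟨r, _, hr⟩ := mem_support_sum h1
      have h2 := hglow r i hr
      have h3 := hT0' r
      rw [hT0] at h3
      omega
  · -- val
    rw [ev_add_left, ev_smul_left, ev_single, ev_sum_left, one_mul]
    have h1 : (1 : ℝ) ≤ (Finsupp.single t 1 + ∑ r ∈ Q, lam r • a r : C00) t := by
      rw [Finsupp.add_apply, Finsupp.single_eq_same, sum_apply']
      have : 0 ≤ ∑ r ∈ Q, (lam r • a r) t := Finset.sum_nonneg fun r _ => by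
        rw [Finsupp.smul_apply, smul_eq_mul]
        exact mul_nonneg (hlam0 r) ((hblk r).a0 t)
      linarith
    have h2 : ∀ r ∈ Q, lam r * (1 + (K : ℝ) / 2)
        ≤ ev (c r) (Finsupp.single t 1 + ∑ r ∈ Q, lam r • a r) := by
      intro r hr
      have h3 : lam r * (1 + (K : ℝ) / 2) ≤ ev (c r) (lam r • a r) := by
        rw [ev_smul_right]
        exact mul_le_mul_of_nonneg_left (hblk r).val (hlam0 r)
      refine h3.trans (ev_mono_right (hblk r).c0 fun i => ?_)
      rw [Finsupp.add_apply, sum_apply', Finsupp.single_apply]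
      have h4 : (lam r • a r) i ≤ ∑ r ∈ Q, (lam r • a r) i :=
        Finset.single_le_sum (f := fun r => (lam r • a r) i) (fun r _ => by
          change 0 ≤ (lam r • a r) i
          rw [Finsupp.smul_apply, smul_eq_mul]
          exact mul_nonneg (hlam0 r) ((hblk r).a0 i)) hr
      have h5 : (0 : ℝ) ≤ if t = i then 1 else 0 := by split_ifs <;> simp
      linarith
    have h6 := Finset.sum_le_sum h2
    rw [← Finset.sum_mul, hlams, one_mul] at h6
    rw [Nat.cast_add, Nat.cast_one]
    linarith

/-- The construction at all orders. -/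
theorem vec_all {k : ℕ} {x φ : ℕ → C00} (S : Setup k x φ) (K : ℕ) :
    ∀ (N s : ℕ) (η : ℝ), 0 < η → ∃ a c, Vec k K N s η x φ a c := by
  induction K with
  | zero => exact fun N s η hη => vec_zero S N s hη
  | succ K ih => exact fun N s η hη => vec_succ S (fun N η hη => blk_of_vec ih N hη) N s hη

end Pool.Agent.R269.SM
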