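import Pool.Agent.R269.SMNext

/-!
# Norms, equivalence of sequences
-/

set_option autoImplicit false

namespace Pool.Agent.R269.SM

theorem lc_eq (x : ℕ → C00) (a : C00) : lc x a = ∑ m ∈ a.support, a m • x m := by
  unfold lc
  rw [Finsupp.linearCombination_apply]
  rfl

theorem le_nrm {n : ℕ} {f : C00} (hf : f ∈ WW (Schreier n)) (x : C00) : ev f x ≤ nrm n x := by
  refine le_csSup ⟨l1 x, ?_⟩ ⟨f, hf, rfl⟩
  rintro r ⟨g, hg, rfl⟩
  refine (le_abs_self _).trans ((abs_ev_le_act g x).trans ?_)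
  refine (act_le_l1 (WW_nice g hg).2.1 x).trans ?_
  rw [one_mul]

theorem nrm_le {n : ℕ} {x : C00} {B : ℝ} (h : ∀ f ∈ WW (Schreier n), ev f x ≤ B) :
    nrm n x ≤ B := by
  refine csSup_le ⟨_, Finsupp.single 1 1, unit_mem le_rfl, rfl⟩ ?_
  rintro r ⟨f, hf, rfl⟩
  exact h f hf

theorem Bd.nrm_le {k : ℕ} {B : ℝ} {x : C00} (h : Bd k B x) : nrm (k + 1) x ≤ B :=
  SM.nrm_le fun f hf => (le_abs_self _).trans ((abs_ev_le_act f x).trans (h f (WW_sub_WC k hf)))

theorem ev_lc (φ : ℕ → C00) (c y : C00) :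
    ev (lc φ c) y = ∑ m ∈ c.support, c m * ev (φ m) y := by
  rw [lc_eq, ev_sum_left]
  exact Finset.sum_congr rfl fun m _ => ev_smul_left _ _ _

theorem lc_unit_apply {j : ℕ → ℕ} (hj : Function.Injective j) (a : C00) (m : ℕ) :
    (lc (fun m => e (j m)) a) (j m) = a m := by
  rw [lc_eq, sum_apply']
  have h : ∀ m' ∈ a.support, (a m' • e (j m')) (j m) = if m' = m then a m' else 0 := by
    intro m' _
    rw [Finsupp.smul_apply, smul_eq_mul, e, Finsupp.single_apply]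
    by_cases h : m' = m
    · rw [h, if_pos rfl, if_pos rfl, mul_one]
    · rw [if_neg h, if_neg fun h' => h (hj h'), mul_zero]
  rw [Finset.sum_congr rfl h, Finset.sum_ite_eq']
  split_ifs with hm
  · rfl
  · exact (Finsupp.notMem_support_iff.1 hm).symm

theorem ev_unit (i : ℕ) (y : C00) : ev (e i) y = y i := by
  rw [e, ev_single, one_mul]

/-- the first main consequence of the construction -/
theorem not_dominated {k : ℕ} {x φ : ℕ → C00} (S : Setup k x φ) (C : ℝ) :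
    ∃ a c : C00, (∀ t, 0 ≤ a t) ∧ (∀ t, 0 ≤ c t) ∧ (∀ t, c t ≤ 1) ∧ Bd k 2 (lc x a) ∧
      lc φ c ∈ WW (Schreier (k + 1)) ∧ C < ev c a := by
  obtain ⟨K, hK⟩ := exists_nat_gt (2 * C)
  obtain ⟨a, c, h⟩ := vec_all S K 0 0 1 one_pos
  refine ⟨a, c, h.a0, h.c0, h.c1, h.bd.mono (by norm_num), h.mem, ?_⟩
  have := h.val
  linarith

theorem l1_unit (i : ℕ) : l1 (e i) = 1 := by
  unfold l1 e
  rw [Finsupp.support_single _ (one_ne_zero), Finset.sum_singleton, Finsupp.single_eq_same, abs_one]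

end Pool.Agent.R269.SM
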