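import Pool.Agent.R269.SMMin

/-!
# The space of order `n` is not minimal
-/

set_option autoImplicit false

open Filter Topology

namespace Pool.Agent.R269.SM

section X

variable {k : ℕ} {X : Type} [NormedAddCommGroup X] [NormedSpace ℝ X] {J : Fam (k + 1) →ₗᵢ[ℝ] X}

theorem hat_apply (f : C00) (x : X) : hat J f x = ∑ i ∈ f.support, f i * co J i x := by
  unfold hat
  rw [_root_.sum_apply]
  rfl

theorem seq_uF_apply (n i j : ℕ) (hi : 1 ≤ i) : (uF n i).seq j = if i = j then 1 else 0 := by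
  rw [seq_uF hi, e_apply]

theorem co_unit (hJ : DenseRange J) {i j : ℕ} (hj : 1 ≤ j) :
    co J i (J (uF (k + 1) j)) = if j = i then 1 else 0 := by
  rw [co_J hJ, seq_uF_apply _ _ _ hj]

/-- the head of a vector -/
noncomputable def hd (J : Fam (k + 1) →ₗᵢ[ℝ] X) (m : ℕ) (x : X) : X :=
  ∑ i ∈ Finset.range m, co J i x • J (uF (k + 1) i)

theorem hat_hd (hJ : DenseRange J) {f : C00} (hf : f ∈ WW (Schreier (k + 1))) (m : ℕ) (x : X) :
    hat J f (x - hd J m x) = hat J (res {i | m ≤ i} f) x := by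
  classical
  have h0 : f 0 = 0 := by
    by_contra hne
    have := (WW_nice f hf).2.2 0 (Finsupp.mem_support_iff.2 hne)
    omega
  have h1 : hat J f (hd J m x) = ∑ i ∈ Finset.range m, f i * co J i x := by
    unfold hd
    rw [map_sum]
    refine Finset.sum_congr rfl fun i _ => ?_
    rw [map_smul, hat_J hJ, smul_eq_mul]
    rcases Nat.eq_zero_or_pos i with rfl | hi
    · rw [uF_zero, seq_zero, h0]
      simp [ev]
    · rw [seq_uF hi]
      have : ev f (e i) = f i := by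
        unfold ev
        have h2 : ∀ j ∈ f.support, f j * e i j = if i = j then f j else 0 := by
          intro j _
          rw [e_apply]
          split_ifs <;> simp
        rw [Finset.sum_congr rfl h2, Finset.sum_ite_eq]
        split_ifs with h
        · rfl
        · exact (Finsupp.notMem_support_iff.1 h).symm
      rw [this, mul_comm]
  rw [map_sub, h1, hat_apply, hat_apply, sub_eq_iff_eq_add]
  have h2 : ∑ i ∈ (res {i | m ≤ i} f).support, res {i | m ≤ i} f i * co J i x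
      = ∑ i ∈ f.support.filter (fun i => m ≤ i), f i * co J i x := by
    have h3 : (res {i | m ≤ i} f).support = f.support.filter (fun i => m ≤ i) := by
      ext i
      rw [mem_support_res, Finset.mem_filter]
      rfl
    rw [h3]
    refine Finset.sum_congr rfl fun i hi => ?_
    rw [res_apply, if_pos]
    exact (Finset.mem_filter.1 hi).2
  have h4 : ∑ i ∈ Finset.range m, f i * co J i x
      = ∑ i ∈ f.support.filter (fun i => ¬ m ≤ i), f i * co J i x := by
    symm
    refine Finset.sum_subset ?_ ?_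
    · intro i hi
      rw [Finset.mem_filter] at hi
      rw [Finset.mem_range]
      omega
    · intro i hi hi'
      rw [Finset.mem_range] at hi
      have : f i = 0 := by
        by_contra hne
        exact hi' (Finset.mem_filter.2 ⟨Finsupp.mem_support_iff.2 hne, by omega⟩)
      rw [this, zero_mul]
  rw [h2, h4, Finset.sum_filter_add_sum_filter_not]

/-- images of basis vectors are close to their heads -/
theorem claimB (hJ : DenseRange J) (T : X →L[ℝ] X) {δ : ℝ} (hδ : 0 < δ) :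
    ∃ N : ℕ, ∀ j, N ≤ j →
      ‖T (J (uF (k + 1) j)) - hd J (j ^ 2) (T (J (uF (k + 1) j)))‖ ≤ δ := by
  obtain ⟨N, hN⟩ := claimA hJ T hδ
  refine ⟨N, fun j hj => norm_le_of_hat hJ fun f hf => ?_⟩
  rw [hat_hd hJ hf]
  obtain h | h := WW_res {i | j ^ 2 ≤ i} hf
  · rw [h]
    have : hat J (0 : C00) = 0 := by simp [hat]
    rw [this]
    simpa using hδ.le
  · exact hN j hj _ h fun i hi => (mem_support_res.1 hi).2

/-- the positions of the subspace -/
def io (m : ℕ) : ℕ := 4 ^ ((m + 1) ^ 3)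

theorem io_mono : StrictMono io := by
  intro m m' h
  refine Nat.pow_lt_pow_right (by norm_num) ?_
  exact Nat.pow_lt_pow_left (by omega) (by norm_num)

theorem io_pos (m : ℕ) : 1 ≤ io m := Nat.one_le_pow _ _ (by norm_num)

theorem io_sq (m : ℕ) : io m = (2 ^ ((m + 1) ^ 3)) ^ 2 := by
  unfold io
  rw [← pow_mul, mul_comm, pow_mul]
  norm_num

/-- The subspace. -/
noncomputable def Ysub (J : Fam (k + 1) →ₗᵢ[ℝ] X) : Submodule ℝ X :=
  (Submodule.span ℝ (Set.range fun m => J (uF (k + 1) (io m)))).topologicalClosure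

theorem co_Y (hJ : DenseRange J) {y : X} (hy : y ∈ Ysub J) {i : ℕ} (hi : ∀ m, i ≠ io m) :
    co J i y = 0 := by
  have h1 : Ysub J ≤ LinearMap.ker (co J i : X →ₗ[ℝ] ℝ) := by
    refine Submodule.topologicalClosure_minimal _ ?_ ?_
    · rw [Submodule.span_le]
      rintro _ ⟨m, rfl⟩
      change co J i (J (uF (k + 1) (io m))) = 0
      rw [co_unit hJ (io_pos m), if_neg (Ne.symm (hi m))]
    · exact ContinuousLinearMap.isClosed_ker (co J i)
  exact h1 hy

theorem hd_Y (hJ : DenseRange J) {y : X} (hy : y ∈ Ysub J) {m j : ℕ} (h1 : io m < j)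
    (h2 : j ≤ io (m + 1)) :
    hd J j y = ∑ r ∈ Finset.range (m + 1), co J (io r) y • J (uF (k + 1) (io r)) := by
  classical
  have h3 : ∑ r ∈ Finset.range (m + 1), co J (io r) y • J (uF (k + 1) (io r))
      = ∑ i ∈ (Finset.range (m + 1)).image io, co J i y • J (uF (k + 1) i) := by
    rw [Finset.sum_image fun a _ b _ h => io_mono.injective h]
  rw [h3]
  unfold hd
  symm
  refine Finset.sum_subset ?_ ?_
  · intro i hi
    rw [Finset.mem_image] at hi
    obtain ⟨r, hr, rfl⟩ := hi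
    rw [Finset.mem_range] at hr ⊢
    have := io_mono.monotone (by omega : r ≤ m)
    omega
  · intro i hi hi'
    rw [Finset.mem_range] at hi
    rw [co_Y hJ hy, zero_smul]
    rintro r rfl
    apply hi'
    refine Finset.mem_image_of_mem _ (Finset.mem_range.2 ?_)
    by_contra hcon
    have := io_mono.monotone (by omega : m + 1 ≤ r)
    omega

theorem Y_infinite (hJ : DenseRange J) : ¬ FiniteDimensional ℝ (Ysub J) := by
  intro hfin
  have hmem : ∀ m, J (uF (k + 1) (io m)) ∈ Ysub J := fun m =>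
    Submodule.le_topologicalClosure _ (Submodule.subset_span ⟨m, rfl⟩)
  have hli : LinearIndependent ℝ fun m : ℕ => (⟨J (uF (k + 1) (io m)), hmem m⟩ : Ysub J) := by
    rw [linearIndependent_iff']
    intro s g hg m hm
    have h1 : ∑ i ∈ s, g i • J (uF (k + 1) (io i)) = 0 := by
      have := congrArg (Submodule.subtype _) hg
      rw [map_sum] at this
      simpa using this
    have h2 := congrArg (co J (io m)) h1
    rw [map_sum, map_zero] at h2
    have h3 : ∀ i ∈ s, co J (io m) (g i • J (uF (k + 1) (io i))) = if i = m then g i else 0 := by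
      intro i _
      rw [map_smul, co_unit hJ (io_pos i), smul_eq_mul]
      by_cases h : i = m
      · rw [if_pos h, if_pos (by rw [h]), mul_one]
      · rw [if_neg h, if_neg fun h' => h (io_mono.injective h'), mul_zero]
    rw [Finset.sum_congr rfl h3, Finset.sum_ite_eq', if_pos hm] at h2
    exact h2
  have := hli.finite
  exact not_finite ℕ

/-- counting -/
theorem count_lt (D m : ℕ) (hm : 2 * D + 1 ≤ m) :
    (2 * ((m + 1) * D) + 1) ^ (m + 1) + 2 ^ ((m + 1) ^ 3) < 2 ^ ((m + 2) ^ 3) := by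
  have h1 : 2 * ((m + 1) * D) + 1 ≤ (m + 1) ^ 2 := by nlinarith
  have h2 : m + 1 ≤ 2 ^ (m + 1) := (Nat.lt_two_pow_self).le
  have h3 : (2 * ((m + 1) * D) + 1) ^ (m + 1) ≤ 2 ^ (2 * (m + 1) ^ 2) := by
    calc (2 * ((m + 1) * D) + 1) ^ (m + 1) ≤ ((m + 1) ^ 2) ^ (m + 1) := Nat.pow_le_pow_left h1 _
      _ ≤ ((2 ^ (m + 1)) ^ 2) ^ (m + 1) := Nat.pow_le_pow_left (Nat.pow_le_pow_left h2 _) _
      _ = 2 ^ (2 * (m + 1) ^ 2) := by
        rw [← pow_mul, ← pow_mul]
        congr 1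
        ring
  have h4 : 2 * (m + 1) ^ 2 + 1 ≤ (m + 2) ^ 3 - 1 := by
    have : 2 * (m + 1) ^ 2 + 2 ≤ (m + 2) ^ 3 := by ring_nf; nlinarith
    omega
  have h5 : (m + 1) ^ 3 + 1 ≤ (m + 2) ^ 3 - 1 := by
    have : (m + 1) ^ 3 + 2 ≤ (m + 2) ^ 3 := by ring_nf; nlinarith
    omega
  have h6 : 2 ^ (2 * (m + 1) ^ 2) * 2 ≤ 2 ^ ((m + 2) ^ 3 - 1) := by
    rw [← pow_succ]
    exact Nat.pow_le_pow_right (by norm_num) h4
  have h7 : 2 ^ ((m + 1) ^ 3) * 2 ≤ 2 ^ ((m + 2) ^ 3 - 1) := by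
    rw [← pow_succ]
    exact Nat.pow_le_pow_right (by norm_num) h5
  have h8 : 2 ^ ((m + 2) ^ 3) = 2 * 2 ^ ((m + 2) ^ 3 - 1) := by
    have h0 : 1 ≤ (m + 2) ^ 3 := Nat.one_le_pow _ _ (by omega)
    rw [← pow_succ', Nat.sub_add_cancel h0]
  have h9 : 0 < 2 ^ ((m + 2) ^ 3 - 1) := by positivity
  omega

/-- there is no isomorphic embedding into the subspace -/
theorem no_embedding (hJ : DenseRange J) (T : X →L[ℝ] X) (hT : ∀ x, T x ∈ Ysub J) {K : ℝ}
    (hK : 0 < K) (hb : ∀ x, ‖x‖ ≤ K * ‖T x‖) : False := by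
  classical
  obtain ⟨δ, hδ⟩ : ∃ δ : ℝ, δ = 1 / (4 * K) := ⟨_, rfl⟩
  have hδ0 : 0 < δ := by rw [hδ]; positivity
  obtain ⟨N, hN⟩ := claimB hJ T hδ0
  obtain ⟨D, hD⟩ := exists_nat_gt (‖T‖ / δ + 1)
  obtain ⟨m, hm⟩ : ∃ m, m = N + 2 * D + 1 := ⟨_, rfl⟩
  have hm0 : (0 : ℝ) < (m + 1 : ℕ) := by exact_mod_cast Nat.succ_pos m
  -- the indices
  obtain ⟨A, hA⟩ : ∃ A : Finset ℕ, A = Finset.Ioc (2 ^ ((m + 1) ^ 3)) (2 ^ ((m + 2) ^ 3)) :=
    ⟨_, rfl⟩
  obtain ⟨R, hR⟩ : ∃ R : ℤ, R = (((m + 1) * D : ℕ) : ℤ) := ⟨_, rfl⟩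
  obtain ⟨B, hB⟩ : ∃ B : Finset (Fin (m + 1) → ℤ),
      B = Fintype.piFinset fun _ : Fin (m + 1) => Finset.Icc (-R) R := ⟨_, rfl⟩
  have hBcard : B.card = (2 * ((m + 1) * D) + 1) ^ (m + 1) := by
    rw [hB, Fintype.card_piFinset]
    simp only [Int.card_Icc, Finset.prod_const, Finset.card_univ, Fintype.card_fin]
    congr 1
    rw [hR]
    omega
  have hAcard : B.card < A.card := by
    rw [hBcard, hA, Nat.card_Ioc]
    have := count_lt D m (by omega)
    omega
  have hmaps : ∀ j ∈ A, (fun r : Fin (m + 1) =>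
      ⌊((m + 1 : ℕ) : ℝ) / δ * co J (io r) (T (J (uF (k + 1) j)))⌋) ∈ B := by
    intro j _
    rw [hB, Fintype.mem_piFinset]
    intro r
    have h1 : |co J (io r) (T (J (uF (k + 1) j)))| ≤ ‖T‖ := by
      have h2 := hat_le hJ (unit_mem (𝒮 := Schreier (k + 1)) (io_pos r)) (T (J (uF (k + 1) j)))
      have h3 : hat J (Finsupp.single (io r) 1 : C00) (T (J (uF (k + 1) j)))
          = co J (io r) (T (J (uF (k + 1) j))) := by
        rw [hat_apply, Finsupp.support_single _ one_ne_zero, Finset.sum_singleton,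
          Finsupp.single_eq_same, one_mul]
      rw [h3] at h2
      refine h2.trans ((T.le_opNorm _).trans ?_)
      calc ‖T‖ * ‖J (uF (k + 1) j)‖ ≤ ‖T‖ * 1 :=
            mul_le_mul_of_nonneg_left (norm_unit_le j) (norm_nonneg _)
        _ = ‖T‖ := mul_one _
    have h4 : |((m + 1 : ℕ) : ℝ) / δ * co J (io r) (T (J (uF (k + 1) j)))|
        ≤ ((m + 1 : ℕ) : ℝ) * (D - 1) := by
      rw [abs_mul, abs_of_pos (by positivity : (0 : ℝ) < ((m + 1 : ℕ) : ℝ) / δ)]
      calc ((m + 1 : ℕ) : ℝ) / δ * |co J (io r) (T (J (uF (k + 1) j)))|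
          ≤ ((m + 1 : ℕ) : ℝ) / δ * ‖T‖ := mul_le_mul_of_nonneg_left h1 (by positivity)
        _ = ((m + 1 : ℕ) : ℝ) * (‖T‖ / δ) := by ring
        _ ≤ ((m + 1 : ℕ) : ℝ) * (D - 1) := mul_le_mul_of_nonneg_left (by linarith) hm0.le
    rw [abs_le] at h4
    have hm1 : (1 : ℝ) ≤ ((m + 1 : ℕ) : ℝ) := by exact_mod_cast Nat.succ_le_succ (Nat.zero_le m)
    rw [Finset.mem_Icc, Int.le_floor, hR]
    constructor
    · push_cast
      push_cast at h4 hm1
      nlinarith [h4.1]
    · have h5 : ((⌊((m + 1 : ℕ) : ℝ) / δ * co J (io r) (T (J (uF (k + 1) j)))⌋ : ℤ) : ℝ)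
          ≤ (((((m + 1) * D : ℕ) : ℤ)) : ℝ) := by
        refine (Int.floor_le _).trans (h4.2.trans ?_)
        push_cast
        push_cast at hm1
        nlinarith
      exact_mod_cast h5
  obtain ⟨j, hj, j', hj', hne, heq⟩ := Finset.exists_ne_map_eq_of_card_lt_of_maps_to hAcard hmaps
  -- the indices are large
  have hbig : ∀ j ∈ A, N ≤ j ∧ io m < j ^ 2 ∧ j ^ 2 ≤ io (m + 1) := by
    intro j hj
    rw [hA, Finset.mem_Ioc] at hj
    refine ⟨?_, ?_, ?_⟩
    · have h1 : m < 2 ^ m := Nat.lt_two_pow_self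
      have h2 : 2 ^ m ≤ 2 ^ ((m + 1) ^ 3) := Nat.pow_le_pow_right (by norm_num)
        ((Nat.le_succ m).trans (Nat.le_self_pow (by norm_num) _))
      omega
    · rw [io_sq]
      exact Nat.pow_lt_pow_left hj.1 (by norm_num)
    · rw [io_sq]
      exact Nat.pow_le_pow_left hj.2 2
  obtain ⟨b1, b2, b3⟩ := hbig j hj
  obtain ⟨c1, c2, c3⟩ := hbig j' hj'
  have e1 := hN j b1
  have e2 := hN j' c1
  rw [hd_Y hJ (hT _) b2 b3] at e1
  rw [hd_Y hJ (hT _) c2 c3] at e2
  obtain ⟨u, hu⟩ : ∃ u, u = T (J (uF (k + 1) j)) := ⟨_, rfl⟩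
  obtain ⟨v, hv⟩ : ∃ v, v = T (J (uF (k + 1) j')) := ⟨_, rfl⟩
  rw [← hu] at e1
  rw [← hv] at e2
  have e3 : ‖∑ r ∈ Finset.range (m + 1), co J (io r) u • J (uF (k + 1) (io r))
      - ∑ r ∈ Finset.range (m + 1), co J (io r) v • J (uF (k + 1) (io r))‖ ≤ δ := by
    rw [← Finset.sum_sub_distrib]
    refine (norm_sum_le _ _).trans ?_
    have h1 : ∀ r ∈ Finset.range (m + 1), ‖co J (io r) u • J (uF (k + 1) (io r))
        - co J (io r) v • J (uF (k + 1) (io r))‖ ≤ δ / ((m + 1 : ℕ) : ℝ) := by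
      intro r hr
      rw [Finset.mem_range] at hr
      rw [← sub_smul, norm_smul, Real.norm_eq_abs]
      have h2 := congrFun heq ⟨r, hr⟩
      simp only at h2
      rw [← hu, ← hv] at h2
      have h3 := Int.abs_sub_lt_one_of_floor_eq_floor h2
      rw [← mul_sub, abs_mul, abs_of_pos (by positivity : (0 : ℝ) < ((m + 1 : ℕ) : ℝ) / δ)] at h3
      have h4 : |co J (io r) u - co J (io r) v| ≤ δ / ((m + 1 : ℕ) : ℝ) := by
        rw [le_div_iff₀ hm0]
        have h5 : ((m + 1 : ℕ) : ℝ) / δ * |co J (io r) u - co J (io r) v| * δ < 1 * δ :=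
          mul_lt_mul_of_pos_right h3 hδ0
        have h6 : ((m + 1 : ℕ) : ℝ) / δ * |co J (io r) u - co J (io r) v| * δ
            = |co J (io r) u - co J (io r) v| * ((m + 1 : ℕ) : ℝ) := by field_simp
        rw [h6, one_mul] at h5
        exact h5.le
      calc |co J (io r) u - co J (io r) v| * ‖J (uF (k + 1) (io r))‖
          ≤ |co J (io r) u - co J (io r) v| * 1 :=
            mul_le_mul_of_nonneg_left (norm_unit_le _) (abs_nonneg _)
        _ ≤ _ := by rw [mul_one]; exact h4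
    refine (Finset.sum_le_sum h1).trans (le_of_eq ?_)
    rw [Finset.sum_const, Finset.card_range, nsmul_eq_mul]
    field_simp
  have e4 : ‖u - v‖ ≤ 3 * δ := by
    obtain ⟨p, hp⟩ : ∃ p, p = ∑ r ∈ Finset.range (m + 1),
      co J (io r) u • J (uF (k + 1) (io r)) := ⟨_, rfl⟩
    obtain ⟨q, hq⟩ : ∃ q, q = ∑ r ∈ Finset.range (m + 1),
      co J (io r) v • J (uF (k + 1) (io r)) := ⟨_, rfl⟩
    rw [← hp] at e1 e3
    rw [← hq] at e2 e3
    have : u - v = (u - p) + (p - q) - (v - q) := by abel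
    rw [this]
    have h1 := norm_sub_le ((u - p) + (p - q)) (v - q)
    have h2 := norm_add_le (u - p) (p - q)
    linarith
  have e5 : 1 ≤ ‖J (uF (k + 1) j) - J (uF (k + 1) j')‖ := by
    have hj1 : 1 ≤ j := by
      have := io_pos m
      by_contra hcon
      have : j = 0 := by omega
      rw [this] at b2
      norm_num at b2
    have hj1' : 1 ≤ j' := by
      by_contra hcon
      have : j' = 0 := by omega
      rw [this] at c2
      norm_num at c2
    rw [← map_sub, J.norm_map, norm_fam]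
    have h1 := abs_apply_le_nrm (k + 1) (uF (k + 1) j - uF (k + 1) j').seq hj1
    have h2 : (uF (k + 1) j - uF (k + 1) j').seq j = 1 := by
      rw [sub_eq_add_neg, seq_add, seq_neg, Finsupp.add_apply, Finsupp.neg_apply,
        seq_uF_apply _ _ _ hj1, seq_uF_apply _ _ _ hj1', if_pos rfl, if_neg (Ne.symm hne)]
      norm_num
    rw [h2, abs_one] at h1
    exact h1
  have e6 := hb (J (uF (k + 1) j) - J (uF (k + 1) j'))
  rw [map_sub, ← hu, ← hv] at e6
  have e7 : K * ‖u - v‖ ≤ K * (3 * δ) := mul_le_mul_of_nonneg_left e4 hK.le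
  have e8 : K * (3 * δ) = 3 / 4 := by rw [hδ]; field_simp
  linarith

end X

end Pool.Agent.R269.SM
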