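import Mathlib

/-!
# The spaces of order `n` with saturated norms under constraints: definitions

The Schreier families, the norming set `W`, the norm, and equivalence of sequences.
-/

set_option autoImplicit false

namespace Pool.Agent.R269.SM

/-- Finitely supported real sequences (only the coordinates `1, 2, …` are used). -/
abbrev C00 : Type := ℕ →₀ ℝ

/-- The Schreier families of finite sets of positive integers. -/
def Schreier : ℕ → Set (Finset ℕ)
  | 0 => {F | ∃ m : ℕ, 1 ≤ m ∧ F = {m}}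
  | k + 1 => {F | ∃ L : List (Finset ℕ), L ≠ [] ∧ (∀ G ∈ L, G ∈ Schreier k) ∧
      L.Pairwise (fun G H => ∀ a ∈ G, ∀ b ∈ H, a < b) ∧ (∀ a ∈ F, L.length ≤ a) ∧
      ∀ a, a ∈ F ↔ ∃ G ∈ L, a ∈ G}

/-- `Bef f g`: the support of `f` lies before the support of `g`. -/
def Bef (f g : C00) : Prop := ∀ a ∈ f.support, ∀ b ∈ g.support, a < b

/-- `IsAvg V l α`: `α` is an average of size `l` of successive members of `V`, that is
`α = (1 / l) (f₁ + … + f_d)` with `f₁ < … < f_d` in `V`, `1 ≤ d ≤ l` and `2 ≤ l`. -/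
def IsAvg (V : Set C00) (l : ℕ) (α : C00) : Prop :=
  2 ≤ l ∧ ∃ L : List C00, L ≠ [] ∧ L.length ≤ l ∧ (∀ f ∈ L, f ∈ V) ∧ L.Pairwise Bef ∧
    α = (1 / (l : ℝ)) • L.sum

/-- the least element of the support -/
noncomputable def minSupp (f : C00) : ℕ := sInf {a | a ∈ f.support}

/-- `IsSch 𝒮 V g`: `g = α₁ + … + α_d` with `α₁ < … < α_d` averages of members of `V`, whose
minimal supports form a set in `𝒮`, with increasing sizes `s(α₁) < … < s(α_d)`, the size of each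
being larger than the maximal support of the preceding ones. -/
def IsSch (𝒮 : Set (Finset ℕ)) (V : Set C00) (g : C00) : Prop :=
  ∃ L : List (ℕ × C00), L ≠ [] ∧ (∀ p ∈ L, IsAvg V p.1 p.2) ∧
    L.Pairwise (fun p q => Bef p.2 q.2) ∧ (L.map fun p => minSupp p.2).toFinset ∈ 𝒮 ∧
    L.Pairwise (fun p q => p.1 < q.1 ∧ ∀ a ∈ p.2.support, a < q.1) ∧
    g = (L.map Prod.snd).sum

/-- The levels of the norming set. -/
def Wlev (𝒮 : Set (Finset ℕ)) : ℕ → Set C00
  | 0 => {f | ∃ i : ℕ, 1 ≤ i ∧ (f = Finsupp.single i 1 ∨ f = Finsupp.single i (-1))}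
  | m + 1 => Wlev 𝒮 m ∪ {f | ∃ l, IsAvg (Wlev 𝒮 m) l f} ∪ {f | IsSch 𝒮 (Wlev 𝒮 m) f}

/-- The norming set: the union of the levels. -/
def WW (𝒮 : Set (Finset ℕ)) : Set C00 := ⋃ m, Wlev 𝒮 m

/-- The action `f(x) = ∑ f i * x i`. -/
noncomputable def ev (f x : C00) : ℝ := ∑ i ∈ f.support, f i * x i

/-- The norm of the space of order `n`. -/
noncomputable def nrm (n : ℕ) (x : C00) : ℝ := sSup {r : ℝ | ∃ f ∈ WW (Schreier n), r = ev f x}

/-- The unit vector with index `i`. -/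
noncomputable def e (i : ℕ) : C00 := Finsupp.single i 1

/-- Equivalence, in the space of order `n`, of two sequences of finitely supported vectors:
`C⁻¹ ‖∑ aₘ yₘ‖ ≤ ‖∑ aₘ xₘ‖ ≤ C ‖∑ aₘ yₘ‖` for all finitely supported scalars `(aₘ)`. -/
def Equiv (n : ℕ) (x y : ℕ → C00) : Prop :=
  ∃ C : ℝ, 1 ≤ C ∧ ∀ a : ℕ →₀ ℝ,
    C⁻¹ * nrm n (∑ m ∈ a.support, a m • y m) ≤ nrm n (∑ m ∈ a.support, a m • x m) ∧
    nrm n (∑ m ∈ a.support, a m • x m) ≤ C * nrm n (∑ m ∈ a.support, a m • y m)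

end Pool.Agent.R269.SM
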