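import Pool.Agent.R269.SMUpper

/-!
# The one step estimates
-/

set_option autoImplicit false

namespace Pool.Agent.R269.SM

/-- all members of the large norming set act on `z` with value at most `B` -/
def Bd (k : ℕ) (B : ℝ) (z : C00) : Prop := ∀ h ∈ WC k, act h z ≤ B

/-- sums of averages with starting value at most `s` are nearly inactive on `z` -/
def Tame (k s : ℕ) (c η : ℝ) (z : C00) : Prop :=
  ∀ s' ≤ s, ∀ (p : ℕ × C00) (L : List (ℕ × C00)), Sg (WC k) k s' (p :: L) →
    act (fn (p :: L)) z ≤ c / p.1 + η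

theorem fn_abs_le {k s : ℕ} {p : ℕ × C00} {L : List (ℕ × C00)}
    (h : Sg (WC k) k s (p :: L)) (i : ℕ) : |fn (p :: L) i| ≤ 1 / (p.1 : ℝ) := by
  have hp2 : 2 ≤ p.1 := (h.avg p List.mem_cons_self).1
  have hp0 : (0 : ℝ) < p.1 := by exact_mod_cast (by omega : 0 < p.1)
  refine list_sum_abs_le (pairwise_snd h.bef) (by positivity) ?_ i
  intro f hf i
  obtain ⟨q, hq, rfl⟩ := mem_snd hf
  refine (((h.avg q hq).nice fun f hf => WC_nice hf).2 i).trans ?_
  exact one_div_le_one_div_of_le hp0 (by exact_mod_cast h.le_head q hq)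

/-- Data for one step of the construction. -/
structure Step (k : ℕ) (x : C00) (w : ℕ → C00) (lam : ℕ → ℝ) (M : ℕ → ℕ) (Q : Finset ℕ)
    (B κ : ℝ) : Prop where
  l1x : l1 x ≤ 1
  B1 : 1 ≤ B
  κ0 : 0 ≤ κ
  lam0 : ∀ q, 0 ≤ lam q
  bef : ∀ q q', q < q' → Bef (w q) (w q')
  M1 : ∀ q, ∀ a ∈ (w q).support, a ≤ M q
  M2 : ∀ q q', q < q' → ∀ a ∈ (w q').support, M q < a
  bd : ∀ q ∈ Q, Bd k B (w q)
  cap : ∀ G ⊆ Q, Cov k (G.image M) → ∑ q ∈ G, lam q ≤ κ
  lamκ : ∀ q ∈ Q, lam q ≤ κ
  sum : ∑ q ∈ Q, lam q ≤ 1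
  xw : ∀ q ∈ Q, Bef x (w q)

theorem act_v_le {lam : ℕ → ℝ} (h0 : ∀ q, 0 ≤ lam q) (w : ℕ → C00) (Q : Finset ℕ) (h : C00) :
    act h (∑ q ∈ Q, lam q • w q) ≤ ∑ q ∈ Q, lam q * act h (w q) := by
  refine (act_sum_right_le Q h _).trans (le_of_eq ?_)
  refine Finset.sum_congr rfl fun q _ => ?_
  rw [act_smul_right, abs_of_nonneg (h0 q)]

variable {k : ℕ} {x : C00} {w : ℕ → C00} {lam : ℕ → ℝ} {M : ℕ → ℕ} {Q : Finset ℕ} {B κ : ℝ}

theorem Step.v_le (S : Step k x w lam M Q B κ) {h : C00} (hh : h ∈ WC k) :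
    act h (∑ q ∈ Q, lam q • w q) ≤ B := by
  refine (act_v_le S.lam0 w Q h).trans ?_
  have hB : 0 ≤ B := by linarith [S.B1]
  calc ∑ q ∈ Q, lam q * act h (w q) ≤ ∑ q ∈ Q, lam q * B :=
        Finset.sum_le_sum fun q hq => mul_le_mul_of_nonneg_left (S.bd q hq h hh) (S.lam0 q)
    _ = (∑ q ∈ Q, lam q) * B := by rw [Finset.sum_mul]
    _ ≤ 1 * B := mul_le_mul_of_nonneg_right S.sum hB
    _ = B := one_mul _

theorem Step.avg (S : Step k x w lam M Q B κ) {l : ℕ} {α : C00} (hα : IsAvg (WC k) l α) :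
    act α (x + ∑ q ∈ Q, lam q • w q) ≤ (1 + B) / l + B * κ := by
  have hB : 0 ≤ B := by linarith [S.B1]
  have hl2 := hα.1
  have hl : (0 : ℝ) < l := by exact_mod_cast (by omega : 0 < l)
  have h1 : act α x ≤ 1 / (l : ℝ) := by
    refine (act_le_l1 (hα.nice fun f hf => WC_nice hf).2 x).trans ?_
    calc 1 / (l : ℝ) * l1 x ≤ 1 / (l : ℝ) * 1 := mul_le_mul_of_nonneg_left S.l1x (by positivity)
      _ = 1 / (l : ℝ) := mul_one _
  have h2 := lemmaA hB S.κ0 S.lam0 S.bef hα Q (fun h hh q hq => S.bd q hq h hh) S.lamκ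
  have h3 := (act_v_le S.lam0 w Q α).trans h2
  have h4 : B * (1 / (l : ℝ) * ∑ q ∈ Q, lam q + κ) ≤ B * (1 / (l : ℝ) * 1 + κ) := by
    refine mul_le_mul_of_nonneg_left (add_le_add ?_ le_rfl) hB
    exact mul_le_mul_of_nonneg_left S.sum (by positivity)
  calc _ ≤ 1 / (l : ℝ) + B * (1 / (l : ℝ) * 1 + κ) :=
        (act_add_right_le _ _ _).trans (add_le_add h1 (h3.trans h4))
    _ = _ := by ring

theorem Step.tame (S : Step k x w lam M Q B κ) (s : ℕ) :
    Tame k s (1 + B) (2 * B * s * κ) (x + ∑ q ∈ Q, lam q • w q) := by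
  intro s' hs' p L hL
  have hB : 0 ≤ B := by linarith [S.B1]
  have hp2 : 2 ≤ p.1 := (hL.avg p List.mem_cons_self).1
  have hp0 : (0 : ℝ) < p.1 := by exact_mod_cast (by omega : 0 < p.1)
  have h1 : act (fn (p :: L)) x ≤ 1 / (p.1 : ℝ) := by
    refine (act_le_l1 (fn_abs_le hL) x).trans ?_
    calc 1 / (p.1 : ℝ) * l1 x ≤ 1 / (p.1 : ℝ) * 1 :=
          mul_le_mul_of_nonneg_left S.l1x (by positivity)
      _ = 1 / (p.1 : ℝ) := mul_one _
  have h2 := lemmaB hL hB S.κ0 S.lam0 S.bef Q S.M1 S.M2 (fun h hh q hq => S.bd q hq h hh)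
    S.cap S.sum
  have h3 := (act_v_le S.lam0 w Q (fn (p :: L))).trans h2
  have h4 : (s' : ℝ) ≤ s := by exact_mod_cast hs'
  have h5 : B * (1 / (p.1 : ℝ) + 2 * s' * κ) ≤ B * (1 / (p.1 : ℝ) + 2 * s * κ) := by
    refine mul_le_mul_of_nonneg_left (add_le_add le_rfl ?_) hB
    exact mul_le_mul_of_nonneg_right (by linarith) S.κ0
  calc _ ≤ 1 / (p.1 : ℝ) + B * (1 / (p.1 : ℝ) + 2 * s * κ) :=
        (act_add_right_le _ _ _).trans (add_le_add h1 (h3.trans h5))
    _ = _ := by ring

theorem Step.bound (S : Step k x w lam M Q B κ) {P m0 : ℕ} {ε E : ℝ} (hm0 : 0 < m0)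
    (hm : ∀ a ∈ (x + ∑ q ∈ Q, lam q • w q).support, m0 ≤ a)
    (htail : ∑ i ∈ x.support.filter (P ≤ ·), |x i| ≤ ε) (hεE : ε ≤ E) (hE : 0 ≤ E)
    (hbig : (1 + B) / 2 + B * κ + ((1 + B) / m0 + 2 * B * P * κ) ≤ B + E) :
    Bd k (B + E) (x + ∑ q ∈ Q, lam q • w q) := by
  intro h hh
  have hB1 := S.B1
  have hB : 0 ≤ B := by linarith
  have hκ := S.κ0
  have hm0' : (0 : ℝ) < m0 := by exact_mod_cast hm0
  have hx0 : 0 ≤ act h x := act_nonneg _ _
  have hvle := S.v_le hh
  have havg : ∀ l α, IsAvg (WC k) l α →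
      act α (x + ∑ q ∈ Q, lam q • w q) ≤ (1 + B) / 2 + B * κ := by
    intro l α hα
    refine (S.avg hα).trans (add_le_add ?_ le_rfl)
    have hl2 : (2 : ℝ) ≤ l := by exact_mod_cast hα.1
    exact div_le_div_of_nonneg_left (by linarith) (by norm_num) hl2
  obtain ⟨i, hi, hu⟩ | ⟨l, hα⟩ | hsch := WW_cases hh
  · -- unit vectors
    refine (act_add_right_le _ _ _).trans ?_
    by_cases hmx : Meets h x
    · have hsupp : h.support ⊆ {i} := by
        obtain rfl | rfl := hu <;> exact Finsupp.support_single_subset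
      have hnv : ∀ q ∈ Q, ¬ Meets h (w q) := by
        rintro q hq ⟨a, ha, haw⟩
        obtain ⟨b, hb, hbx⟩ := hmx
        have h1 := Finset.mem_singleton.1 (hsupp ha)
        have h2 := Finset.mem_singleton.1 (hsupp hb)
        have := S.xw q hq b hbx a haw
        omega
      have hv0 : act h (∑ q ∈ Q, lam q • w q) ≤ 0 := by
        refine (act_v_le S.lam0 w Q h).trans (le_of_eq ?_)
        refine Finset.sum_eq_zero fun q hq => ?_
        rw [act_eq_zero (hnv q hq), mul_zero]
      have hx1 : act h x ≤ 1 := by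
        refine (act_le_l1 (WC_nice hh).2.1 x).trans ?_
        rw [one_mul]
        exact S.l1x
      linarith
    · rw [act_eq_zero hmx]
      linarith
  · have hmain : 0 ≤ (1 + B) / m0 + 2 * B * P * κ := by positivity
    exact (havg l h hα).trans (by linarith)
  · obtain ⟨s', L, hne, hL, rfl⟩ := isSch_sg hsch
    by_cases hsP : P ≤ s'
    · -- late start
      have h1 : act (fn L) x ≤ ε := by
        refine le_trans ?_ htail
        rw [act_eq_of_subset' (Finset.Subset.refl _), Finset.sum_filter]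
        refine Finset.sum_le_sum fun i _ => ?_
        split_ifs with hi
        · calc |fn L i| * |x i| ≤ 1 * |x i| :=
                mul_le_mul_of_nonneg_right ((WC_nice hh).2.1 i) (abs_nonneg _)
            _ = |x i| := one_mul _
        · have : fn L i = 0 := by
            by_contra hne'
            obtain ⟨f, hf, hfi⟩ := mem_support_list (Finsupp.mem_support_iff.2 hne')
            obtain ⟨p, hp, rfl⟩ := mem_snd hf
            have := hL.low p hp i hfi
            omega
          rw [this, abs_zero, zero_mul]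
      exact (act_add_right_le _ _ _).trans (by linarith)
    · -- early start
      have hPs : s' ≤ P := by omega
      have key : ∀ L : List (ℕ × C00), Sg (WC k) k s' L →
          act (fn L) (x + ∑ q ∈ Q, lam q • w q)
            ≤ (1 + B) / 2 + B * κ + ((1 + B) / m0 + 2 * B * P * κ) := by
        intro L
        induction L with
        | nil =>
          intro _
          have : fn [] = 0 := rfl
          rw [this, act_zero_left]
          positivity
        | cons p L ih =>
          intro hL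
          rw [fn_cons]
          refine (act_add_left_le _ _ _).trans ?_
          by_cases hmz : Meets p.2 (x + ∑ q ∈ Q, lam q • w q)
          · obtain ⟨a, ha, haz⟩ := hmz
            have h1 := havg p.1 p.2 (hL.avg p List.mem_cons_self)
            have h2 : act (fn L) (x + ∑ q ∈ Q, lam q • w q)
                ≤ (1 + B) / m0 + 2 * B * P * κ := by
              cases L with
              | nil =>
                have : fn [] = 0 := rfl
                rw [this, act_zero_left]
                positivity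
              | cons p1 L1 =>
                refine (S.tame P s' hPs p1 L1 hL.tail).trans ?_
                refine add_le_add ?_ le_rfl
                have hsz := hL.size
                rw [List.pairwise_cons] at hsz
                have h3 : a < p1.1 := (hsz.1 p1 List.mem_cons_self).2 a ha
                have h4 : m0 ≤ a := hm a haz
                have h5 : (m0 : ℝ) ≤ p1.1 := by exact_mod_cast (by omega : m0 ≤ p1.1)
                exact div_le_div_of_nonneg_left (by linarith) hm0' h5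
            linarith
          · rw [act_eq_zero hmz, zero_add]
            exact ih hL.tail
      exact (key L hL).trans hbig

end Pool.Agent.R269.SM
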