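import Pool.Agent.R269.SMStep

/-!
# Sums of few vectors
-/

set_option autoImplicit false

namespace Pool.Agent.R269.SM

/-- Data for a sum of `N` vectors. -/
structure CData (k N : ℕ) (z : ℕ → C00) (m S : ℕ → ℕ) (B c η : ℝ) (ηr : ℕ → ℝ) : Prop where
  B0 : 0 ≤ B
  c0 : 0 ≤ c
  η0 : 0 ≤ η
  low : ∀ r, ∀ a ∈ (z r).support, m r ≤ a
  up : ∀ r, ∀ a ∈ (z r).support, a ≤ S r
  mS : ∀ r r', r < r' → S r < m r'
  m1 : ∀ r, 0 < m r
  bd : ∀ r < N, Bd k B (z r)
  tame : ∀ r < N, ∀ r' < r, Tame k (S r') c (ηr r) (z r)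
  small : ∀ r < N, N * c / m r + ∑ j ∈ Finset.Ico (r + 1) N, ηr j ≤ η * (1 / 4) ^ r
  ηr0 : ∀ r, 0 ≤ ηr r

/-- the action on the tail of the sum -/
noncomputable def AA (N : ℕ) (z : ℕ → C00) (h : C00) (r0 : ℕ) : ℝ :=
  ∑ r ∈ Finset.Ico r0 N, act h (z r)

variable {k N : ℕ} {z : ℕ → C00} {m S : ℕ → ℕ} {B c η : ℝ} {ηr : ℕ → ℝ}

theorem CData.single (D : CData k N z m S B c η ηr) {h : C00} (hh : h ∈ WC k) {r0 r1 : ℕ}
    (h1 : ∀ r ∈ Finset.Ico r0 N, r ≠ r1 → ¬ Meets h (z r)) : AA N z h r0 ≤ B := by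
  unfold AA
  by_cases hr : r1 ∈ Finset.Ico r0 N
  · rw [Finset.sum_eq_single_of_mem r1 hr fun r hr' hne => act_eq_zero (h1 r hr' hne)]
    exact D.bd r1 (Finset.mem_Ico.1 hr).2 h hh
  · rw [Finset.sum_eq_zero]
    · exact D.B0
    · intro r hr'
      refine act_eq_zero (h1 r hr' ?_)
      rintro rfl
      exact hr hr'

/-- vectors before a point of a later vector are not met by functionals after this point -/
theorem CData.after (D : CData k N z m S B c η ηr) {a r r' : ℕ} (ha : a ∈ (z r').support)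
    (hr : r < r') {f : C00} (hf : ∀ b ∈ f.support, a < b) : ¬ Meets f (z r) := by
  rintro ⟨b, hb, hbz⟩
  have h1 := hf b hb
  have h2 := D.up r b hbz
  have h3 := D.mS r r' hr
  have h4 := D.low r' a ha
  omega

theorem exists_first {N : ℕ} {z : ℕ → C00} {h : C00} {r0 : ℕ}
    (hm : ∃ r ∈ Finset.Ico r0 N, Meets h (z r)) :
    ∃ r1 ∈ Finset.Ico r0 N, Meets h (z r1) ∧ ∀ r ∈ Finset.Ico r0 N, r < r1 → ¬ Meets h (z r) := by
  classical
  obtain ⟨r, hr, hrm⟩ := hm
  obtain ⟨r1, hr1, hmin⟩ := Finset.exists_min_image ((Finset.Ico r0 N).filter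
    fun r => Meets h (z r)) id ⟨r, Finset.mem_filter.2 ⟨hr, hrm⟩⟩
  rw [Finset.mem_filter] at hr1
  refine ⟨r1, hr1.1, hr1.2, fun r hr hlt hmr => ?_⟩
  have := hmin r (Finset.mem_filter.2 ⟨hr, hmr⟩)
  simp only [id] at this
  omega

theorem AA_eq_of_first {N : ℕ} {z : ℕ → C00} {h : C00} {r0 r1 : ℕ} (h01 : r0 ≤ r1)
    (h1 : ∀ r ∈ Finset.Ico r0 N, r < r1 → ¬ Meets h (z r)) : AA N z h r0 = AA N z h r1 := by
  unfold AA
  symm
  refine Finset.sum_subset (fun r hr => ?_) fun r hr hr' => ?_
  · rw [Finset.mem_Ico] at hr ⊢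
    omega
  · refine act_eq_zero (h1 r hr ?_)
    rw [Finset.mem_Ico] at hr hr'
    omega

theorem AA_nonneg (N : ℕ) (z : ℕ → C00) (h : C00) (r0 : ℕ) : 0 ≤ AA N z h r0 :=
  Finset.sum_nonneg fun _ _ => act_nonneg _ _

theorem quarter_anti {r r' : ℕ} (h : r ≤ r') : ((1 : ℝ) / 4) ^ r' ≤ (1 / 4) ^ r :=
  pow_le_pow_of_le_one (by norm_num) (by norm_num) h

theorem CData.list (D : CData k N z m S B c η ηr) {V : Set C00} (hVW : V ⊆ WC k)
    (hV : ∀ h ∈ V, ∀ r0, AA N z h r0 ≤ B + 4 * η * (1 / 4) ^ r0) :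
    ∀ L : List C00, (∀ f ∈ L, f ∈ V) → L.Pairwise Bef → ∀ r0,
      (L.map fun f => AA N z f r0).sum ≤ L.length * B + 16 / 3 * η * (1 / 4) ^ r0 := by
  have hη := D.η0
  intro L
  induction L with
  | nil =>
    intro _ _ r0
    simp only [List.map_nil, List.sum_nil, List.length_nil, Nat.cast_zero, zero_mul, zero_add]
    positivity
  | cons h L ih =>
    intro hL hP r0
    rw [List.pairwise_cons] at hP
    rw [List.map_cons, List.sum_cons, List.length_cons]
    have hL' : ∀ f ∈ L, f ∈ V := fun f hf => hL f (List.mem_cons_of_mem _ hf)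
    have hh : h ∈ V := hL h List.mem_cons_self
    by_cases hm : ∃ r ∈ Finset.Ico r0 N, Meets h (z r)
    · obtain ⟨r1, hr1, hm1, hfirst⟩ := exists_first hm
      rw [Finset.mem_Ico] at hr1
      by_cases h2 : ∃ r ∈ Finset.Ico (r1 + 1) N, Meets h (z r)
      · obtain ⟨r2, hr2, a, ha, haz⟩ := h2
        rw [Finset.mem_Ico] at hr2
        have e1 : AA N z h r0 ≤ B + 4 * η * (1 / 4) ^ r1 := by
          rw [AA_eq_of_first hr1.1 hfirst]
          exact hV h hh r1
        have e2 : (L.map fun f => AA N z f r0).sum = (L.map fun f => AA N z f (r1 + 1)).sum := by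
          congr 1
          refine List.map_congr_left fun f hf => ?_
          refine AA_eq_of_first (by omega) fun r _ hlt => ?_
          exact D.after haz (by omega) fun b hb => hP.1 f hf a ha b hb
        have e3 := ih hL' hP.2 (r1 + 1)
        rw [e2]
        have e4 : 16 / 3 * η * (1 / 4) ^ (r1 + 1) + 4 * η * (1 / 4) ^ r1
            = 16 / 3 * η * (1 / 4) ^ r1 := by
          rw [pow_succ]
          ring
        have e5 : 16 / 3 * η * (1 / 4) ^ r1 ≤ 16 / 3 * η * (1 / 4) ^ r0 :=
          mul_le_mul_of_nonneg_left (quarter_anti hr1.1) (by positivity)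
        push_cast
        linarith
      · have e1 : AA N z h r0 ≤ B := by
          refine D.single (hVW hh) (r1 := r1) fun r hr hne hmr => ?_
          obtain hlt | hgt := lt_or_gt_of_ne hne
          · exact hfirst r hr hlt hmr
          · rw [Finset.mem_Ico] at hr
            exact h2 ⟨r, Finset.mem_Ico.2 ⟨by omega, hr.2⟩, hmr⟩
        have e3 := ih hL' hP.2 r0
        push_cast
        linarith
    · have e1 : AA N z h r0 ≤ B := by
        refine D.single (hVW hh) (r1 := 0) fun r hr _ hmr => ?_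
        exact hm ⟨r, hr, hmr⟩
      have e3 := ih hL' hP.2 r0
      push_cast
      linarith

theorem CData.avg (D : CData k N z m S B c η ηr) {V : Set C00} (hVW : V ⊆ WC k)
    (hV : ∀ h ∈ V, ∀ r0, AA N z h r0 ≤ B + 4 * η * (1 / 4) ^ r0) {l : ℕ} {α : C00}
    (hα : IsAvg V l α) (r0 : ℕ) : AA N z α r0 ≤ B + 8 / 3 * η * (1 / 4) ^ r0 := by
  have hη := D.η0
  have hB := D.B0
  have hl2 : 2 ≤ l := hα.1
  have hl2' : (2 : ℝ) ≤ l := by exact_mod_cast hl2
  have hl : (0 : ℝ) < l := by linarith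
  obtain ⟨L, h1, h2, h3, h4, -⟩ := act_avg_le hα
  have e1 : AA N z α r0 ≤ 1 / (l : ℝ) * (L.map fun f => AA N z f r0).sum := by
    have e2 : (L.map fun f => AA N z f r0).sum
        = ∑ r ∈ Finset.Ico r0 N, (L.map fun f => act f (z r)).sum := by
      clear h1 h2 h3 h4
      unfold AA
      induction L with
      | nil => simp
      | cons f L ih =>
        rw [List.map_cons, List.sum_cons, ih, ← Finset.sum_add_distrib]
        refine Finset.sum_congr rfl fun q _ => ?_
        rw [List.map_cons, List.sum_cons]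
    rw [e2, Finset.mul_sum]
    exact Finset.sum_le_sum fun q _ => h4 _
  have e3 := D.list hVW hV L h2 h3 r0
  have e4 : (L.length : ℝ) ≤ l := by exact_mod_cast h1
  have e5 : (L.length : ℝ) * B + 16 / 3 * η * (1 / 4) ^ r0 ≤ l * B + 16 / 3 * η * (1 / 4) ^ r0 :=
    add_le_add (mul_le_mul_of_nonneg_right e4 hB) le_rfl
  have e6 : 1 / (l : ℝ) * (16 / 3 * η * (1 / 4) ^ r0) ≤ 8 / 3 * η * (1 / 4) ^ r0 := by
    have h1 : 1 / (l : ℝ) ≤ 1 / 2 := one_div_le_one_div_of_le (by norm_num) hl2'
    calc _ ≤ 1 / 2 * (16 / 3 * η * (1 / 4) ^ r0) := mul_le_mul_of_nonneg_right h1 (by positivity)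
      _ = _ := by ring
  calc _ ≤ 1 / (l : ℝ) * (l * B + 16 / 3 * η * (1 / 4) ^ r0) :=
        e1.trans (mul_le_mul_of_nonneg_left (e3.trans e5) (by positivity))
    _ = B + 1 / (l : ℝ) * (16 / 3 * η * (1 / 4) ^ r0) := by field_simp
    _ ≤ _ := add_le_add le_rfl e6

theorem CData.sch (D : CData k N z m S B c η ηr) {V : Set C00} (hVW : V ⊆ WC k)
    (hV : ∀ h ∈ V, ∀ r0, AA N z h r0 ≤ B + 4 * η * (1 / 4) ^ r0) {s : ℕ} :
    ∀ L : List (ℕ × C00), Sg V k s L → ∀ r0, AA N z (fn L) r0 ≤ B + 4 * η * (1 / 4) ^ r0 := by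
  have hη := D.η0
  have hB := D.B0
  have hc := D.c0
  intro L
  induction L with
  | nil =>
    intro _ r0
    have h1 : fn [] = 0 := rfl
    have h2 : AA N z 0 r0 = 0 := Finset.sum_eq_zero fun r _ => act_zero_left _
    rw [h1, h2]
    positivity
  | cons p L ih =>
    intro hL r0
    have hadd : ∀ r0, AA N z (fn (p :: L)) r0 ≤ AA N z p.2 r0 + AA N z (fn L) r0 := by
      intro r0
      rw [fn_cons]
      unfold AA
      rw [← Finset.sum_add_distrib]
      exact Finset.sum_le_sum fun r _ => act_add_left_le _ _ _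
    have hbef := hL.bef
    have hsz := hL.size
    rw [List.pairwise_cons] at hbef hsz
    have hLafter : ∀ a ∈ p.2.support, ∀ b ∈ (fn L).support, a < b := by
      intro a ha b hb
      obtain ⟨f, hf, hfb⟩ := mem_support_list hb
      obtain ⟨q, hq, rfl⟩ := mem_snd hf
      exact hbef.1 q hq a ha b hfb
    by_cases hm : ∃ r ∈ Finset.Ico r0 N, Meets p.2 (z r)
    · obtain ⟨r1, hr1, ⟨a, ha, haz⟩, hfirst⟩ := exists_first hm
      rw [Finset.mem_Ico] at hr1
      have hfirst' : ∀ r, r < r1 → ¬ Meets (fn L) (z r) := fun r hlt =>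
        D.after haz hlt fun b hb => hLafter a ha b hb
      -- the tail
      have hT : AA N z (fn L) (r1 + 1) ≤ η * (1 / 4) ^ r1 := by
        refine le_trans ?_ (D.small r1 hr1.2)
        have hm1 : (0 : ℝ) < m r1 := by exact_mod_cast D.m1 r1
        cases L with
        | nil =>
          have h1 : fn [] = 0 := rfl
          have h2 : AA N z 0 (r1 + 1) = 0 := Finset.sum_eq_zero fun r _ => act_zero_left _
          rw [h1, h2]
          have := Finset.sum_nonneg (s := Finset.Ico (r1 + 1) N) fun r _ => D.ηr0 r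
          positivity
        | cons p1 L1 =>
          have hsS : s ≤ S r1 := (hL.low p List.mem_cons_self a ha).trans (D.up r1 a haz)
          have hp1 : m r1 ≤ p1.1 := by
            have h3 := (hsz.1 p1 List.mem_cons_self).2 a ha
            have h4 := D.low r1 a haz
            omega
          have hp1' : (m r1 : ℝ) ≤ p1.1 := by exact_mod_cast hp1
          have h5 : ∀ r ∈ Finset.Ico (r1 + 1) N, act (fn (p1 :: L1)) (z r) ≤ c / m r1 + ηr r := by
            intro r hr
            rw [Finset.mem_Ico] at hr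
            refine (D.tame r hr.2 r1 (by omega) s hsS p1 L1 (hL.tail.mono hVW)).trans ?_
            exact add_le_add (div_le_div_of_nonneg_left hc hm1 hp1') le_rfl
          unfold AA
          calc _ ≤ ∑ r ∈ Finset.Ico (r1 + 1) N, (c / m r1 + ηr r) := Finset.sum_le_sum h5
            _ = (Finset.Ico (r1 + 1) N).card * (c / m r1) + ∑ r ∈ Finset.Ico (r1 + 1) N, ηr r := by
                rw [Finset.sum_add_distrib, Finset.sum_const, nsmul_eq_mul]
            _ ≤ N * c / m r1 + ∑ r ∈ Finset.Ico (r1 + 1) N, ηr r := by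
                refine add_le_add ?_ le_rfl
                rw [mul_div_assoc]
                refine mul_le_mul_of_nonneg_right ?_ (by positivity)
                rw [Nat.card_Ico]
                exact_mod_cast Nat.sub_le _ _
      have e5 : (1 / 4 : ℝ) ^ r1 ≤ (1 / 4) ^ r0 := quarter_anti hr1.1
      have e6 : (0 : ℝ) ≤ (1 / 4) ^ r1 := by positivity
      by_cases h2 : ∃ r ∈ Finset.Ico (r1 + 1) N, Meets p.2 (z r)
      · obtain ⟨r2, hr2, a', ha', haz'⟩ := h2
        rw [Finset.mem_Ico] at hr2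
        have e1 : AA N z p.2 r0 ≤ B + 8 / 3 * η * (1 / 4) ^ r1 := by
          rw [AA_eq_of_first hr1.1 hfirst]
          exact D.avg hVW hV (hL.avg p List.mem_cons_self) r1
        have e2 : AA N z (fn L) r0 = AA N z (fn L) (r1 + 1) := by
          refine AA_eq_of_first (by omega) fun r _ hlt => ?_
          exact D.after haz' (by omega) fun b hb => hLafter a' ha' b hb
        have e3 := hadd r0
        rw [e2] at e3
        nlinarith
      · have e1 : ∀ r ∈ Finset.Ico (r1 + 1) N, act (fn (p :: L)) (z r) ≤ act (fn L) (z r) := by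
          intro r hr
          rw [fn_cons]
          refine (act_add_left_le _ _ _).trans ?_
          rw [act_eq_zero fun hmr => h2 ⟨r, hr, hmr⟩, zero_add]
        have e2 : AA N z (fn (p :: L)) r0 = AA N z (fn (p :: L)) r1 := by
          refine AA_eq_of_first hr1.1 fun r hr hlt => ?_
          rintro ⟨b, hb, hbz⟩
          rw [fn_cons] at hb
          have hb' := Finsupp.support_add hb
          rw [Finset.mem_union] at hb'
          obtain hb' | hb' := hb'
          · exact hfirst r hr hlt ⟨b, hb', hbz⟩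
          · exact hfirst' r hlt ⟨b, hb', hbz⟩
        have e3 : AA N z (fn (p :: L)) r1
            = act (fn (p :: L)) (z r1) + AA N z (fn (p :: L)) (r1 + 1) := by
          unfold AA
          exact Finset.sum_eq_sum_Ico_succ_bot hr1.2 _
        have e4 : AA N z (fn (p :: L)) (r1 + 1) ≤ AA N z (fn L) (r1 + 1) :=
          Finset.sum_le_sum e1
        have e7 : act (fn (p :: L)) (z r1) ≤ B :=
          D.bd r1 hr1.2 _ ((hL.mono hVW).mem (by simp))
        rw [e2, e3]
        nlinarith
    · have e1 : AA N z p.2 r0 = 0 :=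
        Finset.sum_eq_zero fun r hr => act_eq_zero fun hmr => hm ⟨r, hr, hmr⟩
      have e3 := hadd r0
      rw [e1, zero_add] at e3
      exact e3.trans (ih hL.tail r0)

theorem CData.level (D : CData k N z m S B c η ηr) (n : ℕ) :
    ∀ h ∈ Wlev {F | Cov (k + 1) F} n, ∀ r0, AA N z h r0 ≤ B + 4 * η * (1 / 4) ^ r0 := by
  have hη := D.η0
  have hB := D.B0
  induction n with
  | zero =>
    rintro h hh r0
    have hW : h ∈ WC k := Wlev_subset _ 0 hh
    obtain ⟨i, hi, hu⟩ := hh
    have hsupp : h.support ⊆ {i} := by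
      obtain rfl | rfl := hu <;> exact Finsupp.support_single_subset
    have h0 : (0 : ℝ) ≤ 4 * η * (1 / 4) ^ r0 := by positivity
    by_cases hm : ∃ r ∈ Finset.Ico r0 N, Meets h (z r)
    · obtain ⟨r1, hr1, a, ha, haz⟩ := hm
      have : AA N z h r0 ≤ B := by
        refine D.single hW (r1 := r1) fun r hr hne => ?_
        rintro ⟨b, hb, hbz⟩
        have e1 := Finset.mem_singleton.1 (hsupp ha)
        have e2 := Finset.mem_singleton.1 (hsupp hb)
        have u1 := D.up r b hbz
        have u2 := D.low r b hbz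
        have u3 := D.up r1 a haz
        have u4 := D.low r1 a haz
        obtain hlt | hgt := lt_or_gt_of_ne hne
        · have := D.mS r r1 hlt
          omega
        · have := D.mS r1 r hgt
          omega
      linarith
    · have : AA N z h r0 ≤ B :=
        D.single hW (r1 := 0) fun r hr _ hmr => hm ⟨r, hr, hmr⟩
      linarith
  | succ n ih =>
    rintro h ((hh | ⟨l, hh⟩) | hh) r0
    · exact ih h hh r0
    · refine (D.avg (Wlev_subset _ n) ih hh r0).trans ?_
      have : (0 : ℝ) ≤ η * (1 / 4) ^ r0 := by positivity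
      nlinarith
    · obtain ⟨s, L, -, hL, rfl⟩ := isSch_sg hh
      exact D.sch (Wlev_subset _ n) ih L hL r0

/-- Lemma D. -/
theorem CData.bound (D : CData k N z m S B c η ηr) :
    Bd k (B + 4 * η) (∑ r ∈ Finset.range N, z r) := by
  intro h hh
  obtain ⟨n, hn⟩ := Set.mem_iUnion.1 hh
  have h1 := D.level n h hn 0
  refine (act_sum_right_le _ _ _).trans ?_
  unfold AA at h1
  rw [Finset.range_eq_Ico]
  simpa using h1

end Pool.Agent.R269.SM
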