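import Pool.Agent.R269.SMFormula

/-!
# Uniqueness of the norm given by the implicit formula
-/

set_option autoImplicit false

namespace Pool.Agent.R269.SM

theorem restr_supp_sub (E : Finset ℕ) (x : C00) : (restr E x).support ⊆ x.support := by
  intro i hi
  rw [restr_eq] at hi
  exact (mem_support_res.1 hi).1

theorem restr_card_lt {E : Finset ℕ} {x : C00} (h : ¬ x.support ⊆ E) :
    (restr E x).support.card < x.support.card := by
  refine Finset.card_lt_card ⟨restr_supp_sub E x, fun h' => h fun i hi => ?_⟩
  have := h' hi
  rw [restr_eq] at this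
  exact_mod_cast (mem_support_res.1 this).2

theorem restr_self {E : Finset ℕ} {x : C00} (h : x.support ⊆ E) : restr E x = x := by
  ext i
  rw [restr_apply]
  split_ifs with hi
  · rfl
  · by_contra hne
    exact hi (h (Finsupp.mem_support_iff.2 (Ne.symm hne)))

theorem restr_disj {E : Finset ℕ} {x : C00} (h : ∀ i ∈ x.support, i ∉ E) : restr E x = 0 := by
  ext i
  rw [restr_apply]
  split_ifs with hi
  · by_contra hne
    exact h i (Finsupp.mem_support_iff.2 hne) hi
  · rfl

theorem restr_zero_apply {E : Finset ℕ} {x : C00} (h : x 0 = 0) : restr E x 0 = 0 := by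
  rw [restr_apply, h]
  split_ifs <;> rfl

/-- the set of values in `avgNorm` is bounded above for each function -/
theorem avgNorm_bdd' (N : C00 → ℝ) (j : ℕ) (y : C00) :
    BddAbove {r : ℝ | ∃ Fs : List (Finset ℕ), Fs.length ≤ j ∧
      Fs.Pairwise (fun F G => ∀ a ∈ F, ∀ b ∈ G, a < b) ∧
      r = 1 / (j : ℝ) * (Fs.map fun F => N (restr F y)).sum} := by
  classical
  obtain ⟨C, hC⟩ : ∃ C : ℝ, ∀ F : Finset ℕ, N (restr F y) ≤ C := by
    refine ⟨∑ F ∈ y.support.powerset, |N (restr F y)|, fun F => ?_⟩
    have h1 : restr F y = restr (F ∩ y.support) y := by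
      ext i
      rw [restr_apply, restr_apply]
      by_cases hi : i ∈ y.support
      · by_cases hF : i ∈ F
        · rw [if_pos hF, if_pos (Finset.mem_inter.2 ⟨hF, hi⟩)]
        · rw [if_neg hF, if_neg fun h => hF (Finset.mem_inter.1 h).1]
      · rw [Finsupp.notMem_support_iff.1 hi]
        split_ifs <;> rfl
    rw [h1]
    refine (le_abs_self _).trans ?_
    exact Finset.single_le_sum (f := fun F => |N (restr F y)|) (fun _ _ => abs_nonneg _)
      (Finset.mem_powerset.2 Finset.inter_subset_right)
  have hC0 : ∀ F : Finset ℕ, N (restr F y) ≤ |C| := fun F => (hC F).trans (le_abs_self _)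
  refine ⟨|C|, ?_⟩
  rintro r ⟨Fs, hl, -, rfl⟩
  have h2 : (Fs.map fun F => N (restr F y)).sum ≤ Fs.length * |C| := by
    clear hl
    induction Fs with
    | nil => simp
    | cons F Fs ih =>
      rw [List.map_cons, List.sum_cons, List.length_cons]
      have := hC0 F
      push_cast
      linarith
  rcases Nat.eq_zero_or_pos j with rfl | hj
  · simp
  · have hj0 : (0 : ℝ) < j := by exact_mod_cast hj
    rw [one_div_mul_eq_div, div_le_iff₀ hj0]
    have h3 : (Fs.length : ℝ) ≤ j := by exact_mod_cast hl
    have := mul_le_mul_of_nonneg_right h3 (abs_nonneg C)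
    linarith

theorem le_of_implicit {n : ℕ} {N : C00 → ℝ} (hN : ImplicitNorm n N) (m : ℕ) :
    ∀ f ∈ Wlev (Schreier n) m, ∀ x : C00, x 0 = 0 → ev f x ≤ N x := by
  classical
  have key : ∀ m, (∀ f ∈ Wlev (Schreier n) m, ∀ x : C00, x 0 = 0 → ev f x ≤ N x) →
      ∀ l α, IsAvg (Wlev (Schreier n) m) l α → ∀ E : Finset ℕ, α.support ⊆ E → ∀ x : C00,
        x 0 = 0 → ev α x ≤ avgNorm N l (restr E x) := by
    rintro m ih l α ⟨hj, L, h2, h3, h4, h5, rfl⟩ E hE x hx
    have hj0 : (0 : ℝ) < l := by exact_mod_cast (by omega : 0 < l)
    have hsub : ∀ f ∈ L, f.support ⊆ E := by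
      intro f hf i hi
      refine hE ?_
      rw [Finsupp.mem_support_iff, Finsupp.smul_apply, smul_eq_mul, list_sum_eq h5 hf hi]
      exact mul_ne_zero (by positivity) (Finsupp.mem_support_iff.1 hi)
    refine le_trans ?_ (le_csSup (avgNorm_bdd' N l _) ⟨L.map fun f => f.support, by simpa using h3,
      by rw [List.pairwise_map]; exact h5, rfl⟩)
    rw [ev_smul_left, ev_list, List.map_map]
    refine mul_le_mul_of_nonneg_left ?_ (by positivity)
    refine List.sum_le_sum fun f hf => ?_
    have h6 : ev f x = ev f (restr f.support (restr E x)) := by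
      unfold ev
      refine Finset.sum_congr rfl fun i hi => ?_
      rw [restr_apply, if_pos hi, restr_apply, if_pos (hsub f hf hi)]
    rw [h6]
    exact ih f (h4 f hf) _ (restr_zero_apply (restr_zero_apply hx))
  induction m with
  | zero =>
    rintro f ⟨i, hi, hu⟩ x hx
    have h1 : |x i| ≤ N x := (hN x hx).1 (Or.inl ⟨i, rfl⟩)
    rw [abs_le] at h1
    obtain rfl | rfl := hu
    · rw [ev_single, one_mul]
      exact h1.2
    · rw [ev_single]
      linarith [h1.1]
  | succ m ih =>
    rintro f hf x hx
    have hnice : ∀ l α, IsAvg (Wlev (Schreier n) m) l α → α.support.Nonempty ∧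
        ∀ i ∈ α.support, 1 ≤ i := fun l α hα =>
      ⟨(hα.nice fun f hf => Wlev_nice m f hf).1.1, (hα.nice fun f hf => Wlev_nice m f hf).1.2.2⟩
    obtain (hf | ⟨l, hα⟩) | hsch := hf
    · exact ih f hf x hx
    · have hne := (hnice l f hα).1
      have h1 : avgNorm N l (restr f.support x) ≤ N x := by
        refine (hN x hx).1 (Or.inr ⟨[(l, f.support)], ?_, by simp⟩)
        refine ⟨by simp, ?_, by simp, ?_, by simp⟩
        · intro p hp
          rw [List.mem_singleton] at hp
          rw [hp]
          exact ⟨hα.1, hne⟩
        · have h2 : (([(l, f.support)] : List (ℕ × Finset ℕ)).map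
              fun p => sInf (p.2 : Set ℕ)).toFinset = {minSupp f} := by simp [sInf_coe]
          rw [h2]
          exact schreier_single n ((hnice l f hα).2 _ (minSupp_mem hne))
      exact (key m ih l f hα _ (Finset.Subset.refl _) x hx).trans h1
    · obtain ⟨L, h1, h2, h3, h4, h5, rfl⟩ := hsch
      have hadm : Admissible n (L.map fun p => (p.1, p.2.support)) := by
        refine ⟨by simpa using h1, ?_, ?_, ?_, ?_⟩
        · intro q hq
          rw [List.mem_map] at hq
          obtain ⟨p, hp, rfl⟩ := hq
          exact ⟨(h2 p hp).1, (hnice _ _ (h2 p hp)).1⟩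
        · rw [List.pairwise_map]
          exact h3
        · rw [List.map_map]
          exact h4
        · rw [List.pairwise_map]
          exact h5
      have h6 : ((L.map fun p => (p.1, p.2.support)).map
          fun p => avgNorm N p.1 (restr p.2 x)).sum ≤ N x := (hN x hx).1 (Or.inr ⟨_, hadm, rfl⟩)
      refine le_trans ?_ h6
      rw [ev_list, List.map_map, List.map_map]
      refine List.sum_le_sum fun p hp => ?_
      exact key m ih _ _ (h2 p hp) _ (Finset.Subset.refl _) x hx

theorem list_sum_single {ι : Type} {L : List ι} (hnd : L.Nodup) {p0 : ι} (hp0 : p0 ∈ L)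
    (g : ι → ℝ) (h : ∀ p ∈ L, p ≠ p0 → g p = 0) : (L.map g).sum = g p0 := by
  classical
  rw [← List.sum_toFinset _ hnd]
  refine Finset.sum_eq_single_of_mem p0 (List.mem_toFinset.2 hp0) fun p hp hne => ?_
  exact h p (List.mem_toFinset.1 hp) hne

theorem avgNorm_congr {N N' : C00 → ℝ} {j : ℕ} {y : C00}
    (h : ∀ F : Finset ℕ, N (restr F y) = N' (restr F y)) : avgNorm N j y = avgNorm N' j y := by
  unfold avgNorm
  congr 1
  ext r
  constructor
  · rintro ⟨Fs, h1, h2, rfl⟩
    exact ⟨Fs, h1, h2, by simp only [h]⟩
  · rintro ⟨Fs, h1, h2, rfl⟩
    exact ⟨Fs, h1, h2, by simp only [h]⟩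

/-- The implicit formula determines the norm. -/
theorem implicit_unique {n : ℕ} {N : C00 → ℝ} (hN : ImplicitNorm n N) (hN0 : N 0 = 0) :
    ∀ x : C00, x 0 = 0 → N x = nrm n x := by
  classical
  have hge : ∀ x : C00, x 0 = 0 → nrm n x ≤ N x := by
    intro x hx
    refine nrm_le fun f hf => ?_
    obtain ⟨m, hm⟩ := Set.mem_iUnion.1 hf
    exact le_of_implicit hN m f hm x hx
  have hmain : ∀ c : ℕ, ∀ x : C00, x.support.card = c → x 0 = 0 → N x = nrm n x := by
    intro c
    induction c using Nat.strong_induction_on with
    | _ c ih =>
      intro x hc hx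
      have hsmall : ∀ E : Finset ℕ, ¬ x.support ⊆ E → N (restr E x) = nrm n (restr E x) := by
        intro E hE
        refine ih _ ?_ _ rfl (restr_zero_apply hx)
        rw [← hc]
        exact restr_card_lt hE
      by_cases hx0 : x = 0
      · rw [hx0, hN0]
        refine le_antisymm (nrm_nonneg n 0) (nrm_le fun f _ => ?_)
        simp [ev]
      have hxne : x.support.Nonempty := Finsupp.support_nonempty_iff.2 hx0
      have hNx : 0 ≤ N x := (nrm_nonneg n x).trans (hge x hx)
      have hub : ∀ r ∈ ({r : ℝ | ∃ i, r = |x i|} ∪ {r : ℝ | ∃ L, Admissible n L ∧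
          r = (L.map fun p => avgNorm N p.1 (restr p.2 x)).sum}), r ≤ max (nrm n x) (N x / 2) := by
        rintro r (⟨i, rfl⟩ | ⟨L, hL, rfl⟩)
        · exact ((nrm_implicit n x hx).1 (Or.inl ⟨i, rfl⟩)).trans (le_max_left _ _)
        · by_cases hcase : ∃ p0 ∈ L, x.support ⊆ p0.2
          · obtain ⟨p0, hp0, hsub⟩ := hcase
            obtain ⟨h1, h2, h3, h4, h5⟩ := hL
            have hnd : L.Nodup := by
              refine h5.imp ?_
              rintro p q ⟨h, -⟩ rfl
              exact lt_irrefl _ h
            have hav0 : ∀ j, avgNorm N j 0 = 0 := by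
              intro j
              unfold avgNorm
              have : {r : ℝ | ∃ Fs : List (Finset ℕ), Fs.length ≤ j ∧
                  Fs.Pairwise (fun F G => ∀ a ∈ F, ∀ b ∈ G, a < b) ∧
                  r = 1 / (j : ℝ) * (Fs.map fun F => N (restr F 0)).sum} = {0} := by
                have hz : ∀ F : Finset ℕ, N (restr F 0) = 0 := by
                  intro F
                  rw [restr_disj (by simp), hN0]
                ext r
                rw [Set.mem_singleton_iff]
                constructor
                · rintro ⟨Fs, -, -, rfl⟩
                  simp [hz]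
                · rintro rfl
                  exact ⟨[], by simp, List.Pairwise.nil, by simp⟩
              rw [this, csSup_singleton]
            rw [list_sum_single hnd hp0 _ (by
              intro p hp hne
              have h6 : restr p.2 x = 0 := by
                refine restr_disj fun i hi hip => ?_
                obtain h | h | h := list_pairwise_total h3 hp hp0
                · exact hne h
                · exact lt_irrefl _ (h i hip i (hsub hi))
                · exact lt_irrefl _ (h i (hsub hi) i hip)
              rw [h6, hav0])]
            rw [restr_self hsub]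
            refine csSup_le ⟨_, [], by simp, List.Pairwise.nil, rfl⟩ ?_
            rintro r ⟨Fs, hl, hp, rfl⟩
            have hj2 : 2 ≤ p0.1 := (h2 p0 hp0).1
            have hj0 : (0 : ℝ) < p0.1 := by exact_mod_cast (by omega : 0 < p0.1)
            by_cases hF : ∃ F0 ∈ Fs, x.support ⊆ F0
            · obtain ⟨F0, hF0, hFsub⟩ := hF
              have h7 : (Fs.map fun F => N (restr F x)).sum = N x := by
                have h8 : ∀ Fs : List (Finset ℕ),
                    Fs.Pairwise (fun F G => ∀ a ∈ F, ∀ b ∈ G, a < b) → F0 ∈ Fs →
                    (Fs.map fun F => N (restr F x)).sum = N x := by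
                  intro Fs
                  induction Fs with
                  | nil => intro _ h; simp at h
                  | cons F Fs ihF =>
                    intro hp hmem
                    rw [List.pairwise_cons] at hp
                    rw [List.map_cons, List.sum_cons]
                    rw [List.mem_cons] at hmem
                    obtain rfl | hmem := hmem
                    · rw [restr_self hFsub]
                      have h9 : (Fs.map fun F => N (restr F x)).sum = 0 := by
                        refine List.sum_eq_zero ?_
                        intro r hr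
                        rw [List.mem_map] at hr
                        obtain ⟨F, hF, rfl⟩ := hr
                        rw [restr_disj, hN0]
                        intro i hi hiF
                        exact lt_irrefl _ (hp.1 F hF i (hFsub hi) i hiF)
                      rw [h9, add_zero]
                    · rw [ihF hp.2 hmem, restr_disj, hN0, zero_add]
                      intro i hi hiF
                      exact lt_irrefl _ (hp.1 F0 hmem i hiF i (hFsub hi))
                exact h8 Fs hp hF0
              rw [h7]
              refine le_trans ?_ (le_max_right _ _)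
              rw [one_div_mul_eq_div]
              exact div_le_div_of_nonneg_left hNx (by norm_num) (by exact_mod_cast hj2)
            · push Not at hF
              have h7 : (Fs.map fun F => N (restr F x)).sum
                  = (Fs.map fun F => nrm n (restr F x)).sum := by
                congr 1
                exact List.map_congr_left fun F hF' => hsmall F (hF F hF')
              rw [h7]
              exact (avg_elem_le hj2 (nrm_nonneg n x) (fun α hα => le_nrm (avg_mem hα) x)
                hl hp).trans (le_max_left _ _)
          · push Not at hcase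
            have h7 : (L.map fun p => avgNorm N p.1 (restr p.2 x)).sum
                = (L.map fun p => avgNorm (nrm n) p.1 (restr p.2 x)).sum := by
              congr 1
              refine List.map_congr_left fun p hp => avgNorm_congr fun F => ?_
              refine ih _ ?_ _ rfl (restr_zero_apply (restr_zero_apply hx))
              rw [← hc]
              exact (Finset.card_le_card (restr_supp_sub F _)).trans_lt
                (restr_card_lt (hcase p hp))
            rw [h7]
            exact ((nrm_implicit n x hx).1 (Or.inr ⟨L, hL, rfl⟩)).trans (le_max_left _ _)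
      have hle : N x ≤ max (nrm n x) (N x / 2) := (hN x hx).2 hub
      refine le_antisymm ?_ (hge x hx)
      rcases le_max_iff.1 hle with h | h
      · exact h
      · have := nrm_nonneg n x
        linarith
  exact fun x hx => hmain _ x rfl hx

end Pool.Agent.R269.SM
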