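import Pool.Agent.R269.SMDefs

/-!
# Upper estimates
-/

set_option autoImplicit false

namespace Pool.Agent.R269.SM

/-- the large norming set of order `k + 1` -/
def WC (k : ℕ) : Set C00 := WW {F | Cov (k + 1) F}

theorem WC_nice {k : ℕ} {f : C00} (hf : f ∈ WC k) : Nice f := WW_nice f hf

theorem WW_sub_WC (k : ℕ) : WW (Schreier (k + 1)) ⊆ WC k := WW_mono (Schreier_cov (k + 1))

/-- `Sg V k s L`: the list `L` of averages is the tail of a sum with starting value at most `s`. -/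
structure Sg (V : Set C00) (k s : ℕ) (L : List (ℕ × C00)) : Prop where
  avg : ∀ p ∈ L, IsAvg V p.1 p.2
  bef : L.Pairwise (fun p q => Bef p.2 q.2)
  size : L.Pairwise (fun p q => p.1 < q.1 ∧ ∀ a ∈ p.2.support, a < q.1)
  cov : ∃ Ls : List (Finset ℕ), Ls.length ≤ s ∧ (∀ E ∈ Ls, Cov k E) ∧
    ∀ p ∈ L, ∃ E ∈ Ls, minSupp p.2 ∈ E
  low : ∀ p ∈ L, ∀ a ∈ p.2.support, s ≤ a

theorem Sg.tail {V : Set C00} {k s : ℕ} {p : ℕ × C00} {L : List (ℕ × C00)}
    (h : Sg V k s (p :: L)) : Sg V k s L := by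
  obtain ⟨h1, h2, h3, ⟨Ls, h4, h5, h6⟩, h7⟩ := h
  rw [List.pairwise_cons] at h2 h3
  exact ⟨fun q hq => h1 q (List.mem_cons_of_mem _ hq), h2.2, h3.2,
    ⟨Ls, h4, h5, fun q hq => h6 q (List.mem_cons_of_mem _ hq)⟩,
    fun q hq => h7 q (List.mem_cons_of_mem _ hq)⟩

theorem Sg.mono {V V' : Set C00} (hV : V ⊆ V') {k s : ℕ} {L : List (ℕ × C00)} (h : Sg V k s L) :
    Sg V' k s L :=
  ⟨fun p hp => (h.avg p hp).mono hV, h.bef, h.size, h.cov, h.low⟩

/-- the functional of a list of averages -/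
noncomputable def fn (L : List (ℕ × C00)) : C00 := (L.map Prod.snd).sum

theorem fn_cons (p : ℕ × C00) (L : List (ℕ × C00)) : fn (p :: L) = p.2 + fn L := by
  simp [fn]

theorem Sg.isSch {V : Set C00} (hV : ∀ f ∈ V, Nice f) {k s : ℕ} {L : List (ℕ × C00)}
    (hL : L ≠ []) (h : Sg V k s L) :
    IsSch {F | Cov (k + 1) F} V (fn L) := by
  obtain ⟨h1, h2, h3, ⟨Ls, h4, h5, h6⟩, h7⟩ := h
  refine ⟨L, hL, h1, h2, ?_, h3, rfl⟩
  refine ⟨Ls, ?_, h5, ?_⟩
  · intro a ha
    simp only [List.mem_toFinset, List.mem_map] at ha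
    obtain ⟨p, hp, rfl⟩ := ha
    exact h4.trans (h7 p hp _ (minSupp_mem ((h1 p hp).nice hV).1.1))
  · intro a ha
    simp only [List.mem_toFinset, List.mem_map] at ha
    obtain ⟨p, hp, rfl⟩ := ha
    exact h6 p hp

theorem Sg.mem {k s : ℕ} {L : List (ℕ × C00)} (hL : L ≠ []) (h : Sg (WC k) k s L) :
    fn L ∈ WC k :=
  sch_mem (h.isSch (fun _ hf => WC_nice hf) hL)

theorem isSch_sg {V : Set C00} {k : ℕ} {g : C00}
    (h : IsSch {F | Cov (k + 1) F} V g) : ∃ s L, L ≠ [] ∧ Sg V k s L ∧ g = fn L := by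
  obtain ⟨L, h1, h2, h3, ⟨Ls, h4, h5, h6⟩, h7, rfl⟩ := h
  refine ⟨Ls.length, L, h1, ⟨h2, h3, h7, ⟨Ls, le_rfl, h5, ?_⟩, ?_⟩, rfl⟩
  · intro p hp
    exact h6 _ (by simp only [List.mem_toFinset, List.mem_map]; exact ⟨p, hp, rfl⟩)
  · intro p hp a ha
    refine (h4 (minSupp p.2) ?_).trans (minSupp_le ha)
    simp only [List.mem_toFinset, List.mem_map]
    exact ⟨p, hp, rfl⟩

theorem act_fn_le (L : List (ℕ × C00)) (x : C00) :
    act (fn L) x ≤ (L.map fun p => act p.2 x).sum := by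
  refine (act_list_le _ x).trans (le_of_eq ?_)
  rw [List.map_map]
  rfl

theorem act_avg_le {V : Set C00} {l : ℕ} {α : C00} (h : IsAvg V l α) :
    ∃ L : List C00, L.length ≤ l ∧ (∀ f ∈ L, f ∈ V) ∧ L.Pairwise Bef ∧
      (∀ x, act α x ≤ 1 / (l : ℝ) * (L.map fun f => act f x).sum) ∧
      (∀ a ∈ α.support, ∃ f ∈ L, a ∈ f.support) := by
  obtain ⟨h1, L, h2, h3, h4, h5, rfl⟩ := h
  have hl : (0 : ℝ) < l := by exact_mod_cast (by omega : 0 < l)
  refine ⟨L, h3, h4, h5, fun x => ?_, fun a ha => ?_⟩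
  · rw [act_smul_left, abs_of_pos (by positivity : (0:ℝ) < 1 / l)]
    exact mul_le_mul_of_nonneg_left (act_list_le L x) (by positivity)
  · exact mem_support_list (Finsupp.support_smul ha)

/-- Lemma A for lists. -/
theorem listA {V : Set C00} {w : ℕ → C00} {lam : ℕ → ℝ} {B μ : ℝ} (hB : 0 ≤ B) (hμ : 0 ≤ μ)
    (hlam : ∀ q, 0 ≤ lam q)
    (hw : ∀ q q', q < q' → Bef (w q) (w q')) :
    ∀ (L : List C00), (∀ f ∈ L, f ∈ V) → L.Pairwise Bef → ∀ Q : Finset ℕ,
      (∀ h ∈ V, ∀ q ∈ Q, act h (w q) ≤ B) → (∀ q ∈ Q, lam q ≤ μ) →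
      (L.map fun f => ∑ q ∈ Q, lam q * act f (w q)).sum
        ≤ B * (∑ q ∈ Q, lam q + L.length * μ) := by
  classical
  intro L
  induction L with
  | nil =>
    intro _ _ Q _ _
    simp only [List.map_nil, List.sum_nil, List.length_nil, Nat.cast_zero, zero_mul, add_zero]
    exact mul_nonneg hB (Finset.sum_nonneg fun q _ => hlam q)
  | cons h L ih =>
    intro hV hP Q hQ hQμ
    rw [List.pairwise_cons] at hP
    rw [List.map_cons, List.sum_cons, List.length_cons]
    have hV' : ∀ f ∈ L, f ∈ V := fun f hf => hV f (List.mem_cons_of_mem _ hf)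
    have hh : h ∈ V := hV h List.mem_cons_self
    have hΛ : 0 ≤ ∑ q ∈ Q, lam q := Finset.sum_nonneg fun q _ => hlam q
    by_cases hne : (Q.filter fun q => Meets h (w q)).Nonempty
    · obtain ⟨qs, hqs, hmax⟩ := Finset.exists_max_image _ id hne
      rw [Finset.mem_filter] at hqs
      obtain ⟨hqsQ, a, ha, haw⟩ := hqs
      have e1 : ∑ q ∈ Q, lam q * act h (w q) ≤ B * ∑ q ∈ Q.filter (· ≤ qs), lam q := by
        rw [Finset.mul_sum, Finset.sum_filter]
        refine Finset.sum_le_sum fun q hq => ?_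
        split_ifs with hq'
        · calc lam q * act h (w q) ≤ lam q * B :=
                mul_le_mul_of_nonneg_left (hQ h hh q hq) (hlam q)
            _ = B * lam q := mul_comm _ _
        · have : ¬ Meets h (w q) := fun hm => hq' (hmax q (Finset.mem_filter.2 ⟨hq, hm⟩))
          rw [act_eq_zero this, mul_zero]
      have e2 : ∀ f ∈ L, ∑ q ∈ Q, lam q * act f (w q)
          = ∑ q ∈ Q.filter (qs ≤ ·), lam q * act f (w q) := by
        intro f hf
        rw [Finset.sum_filter]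
        refine Finset.sum_congr rfl fun q hq => ?_
        split_ifs with hq'
        · rfl
        · have : ¬ Meets f (w q) := by
            rintro ⟨b, hb, hbw⟩
            have h1 := hP.1 f hf a ha b hb
            have h2 := hw q qs (not_le.1 hq') b hbw a haw
            omega
          rw [act_eq_zero this, mul_zero]
      have e3 : (L.map fun f => ∑ q ∈ Q, lam q * act f (w q)).sum
          = (L.map fun f => ∑ q ∈ Q.filter (qs ≤ ·), lam q * act f (w q)).sum := by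
        congr 1
        exact List.map_congr_left e2
      have e4 := ih hV' hP.2 (Q.filter (qs ≤ ·))
        (fun g hg q hq => hQ g hg q (Finset.mem_filter.1 hq).1)
        (fun q hq => hQμ q (Finset.mem_filter.1 hq).1)
      have e5 : ∑ q ∈ Q.filter (· ≤ qs), lam q + ∑ q ∈ Q.filter (qs ≤ ·), lam q
          ≤ ∑ q ∈ Q, lam q + μ := by
        have h1 : ∑ q ∈ Q, lam q + lam qs = ∑ q ∈ Q, (lam q + if q = qs then lam q else 0) := by
          rw [Finset.sum_add_distrib, Finset.sum_ite_eq' Q qs, if_pos hqsQ]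
        have h2 : ∑ q ∈ Q.filter (· ≤ qs), lam q + ∑ q ∈ Q.filter (qs ≤ ·), lam q
            = ∑ q ∈ Q, (lam q + if q = qs then lam q else 0) := by
          rw [Finset.sum_filter, Finset.sum_filter, ← Finset.sum_add_distrib]
          refine Finset.sum_congr rfl fun q _ => ?_
          rcases lt_trichotomy q qs with h | h | h
          · simp [h.le, not_le.2 h, h.ne]
          · simp [h]
          · simp [h.le, not_le.2 h, h.ne']
        rw [h2, ← h1]
        exact add_le_add le_rfl (hQμ qs hqsQ)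
      rw [e3]
      calc _ ≤ B * ∑ q ∈ Q.filter (· ≤ qs), lam q
            + B * (∑ q ∈ Q.filter (qs ≤ ·), lam q + L.length * μ) := add_le_add e1 e4
        _ = B * ((∑ q ∈ Q.filter (· ≤ qs), lam q + ∑ q ∈ Q.filter (qs ≤ ·), lam q)
            + L.length * μ) := by ring
        _ ≤ B * ((∑ q ∈ Q, lam q + μ) + L.length * μ) := by
            refine mul_le_mul_of_nonneg_left ?_ hB
            linarith
        _ = B * (∑ q ∈ Q, lam q + (L.length + 1 : ℕ) * μ) := by push_cast; ring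
    · have e1 : ∑ q ∈ Q, lam q * act h (w q) = 0 := by
        refine Finset.sum_eq_zero fun q hq => ?_
        have : ¬ Meets h (w q) := fun hm => hne ⟨q, Finset.mem_filter.2 ⟨hq, hm⟩⟩
        rw [act_eq_zero this, mul_zero]
      have e4 := ih hV' hP.2 Q hQ hQμ
      rw [e1, zero_add]
      refine e4.trans (mul_le_mul_of_nonneg_left ?_ hB)
      push_cast
      nlinarith

/-- Lemma A: the action of an average on a weighted sum of successive vectors. -/
theorem lemmaA {V : Set C00} {w : ℕ → C00} {lam : ℕ → ℝ} {B μ : ℝ} (hB : 0 ≤ B) (hμ : 0 ≤ μ)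
    (hlam : ∀ q, 0 ≤ lam q)
    (hw : ∀ q q', q < q' → Bef (w q) (w q')) {l : ℕ} {α : C00} (hα : IsAvg V l α)
    (Q : Finset ℕ) (hQ : ∀ h ∈ V, ∀ q ∈ Q, act h (w q) ≤ B) (hQμ : ∀ q ∈ Q, lam q ≤ μ) :
    ∑ q ∈ Q, lam q * act α (w q) ≤ B * (1 / (l : ℝ) * ∑ q ∈ Q, lam q + μ) := by
  have hl2 : 2 ≤ l := hα.1
  have hl : (0 : ℝ) < l := by exact_mod_cast (by omega : 0 < l)
  obtain ⟨L, h1, h2, h3, h4, -⟩ := act_avg_le hα
  have e1 : ∑ q ∈ Q, lam q * act α (w q)
      ≤ 1 / (l : ℝ) * (L.map fun f => ∑ q ∈ Q, lam q * act f (w q)).sum := by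
    have e2 : (L.map fun f => ∑ q ∈ Q, lam q * act f (w q)).sum
        = ∑ q ∈ Q, lam q * (L.map fun f => act f (w q)).sum := by
      clear h1 h2 h3 h4
      induction L with
      | nil => simp
      | cons f L ih =>
        rw [List.map_cons, List.sum_cons, ih, ← Finset.sum_add_distrib]
        refine Finset.sum_congr rfl fun q _ => ?_
        rw [List.map_cons, List.sum_cons]
        ring
    rw [e2, Finset.mul_sum]
    refine Finset.sum_le_sum fun q _ => ?_
    calc lam q * act α (w q) ≤ lam q * (1 / (l : ℝ) * (L.map fun f => act f (w q)).sum) :=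
          mul_le_mul_of_nonneg_left (h4 _) (hlam q)
      _ = _ := by ring
  have e3 := listA hB hμ hlam hw L h2 h3 Q hQ hQμ
  calc _ ≤ 1 / (l : ℝ) * (B * (∑ q ∈ Q, lam q + L.length * μ)) :=
        e1.trans (mul_le_mul_of_nonneg_left e3 (by positivity))
    _ ≤ 1 / (l : ℝ) * (B * (∑ q ∈ Q, lam q + l * μ)) := by
        refine mul_le_mul_of_nonneg_left (mul_le_mul_of_nonneg_left ?_ hB) (by positivity)
        have : (L.length : ℝ) ≤ l := by exact_mod_cast h1
        nlinarith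
    _ = _ := by field_simp

/-- the mass captured by a family with few covering sets -/
theorem capture {k : ℕ} {lam : ℕ → ℝ} {M : ℕ → ℕ} {Q : Finset ℕ} {κ : ℝ}
    (hκ : ∀ G ⊆ Q, Cov k (G.image M) → ∑ q ∈ G, lam q ≤ κ)
    {ι : Type} :
    ∀ (Ls : List (Finset ℕ)), (∀ E ∈ Ls, Cov k E) → ∀ (P : Finset ι) (τ g : ι → ℕ),
    (∀ p ∈ P, ∀ p' ∈ P, τ p = τ p' → p = p') → (∀ p ∈ P, ∀ p' ∈ P, g p = g p' → p = p') →
    (∀ p ∈ P, g p ∈ Q) → (∀ p ∈ P, τ p ≤ M (g p)) → (∀ p ∈ P, ∃ E ∈ Ls, τ p ∈ E) →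
    ∑ p ∈ P, lam (g p) ≤ Ls.length * κ := by
  classical
  intro Ls
  induction Ls with
  | nil =>
    intro _ P τ g _ _ _ _ h5
    have : P = ∅ := by
      rw [Finset.eq_empty_iff_forall_notMem]
      intro p hp
      obtain ⟨E, hE, -⟩ := h5 p hp
      simp at hE
    rw [this]
    simp
  | cons E Ls ih =>
    intro hc P τ g h1 h2 h3 h4 h5
    have e1 : ∑ p ∈ P.filter (fun p => τ p ∈ E), lam (g p) ≤ κ := by
      rw [← Finset.sum_image (f := lam) (g := g)]
      · refine hκ _ ?_ ?_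
        · intro q hq
          rw [Finset.mem_image] at hq
          obtain ⟨p, hp, rfl⟩ := hq
          exact h3 p (Finset.mem_filter.1 hp).1
        · rw [Finset.image_image]
          refine Cov.transfer k E (hc E List.mem_cons_self) _ τ (M ∘ g) ?_ ?_ ?_
          · intro q hq
            exact (Finset.mem_filter.1 hq).2
          · intro q hq q' hq' hqq
            exact h1 q (Finset.mem_filter.1 hq).1 q' (Finset.mem_filter.1 hq').1 hqq
          · intro q hq
            exact h4 q (Finset.mem_filter.1 hq).1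
      · intro p hp p' hp' hpp
        exact h2 p (Finset.mem_filter.1 hp).1 p' (Finset.mem_filter.1 hp').1 hpp
    have e2 := ih (fun E' hE' => hc E' (List.mem_cons_of_mem _ hE'))
      (P.filter (fun p => ¬ τ p ∈ E)) τ g
      (fun p hp p' hp' => h1 p (Finset.mem_filter.1 hp).1 p' (Finset.mem_filter.1 hp').1)
      (fun p hp p' hp' => h2 p (Finset.mem_filter.1 hp).1 p' (Finset.mem_filter.1 hp').1)
      (fun p hp => h3 p (Finset.mem_filter.1 hp).1)
      (fun p hp => h4 p (Finset.mem_filter.1 hp).1)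
      (fun p hp => by
        obtain ⟨E', hE', hp'⟩ := h5 p (Finset.mem_filter.1 hp).1
        rw [List.mem_cons] at hE'
        obtain rfl | hE' := hE'
        · exact absurd hp' (Finset.mem_filter.1 hp).2
        · exact ⟨E', hE', hp'⟩)
    rw [← Finset.sum_filter_add_sum_filter_not P (fun p => τ p ∈ E), List.length_cons]
    push_cast
    linarith

theorem Sg.le_head {V : Set C00} {k s : ℕ} {p : ℕ × C00} {L : List (ℕ × C00)}
    (h : Sg V k s (p :: L)) : ∀ q ∈ p :: L, p.1 ≤ q.1 := by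
  intro q hq
  rw [List.mem_cons] at hq
  obtain rfl | hq := hq
  · exact le_rfl
  · have := h.size
    rw [List.pairwise_cons] at this
    exact (this.1 q hq).1.le

/-- Lemma B: the action of a sum of averages on a weighted sum of successive vectors. -/
theorem lemmaB {k s : ℕ} {p0 : ℕ × C00} {L0 : List (ℕ × C00)}
    (hs : Sg (WC k) k s (p0 :: L0)) {w : ℕ → C00} {lam : ℕ → ℝ} {B κ : ℝ} {M : ℕ → ℕ}
    (hB : 0 ≤ B) (hκ0 : 0 ≤ κ) (hlam : ∀ q, 0 ≤ lam q)
    (hw : ∀ q q', q < q' → Bef (w q) (w q')) (Q : Finset ℕ)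
    (hM : ∀ q, ∀ a ∈ (w q).support, a ≤ M q)
    (hM' : ∀ q q', q < q' → ∀ a ∈ (w q').support, M q < a)
    (hQ : ∀ h ∈ WC k, ∀ q ∈ Q, act h (w q) ≤ B)
    (hκ : ∀ G ⊆ Q, Cov k (G.image M) → ∑ q ∈ G, lam q ≤ κ)
    (hsum : ∑ q ∈ Q, lam q ≤ 1) :
    ∑ q ∈ Q, lam q * act (fn (p0 :: L0)) (w q) ≤ B * (1 / (p0.1 : ℝ) + 2 * s * κ) := by
  classical
  obtain ⟨L, hL⟩ : ∃ L, L = p0 :: L0 := ⟨_, rfl⟩
  have hhead := hs.le_head
  have hp02 : 2 ≤ p0.1 := (hs.avg p0 List.mem_cons_self).1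
  have hp0 : (0 : ℝ) < p0.1 := by exact_mod_cast (by omega : 0 < p0.1)
  rw [← hL] at hs hhead ⊢
  have hne : L ≠ [] := by rw [hL]; simp
  obtain ⟨Ls, hLs1, hLs2, hLs3⟩ := hs.cov
  have hmin : ∀ p ∈ L, minSupp p.2 ∈ p.2.support := fun p hp =>
    minSupp_mem ((hs.avg p hp).nice (fun f hf => WC_nice hf)).1.1
  -- comparability
  have hcmp : ∀ p ∈ L, ∀ p' ∈ L, p ≠ p' → Bef p.2 p'.2 ∨ Bef p'.2 p.2 := by
    intro p hp p' hp' hne
    have hsym : Std.Symm (fun p q : ℕ × C00 => Bef p.2 q.2 ∨ Bef q.2 p.2) :=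
      ⟨fun p q h => h.symm⟩
    exact List.Pairwise.forall (R := fun p q : ℕ × C00 => Bef p.2 q.2 ∨ Bef q.2 p.2)
      (hs.bef.imp fun h => Or.inl h) hp hp' hne
  have hminj : ∀ p ∈ L, ∀ p' ∈ L, minSupp p.2 = minSupp p'.2 → p = p' := by
    intro p hp p' hp' h
    by_contra hne
    obtain h1 | h1 := hcmp p hp p' hp' hne
    · have := h1 _ (hmin p hp) _ (hmin p' hp')
      omega
    · have := h1 _ (hmin p' hp') _ (hmin p hp)
      omega
  have hnodup : L.Nodup := by
    refine List.Pairwise.imp ?_ hs.size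
    rintro p q ⟨h, -⟩ rfl
    exact lt_irrefl _ h
  have hskap : (Ls.length : ℝ) * κ ≤ s * κ :=
    mul_le_mul_of_nonneg_right (by exact_mod_cast hLs1) hκ0
  -- the two kinds of indices
  obtain ⟨U, hU⟩ : ∃ U : ℕ → ℕ → Prop, U = fun q a => a ≤ M q ∧ ∀ q' ∈ Q, q' < q → M q' < a :=
    ⟨_, rfl⟩
  have hUd : ∀ q ∈ Q, ∀ q' ∈ Q, ∀ a, U q a → U q' a → q = q' := by
    intro q hq q' hq' a h1 h2
    rw [hU] at h1 h2
    by_contra hne
    obtain h | h := lt_or_gt_of_ne hne
    · have := h2.2 q hq h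
      omega
    · have := h1.2 q' hq' h
      omega
  obtain ⟨Q1, hQ1⟩ : ∃ Q1 : Finset ℕ, Q1 = Q.filter fun q => ∃ p ∈ L, U q (minSupp p.2) :=
    ⟨_, rfl⟩
  have part1 : ∑ q ∈ Q1, lam q * act (fn L) (w q) ≤ B * (s * κ) := by
    have h1 : ∀ q, ∃ p : ℕ × C00, q ∈ Q1 → p ∈ L ∧ U q (minSupp p.2) := by
      intro q
      by_cases hq : q ∈ Q1
      · rw [hQ1, Finset.mem_filter] at hq
        obtain ⟨-, p, hp, hpU⟩ := hq
        exact ⟨p, fun _ => ⟨hp, hpU⟩⟩
      · exact ⟨p0, fun h => absurd h hq⟩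
    choose pp hpp using h1
    have hQ1Q : ∀ q ∈ Q1, q ∈ Q := by
      intro q hq
      rw [hQ1] at hq
      exact (Finset.mem_filter.1 hq).1
    have h2 : ∑ q ∈ Q1, lam q ≤ Ls.length * κ := by
      refine capture hκ Ls hLs2 Q1 (fun q => minSupp (pp q).2) (fun q => q) ?_ ?_ ?_ ?_ ?_
      · intro q hq q' hq' h
        have h3 := (hpp q hq).2
        have h4 := (hpp q' hq').2
        change minSupp (pp q).2 = minSupp (pp q').2 at h
        rw [h] at h3
        exact hUd q (hQ1Q q hq) q' (hQ1Q q' hq') _ h3 h4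
      · intro q _ q' _ h
        exact h
      · exact hQ1Q
      · intro q hq
        have h3 := (hpp q hq).2
        rw [hU] at h3
        exact h3.1
      · intro q hq
        exact hLs3 _ (hpp q hq).1
    calc ∑ q ∈ Q1, lam q * act (fn L) (w q) ≤ ∑ q ∈ Q1, lam q * B := by
          refine Finset.sum_le_sum fun q hq => ?_
          exact mul_le_mul_of_nonneg_left (hQ _ (hs.mem hne) q (hQ1Q q hq)) (hlam q)
      _ = B * ∑ q ∈ Q1, lam q := by rw [← Finset.sum_mul, mul_comm]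
      _ ≤ B * (s * κ) := mul_le_mul_of_nonneg_left (h2.trans hskap) hB
  have part2 : ∑ q ∈ Q \ Q1, lam q * act (fn L) (w q) ≤ B * (1 / (p0.1 : ℝ) + s * κ) := by
    -- unique average
    have huniq : ∀ q ∈ Q \ Q1, ∀ p ∈ L, ∀ p' ∈ L, Meets p.2 (w q) → Meets p'.2 (w q) → p = p' := by
      have aux : ∀ q ∈ Q \ Q1, ∀ p ∈ L, ∀ p' ∈ L, Bef p.2 p'.2 → Meets p.2 (w q) →
          Meets p'.2 (w q) → False := by
        rintro q hq p hp p' hp' hb ⟨a, ha, haw⟩ ⟨b, hb', hbw⟩
        rw [Finset.mem_sdiff] at hq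
        refine hq.2 ?_
        rw [hQ1, Finset.mem_filter]
        refine ⟨hq.1, p', hp', ?_⟩
        rw [hU]
        refine ⟨(minSupp_le hb').trans (hM q b hbw), fun q' _ hlt => ?_⟩
        exact (hM' q' q hlt a haw).trans (hb a ha _ (hmin p' hp'))
      intro q hq p hp p' hp' h1 h2
      by_contra hne
      obtain h | h := hcmp p hp p' hp' hne
      · exact aux q hq p hp p' hp' h h1 h2
      · exact aux q hq p' hp' p hp h h2 h1
    obtain ⟨Qp, hQp⟩ : ∃ Qp : ℕ × C00 → Finset ℕ,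
        Qp = fun p => (Q \ Q1).filter fun q => Meets p.2 (w q) := ⟨_, rfl⟩
    have hQpm : ∀ p q, q ∈ Qp p ↔ q ∈ Q \ Q1 ∧ Meets p.2 (w q) := by
      intro p q
      rw [hQp]
      exact Finset.mem_filter
    have hex : ∀ p : ℕ × C00, ∃ q, (Qp p).Nonempty → q ∈ Qp p ∧ ∀ q' ∈ Qp p, lam q' ≤ lam q := by
      intro p
      by_cases hn : (Qp p).Nonempty
      · obtain ⟨q, hq, hmax⟩ := Finset.exists_max_image (Qp p) lam hn
        exact ⟨q, fun _ => ⟨hq, hmax⟩⟩
      · exact ⟨0, fun h => absurd h hn⟩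
    choose gq hgq using hex
    obtain ⟨P, hP⟩ : ∃ P : Finset (ℕ × C00), P = L.toFinset.filter fun p => (Qp p).Nonempty :=
      ⟨_, rfl⟩
    have hPm : ∀ p, p ∈ P ↔ p ∈ L ∧ (Qp p).Nonempty := by
      intro p
      rw [hP, Finset.mem_filter, List.mem_toFinset]
    have h2 : ∑ p ∈ P, lam (gq p) ≤ Ls.length * κ := by
      refine capture hκ Ls hLs2 P (fun p => minSupp p.2) gq ?_ ?_ ?_ ?_ ?_
      · intro p hp p' hp' h
        exact hminj p ((hPm p).1 hp).1 p' ((hPm p').1 hp').1 h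
      · intro p hp p' hp' h
        have h3 := (hQpm _ _).1 (hgq p ((hPm p).1 hp).2).1
        have h4 := (hQpm _ _).1 (hgq p' ((hPm p').1 hp').2).1
        rw [← h] at h4
        exact huniq _ h3.1 p ((hPm p).1 hp).1 p' ((hPm p').1 hp').1 h3.2 h4.2
      · intro p hp
        have h3 := (hQpm _ _).1 (hgq p ((hPm p).1 hp).2).1
        exact (Finset.mem_sdiff.1 h3.1).1
      · intro p hp
        obtain ⟨-, b, hb, hbw⟩ := (hQpm _ _).1 (hgq p ((hPm p).1 hp).2).1
        exact (minSupp_le hb).trans (hM _ b hbw)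
      · intro p hp
        exact hLs3 p ((hPm p).1 hp).1
    have h5 : ∀ p ∈ P, ∑ q ∈ Qp p, lam q * act p.2 (w q)
        ≤ B * (1 / (p0.1 : ℝ) * ∑ q ∈ Qp p, lam q + lam (gq p)) := by
      intro p hp
      obtain ⟨hpL, hpn⟩ := (hPm p).1 hp
      have h6 := lemmaA hB (hlam (gq p)) hlam hw (hs.avg p hpL) (Qp p)
        (fun h hh q hq => hQ h hh q (Finset.mem_sdiff.1 ((hQpm _ _).1 hq).1).1)
        (hgq p hpn).2
      refine h6.trans (mul_le_mul_of_nonneg_left ?_ hB)
      have h7 : (p0.1 : ℝ) ≤ p.1 := by exact_mod_cast hhead p hpL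
      have h8 : 1 / (p.1 : ℝ) ≤ 1 / (p0.1 : ℝ) := one_div_le_one_div_of_le hp0 h7
      have h9 : 0 ≤ ∑ q ∈ Qp p, lam q := Finset.sum_nonneg fun q _ => hlam q
      have := mul_le_mul_of_nonneg_right h8 h9
      linarith
    have h10 : ∑ q ∈ Q \ Q1, lam q * act (fn L) (w q)
        ≤ ∑ p ∈ P, ∑ q ∈ Qp p, lam q * act p.2 (w q) := by
      have h11 : ∀ q, act (fn L) (w q) ≤ ∑ p ∈ L.toFinset, act p.2 (w q) := by
        intro q
        refine (act_fn_le L (w q)).trans (le_of_eq ?_)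
        rw [List.sum_toFinset _ hnodup]
      calc ∑ q ∈ Q \ Q1, lam q * act (fn L) (w q)
          ≤ ∑ q ∈ Q \ Q1, lam q * ∑ p ∈ L.toFinset, act p.2 (w q) :=
            Finset.sum_le_sum fun q _ => mul_le_mul_of_nonneg_left (h11 q) (hlam q)
        _ = ∑ p ∈ L.toFinset, ∑ q ∈ Q \ Q1, lam q * act p.2 (w q) := by
            simp_rw [Finset.mul_sum]
            exact Finset.sum_comm
        _ = ∑ p ∈ L.toFinset, ∑ q ∈ Qp p, lam q * act p.2 (w q) := by
            refine Finset.sum_congr rfl fun p _ => ?_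
            symm
            refine Finset.sum_subset (fun q hq => ((hQpm _ _).1 hq).1) fun q hq hq' => ?_
            have : ¬ Meets p.2 (w q) := fun h => hq' ((hQpm _ _).2 ⟨hq, h⟩)
            rw [act_eq_zero this, mul_zero]
        _ = ∑ p ∈ P, ∑ q ∈ Qp p, lam q * act p.2 (w q) := by
            symm
            refine Finset.sum_subset ?_ fun p hp hp' => ?_
            · rw [hP]
              exact Finset.filter_subset _ _
            · have : Qp p = ∅ := by
                rw [← Finset.not_nonempty_iff_eq_empty]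
                intro h
                exact hp' ((hPm p).2 ⟨List.mem_toFinset.1 hp, h⟩)
              rw [this, Finset.sum_empty]
    have h12 : ∑ p ∈ P, ∑ q ∈ Qp p, lam q ≤ 1 := by
      have h13 : ∑ p ∈ P, ∑ q ∈ Qp p, lam q = ∑ q ∈ P.biUnion Qp, lam q := by
        rw [Finset.sum_biUnion]
        intro p hp p' hp' hne
        change Disjoint (Qp p) (Qp p')
        rw [Finset.disjoint_left]
        intro q hq hq'
        obtain ⟨h3, h3'⟩ := (hQpm _ _).1 hq
        obtain ⟨_, h4'⟩ := (hQpm _ _).1 hq'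
        exact hne (huniq q h3 p ((hPm p).1 hp).1 p' ((hPm p').1 hp').1 h3' h4')
      rw [h13]
      refine le_trans (Finset.sum_le_sum_of_subset_of_nonneg ?_ fun q _ _ => hlam q) hsum
      intro q hq
      rw [Finset.mem_biUnion] at hq
      obtain ⟨p, _, hq⟩ := hq
      exact (Finset.mem_sdiff.1 ((hQpm _ _).1 hq).1).1
    calc ∑ q ∈ Q \ Q1, lam q * act (fn L) (w q)
        ≤ ∑ p ∈ P, B * (1 / (p0.1 : ℝ) * ∑ q ∈ Qp p, lam q + lam (gq p)) :=
          h10.trans (Finset.sum_le_sum h5)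
      _ = B * (1 / (p0.1 : ℝ) * ∑ p ∈ P, ∑ q ∈ Qp p, lam q + ∑ p ∈ P, lam (gq p)) := by
          rw [← Finset.mul_sum, Finset.sum_add_distrib, ← Finset.mul_sum]
      _ ≤ B * (1 / (p0.1 : ℝ) * 1 + s * κ) := by
          refine mul_le_mul_of_nonneg_left (add_le_add ?_ (h2.trans hskap)) hB
          exact mul_le_mul_of_nonneg_left h12 (by positivity)
      _ = B * (1 / (p0.1 : ℝ) + s * κ) := by rw [mul_one]
  have hsplit : ∑ q ∈ Q, lam q * act (fn L) (w q)
      = ∑ q ∈ Q1, lam q * act (fn L) (w q) + ∑ q ∈ Q \ Q1, lam q * act (fn L) (w q) := by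
    have hsub : Q1 ⊆ Q := by
      rw [hQ1]
      exact Finset.filter_subset _ _
    rw [add_comm, Finset.sum_sdiff hsub]
  rw [hsplit]
  calc _ ≤ B * (s * κ) + B * (1 / (p0.1 : ℝ) + s * κ) := add_le_add part1 part2
    _ = _ := by ring

end Pool.Agent.R269.SM
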