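import Mathlib

/-!
# Smooth functions with bounded derivatives, uniformly in a parameter
-/

set_option autoImplicit false

open scoped ENNReal ContDiff

namespace Pool.Agent.R269.SS

/-- Smooth with bounded derivatives, uniformly in a parameter. -/
def UBD {S X : Type} [NormedAddCommGroup X] [NormedSpace ℝ X] (f : S → X → ℝ) : Prop :=
  (∀ s, ContDiff ℝ ∞ (f s)) ∧ ∀ m : ℕ, ∃ C : ℝ, 0 ≤ C ∧ ∀ s x, ‖iteratedFDeriv ℝ m (f s) x‖ ≤ C

section
variable {S X Z : Type} [NormedAddCommGroup X] [NormedSpace ℝ X] [NormedAddCommGroup Z]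
  [NormedSpace ℝ Z]

theorem UBD.mul {f g : S → X → ℝ} (hf : UBD f) (hg : UBD g) : UBD fun s x => f s x * g s x := by
  refine ⟨fun s => (hf.1 s).mul (hg.1 s), fun m => ?_⟩
  choose C hC0 hC using hf.2
  choose D hD0 hD using hg.2
  refine ⟨∑ i ∈ Finset.range (m + 1), (m.choose i : ℝ) * C i * D (m - i),
    Finset.sum_nonneg fun i _ => by have := hC0 i; have := hD0 (m - i); positivity,
    fun s x => ?_⟩
  refine (norm_iteratedFDeriv_mul_le (hf.1 s) (hg.1 s) x (n := m)
    (by exact_mod_cast le_top)).trans ?_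
  refine Finset.sum_le_sum fun i _ => ?_
  have h1 := hC i s x
  have h2 := hD (m - i) s x
  have h3 := hC0 i
  gcongr

theorem UBD.comp {f : S → X → ℝ} (hf : UBD f) {g : ℝ → ℝ} (hg : ContDiff ℝ ∞ g) :
    UBD fun s x => g (f s x) := by
  refine ⟨fun s => hg.comp (hf.1 s), fun m => ?_⟩
  choose C hC0 hC using hf.2
  have hg' : ∀ i : ℕ, ∃ D : ℝ, ∀ t ∈ Set.Icc (-C 0) (C 0), ‖iteratedFDeriv ℝ i g t‖ ≤ D := by
    intro i
    exact isCompact_Icc.exists_bound_of_continuousOn
      (hg.continuous_iteratedFDeriv (by exact_mod_cast le_top)).continuousOn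
  choose D hD using hg'
  set A : ℝ := ∑ i ∈ Finset.range (m + 1), |D i| with hA
  set B : ℝ := 1 + ∑ i ∈ Finset.range (m + 1), C i with hB
  have hB1 : 1 ≤ B := by
    rw [hB]
    have := Finset.sum_nonneg (s := Finset.range (m + 1)) fun i _ => hC0 i
    linarith
  have hA0 : 0 ≤ A := Finset.sum_nonneg fun i _ => abs_nonneg _
  refine ⟨m.factorial * A * B ^ m, by positivity, fun s x => ?_⟩
  refine norm_iteratedFDeriv_comp_le hg (hf.1 s) (by exact_mod_cast le_top) x ?_ ?_
  · intro i hi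
    have h0 : ‖f s x‖ ≤ C 0 := by
      have := hC 0 s x
      rwa [norm_iteratedFDeriv_zero] at this
    have h1 : f s x ∈ Set.Icc (-C 0) (C 0) := abs_le.1 h0
    calc ‖iteratedFDeriv ℝ i g (f s x)‖ ≤ D i := hD i _ h1
      _ ≤ |D i| := le_abs_self _
      _ ≤ A := Finset.single_le_sum (f := fun i => |D i|) (fun i _ => abs_nonneg _)
          (Finset.mem_range.2 (by omega))
  · intro i hi1 hi
    calc ‖iteratedFDeriv ℝ i (f s) x‖ ≤ C i := hC i s x
      _ ≤ B := by
          have := Finset.single_le_sum (f := C) (fun i _ => hC0 i)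
            (Finset.mem_range.2 (show i < m + 1 by omega))
          rw [hB]
          linarith
      _ ≤ B ^ i := le_self_pow₀ hB1 (by omega)

theorem UBD.affine {B : Unit → Z → ℝ} (hB : UBD B) (L : X →L[ℝ] Z) (a : S → Z) :
    UBD fun s x => B () (L x + a s) := by
  refine ⟨fun s => (hB.1 ()).comp (L.contDiff.add contDiff_const), fun m => ?_⟩
  obtain ⟨C, hC0, hC⟩ := hB.2 m
  refine ⟨C * ‖L‖ ^ m, by positivity, fun s x => ?_⟩
  have h1 : (fun x => B () (L x + a s)) = (fun z => B () (z + a s)) ∘ L := rfl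
  have h2 : ContDiff ℝ ∞ fun z => B () (z + a s) :=
    (hB.1 ()).comp (contDiff_id.add contDiff_const)
  change ‖iteratedFDeriv ℝ m (fun x => B () (L x + a s)) x‖ ≤ _
  rw [h1, L.iteratedFDeriv_comp_right h2 x (by exact_mod_cast le_top)]
  refine (ContinuousMultilinearMap.norm_compContinuousLinearMap_le _ _).trans ?_
  rw [Finset.prod_const, Finset.card_univ, Fintype.card_fin]
  refine mul_le_mul_of_nonneg_right ?_ (by positivity)
  rw [iteratedFDeriv_comp_add_right]
  exact hC () _

theorem UBD.const (c : ℝ) : UBD fun (_ : S) (_ : X) => c := by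
  refine ⟨fun _ => contDiff_const, fun m => ⟨|c|, abs_nonneg _, fun s x => ?_⟩⟩
  rcases Nat.eq_zero_or_pos m with rfl | hm
  · rw [norm_iteratedFDeriv_zero, Real.norm_eq_abs]
  · rw [iteratedFDeriv_const_of_ne (by omega)]
    simp

theorem UBD.prod {ι : Type} {f : ι → S → X → ℝ} (hf : ∀ i, UBD (f i)) (s : Finset ι) :
    UBD fun u x => ∏ i ∈ s, f i u x := by
  classical
  induction s using Finset.induction_on with
  | empty => simpa using UBD.const (S := S) (X := X) 1
  | insert i s hi ih =>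
    have : (fun u x => ∏ j ∈ insert i s, f j u x) = fun u x => f i u x * ∏ j ∈ s, f j u x := by
      funext u x
      rw [Finset.prod_insert hi]
    rw [this]
    exact (hf i).mul ih

theorem UBD.reparam {T : Type} {f : S → X → ℝ} (hf : UBD f) (g : T → S) :
    UBD fun t x => f (g t) x :=
  ⟨fun t => hf.1 (g t), fun m => by
    obtain ⟨C, hC0, hC⟩ := hf.2 m
    exact ⟨C, hC0, fun t x => hC (g t) x⟩⟩

end

end Pool.Agent.R269.SS
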