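import Pool.Agent.R269.SSa

/-!
# A smooth bump function on `ℓ_M`, `M` even
-/

set_option autoImplicit false

open scoped ENNReal ContDiff

namespace Pool.Agent.R269.SS

section
variable {T : Type} {M : ℕ}

theorem hasSum_pow (hM : 1 ≤ M) (z : lp (fun _ : T => ℝ) (M : ℝ≥0∞)) :
    HasSum (fun t => |z t| ^ M) (‖z‖ ^ M) := by
  have h := lp.hasSum_norm (p := (M : ℝ≥0∞)) (by
    rw [ENNReal.toReal_natCast]
    exact_mod_cast hM) z
  simpa [ENNReal.toReal_natCast, Real.rpow_natCast, Real.norm_eq_abs] using h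

theorem prod_le_sum_pow (a : Fin M → ℝ) (ha : ∀ k, 0 ≤ a k) (hM : 1 ≤ M) :
    ∏ k, a k ≤ ∑ k, a k ^ M := by
  haveI : Nonempty (Fin M) := ⟨⟨0, hM⟩⟩
  obtain ⟨k₀, hk₀⟩ := Finite.exists_max a
  calc ∏ k, a k ≤ ∏ _k : Fin M, a k₀ := Finset.prod_le_prod (fun k _ => ha k) fun k _ => hk₀ k
    _ = a k₀ ^ M := by rw [Finset.prod_const, Finset.card_univ, Fintype.card_fin]
    _ ≤ _ := Finset.single_le_sum (f := fun k => a k ^ M) (fun k _ => pow_nonneg (ha k) _)
        (Finset.mem_univ k₀)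

theorem summable_prod (hM : 1 ≤ M) (z : Fin M → lp (fun _ : T => ℝ) (M : ℝ≥0∞)) :
    Summable fun t => ∏ k, z k t := by
  refine Summable.of_norm_bounded (g := fun t => ∑ k, |z k t| ^ M)
    (summable_sum fun k _ => (hasSum_pow hM (z k)).summable) fun t => ?_
  rw [Real.norm_eq_abs, Finset.abs_prod]
  exact prod_le_sum_pow _ (fun k => abs_nonneg _) hM

theorem tsum_prod_le (hM : 1 ≤ M) [Fact (1 ≤ (M : ℝ≥0∞))]
    (z : Fin M → lp (fun _ : T => ℝ) (M : ℝ≥0∞)) :
    ‖∑' t, ∏ k, z k t‖ ≤ M * ∏ k, ‖z k‖ := by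
  by_cases h0 : ∃ k, ‖z k‖ = 0
  · obtain ⟨k, hk⟩ := h0
    have hz : z k = 0 := norm_eq_zero.1 hk
    have h1 : ∀ t, ∏ k, z k t = 0 := fun t => Finset.prod_eq_zero (Finset.mem_univ k) (by
      rw [hz]; rfl)
    rw [Finset.prod_eq_zero (Finset.mem_univ k) hk]
    simp [h1]
  · push Not at h0
    have hpos : ∀ k, 0 < ‖z k‖ := fun k => lt_of_le_of_ne (norm_nonneg _) (Ne.symm (h0 k))
    have hsum : HasSum (fun t => (∏ k, ‖z k‖) * ∑ k, |z k t| ^ M / ‖z k‖ ^ M)
        ((∏ k, ‖z k‖) * M) := by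
      refine HasSum.mul_left _ ?_
      have h1 : HasSum (fun t => ∑ k, |z k t| ^ M / ‖z k‖ ^ M) (∑ _k : Fin M, (1 : ℝ)) := by
        refine hasSum_sum fun k _ => ?_
        have := (hasSum_pow hM (z k)).div_const (‖z k‖ ^ M)
        rwa [div_self (pow_pos (hpos k) M).ne'] at this
      simpa using h1
    have hle : ∀ t, ‖∏ k, z k t‖ ≤ (∏ k, ‖z k‖) * ∑ k, |z k t| ^ M / ‖z k‖ ^ M := by
      intro t
      rw [Real.norm_eq_abs, Finset.abs_prod]
      have h2 : ∏ k, |z k t| = (∏ k, ‖z k‖) * ∏ k, (|z k t| / ‖z k‖) := by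
        rw [← Finset.prod_mul_distrib]
        refine Finset.prod_congr rfl fun k _ => ?_
        rw [mul_div_cancel₀ _ (hpos k).ne']
      rw [h2]
      refine mul_le_mul_of_nonneg_left ?_ (Finset.prod_nonneg fun k _ => norm_nonneg _)
      refine (prod_le_sum_pow _ (fun k => by positivity) hM).trans_eq ?_
      exact Finset.sum_congr rfl fun k _ => div_pow _ _ _
    calc ‖∑' t, ∏ k, z k t‖ ≤ (∏ k, ‖z k‖) * M := tsum_of_norm_bounded hsum hle
      _ = _ := mul_comm _ _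

/-- The `M`-linear form `∑ₜ z₁(t) ⋯ z_M(t)`. -/
noncomputable def mform (hM : 1 ≤ M) [Fact (1 ≤ (M : ℝ≥0∞))] :
    ContinuousMultilinearMap ℝ (fun _ : Fin M => lp (fun _ : T => ℝ) (M : ℝ≥0∞)) ℝ :=
  MultilinearMap.mkContinuous
    { toFun := fun z => ∑' t, ∏ k, z k t
      map_update_add' := by
        intro _ z i x y
        have key : ∀ w : lp (fun _ : T => ℝ) (M : ℝ≥0∞), ∀ t,
            ∏ k, (Function.update z i w k) t = w t * ∏ k ∈ Finset.univ \ {i}, z k t := by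
          intro w t
          rw [← Finset.prod_update_of_mem (Finset.mem_univ i) (fun k => z k t) (w t)]
          refine Finset.prod_congr rfl fun k _ => ?_
          exact Function.apply_update (fun _ (v : lp (fun _ : T => ℝ) (M : ℝ≥0∞)) => v t) z i w k
        have hs1 := summable_prod hM (Function.update z i x)
        have hs2 := summable_prod hM (Function.update z i y)
        rw [← hs1.tsum_add hs2]
        refine tsum_congr fun t => ?_
        rw [key, key, key, lp.coeFn_add, Pi.add_apply, add_mul]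
      map_update_smul' := by
        intro _ z i c x
        have key : ∀ w : lp (fun _ : T => ℝ) (M : ℝ≥0∞), ∀ t,
            ∏ k, (Function.update z i w k) t = w t * ∏ k ∈ Finset.univ \ {i}, z k t := by
          intro w t
          rw [← Finset.prod_update_of_mem (Finset.mem_univ i) (fun k => z k t) (w t)]
          refine Finset.prod_congr rfl fun k _ => ?_
          exact Function.apply_update (fun _ (v : lp (fun _ : T => ℝ) (M : ℝ≥0∞)) => v t) z i w k
        rw [smul_eq_mul, ← tsum_mul_left]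
        refine tsum_congr fun t => ?_
        rw [key, key, lp.coeFn_smul, Pi.smul_apply, smul_eq_mul, mul_assoc] }
    M (fun z => tsum_prod_le hM z)

theorem mform_apply (hM : 1 ≤ M) [Fact (1 ≤ (M : ℝ≥0∞))]
    (z : Fin M → lp (fun _ : T => ℝ) (M : ℝ≥0∞)) : mform hM z = ∑' t, ∏ k, z k t := rfl

theorem mform_diag (hM : 1 ≤ M) (hev : Even M) [Fact (1 ≤ (M : ℝ≥0∞))]
    (z : lp (fun _ : T => ℝ) (M : ℝ≥0∞)) : mform hM (fun _ => z) = ‖z‖ ^ M := by
  rw [mform_apply, ← (hasSum_pow hM z).tsum_eq]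
  refine tsum_congr fun t => ?_
  rw [Finset.prod_const, Finset.card_univ, Fintype.card_fin, hev.pow_abs]

/-- The bump function. -/
noncomputable def bump (hM : 1 ≤ M) [Fact (1 ≤ (M : ℝ≥0∞))]
    (z : lp (fun _ : T => ℝ) (M : ℝ≥0∞)) : ℝ :=
  Real.smoothTransition (1 - 4 ^ M * mform hM fun _ => z)

theorem bump_zero (hM : 1 ≤ M) (hev : Even M) [Fact (1 ≤ (M : ℝ≥0∞))] :
    bump hM (0 : lp (fun _ : T => ℝ) (M : ℝ≥0∞)) = 1 := by
  rw [bump, mform_diag hM hev, norm_zero, zero_pow (by omega), mul_zero, sub_zero,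
    Real.smoothTransition.one]

theorem bump_nonneg (hM : 1 ≤ M) [Fact (1 ≤ (M : ℝ≥0∞))]
    (z : lp (fun _ : T => ℝ) (M : ℝ≥0∞)) : 0 ≤ bump hM z := Real.smoothTransition.nonneg _

theorem bump_le_one (hM : 1 ≤ M) [Fact (1 ≤ (M : ℝ≥0∞))]
    (z : lp (fun _ : T => ℝ) (M : ℝ≥0∞)) : bump hM z ≤ 1 := Real.smoothTransition.le_one _

theorem norm_lt_of_bump (hM : 1 ≤ M) (hev : Even M) [Fact (1 ≤ (M : ℝ≥0∞))]
    {z : lp (fun _ : T => ℝ) (M : ℝ≥0∞)} (h : bump hM z ≠ 0) : ‖z‖ < 1 / 4 := by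
  by_contra hz
  push Not at hz
  refine h (Real.smoothTransition.zero_of_nonpos ?_)
  rw [mform_diag hM hev]
  have h1 : (1 / 4 : ℝ) ^ M ≤ ‖z‖ ^ M := pow_le_pow_left₀ (by norm_num) hz M
  have h2 : (4 : ℝ) ^ M * (1 / 4) ^ M = 1 := by rw [← mul_pow]; norm_num
  have h3 : (4 : ℝ) ^ M * (1 / 4) ^ M ≤ 4 ^ M * ‖z‖ ^ M :=
    mul_le_mul_of_nonneg_left h1 (by positivity)
  linarith

theorem diag_contDiff (hM : 1 ≤ M) [Fact (1 ≤ (M : ℝ≥0∞))] :
    ContDiff ℝ ∞ fun z : lp (fun _ : T => ℝ) (M : ℝ≥0∞) => mform hM fun _ => z := by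
  have h : (fun z : lp (fun _ : T => ℝ) (M : ℝ≥0∞) => mform hM fun _ => z) =
      (mform hM) ∘ (ContinuousLinearMap.pi fun _ : Fin M =>
        ContinuousLinearMap.id ℝ (lp (fun _ : T => ℝ) (M : ℝ≥0∞))) := rfl
  rw [h]
  exact (mform hM).contDiff.comp (ContinuousLinearMap.contDiff _)

theorem diag_bound (hM : 1 ≤ M) [Fact (1 ≤ (M : ℝ≥0∞))] (i : ℕ) :
    ∃ C : ℝ, 0 ≤ C ∧ ∀ z : lp (fun _ : T => ℝ) (M : ℝ≥0∞), ‖z‖ ≤ 1 →
      ‖iteratedFDeriv ℝ i (fun z : lp (fun _ : T => ℝ) (M : ℝ≥0∞) => mform hM fun _ => z) z‖ ≤ C := by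
  set D : lp (fun _ : T => ℝ) (M : ℝ≥0∞) →L[ℝ] (Fin M → lp (fun _ : T => ℝ) (M : ℝ≥0∞)) :=
    ContinuousLinearMap.pi fun _ : Fin M =>
        ContinuousLinearMap.id ℝ (lp (fun _ : T => ℝ) (M : ℝ≥0∞)) with hD
  set m : ContinuousMultilinearMap ℝ (fun _ : Fin M => lp (fun _ : T => ℝ) (M : ℝ≥0∞)) ℝ :=
    mform hM with hm
  refine ⟨(Nat.descFactorial (Fintype.card (Fin M)) i * ‖m‖ * 1) * ‖D‖ ^ i, by positivity,
    fun z hz => ?_⟩
  have h : (fun z : lp (fun _ : T => ℝ) (M : ℝ≥0∞) => mform hM fun _ => z) = m ∘ D := rfl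
  rw [h, D.iteratedFDeriv_comp_right m.contDiff z (i := i) (by exact_mod_cast le_top)]
  refine (ContinuousMultilinearMap.norm_compContinuousLinearMap_le _ _).trans ?_
  rw [Finset.prod_const, Finset.card_univ, Fintype.card_fin]
  refine mul_le_mul_of_nonneg_right ?_ (by positivity)
  refine (m.norm_iteratedFDeriv_le i (D z)).trans ?_
  refine mul_le_mul_of_nonneg_left ?_ (by positivity)
  refine pow_le_one₀ (norm_nonneg _) ?_
  rw [pi_norm_le_iff_of_nonneg zero_le_one]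
  intro k
  exact hz

theorem bump_UBD (hM : 1 ≤ M) (hev : Even M) [Fact (1 ≤ (M : ℝ≥0∞))] :
    UBD fun (_ : Unit) (z : lp (fun _ : T => ℝ) (M : ℝ≥0∞)) => bump hM z := by
  have hg : ContDiff ℝ ∞ fun q : ℝ => Real.smoothTransition (1 - 4 ^ M * q) :=
    Real.smoothTransition.contDiff.comp (contDiff_const.sub (contDiff_const.mul contDiff_id))
  have hcd : ContDiff ℝ ∞ (fun z : lp (fun _ : T => ℝ) (M : ℝ≥0∞) => bump hM z) :=
    hg.comp (diag_contDiff hM)
  refine ⟨fun _ => hcd, fun m => ?_⟩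
  choose C hC0 hC using diag_bound (T := T) hM
  have hg' : ∀ i : ℕ, ∃ D : ℝ, ∀ t ∈ Set.Icc (0 : ℝ) 1,
      ‖iteratedFDeriv ℝ i (fun q : ℝ => Real.smoothTransition (1 - 4 ^ M * q)) t‖ ≤ D := by
    intro i
    exact isCompact_Icc.exists_bound_of_continuousOn
      (hg.continuous_iteratedFDeriv (by exact_mod_cast le_top)).continuousOn
  choose D hD using hg'
  set A : ℝ := ∑ i ∈ Finset.range (m + 1), |D i| with hA
  set B : ℝ := 1 + ∑ i ∈ Finset.range (m + 1), C i with hB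
  have hB1 : 1 ≤ B := by
    rw [hB]
    have := Finset.sum_nonneg (s := Finset.range (m + 1)) fun i _ => hC0 i
    linarith
  have hA0 : 0 ≤ A := Finset.sum_nonneg fun i _ => abs_nonneg _
  refine ⟨m.factorial * A * B ^ m, by positivity, fun _ z => ?_⟩
  rcases le_or_gt ‖z‖ 1 with hz | hz
  · have hcomp : (fun z : lp (fun _ : T => ℝ) (M : ℝ≥0∞) => bump hM z) =
        (fun q : ℝ => Real.smoothTransition (1 - 4 ^ M * q)) ∘
        (fun z : lp (fun _ : T => ℝ) (M : ℝ≥0∞) => mform hM fun _ => z) := rfl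
    rw [hcomp]
    refine norm_iteratedFDeriv_comp_le hg (diag_contDiff hM) (by exact_mod_cast le_top) z ?_ ?_
    · intro i hi
      have h1 : (mform hM fun _ => z) ∈ Set.Icc (0 : ℝ) 1 := by
        rw [mform_diag hM hev]
        exact ⟨by positivity, pow_le_one₀ (norm_nonneg _) hz⟩
      calc _ ≤ D i := hD i _ h1
        _ ≤ |D i| := le_abs_self _
        _ ≤ A := Finset.single_le_sum (f := fun i => |D i|) (fun i _ => abs_nonneg _)
            (Finset.mem_range.2 (by omega))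
    · intro i hi1 hi
      calc _ ≤ C i := hC i z hz
        _ ≤ B := by
            have := Finset.single_le_sum (f := C) (fun i _ => hC0 i)
              (Finset.mem_range.2 (show i < m + 1 by omega))
            rw [hB]
            linarith
        _ ≤ B ^ i := le_self_pow₀ hB1 (by omega)
  · have hev0 : (fun z : lp (fun _ : T => ℝ) (M : ℝ≥0∞) => bump hM z) =ᶠ[nhds z] fun _ => 0 := by
      have h1 : ∀ᶠ w : lp (fun _ : T => ℝ) (M : ℝ≥0∞) in nhds z, 1 < ‖w‖ :=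
        continuous_norm.continuousAt.eventually (lt_mem_nhds hz)
      filter_upwards [h1] with w hw
      by_contra hne
      have := norm_lt_of_bump hM hev hne
      linarith
    have h2 : iteratedFDeriv ℝ m (fun z : lp (fun _ : T => ℝ) (M : ℝ≥0∞) => bump hM z) z =
        iteratedFDeriv ℝ m (fun _ : lp (fun _ : T => ℝ) (M : ℝ≥0∞) => (0 : ℝ)) z :=
      (hev0.iteratedFDeriv ℝ m).eq_of_nhds
    rw [h2]
    have h3 : iteratedFDeriv ℝ m (fun _ : lp (fun _ : T => ℝ) (M : ℝ≥0∞) => (0 : ℝ)) z = 0 := by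
      rw [iteratedFDeriv_zero_fun]
      rfl
    rw [h3, norm_zero]
    positivity

end

end Pool.Agent.R269.SS
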