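import Pool.Agent.R269.SSb

/-!
# The smooth map attached to a tree
-/

set_option autoImplicit false

open scoped ENNReal ContDiff
open Filter Topology

namespace Pool.Agent.R269.SS

section
variable {T X F : Type} {M : ℕ} [NormedAddCommGroup X] [NormedSpace ℝ X] [NormedAddCommGroup F]
  [NormedSpace ℝ F]

/-- the thresholds -/
noncomputable def thr (j : ℕ) : ℝ := 1 - (1 / 2) ^ j

/-- the transition functions -/
noncomputable def om (j : ℕ) (q : ℝ) : ℝ := Real.smoothTransition ((q - thr j) / (1 / 2) ^ (j + 1))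

theorem om_contDiff (j : ℕ) : ContDiff ℝ ∞ (om j) :=
  Real.smoothTransition.contDiff.comp ((contDiff_id.sub contDiff_const).div_const _)

theorem om_nonneg (j : ℕ) (q : ℝ) : 0 ≤ om j q := Real.smoothTransition.nonneg _

theorem om_le_one (j : ℕ) (q : ℝ) : om j q ≤ 1 := Real.smoothTransition.le_one _

theorem thr_nonneg (j : ℕ) : 0 ≤ thr j := by
  have : (1 / 2 : ℝ) ^ j ≤ 1 := pow_le_one₀ (by norm_num) (by norm_num)
  unfold thr
  linarith

theorem om_zero (j : ℕ) : om j 0 = 0 := by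
  refine Real.smoothTransition.zero_of_nonpos ?_
  have := thr_nonneg j
  refine div_nonpos_of_nonpos_of_nonneg (by linarith) (by positivity)

theorem lt_of_om {j : ℕ} {q : ℝ} (h : om j q ≠ 0) : thr j < q := by
  by_contra hq
  push Not at hq
  refine h (Real.smoothTransition.zero_of_nonpos ?_)
  exact div_nonpos_of_nonpos_of_nonneg (by linarith) (by positivity)

theorem om_eq_one {j : ℕ} {q : ℝ} (h : thr (j + 1) ≤ q) : om j q = 1 := by
  refine Real.smoothTransition.one_of_one_le ?_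
  rw [one_le_div (by positivity)]
  have h1 : thr (j + 1) - thr j = (1 / 2) ^ (j + 1) := by
    unfold thr
    rw [pow_succ]
    ring
  linarith

variable [hF : Fact (1 ≤ (M : ℝ≥0∞))]

/-- the unit vectors -/
noncomputable def ev (M : ℕ) (t : T) : lp (fun _ : T => ℝ) (M : ℝ≥0∞) :=
  haveI := Classical.decEq T
  lp.single (M : ℝ≥0∞) t (1 : ℝ)

theorem ev_self (t : T) : (ev M t : lp (fun _ : T => ℝ) (M : ℝ≥0∞)) t = 1 := by
  classical
  unfold ev
  exact lp.single_apply_self _ _ _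

theorem ev_ne {s t : T} (h : s ≠ t) : (ev M t : lp (fun _ : T => ℝ) (M : ℝ≥0∞)) s = 0 := by
  classical
  unfold ev
  exact lp.single_apply_ne _ _ _ h

/-- the product of the bump functions -/
noncomputable def PP (hM : 1 ≤ M) (L : ℕ → X →L[ℝ] lp (fun _ : T => ℝ) (M : ℝ≥0∞)) (j : ℕ)
    (u : ℕ → T) (x : X) : ℝ := ∏ i ∈ Finset.range (j + 1), bump hM (L i x + -ev M (u i))

theorem PP_UBD (hM : 1 ≤ M) (hev : Even M) (L : ℕ → X →L[ℝ] lp (fun _ : T => ℝ) (M : ℝ≥0∞))
    (j : ℕ) : UBD (PP hM L j) := by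
  unfold PP
  exact UBD.prod (fun i => (bump_UBD hM hev).affine (L i) fun u : ℕ → T => -ev M (u i)) _

theorem G_UBD (hM : 1 ≤ M) (hev : Even M) (L : ℕ → X →L[ℝ] lp (fun _ : T => ℝ) (M : ℝ≥0∞))
    (j : ℕ) : UBD fun u x => om j (PP hM L j u x) := (PP_UBD hM hev L j).comp (om_contDiff j)

theorem PP_nonneg (hM : 1 ≤ M) (L : ℕ → X →L[ℝ] lp (fun _ : T => ℝ) (M : ℝ≥0∞)) (j : ℕ)
    (u : ℕ → T) (x : X) : 0 ≤ PP hM L j u x := Finset.prod_nonneg fun _ _ => bump_nonneg hM _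

theorem PP_succ (hM : 1 ≤ M) (L : ℕ → X →L[ℝ] lp (fun _ : T => ℝ) (M : ℝ≥0∞)) (j : ℕ)
    (u : ℕ → T) (x : X) :
    PP hM L (j + 1) u x = PP hM L j u x * bump hM (L (j + 1) x + -ev M (u (j + 1))) :=
  Finset.prod_range_succ _ _

theorem PP_succ_le (hM : 1 ≤ M) (L : ℕ → X →L[ℝ] lp (fun _ : T => ℝ) (M : ℝ≥0∞)) (j : ℕ)
    (u : ℕ → T) (x : X) : PP hM L (j + 1) u x ≤ PP hM L j u x := by
  rw [PP_succ]
  exact mul_le_of_le_one_right (PP_nonneg hM L j u x) (bump_le_one hM _)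

theorem PP_congr (hM : 1 ≤ M) (L : ℕ → X →L[ℝ] lp (fun _ : T => ℝ) (M : ℝ≥0∞)) {j : ℕ}
    {u u' : ℕ → T} (h : ∀ i ≤ j, u i = u' i) (x : X) : PP hM L j u x = PP hM L j u' x := by
  refine Finset.prod_congr rfl fun i hi => ?_
  rw [h i (by rw [Finset.mem_range] at hi; omega)]

theorem near_of_PP (hM : 1 ≤ M) (hev : Even M)
    {L : ℕ → X →L[ℝ] lp (fun _ : T => ℝ) (M : ℝ≥0∞)} {j : ℕ} {u : ℕ → T} {x : X}
    (h : PP hM L j u x ≠ 0) {i : ℕ} (hi : i ≤ j) : ‖L i x - ev M (u i)‖ < 1 / 4 := by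
  have h1 : bump hM (L i x + -ev M (u i)) ≠ 0 :=
    (Finset.prod_ne_zero_iff.1 h) i (Finset.mem_range.2 (by omega))
  have := norm_lt_of_bump hM hev h1
  rwa [← sub_eq_add_neg] at this

theorem uniq (hM : 1 ≤ M) (hev : Even M)
    {L : ℕ → X →L[ℝ] lp (fun _ : T => ℝ) (M : ℝ≥0∞)} {j : ℕ} {u u' : ℕ → T} {x x' : X}
    (h : PP hM L j u x ≠ 0) (h' : PP hM L j u' x' ≠ 0) (hx : ∀ i ≤ j, ‖L i (x - x')‖ < 1 / 4)
    {i : ℕ} (hi : i ≤ j) : u i = u' i := by
  by_contra hne
  have h1 := near_of_PP hM hev h hi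
  have h2 := near_of_PP hM hev h' hi
  have h3 := hx i hi
  have h4 : ‖ev M (u i) - ev M (u' i)‖ < 3 / 4 := by
    have : ev M (u i) - ev M (u' i) = -(L i x - ev M (u i)) + L i (x - x') +
        (L i x' - ev M (u' i)) := by
      rw [map_sub]
      abel
    rw [this]
    calc _ ≤ ‖-(L i x - ev M (u i)) + L i (x - x')‖ + ‖L i x' - ev M (u' i)‖ := norm_add_le _ _
      _ ≤ ‖-(L i x - ev M (u i))‖ + ‖L i (x - x')‖ + ‖L i x' - ev M (u' i)‖ := by
          gcongr
          exact norm_add_le _ _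
      _ < _ := by rw [norm_neg]; linarith
  have h5 := lp.norm_apply_le_norm (p := (M : ℝ≥0∞)) (by
    have : (1 : ℝ≥0∞) ≤ M := hF.1
    intro h0
    rw [h0] at this
    simp at this) (ev M (u i) - ev M (u' i)) (u i)
  rw [lp.coeFn_sub, Pi.sub_apply, ev_self, ev_ne hne, sub_zero, norm_one] at h5
  linarith

/-- The increments. -/
def inc (d : T → F) (u : ℕ → T) : ℕ → F
  | 0 => d (u 0)
  | j + 1 => d (u (j + 1)) - d (u j)

theorem inc_congr (d : T → F) {u u' : ℕ → T} {j : ℕ} (h : ∀ i ≤ j, u i = u' i) :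
    inc d u j = inc d u' j := by
  cases j with
  | zero => simp only [inc]; rw [h 0 le_rfl]
  | succ j => simp only [inc]; rw [h (j + 1) le_rfl, h j (by omega)]

theorem sum_inc (d : T → F) (u : ℕ → T) (n : ℕ) :
    ∑ j ∈ Finset.range (n + 1), inc d u j = d (u n) := by
  induction n with
  | zero => simp [inc]
  | succ n ih => rw [Finset.sum_range_succ, ih]; simp only [inc]; abel

open Classical in
/-- The terms of the series. -/
noncomputable def term (hM : 1 ≤ M) (L : ℕ → X →L[ℝ] lp (fun _ : T => ℝ) (M : ℝ≥0∞))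
    (Adm : ℕ → (ℕ → T) → Prop) (d : T → F) (j : ℕ) (x : X) : F :=
  if h : ∃ u, Adm j u ∧ PP hM L j u x ≠ 0 then om j (PP hM L j h.choose x) • inc d h.choose j
  else 0

section
variable {hM : 1 ≤ M} {L : ℕ → X →L[ℝ] lp (fun _ : T => ℝ) (M : ℝ≥0∞)}
  {Adm : ℕ → (ℕ → T) → Prop} {d : T → F}

theorem term_eq (hev : Even M) {j : ℕ} {u : ℕ → T} {x : X} (hA : Adm j u)
    (h : PP hM L j u x ≠ 0) : term hM L Adm d j x = om j (PP hM L j u x) • inc d u j := by
  have hex : ∃ u, Adm j u ∧ PP hM L j u x ≠ 0 := ⟨u, hA, h⟩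
  unfold term
  rw [dif_pos hex]
  have h1 : ∀ i ≤ j, hex.choose i = u i := fun i hi =>
    uniq hM hev hex.choose_spec.2 h (fun i _ => by rw [sub_self, map_zero, norm_zero]; norm_num) hi
  rw [PP_congr hM L h1, inc_congr d h1]

theorem term_zero {j : ℕ} {x : X} (h : ∀ u, Adm j u → PP hM L j u x = 0) :
    term hM L Adm d j x = 0 := by
  unfold term
  rw [dif_neg]
  rintro ⟨u, hA, hu⟩
  exact hu (h u hA)

theorem term_zero' (hev : Even M) {j : ℕ} {x : X} (h : ∀ u, Adm j u → om j (PP hM L j u x) = 0) :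
    term hM L Adm d j x = 0 := by
  by_cases hex : ∃ u, Adm j u ∧ PP hM L j u x ≠ 0
  · obtain ⟨u, hA, hu⟩ := hex
    rw [term_eq hev hA hu, h u hA, zero_smul]
  · push Not at hex
    exact term_zero hex

theorem exists_radius (L : ℕ → X →L[ℝ] lp (fun _ : T => ℝ) (M : ℝ≥0∞)) (j : ℕ) (x : X) :
    ∃ U ∈ 𝓝 x, ∀ y ∈ U, ∀ z ∈ U, ∀ i ≤ j, ‖L i (y - z)‖ < 1 / 4 := by
  have h1 : ∀ i ∈ Finset.range (j + 1), ∀ᶠ y in 𝓝 x, ‖L i y - L i x‖ < 1 / 8 := by
    intro i _
    have hc : Tendsto (fun y => ‖L i y - L i x‖) (𝓝 x) (𝓝 0) := by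
      have h := ((L i).continuous.sub (continuous_const (y := L i x))).norm.tendsto x
      simpa using h
    exact hc.eventually (gt_mem_nhds (by norm_num))
  have h2 := (Finset.eventually_all _).2 h1
  refine ⟨_, h2, fun y hy z hz i hi => ?_⟩
  have hy' := hy i (Finset.mem_range.2 (by omega))
  have hz' := hz i (Finset.mem_range.2 (by omega))
  have : L i (y - z) = (L i y - L i x) - (L i z - L i x) := by
    rw [map_sub]
    abel
  rw [this]
  exact (norm_sub_le _ _).trans_lt (by linarith)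

/-- Locally, each term is a single function (or zero). -/
theorem term_local (hev : Even M) (j : ℕ) (x : X) :
    (term hM L Adm d j =ᶠ[𝓝 x] fun _ => 0) ∨ ∃ u, Adm j u ∧
      term hM L Adm d j =ᶠ[𝓝 x] fun y => om j (PP hM L j u y) • inc d u j := by
  obtain ⟨U, hU, hUr⟩ := exists_radius L j x
  by_cases hex : ∃ u, Adm j u ∧ ∃ y ∈ U, PP hM L j u y ≠ 0
  · obtain ⟨u, hA, y, hy, hPy⟩ := hex
    refine Or.inr ⟨u, hA, ?_⟩
    filter_upwards [hU] with z hz
    by_cases hz' : ∃ v, Adm j v ∧ PP hM L j v z ≠ 0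
    · obtain ⟨v, hAv, hv⟩ := hz'
      have h1 : ∀ i ≤ j, v i = u i := fun i hi => uniq hM hev hv hPy (hUr z hz y hy) hi
      rw [term_eq hev hAv hv, PP_congr hM L h1, inc_congr d h1]
    · push Not at hz'
      rw [term_zero hz', hz' u hA, om_zero, zero_smul]
  · push Not at hex
    refine Or.inl ?_
    filter_upwards [hU] with z hz
    exact term_zero fun u hA => hex u hA z hz

theorem single_contDiff (hev : Even M) (j : ℕ) (u : ℕ → T) :
    ContDiff ℝ ∞ fun y => om j (PP hM L j u y) • inc d u j :=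
  ((G_UBD hM hev L j).1 u).smul contDiff_const

theorem term_contDiff (hev : Even M) (j : ℕ) :
    ContDiff ℝ ∞ (term hM L Adm d j) := by
  rw [contDiff_iff_contDiffAt]
  intro x
  rcases term_local (Adm := Adm) (d := d) (hM := hM) (L := L) hev j x with h | ⟨u, -, h⟩
  · exact contDiffAt_const.congr_of_eventuallyEq h
  · exact (single_contDiff hev j u).contDiffAt.congr_of_eventuallyEq h

theorem norm_single_le (hev : Even M) {j m : ℕ} {C : ℝ}
    (hC : ∀ u x, ‖iteratedFDeriv ℝ m (fun x => om j (PP hM L j u x)) x‖ ≤ C) (u : ℕ → T) (x : X) :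
    ‖iteratedFDeriv ℝ m (fun y => om j (PP hM L j u y) • inc d u j) x‖ ≤ ‖inc d u j‖ * C := by
  have h1 : (fun y => om j (PP hM L j u y) • inc d u j) =
      (ContinuousLinearMap.toSpanSingleton ℝ (inc d u j)) ∘ fun y => om j (PP hM L j u y) := by
    funext y
    simp [ContinuousLinearMap.toSpanSingleton_apply]
  rw [h1]
  have h2 : ContDiff ℝ ∞ fun y => om j (PP hM L j u y) := (G_UBD hM hev L j).1 u
  have h3 := (ContinuousLinearMap.toSpanSingleton ℝ (inc d u j)).norm_iteratedFDeriv_comp_left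
    (f := fun y => om j (PP hM L j u y)) (x := x) (n := m) (N := ∞) h2.contDiffAt
    (by exact_mod_cast le_top)
  refine h3.trans ?_
  rw [ContinuousLinearMap.norm_toSpanSingleton]
  exact mul_le_mul_of_nonneg_left (hC u x) (norm_nonneg _)

end

end

end Pool.Agent.R269.SS
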