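import Pool.Agent.R269.SSc

/-!
# The smooth map attached to a tree: the sum of the series
-/

set_option autoImplicit false

open scoped ENNReal ContDiff
open Filter Topology

namespace Pool.Agent.R269.SS

section
variable {T X F : Type} {M : ℕ} [NormedAddCommGroup X] [NormedSpace ℝ X] [NormedAddCommGroup F]
  [NormedSpace ℝ F] [hF : Fact (1 ≤ (M : ℝ≥0∞))]

/-- the bounds of the derivatives -/
noncomputable def CC (hM : 1 ≤ M) (hev : Even M) (L : ℕ → X →L[ℝ] lp (fun _ : T => ℝ) (M : ℝ≥0∞))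
    (m j : ℕ) : ℝ := ((G_UBD hM hev L j).2 m).choose

theorem CC_nonneg (hM : 1 ≤ M) (hev : Even M) (L : ℕ → X →L[ℝ] lp (fun _ : T => ℝ) (M : ℝ≥0∞))
    (m j : ℕ) : 0 ≤ CC hM hev L m j := ((G_UBD hM hev L j).2 m).choose_spec.1

theorem CC_spec (hM : 1 ≤ M) (hev : Even M) (L : ℕ → X →L[ℝ] lp (fun _ : T => ℝ) (M : ℝ≥0∞))
    (m j : ℕ) (u : ℕ → T) (x : X) :
    ‖iteratedFDeriv ℝ m (fun x => om j (PP hM L j u x)) x‖ ≤ CC hM hev L m j :=
  ((G_UBD hM hev L j).2 m).choose_spec.2 u x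

/-- the tolerances -/
noncomputable def mu (hM : 1 ≤ M) (hev : Even M) (L : ℕ → X →L[ℝ] lp (fun _ : T => ℝ) (M : ℝ≥0∞))
    (j : ℕ) : ℝ := (1 / 2) ^ j / (2 * (1 + ∑ m ∈ Finset.range (j + 1), CC hM hev L m j))

theorem mu_den (hM : 1 ≤ M) (hev : Even M) (L : ℕ → X →L[ℝ] lp (fun _ : T => ℝ) (M : ℝ≥0∞))
    (j : ℕ) : 1 ≤ 1 + ∑ m ∈ Finset.range (j + 1), CC hM hev L m j := by
  have := Finset.sum_nonneg (s := Finset.range (j + 1)) fun m _ => CC_nonneg hM hev L m j
  linarith

theorem mu_pos (hM : 1 ≤ M) (hev : Even M) (L : ℕ → X →L[ℝ] lp (fun _ : T => ℝ) (M : ℝ≥0∞))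
    (j : ℕ) : 0 < mu hM hev L j := by
  have := mu_den hM hev L j
  unfold mu
  positivity

theorem mu_mul_le (hM : 1 ≤ M) (hev : Even M) (L : ℕ → X →L[ℝ] lp (fun _ : T => ℝ) (M : ℝ≥0∞))
    {m j : ℕ} (h : m ≤ j) : 2 * mu hM hev L j * CC hM hev L m j ≤ (1 / 2) ^ j := by
  have h1 := mu_den hM hev L j
  have h2 : CC hM hev L m j ≤ 1 + ∑ m ∈ Finset.range (j + 1), CC hM hev L m j := by
    have := Finset.single_le_sum (f := fun m => CC hM hev L m j)
      (fun m _ => CC_nonneg hM hev L m j) (Finset.mem_range.2 (show m < j + 1 by omega))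
    linarith
  set S := 1 + ∑ m ∈ Finset.range (j + 1), CC hM hev L m j with hS
  have h3 : 2 * mu hM hev L j = (1 / 2) ^ j / S := by
    unfold mu
    rw [← hS]
    field_simp
  rw [h3, div_mul_eq_mul_div, div_le_iff₀ (by linarith)]
  exact mul_le_mul_of_nonneg_left h2 (by positivity)

theorem mu_le (hM : 1 ≤ M) (hev : Even M) (L : ℕ → X →L[ℝ] lp (fun _ : T => ℝ) (M : ℝ≥0∞))
    (j : ℕ) : 2 * mu hM hev L j ≤ (1 / 2) ^ j := by
  have h1 := mu_den hM hev L j
  set S := 1 + ∑ m ∈ Finset.range (j + 1), CC hM hev L m j with hS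
  have h3 : 2 * mu hM hev L j = (1 / 2) ^ j / S := by
    unfold mu
    rw [← hS]
    field_simp
  rw [h3]
  exact div_le_self (by positivity) h1

/-- The map. -/
noncomputable def hh (hM : 1 ≤ M) (L : ℕ → X →L[ℝ] lp (fun _ : T => ℝ) (M : ℝ≥0∞))
    (Adm : ℕ → (ℕ → T) → Prop) (d : T → F) (x : X) : F := ∑' j, term hM L Adm d j x

variable {hM : 1 ≤ M} {hev : Even M} {L : ℕ → X →L[ℝ] lp (fun _ : T => ℝ) (M : ℝ≥0∞)}
  {Adm : ℕ → (ℕ → T) → Prop} {d : T → F}

theorem norm_term_le (hA3 : ∀ j u, Adm (j + 1) u → ‖d (u (j + 1)) - d (u j)‖ ≤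
    2 * mu hM hev L (j + 1)) {k j : ℕ} (hkj : k ≤ j) (hj : 1 ≤ j) (x : X) :
    ‖iteratedFDeriv ℝ k (term hM L Adm d j) x‖ ≤ (1 / 2) ^ j := by
  obtain ⟨j, rfl⟩ := Nat.exists_eq_add_of_le' hj
  rcases term_local (Adm := Adm) (d := d) (hM := hM) (L := L) hev (j + 1) x with h | ⟨u, hA, h⟩
  · have h2 := (h.iteratedFDeriv ℝ k).eq_of_nhds
    rw [h2, iteratedFDeriv_zero_fun, Pi.zero_apply, norm_zero]
    positivity
  · have h2 := (h.iteratedFDeriv ℝ k).eq_of_nhds
    rw [h2]
    refine (norm_single_le hev (CC_spec hM hev L k (j + 1)) u x).trans ?_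
    refine le_trans (mul_le_mul_of_nonneg_right (hA3 j u hA) (CC_nonneg hM hev L k (j + 1))) ?_
    exact mu_mul_le hM hev L hkj

theorem hh_contDiff [CompleteSpace F] (hA3 : ∀ j u, Adm (j + 1) u → ‖d (u (j + 1)) - d (u j)‖ ≤
    2 * mu hM hev L (j + 1)) : ContDiff ℝ ∞ (hh hM L Adm d) := by
  have key := contDiff_tsum_of_eventually (𝕜 := ℝ) (N := (⊤ : ℕ∞)) (f := term hM L Adm d)
    (v := fun _ j => (1 / 2 : ℝ) ^ j) (fun j => term_contDiff hev j)
    (fun k _ => summable_geometric_two) (fun k _ => by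
      rw [Nat.cofinite_eq_atTop]
      filter_upwards [eventually_ge_atTop (max k 1)] with j hj x
      exact norm_term_le hA3 (le_trans (le_max_left _ _) hj) (le_trans (le_max_right _ _) hj) x)
  exact key

theorem summable_inc [CompleteSpace F]
    (hA3 : ∀ j u, Adm (j + 1) u → ‖d (u (j + 1)) - d (u j)‖ ≤ 2 * mu hM hev L (j + 1))
    {u : ℕ → T} (hu : ∀ j, Adm j u) : Summable (inc d u) := by
  rw [← summable_nat_add_iff 1]
  refine Summable.of_norm_bounded (g := fun j => (1 / 2 : ℝ) ^ (j + 1))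
    ((summable_nat_add_iff 1).2 summable_geometric_two) fun j => ?_
  exact (hA3 j u (hu (j + 1))).trans (mu_le hM hev L (j + 1))

theorem tendsto_of_sum [CompleteSpace F]
    (hA3 : ∀ j u, Adm (j + 1) u → ‖d (u (j + 1)) - d (u j)‖ ≤ 2 * mu hM hev L (j + 1))
    {u : ℕ → T} (hu : ∀ j, Adm j u) : Tendsto (fun j => d (u j)) atTop (𝓝 (∑' j, inc d u j)) := by
  have h1 := (summable_inc hA3 hu).hasSum.tendsto_sum_nat
  have h2 := (tendsto_add_atTop_iff_nat 1).2 h1
  simpa only [sum_inc] using h2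

theorem P1 [CompleteSpace F]
    (hA3 : ∀ j u, Adm (j + 1) u → ‖d (u (j + 1)) - d (u j)‖ ≤ 2 * mu hM hev L (j + 1))
    {u : ℕ → T} (hu : ∀ j, Adm j u) {y : F} (hy : Tendsto (fun j => d (u j)) atTop (𝓝 y)) {x : X}
    (hx : ∀ i, L i x = ev M (u i)) : hh hM L Adm d x = y := by
  have h1 : ∀ j, PP hM L j u x = 1 := fun j => Finset.prod_eq_one fun i _ => by
    rw [hx i, add_neg_cancel, bump_zero hM hev]
  have h2 : ∀ j, term hM L Adm d j x = inc d u j := fun j => by
    rw [term_eq hev (hu j) (by rw [h1]; exact one_ne_zero), h1, om_eq_one, one_smul]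
    unfold thr
    have : (0 : ℝ) ≤ (1 / 2) ^ (j + 1) := by positivity
    linarith
  unfold hh
  simp_rw [h2]
  exact tendsto_nhds_unique (tendsto_of_sum hA3 hu) hy

theorem P2 [CompleteSpace F] (hA1 : ∀ j u, Adm (j + 1) u → Adm j u)
    (hA2 : ∀ j u u', (∀ i ≤ j, u i = u' i) → Adm j u → Adm j u')
    (hA3 : ∀ j u, Adm (j + 1) u → ‖d (u (j + 1)) - d (u j)‖ ≤ 2 * mu hM hev L (j + 1)) (x : X) :
    (∃ a ∈ insert 0 (Set.range d), ∃ b ∈ insert 0 (Set.range d), ∃ c : ℝ,
      hh hM L Adm d x = a + c • (b - a)) ∨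
    ∃ u, (∀ j, Adm j u) ∧ Tendsto (fun j => d (u j)) atTop (𝓝 (hh hM L Adm d x)) ∧
      ∀ i, (L i x : lp (fun _ : T => ℝ) (M : ℝ≥0∞)) (u i) ≠ 0 := by
  -- activity
  set A : ℕ → Prop := fun j => ∃ u, Adm j u ∧ om j (PP hM L j u x) ≠ 0 with hAdef
  have hPne : ∀ {j : ℕ} {u : ℕ → T}, om j (PP hM L j u x) ≠ 0 → PP hM L j u x ≠ 0 := by
    intro j u h h0
    rw [h0, om_zero] at h
    exact h rfl
  have hstep : ∀ {j : ℕ} {u : ℕ → T}, om (j + 1) (PP hM L (j + 1) u x) ≠ 0 →
      om j (PP hM L j u x) = 1 := by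
    intro j u h
    refine om_eq_one ?_
    exact (lt_of_om h).le.trans (PP_succ_le hM L j u x)
  have hAs : ∀ j, A (j + 1) → A j := by
    rintro j ⟨u, hu, h⟩
    exact ⟨u, hA1 j u hu, by rw [hstep h]; exact one_ne_zero⟩
  have hdown : ∀ {j : ℕ} {u : ℕ → T}, Adm j u → om j (PP hM L j u x) ≠ 0 → ∀ i < j,
      Adm i u ∧ om i (PP hM L i u x) = 1 := by
    intro j
    induction j with
    | zero => intro u _ _ i hi; omega
    | succ j ih =>
      intro u hu h i hi
      have h1 := hA1 j u hu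
      have h2 := hstep h
      rcases Nat.lt_succ_iff_lt_or_eq.1 hi with h3 | rfl
      · exact ih h1 (by rw [h2]; exact one_ne_zero) i h3
      · exact ⟨h1, h2⟩
  have hterm0 : ∀ j, ¬ A j → term hM L Adm d j x = 0 := by
    intro j hj
    refine term_zero' hev fun u hu => ?_
    by_contra h
    exact hj ⟨u, hu, h⟩
  by_cases hall : ∀ j, A j
  · right
    choose U hU1 hU2 using hall
    set u : ℕ → T := fun i => U i i with hu
    have hagree : ∀ j, ∀ i ≤ j, U j i = u i := by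
      intro j i hij
      rcases hij.eq_or_lt with rfl | hlt
      · rfl
      · have h1 : PP hM L i (U j) x ≠ 0 := hPne (by
          rw [(hdown (hU1 j) (hU2 j) i hlt).2]; exact one_ne_zero)
        have h2 : PP hM L i (U i) x ≠ 0 := hPne (hU2 i)
        exact uniq hM hev h1 h2 (fun i _ => by rw [sub_self, map_zero, norm_zero]; norm_num) le_rfl
    have hAu : ∀ j, Adm j u := fun j => hA2 j (U j) u (hagree j) (hU1 j)
    have hom : ∀ j, om j (PP hM L j u x) ≠ 0 := fun j => by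
      rw [← PP_congr hM L (hagree j) x]
      exact hU2 j
    have hom1 : ∀ j, om j (PP hM L j u x) = 1 := fun j => hstep (hom (j + 1))
    have ht : ∀ j, term hM L Adm d j x = inc d u j := fun j => by
      rw [term_eq hev (hAu j) (hPne (hom j)), hom1, one_smul]
    refine ⟨u, hAu, ?_, fun i => ?_⟩
    · have := tendsto_of_sum hA3 hAu
      unfold hh
      simp_rw [ht]
      exact this
    · have h1 := near_of_PP hM hev (hPne (hom i)) (le_refl i)
      intro h0
      have h2 := lp.norm_apply_le_norm (p := (M : ℝ≥0∞)) (by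
        have : (1 : ℝ≥0∞) ≤ M := hF.1
        intro h0
        rw [h0] at this
        simp at this) (L i x - ev M (u i)) (u i)
      rw [lp.coeFn_sub, Pi.sub_apply, ev_self, h0, zero_sub, norm_neg, norm_one] at h2
      linarith
  · left
    have hmono : ∀ i j, i ≤ j → A j → A i := by
      intro i j hij
      induction j, hij using Nat.le_induction with
      | base => exact id
      | succ j _ ih => exact fun h => ih (hAs j h)
    push Not at hall
    classical
    have hfind := Nat.find_spec hall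
    have hmin := fun i => Nat.find_min (m := i) hall
    generalize Nat.find hall = n at hfind hmin
    have hz : ∀ j, n ≤ j → term hM L Adm d j x = 0 := fun j hj =>
      hterm0 j fun h => hfind (hmono n j hj h)
    have hsum : hh hM L Adm d x = ∑ j ∈ Finset.range n, term hM L Adm d j x :=
      tsum_eq_sum fun j hj => hz j (by rw [Finset.mem_range] at hj; omega)
    rcases n with _ | n
    · refine ⟨0, Set.mem_insert _ _, 0, Set.mem_insert _ _, 0, ?_⟩
      rw [hsum]
      simp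
    · obtain ⟨u, hu, hne⟩ : A n := not_not.1 (hmin n (Nat.lt_succ_self n))
      have ht : ∀ i < n, term hM L Adm d i x = inc d u i := by
        intro i hi
        obtain ⟨h1, h2⟩ := hdown hu hne i hi
        rw [term_eq hev h1 (hPne (by rw [h2]; exact one_ne_zero)), h2, one_smul]
      have ht' : term hM L Adm d n x = om n (PP hM L n u x) • inc d u n :=
        term_eq hev hu (hPne hne)
      rw [hsum, Finset.sum_range_succ, ht',
        Finset.sum_congr rfl fun i hi => ht i (Finset.mem_range.1 hi)]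
      rcases n with _ | n
      · refine ⟨0, Set.mem_insert _ _, d (u 0), Set.mem_insert_of_mem _ ⟨_, rfl⟩,
          om 0 (PP hM L 0 u x), ?_⟩
        simp [inc]
      · refine ⟨d (u n), Set.mem_insert_of_mem _ ⟨_, rfl⟩, d (u (n + 1)),
          Set.mem_insert_of_mem _ ⟨_, rfl⟩, om (n + 1) (PP hM L (n + 1) u x), ?_⟩
        rw [sum_inc]
        simp only [inc]

end

end Pool.Agent.R269.SS
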