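import Mathlib

/-!
# Auxiliary facts: a well-order of type `ω₁`, biorthogonal sequences, lines
-/

set_option autoImplicit false

open scoped ENNReal ContDiff
open Filter Topology

namespace Pool.Agent.R269.SS

/-! ### The first uncountable well-order -/

/-- A well-ordered set of type `ω₁`. -/
abbrev OO : Type := (Cardinal.aleph 1).ord.ToType

theorem mk_OO : Cardinal.mk OO = Cardinal.aleph 1 := Cardinal.mk_ord_toType _

theorem OO_Iio_countable (a : OO) : (Set.Iio a).Countable := by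
  rw [← Cardinal.le_aleph0_iff_set_countable]
  have h : Cardinal.mk (Set.Iio a) < Cardinal.aleph 1 := by
    have h1 := Cardinal.mk_Iio_lt a (by rw [mk_OO, Ordinal.type_toType])
    rwa [mk_OO] at h1
  have h2 : Cardinal.mk (Set.Iio a) < Order.succ Cardinal.aleph0 := by
    rw [Cardinal.succ_aleph0]
    exact h
  exact Order.lt_succ_iff.1 h2

theorem OO_Iic_countable (a : OO) : (Set.Iic a).Countable := by
  rw [← Set.Iio_insert]
  exact (OO_Iio_countable a).insert a

theorem OO_bound {S : Set OO} (hS : S.Countable) : ∃ b : OO, ∀ s ∈ S, s < b := by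
  by_contra h
  push Not at h
  have hcov : (Set.univ : Set OO) ⊆ ⋃ s ∈ S, Set.Iic s := by
    intro b _
    obtain ⟨s, hs, hb⟩ := h b
    exact Set.mem_biUnion hs hb
  have hc : (Set.univ : Set OO).Countable :=
    (hS.biUnion fun s _ => OO_Iic_countable s).mono hcov
  rw [← Cardinal.le_aleph0_iff_set_countable, Cardinal.mk_univ, mk_OO] at hc
  exact absurd hc (not_le.2 Cardinal.aleph0_lt_aleph_one)

/-- Well-founded relations on `ℕ` are ranked in `OO`. -/
theorem OO_rank {r : ℕ → ℕ → Prop} (hr : WellFounded r) :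
    ∃ w : ℕ → OO, ∀ m n, r m n → w m < w n := by
  have key : ∀ n : ℕ, ∀ f : (m : ℕ) → r m n → OO, ∃ b : OO, ∀ m (h : r m n), f m h < b := by
    intro n f
    have hc : (Set.range fun x : {m // r m n} => f x.1 x.2).Countable := Set.countable_range _
    obtain ⟨b, hb⟩ := OO_bound hc
    exact ⟨b, fun m h => hb _ ⟨⟨m, h⟩, rfl⟩⟩
  choose g hg using key
  refine ⟨hr.fix g, fun m n hmn => ?_⟩
  rw [hr.fix_eq g n]
  exact hg n (fun m _ => hr.fix g m) m hmn

/-- A countable set of the first uncountable order cannot rank all countable well-orders. -/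
theorem OO_large {S : Set OO} (hS : S.Countable) :
    ∃ r : ℕ → ℝ, (∀ n, |r n| ≤ 1) ∧ (∀ k : ℕ → ℕ, ¬ ∀ i, r (k (i + 1)) < r (k i)) ∧
      ∀ w : ℕ → OO, (∀ n, w n ∈ S) → ¬ ∀ m n, r m < r n → w m < w n := by
  obtain ⟨θ, hθ⟩ := OO_bound hS
  haveI : Countable (Set.Iic θ) := (OO_Iic_countable θ).to_subtype
  have hne : Nonempty (Set.Iic θ) := ⟨⟨θ, Set.mem_Iic.2 le_rfl⟩⟩
  obtain ⟨ν, hν⟩ := exists_surjective_nat (Set.Iic θ)
  have hnt : Nontrivial (Set.Ioo (0 : ℚ) 1) :=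
    ⟨⟨⟨1 / 3, Set.mem_Ioo.2 ⟨by norm_num, by norm_num⟩⟩,
      ⟨1 / 2, Set.mem_Ioo.2 ⟨by norm_num, by norm_num⟩⟩, fun h => by
        have h' := congrArg Subtype.val h
        norm_num at h'⟩⟩
  obtain ⟨ι⟩ := Order.embedding_from_countable_to_dense (Set.Iic θ) (Set.Ioo (0 : ℚ) 1)
  have hmono : ∀ a b : Set.Iic θ, ((ι a : ℚ) : ℝ) < ((ι b : ℚ) : ℝ) ↔ a < b := by
    intro a b
    rw [Rat.cast_lt, Subtype.coe_lt_coe, OrderEmbedding.lt_iff_lt]
  refine ⟨fun n => ((ι (ν n) : ℚ) : ℝ), fun n => ?_, fun k hk => ?_, fun w hw hlt => ?_⟩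
  · have h1 := (ι (ν n)).2.1
    have h2 := (ι (ν n)).2.2
    rw [abs_le]
    constructor
    · have : (0 : ℝ) < ((ι (ν n) : ℚ) : ℝ) := by exact_mod_cast h1
      linarith
    · have : ((ι (ν n) : ℚ) : ℝ) < 1 := by exact_mod_cast h2
      linarith
  · have h1 : ∀ i, ν (k (i + 1)) < ν (k i) := fun i => (hmono _ _).1 (hk i)
    have hwf : WellFounded ((· < ·) : Set.Iic θ → Set.Iic θ → Prop) := wellFounded_lt
    exact (wellFounded_iff_isEmpty_descending_chain.1 hwf).false ⟨fun i => ν (k i), h1⟩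
  · choose σ hσ using hν
    have h1 : ∀ a b : Set.Iic θ, a < b → w (σ a) < w (σ b) := by
      intro a b hab
      refine hlt _ _ ?_
      change ((ι (ν (σ a)) : ℚ) : ℝ) < ((ι (ν (σ b)) : ℚ) : ℝ)
      rw [hmono, hσ, hσ]
      exact hab
    have h2 : ∀ a : OO, ∀ ha : a ∈ Set.Iic θ, a ≤ w (σ ⟨a, ha⟩) := by
      intro a
      induction a using WellFoundedLT.induction with
      | ind a ih =>
        intro ha
        by_contra hcon
        push Not at hcon
        have hmem : w (σ ⟨a, ha⟩) ∈ Set.Iic θ := Set.mem_Iic.2 (hcon.le.trans (Set.mem_Iic.1 ha))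
        have h3 := ih _ hcon hmem
        have h4 := h1 ⟨w (σ ⟨a, ha⟩), hmem⟩ ⟨a, ha⟩ hcon
        exact absurd h4 (not_lt.2 h3)
    have h3 := h2 θ (Set.mem_Iic.2 le_rfl)
    exact absurd (hθ _ (hw (σ ⟨θ, Set.mem_Iic.2 le_rfl⟩))) (not_lt.2 h3)

/-! ### Biorthogonal sequences -/

section
variable {F : Type} [NormedAddCommGroup F] [NormedSpace ℝ F]

theorem biorth (hF : ¬ FiniteDimensional ℝ F) :
    ∃ (x : ℕ → F) (φ : ℕ → F →L[ℝ] ℝ), (∀ n, φ n (x n) = 1) ∧ ∀ m n, m ≠ n → φ m (x n) = 0 := by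
  classical
  obtain ⟨f, hf1, hf2⟩ := exists_seq_of_forall_finset_exists
    (fun a : F × (F →L[ℝ] ℝ) => a.2 a.1 = 1) (fun a b => a.2 b.1 = 0 ∧ b.2 a.1 = 0) (by
    intro s _
    set V : Submodule ℝ F := Submodule.span ℝ (s.image Prod.fst : Set F) with hV
    haveI hVfin : FiniteDimensional ℝ V := by
      rw [hV]
      infer_instance
    set G : F →ₗ[ℝ] (s → ℝ) := LinearMap.pi fun a : s => (a.1.2 : F →ₗ[ℝ] ℝ) with hG
    have hnle : ¬ LinearMap.ker G ≤ V := by
      intro hle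
      haveI h1 : FiniteDimensional ℝ (LinearMap.ker G) := Submodule.finiteDimensional_of_le hle
      haveI h2 : FiniteDimensional ℝ (F ⧸ LinearMap.ker G) :=
        LinearEquiv.finiteDimensional G.quotKerEquivRange.symm
      exact hF (Module.Finite.of_submodule_quotient (LinearMap.ker G))
    obtain ⟨x, hxG, hxV⟩ := Set.not_subset.1 hnle
    obtain ⟨P, hP⟩ := Submodule.ClosedComplemented.of_finiteDimensional V
    have hne : x - P x ≠ 0 := by
      intro h0
      refine hxV ?_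
      rw [sub_eq_zero.1 h0]
      exact (P x).2
    obtain ⟨ψ, hψ⟩ := SeparatingDual.exists_eq_one (R := ℝ) hne
    refine ⟨(x, ψ.comp (ContinuousLinearMap.id ℝ F - V.subtypeL.comp P)), ?_, fun a ha => ⟨?_, ?_⟩⟩
    · simpa using hψ
    · have h1 : G x = 0 := hxG
      have h2 := congrFun h1 ⟨a, ha⟩
      simpa [hG] using h2
    · have hav : a.1 ∈ V := Submodule.subset_span (by
        rw [Finset.mem_coe, Finset.mem_image]
        exact ⟨a, ha, rfl⟩)
      have h3 := hP ⟨a.1, hav⟩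
      have h4 : (P a.1 : F) = a.1 := by rw [h3]
      simp [h4])
  refine ⟨fun n => (f n).1, fun n => (f n).2, hf1, fun m n hmn => ?_⟩
  rcases lt_or_gt_of_ne hmn with h | h
  · exact (hf2 m n h).1
  · exact (hf2 n m h).2

/-- The vectors and functionals used in the construction. -/
theorem exists_system (hF : ¬ FiniteDimensional ℝ F) :
    ∃ (b : ℕ → F) (t : ℕ → F →L[ℝ] ℝ) (x₀ x₁ : F) (φ₀ φ₁ : F →L[ℝ] ℝ),
      (∀ n, ‖b n‖ ≤ (1 / 2) ^ n) ∧ (∀ n, t n (b n) = 1) ∧ (∀ m n, m ≠ n → t m (b n) = 0) ∧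
      (∀ n, t n x₀ = 0) ∧ (∀ n, t n x₁ = 0) ∧ (∀ n, φ₀ (b n) = 0) ∧ (∀ n, φ₁ (b n) = 0) ∧
      φ₀ x₀ = 1 ∧ φ₀ x₁ = 0 ∧ φ₁ x₀ = 0 ∧ φ₁ x₁ = 1 := by
  obtain ⟨x, φ, h1, h2⟩ := biorth hF
  have hc : ∀ n, 0 < (1 / 2 : ℝ) ^ n / (1 + ‖x (n + 2)‖) := fun n => by
    have := norm_nonneg (x (n + 2))
    positivity
  refine ⟨fun n => ((1 / 2 : ℝ) ^ n / (1 + ‖x (n + 2)‖)) • x (n + 2),
    fun n => ((1 / 2 : ℝ) ^ n / (1 + ‖x (n + 2)‖))⁻¹ • φ (n + 2), x 0, x 1, φ 0, φ 1,
    fun n => ?_, fun n => ?_, fun m n hmn => ?_, fun n => ?_, fun n => ?_, fun n => ?_, fun n => ?_,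
    h1 0, h2 0 1 (by norm_num), h2 1 0 (by norm_num), h1 1⟩
  · rw [norm_smul, Real.norm_of_nonneg (hc n).le, div_mul_eq_mul_div,
      div_le_iff₀ (by have := norm_nonneg (x (n + 2)); positivity)]
    refine mul_le_mul_of_nonneg_left ?_ (by positivity)
    linarith [norm_nonneg (x (n + 2))]
  · simp only [FunLike.coe_smul, Pi.smul_apply, map_smul, smul_eq_mul, h1, mul_one]
    exact mul_inv_cancel₀ (hc n).ne'
  · simp only [FunLike.coe_smul, Pi.smul_apply, map_smul, smul_eq_mul,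
      h2 (m + 2) (n + 2) (by omega), mul_zero]
  · simp only [FunLike.coe_smul, Pi.smul_apply, smul_eq_mul, h2 (n + 2) 0 (by omega), mul_zero]
  · simp only [FunLike.coe_smul, Pi.smul_apply, smul_eq_mul, h2 (n + 2) 1 (by omega), mul_zero]
  · simp only [map_smul, smul_eq_mul, h2 0 (n + 2) (by omega), mul_zero]
  · simp only [map_smul, smul_eq_mul, h2 1 (n + 2) (by omega), mul_zero]

end

/-! ### The parabola -/

theorem parabola_line (α β γ δ : ℝ) :
    {a : ℝ | ∃ c : ℝ, a = α + c * β ∧ a ^ 2 = γ + c * δ}.Countable := by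
  set A := {a : ℝ | ∃ c : ℝ, a = α + c * β ∧ a ^ 2 = γ + c * δ} with hA
  by_cases hs : A.Subsingleton
  · exact hs.countable
  · rw [Set.not_subsingleton_iff] at hs
    obtain ⟨a, ha, b, hb, hab⟩ := hs
    have hsub : A ⊆ {a, b} := by
      intro e he
      obtain ⟨c1, h1, h1'⟩ := ha
      obtain ⟨c2, h2, h2'⟩ := hb
      obtain ⟨c3, h3, h3'⟩ := he
      by_contra hne
      rw [Set.mem_insert_iff, Set.mem_singleton_iff, not_or] at hne
      obtain ⟨hne1, hne2⟩ := hne
      have e1 : b - a = (c2 - c1) * β := by rw [h1, h2]; ring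
      have e2 : e - a = (c3 - c1) * β := by rw [h1, h3]; ring
      have e3 : (b - a) * (b + a) = (c2 - c1) * δ := by linear_combination h2' - h1'
      have e4 : (e - a) * (e + a) = (c3 - c1) * δ := by linear_combination h3' - h1'
      have h5 : (e - a) * (β * (e + a)) = (e - a) * δ := by linear_combination β * e4 - δ * e2
      have h6 : (b - a) * (β * (b + a)) = (b - a) * δ := by linear_combination β * e3 - δ * e1
      have h7 := mul_left_cancel₀ (sub_ne_zero.2 hne1) h5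
      have h8 := mul_left_cancel₀ (sub_ne_zero.2 (Ne.symm hab)) h6
      have hβ : β ≠ 0 := by
        rintro rfl
        rw [mul_zero, sub_eq_zero] at e1
        exact hab e1.symm
      have h9 := mul_left_cancel₀ hβ (h7.trans h8.symm)
      exact hne2 (by linarith)
    exact (Set.toFinite _).countable.mono hsub

end Pool.Agent.R269.SS
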