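import Pool.Agent.R269.SSd
import Pool.Agent.R269.SSe

/-!
# The level maps `ℓ_p(Γ) → ℓ_M(T)`
-/

set_option autoImplicit false

open scoped ENNReal
open Filter Topology

namespace Pool.Agent.R269.SS

section
variable {Γ T : Type} {p : ℝ≥0∞} {M : ℕ} [hp1 : Fact (1 ≤ p)] [hF : Fact (1 ≤ (M : ℝ≥0∞))]

theorem toReal_ge (hp : p ≠ ⊤) : 1 ≤ p.toReal := by
  have h := ENNReal.toReal_mono hp hp1.1
  simpa using h

theorem restr_sum_le (hp : p ≠ ⊤) (hM : 1 ≤ M) (hpM : p.toReal ≤ M) {f : T → Γ}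
    (hf : Function.Injective f) (x : lp (fun _ : Γ => ℝ) p) (s : Finset T) :
    ∑ t ∈ s, |x (f t)| ^ M ≤ ‖x‖ ^ M := by
  classical
  have hq : 0 < p.toReal := lt_of_lt_of_le one_pos (toReal_ge hp)
  have hp0 : p ≠ 0 := by
    rintro rfl
    simp at hq
  have hle : ∀ t, |x (f t)| ≤ ‖x‖ := fun t => lp.norm_apply_le_norm hp0 x (f t)
  rcases (norm_nonneg x).eq_or_lt with h0 | hpos
  · have h1 : ∀ t, |x (f t)| = 0 := fun t => le_antisymm (by rw [h0]; exact hle t) (abs_nonneg _)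
    have h2 : ∑ t ∈ s, |x (f t)| ^ M = 0 := Finset.sum_eq_zero fun t _ => by
      rw [h1 t, zero_pow (by omega)]
    rw [h2]
    positivity
  · have h1 : ∀ t, (|x (f t)| / ‖x‖) ^ M ≤ |x (f t)| ^ p.toReal / ‖x‖ ^ p.toReal := by
      intro t
      rw [← Real.div_rpow (abs_nonneg _) (norm_nonneg _), ← Real.rpow_natCast]
      refine Real.rpow_le_rpow_of_exponent_ge' (by positivity) ?_ hq.le hpM
      rw [div_le_one hpos]
      exact hle t
    have h2 : ∑ t ∈ s, |x (f t)| ^ p.toReal ≤ ‖x‖ ^ p.toReal := by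
      have h3 := lp.sum_rpow_le_norm_rpow hq x (s.map ⟨f, hf⟩)
      rw [Finset.sum_map] at h3
      exact h3
    have h3 : ∑ t ∈ s, (|x (f t)| / ‖x‖) ^ M ≤ 1 := by
      refine (Finset.sum_le_sum fun t _ => h1 t).trans ?_
      rw [← Finset.sum_div, div_le_one (Real.rpow_pos_of_pos hpos _)]
      exact h2
    have h4 : ∑ t ∈ s, |x (f t)| ^ M = (∑ t ∈ s, (|x (f t)| / ‖x‖) ^ M) * ‖x‖ ^ M := by
      rw [Finset.sum_mul]
      refine Finset.sum_congr rfl fun t _ => ?_
      rw [div_pow, div_mul_cancel₀ _ (pow_pos hpos M).ne']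
    rw [h4]
    exact mul_le_of_le_one_left (by positivity) h3

/-- restriction along an injection, from `ℓ_p` to `ℓ_M` -/
noncomputable def restr (hp : p ≠ ⊤) (hM : 1 ≤ M) (hpM : p.toReal ≤ M) {f : T → Γ}
    (hf : Function.Injective f) :
    lp (fun _ : Γ => ℝ) p →L[ℝ] lp (fun _ : T => ℝ) (M : ℝ≥0∞) :=
  LinearMap.mkContinuous
    { toFun := fun x => ⟨fun t => x (f t), memℓp_gen' (C := ‖x‖ ^ M) fun s => by
        simpa [ENNReal.toReal_natCast, Real.rpow_natCast, Real.norm_eq_abs] using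
          restr_sum_le hp hM hpM hf x s⟩
      map_add' := fun x y => by
        ext t
        rfl
      map_smul' := fun c x => by
        ext t
        rfl }
    1 (fun x => by
      rw [one_mul]
      refine lp.norm_le_of_forall_sum_le (by
        rw [ENNReal.toReal_natCast]
        exact_mod_cast hM) (norm_nonneg _) fun s => ?_
      simpa [ENNReal.toReal_natCast, Real.rpow_natCast, Real.norm_eq_abs] using
          restr_sum_le hp hM hpM hf x s)

theorem restr_apply (hp : p ≠ ⊤) (hM : 1 ≤ M) (hpM : p.toReal ≤ M) {f : T → Γ}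
    (hf : Function.Injective f) (x : lp (fun _ : Γ => ℝ) p) (t : T) :
    restr (M := M) hp hM hpM hf x t = x (f t) := rfl

theorem inj_level {e : ℕ × T → Γ} (he : Function.Injective e) (i : ℕ) :
    Function.Injective fun t => e (i, t) := fun a b h => by
  have := he h
  exact (Prod.mk.inj this).2

/-- the level maps -/
noncomputable def level (hp : p ≠ ⊤) (hM : 1 ≤ M) (hpM : p.toReal ≤ M) {e : ℕ × T → Γ}
    (he : Function.Injective e) (i : ℕ) :
    lp (fun _ : Γ => ℝ) p →L[ℝ] lp (fun _ : T => ℝ) (M : ℝ≥0∞) :=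
  (2 : ℝ) ^ i • restr hp hM hpM (inj_level he i)

theorem level_apply (hp : p ≠ ⊤) (hM : 1 ≤ M) (hpM : p.toReal ≤ M) {e : ℕ × T → Γ}
    (he : Function.Injective e) (i : ℕ) (x : lp (fun _ : Γ => ℝ) p) (t : T) :
    level (M := M) hp hM hpM he i x t = 2 ^ i * x (e (i, t)) := rfl

/-- the coordinate vectors -/
noncomputable def sg (p : ℝ≥0∞) (γ : Γ) (c : ℝ) : lp (fun _ : Γ => ℝ) p :=
  haveI := Classical.decEq Γ
  lp.single p γ c

omit hp1 in
theorem sg_self (γ : Γ) (c : ℝ) : sg p γ c γ = c := by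
  classical
  unfold sg
  exact lp.single_apply_self _ _ _

omit hp1 in
theorem sg_ne {γ δ : Γ} (h : δ ≠ γ) (c : ℝ) : sg p γ c δ = 0 := by
  classical
  unfold sg
  exact lp.single_apply_ne _ _ _ h

theorem norm_sg (γ : Γ) (c : ℝ) : ‖sg p γ c‖ = |c| := by
  classical
  unfold sg
  exact lp.norm_single (lt_of_lt_of_le one_pos hp1.1) _ _

theorem level_sg (hp : p ≠ ⊤) (hM : 1 ≤ M) (hpM : p.toReal ≤ M) {e : ℕ × T → Γ}
    (he : Function.Injective e) (i : ℕ) (t : T) :
    level (M := M) hp hM hpM he i (sg p (e (i, t)) ((1 / 2) ^ i)) = ev M t := by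
  ext s
  rw [level_apply]
  by_cases h : s = t
  · subst h
    rw [sg_self, ev_self, ← mul_pow]
    norm_num
  · rw [sg_ne (fun h' => h ((Prod.mk.inj (he h')).2)), ev_ne h, mul_zero]

theorem level_sg_ne (hp : p ≠ ⊤) (hM : 1 ≤ M) (hpM : p.toReal ≤ M) {e : ℕ × T → Γ}
    (he : Function.Injective e) {i j : ℕ} (hij : i ≠ j) (t : T) (c : ℝ) :
    level (M := M) hp hM hpM he i (sg p (e (j, t)) c) = 0 := by
  ext s
  rw [level_apply, sg_ne (fun h' => hij ((Prod.mk.inj (he h')).1)), mul_zero]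
  rfl

/-- The point coding a branch. -/
theorem exists_point (hp : p ≠ ⊤) (hM : 1 ≤ M) (hpM : p.toReal ≤ M) {e : ℕ × T → Γ}
    (he : Function.Injective e) (u : ℕ → T) :
    ∃ x : lp (fun _ : Γ => ℝ) p, ∀ i, level (M := M) hp hM hpM he i x = ev M (u i) := by
  have hs : Summable fun j => sg p (e (j, u j)) ((1 / 2 : ℝ) ^ j) := by
    refine Summable.of_norm_bounded (g := fun j => (1 / 2 : ℝ) ^ j) summable_geometric_two
      fun j => ?_
    rw [norm_sg, abs_of_nonneg (by positivity)]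
  refine ⟨∑' j, sg p (e (j, u j)) ((1 / 2 : ℝ) ^ j), fun i => ?_⟩
  rw [(level (M := M) hp hM hpM he i).map_tsum hs, tsum_eq_single i, level_sg]
  intro j hj
  exact level_sg_ne hp hM hpM he (Ne.symm hj) _ _

theorem ev_countable (hM : 1 ≤ M) (z : lp (fun _ : T => ℝ) (M : ℝ≥0∞)) :
    {t | z t ≠ 0}.Countable := by
  have h := (hasSum_pow hM z).summable.countable_support
  refine h.mono fun t ht => ?_
  rw [Function.mem_support]
  exact (pow_pos (abs_pos.2 ht) M).ne'

/-- Only countably many symbols occur on a separable set. -/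
theorem symbols_countable {X : Type} [NormedAddCommGroup X] [NormedSpace ℝ X] (hM : 1 ≤ M)
    (L : ℕ → X →L[ℝ] lp (fun _ : T => ℝ) (M : ℝ≥0∞)) {Y : Set X}
    (hY : TopologicalSpace.IsSeparable Y) :
    {t : T | ∃ i, ∃ x ∈ Y, (L i x : lp (fun _ : T => ℝ) (M : ℝ≥0∞)) t ≠ 0}.Countable := by
  obtain ⟨Q, hQc, hQ⟩ := hY
  refine Set.Countable.mono (s₂ := ⋃ q ∈ Q, ⋃ i : ℕ, {t | (L i q) t ≠ 0}) ?_
    (hQc.biUnion fun q _ => Set.countable_iUnion fun i => ev_countable hM _)
  rintro t ⟨i, x, hx, hne⟩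
  have hcont : Continuous fun x => (L i x) t := by
    have h1 : Continuous fun z : lp (fun _ : T => ℝ) (M : ℝ≥0∞) => z t := by
      have hlip : LipschitzWith 1 fun z : lp (fun _ : T => ℝ) (M : ℝ≥0∞) => z t := by
        refine LipschitzWith.of_dist_le_mul fun a b => ?_
        rw [NNReal.coe_one, one_mul, dist_eq_norm, dist_eq_norm]
        have hM0 : (M : ℝ≥0∞) ≠ 0 := by
          have : (1 : ℝ≥0∞) ≤ M := hF.1
          intro h0
          rw [h0] at this
          simp at this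
        have := lp.norm_apply_le_norm hM0 (a - b) t
        rwa [lp.coeFn_sub, Pi.sub_apply] at this
      exact hlip.continuous
    exact h1.comp (L i).continuous
  have hopen : IsOpen {x | (L i x) t ≠ 0} := isOpen_ne_fun hcont continuous_const
  obtain ⟨q, hq1, hq2⟩ := mem_closure_iff.1 (hQ hx) _ hopen hne
  exact Set.mem_biUnion hq2 (Set.mem_iUnion.2 ⟨i, hq1⟩)

end

end Pool.Agent.R269.SS
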