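import Pool.Agent.R269.SSf

/-!
# A smooth surjection `ℓ_p(ω₁) → F` without separable surjective restrictions
-/

set_option autoImplicit false

open scoped ENNReal ContDiff
open Filter Topology

namespace Pool.Agent.R269.SS

/-- The symbols: a countable ordinal, two numbers and the index of a point of a dense sequence. -/
abbrev Sym : Type := OO × ℕ × ℕ × ℕ

theorem mk_Sym : Cardinal.mk (ℕ × Sym) ≤ Cardinal.aleph 1 := by
  rw [Cardinal.mk_prod, Cardinal.mk_prod, mk_OO]
  simp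

section
variable {F : Type} [NormedAddCommGroup F] [NormedSpace ℝ F]

/-- The first condition: the functionals decrease along the coded sequence. -/
def CondA (t : ℕ → F →L[ℝ] ℝ) (j : ℕ) (y : F) (u : ℕ → Sym) : Prop :=
  ∀ i < j, t (u (i + 1)).2.1 y + 1 / ((u i).2.2.1 + 1 : ℝ) ≤ t (u i).2.1 y

/-- The second condition: the coded ordinals rank the values of the functionals. -/
def CondB (t : ℕ → F →L[ℝ] ℝ) (j : ℕ) (y : F) (u : ℕ → Sym) : Prop :=
  ∀ m ≤ j, ∀ n ≤ j, t m y < t n y → (u m).1 < (u n).1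

/-- Admissible sequences of symbols. -/
def Adm (ν : ℕ → ℝ) (D : ℕ → F) (t : ℕ → F →L[ℝ] ℝ) (j : ℕ) (u : ℕ → Sym) : Prop :=
  ∃ y : F, (∀ i ≤ j, ‖y - D (u i).2.2.2‖ ≤ ν i) ∧ (CondA t j y u ∨ CondB t j y u)

variable {ν : ℕ → ℝ} {D : ℕ → F} {t : ℕ → F →L[ℝ] ℝ}

theorem Adm_mono (j : ℕ) (u : ℕ → Sym) (h : Adm ν D t (j + 1) u) : Adm ν D t j u := by
  obtain ⟨y, h1, h2⟩ := h
  refine ⟨y, fun i hi => h1 i (by omega), ?_⟩
  rcases h2 with h2 | h2
  · exact Or.inl fun i hi => h2 i (by omega)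
  · exact Or.inr fun m hm n hn => h2 m (by omega) n (by omega)

theorem Adm_congr (j : ℕ) (u u' : ℕ → Sym) (huu : ∀ i ≤ j, u i = u' i) (h : Adm ν D t j u) :
    Adm ν D t j u' := by
  obtain ⟨y, h1, h2⟩ := h
  refine ⟨y, fun i hi => by rw [← huu i hi]; exact h1 i hi, ?_⟩
  rcases h2 with h2 | h2
  · exact Or.inl fun i hi => by
      rw [← huu i hi.le, ← huu (i + 1) hi]
      exact h2 i hi
  · exact Or.inr fun m hm n hn => by
      rw [← huu m hm, ← huu n hn]
      exact h2 m hm n hn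

theorem Adm_near {μ : ℕ → ℝ} (hν : ∀ j, ν j ≤ μ j) (hν' : ∀ j, ν j ≤ μ (j + 1)) (j : ℕ)
    (u : ℕ → Sym) (h : Adm ν D t (j + 1) u) :
    ‖D (u (j + 1)).2.2.2 - D (u j).2.2.2‖ ≤ 2 * μ (j + 1) := by
  obtain ⟨y, h1, -⟩ := h
  have h2 := (h1 (j + 1) le_rfl).trans (hν (j + 1))
  have h3 := (h1 j (by omega)).trans (hν' j)
  have : D (u (j + 1)).2.2.2 - D (u j).2.2.2 =
      -(y - D (u (j + 1)).2.2.2) + (y - D (u j).2.2.2) := by abel
  rw [this]
  refine (norm_add_le _ _).trans ?_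
  rw [norm_neg]
  linarith

/-- Every point is coded by a full branch. -/
theorem exists_branch (hν : ∀ j, 0 < ν j) (hD : DenseRange D) (y : F) :
    ∃ u : ℕ → Sym, (∀ j, Adm ν D t j u) ∧ ∀ j, ‖y - D (u j).2.2.2‖ ≤ ν j := by
  have hn : ∀ j, ∃ n, ‖y - D n‖ ≤ ν j := by
    intro j
    obtain ⟨n, hn⟩ := hD.exists_dist_lt y (hν j)
    exact ⟨n, by rw [← dist_eq_norm]; exact hn.le⟩
  choose n hn using hn
  by_cases hwf : WellFounded fun a b : ℕ => t a y < t b y
  · obtain ⟨w, hw⟩ := OO_rank hwf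
    refine ⟨fun j => (w j, 0, 0, n j), fun j => ⟨y, fun i _ => hn i, Or.inr ?_⟩, hn⟩
    intro a _ b _ hab
    exact hw a b hab
  · rw [wellFounded_iff_isEmpty_descending_chain, not_isEmpty_iff] at hwf
    obtain ⟨k, hk⟩ := hwf
    have hN : ∀ i, ∃ N : ℕ, 1 / (N + 1 : ℝ) < t (k i) y - t (k (i + 1)) y := fun i =>
      exists_nat_one_div_lt (sub_pos.2 (hk i))
    choose N hN using hN
    obtain ⟨o⟩ : Nonempty OO := by
      obtain ⟨b, -⟩ := OO_bound Set.countable_empty
      exact ⟨b⟩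
    refine ⟨fun j => (o, k j, N j, n j), fun j => ⟨y, fun i _ => hn i, Or.inl ?_⟩, hn⟩
    intro i _
    have := hN i
    change t (k (i + 1)) y + 1 / (N i + 1 : ℝ) ≤ t (k i) y
    linarith

/-- A point whose functional values form a large well-order is not coded by a branch using a
small set of symbols. -/
theorem not_branch {S : Set OO} {r : ℕ → ℝ} (hr : ∀ k : ℕ → ℕ, ¬ ∀ i, r (k (i + 1)) < r (k i))
    (hr' : ∀ w : ℕ → OO, (∀ n, w n ∈ S) → ¬ ∀ m n, r m < r n → w m < w n)
    (hν : Tendsto ν atTop (𝓝 0)) {y : F} (hy : ∀ n, t n y = r n) {u : ℕ → Sym}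
    (hu : ∀ j, Adm ν D t j u) (hlim : Tendsto (fun j => D (u j).2.2.2) atTop (𝓝 y))
    (hS : ∀ i, (u i).1 ∈ S) : False := by
  choose y' h1 h2 using hu
  have hy' : Tendsto y' atTop (𝓝 y) := by
    have h3 : Tendsto (fun j => y' j - D (u j).2.2.2) atTop (𝓝 0) := by
      rw [tendsto_zero_iff_norm_tendsto_zero]
      exact squeeze_zero (fun _ => norm_nonneg _) (fun j => h1 j j le_rfl) hν
    have h4 := h3.add hlim
    simpa using h4
  have ht : ∀ n, Tendsto (fun j => t n (y' j)) atTop (𝓝 (r n)) := fun n => by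
    rw [← hy n]
    exact ((t n).continuous.tendsto y).comp hy'
  by_cases hfreq : ∃ᶠ j in atTop, CondA t j (y' j) u
  · refine hr (fun i => (u i).2.1) fun i => ?_
    have h5 : ∃ᶠ j in atTop, t (u (i + 1)).2.1 (y' j) + 1 / ((u i).2.2.1 + 1 : ℝ) ≤
        t (u i).2.1 (y' j) := by
      refine (hfreq.and_eventually (eventually_gt_atTop i)).mono ?_
      rintro j ⟨hj, hij⟩
      exact hj i hij
    have h6 : r (u (i + 1)).2.1 + 1 / ((u i).2.2.1 + 1 : ℝ) ≤ r (u i).2.1 :=
      le_of_tendsto_of_tendsto_of_frequently ((ht _).add_const _) (ht _) h5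
    have h7 : (0 : ℝ) < 1 / ((u i).2.2.1 + 1 : ℝ) := by positivity
    linarith
  · rw [not_frequently] at hfreq
    refine hr' (fun i => (u i).1) hS fun m n hmn => ?_
    have h5 : ∀ᶠ j in atTop, t m (y' j) < t n (y' j) := (ht m).eventually_lt (ht n) hmn
    obtain ⟨j, hj1, hj2, hj3, hj4⟩ :=
      (hfreq.and (h5.and ((eventually_ge_atTop m).and (eventually_ge_atTop n)))).exists
    exact (h2 j).resolve_left hj1 m hj3 n hj4 hj2

end

/-- The main theorem. -/
theorem main {Γ : Type} (hΓ : Cardinal.mk Γ = Cardinal.aleph 1) (p : ℝ≥0∞) [Fact (1 ≤ p)]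
    (hp : p ≠ ⊤) {F : Type} [NormedAddCommGroup F] [NormedSpace ℝ F] [CompleteSpace F]
    [TopologicalSpace.SeparableSpace F] (hF : ¬ FiniteDimensional ℝ F) :
    ∃ g : lp (fun _ : Γ => ℝ) p → F, ContDiff ℝ ∞ g ∧ Function.Surjective g ∧
      ∀ Y : Set (lp (fun _ : Γ => ℝ) p), TopologicalSpace.IsSeparable Y → g '' Y ≠ Set.univ := by
  classical
  -- the exponent
  obtain ⟨M₀, hM₀⟩ := exists_nat_ge p.toReal
  set M : ℕ := 2 * (M₀ + 1) with hMdef
  have hM : 1 ≤ M := by omega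
  have hev : Even M := ⟨M₀ + 1, by omega⟩
  have hpM : p.toReal ≤ M := by
    refine hM₀.trans ?_
    rw [hMdef]
    push_cast
    have : (0 : ℝ) ≤ M₀ := Nat.cast_nonneg _
    linarith
  haveI : Fact (1 ≤ (M : ℝ≥0∞)) := ⟨by exact_mod_cast hM⟩
  -- the symbols
  have hle : Cardinal.mk (ℕ × Sym) ≤ Cardinal.mk Γ := by
    rw [hΓ]
    exact mk_Sym
  rw [Cardinal.le_def] at hle
  obtain ⟨e, he⟩ := hle
  set L := level (M := M) hp hM hpM he with hL
  -- the dense sequence and the system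
  set D : ℕ → F := TopologicalSpace.denseSeq F with hD
  have hDd : DenseRange D := TopologicalSpace.denseRange_denseSeq F
  obtain ⟨b, t, x₀, x₁, φ₀, φ₁, hb, htb, htb', htx₀, htx₁, hφb₀, hφb₁, h00, h01, h10, h11⟩ :=
    exists_system hF
  set μ : ℕ → ℝ := mu hM hev L with hμ
  have hμpos : ∀ j, 0 < μ j := mu_pos hM hev L
  have hμle : ∀ j, 2 * μ j ≤ (1 / 2) ^ j := mu_le hM hev L
  set ν : ℕ → ℝ := fun j => min (μ j) (μ (j + 1)) with hν
  have hνpos : ∀ j, 0 < ν j := fun j => lt_min (hμpos _) (hμpos _)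
  have hνle : ∀ j, ν j ≤ μ j := fun j => min_le_left _ _
  have hνle' : ∀ j, ν j ≤ μ (j + 1) := fun j => min_le_right _ _
  have hν0 : Tendsto ν atTop (𝓝 0) := by
    refine squeeze_zero (fun j => (hνpos j).le) (fun j => ?_)
      (tendsto_pow_atTop_nhds_zero_of_lt_one (r := (1 / 2 : ℝ)) (by norm_num) (by norm_num))
    have h1 := hνle j
    have h2 := hμle j
    have h3 := hμpos j
    linarith
  set d : Sym → F := fun s => D s.2.2.2 with hd
  have hA3 : ∀ j u, Adm ν D t (j + 1) u → ‖d (u (j + 1)) - d (u j)‖ ≤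
      2 * mu hM hev L (j + 1) := fun j u h => Adm_near hνle hνle' j u h
  refine ⟨hh hM L (Adm ν D t) d, hh_contDiff hA3, ?_, ?_⟩
  · -- surjectivity
    intro y
    obtain ⟨u, hu, hn⟩ := exists_branch (t := t) hνpos hDd y
    obtain ⟨x, hx⟩ := exists_point (M := M) hp hM hpM he u
    refine ⟨x, P1 hA3 hu ?_ hx⟩
    have h3 : Tendsto (fun j => y - D (u j).2.2.2) atTop (𝓝 0) := by
      rw [tendsto_zero_iff_norm_tendsto_zero]
      exact squeeze_zero (fun _ => norm_nonneg _) hn hν0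
    have h4 := (tendsto_const_nhds (x := y)).sub h3
    simpa using h4
  · -- no separable surjective restriction
    intro Y hY hsurj
    set S : Set OO := Prod.fst '' {s : Sym | ∃ i, ∃ x ∈ Y, (L i x) s ≠ 0} with hS
    have hSc : S.Countable := (symbols_countable hM L hY).image _
    obtain ⟨r, hr1, hr2, hr3⟩ := OO_large hSc
    -- the points
    have hsum : Summable fun n => r n • b n := by
      refine Summable.of_norm_bounded (g := fun n => (1 / 2 : ℝ) ^ n) summable_geometric_two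
        fun n => ?_
      rw [norm_smul, Real.norm_eq_abs]
      calc |r n| * ‖b n‖ ≤ 1 * (1 / 2) ^ n :=
            mul_le_mul (hr1 n) (hb n) (norm_nonneg _) zero_le_one
        _ = _ := one_mul _
    set z : F := ∑' n, r n • b n with hz
    have htz : ∀ n, t n z = r n := by
      intro n
      rw [hz, (t n).map_tsum hsum, tsum_eq_single n]
      · rw [map_smul, htb, smul_eq_mul, mul_one]
      · intro m hm
        rw [map_smul, htb' n m (Ne.symm hm), smul_zero]
    have hφz₀ : φ₀ z = 0 := by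
      rw [hz, φ₀.map_tsum hsum]
      simp [hφb₀]
    have hφz₁ : φ₁ z = 0 := by
      rw [hz, φ₁.map_tsum hsum]
      simp [hφb₁]
    set y : ℝ → F := fun a => z + a • x₀ + a ^ 2 • x₁ with hy
    have hty : ∀ a n, t n (y a) = r n := by
      intro a n
      simp only [hy, map_add, map_smul, htz, htx₀, htx₁, smul_zero, add_zero]
    have hφy₀ : ∀ a, φ₀ (y a) = a := by
      intro a
      simp only [hy, map_add, map_smul, hφz₀, h00, h01, smul_eq_mul, mul_one, mul_zero, add_zero,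
        zero_add]
    have hφy₁ : ∀ a, φ₁ (y a) = a ^ 2 := by
      intro a
      simp only [hy, map_add, map_smul, hφz₁, h10, h11, smul_eq_mul, mul_one, mul_zero,
        zero_add]
    set E : Set F := insert 0 (Set.range d) with hE
    have hEc : E.Countable := by
      refine Set.Countable.insert 0 ((Set.countable_range D).mono ?_)
      rintro _ ⟨s, rfl⟩
      exact ⟨_, rfl⟩
    have hcov : (Set.univ : Set ℝ) ⊆ ⋃ q ∈ E ×ˢ E,
        {a : ℝ | ∃ c : ℝ, a = φ₀ q.1 + c * φ₀ (q.2 - q.1) ∧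
          a ^ 2 = φ₁ q.1 + c * φ₁ (q.2 - q.1)} := by
      intro a _
      have hya : y a ∈ hh hM L (Adm ν D t) d '' Y := by
        rw [hsurj]
        exact Set.mem_univ _
      obtain ⟨x, hxY, hx⟩ := hya
      rcases P2 (hev := hev) (d := d) Adm_mono Adm_congr hA3 x with
        ⟨q1, hq1, q2, hq2, c, hc⟩ | ⟨u, hu, hlim, hne⟩
      · refine Set.mem_biUnion (x := (q1, q2)) ⟨hq1, hq2⟩ ⟨c, ?_, ?_⟩
        · have := congrArg φ₀ (hx.symm.trans hc)
          rw [hφy₀, map_add, map_smul, smul_eq_mul] at this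
          exact this
        · have := congrArg φ₁ (hx.symm.trans hc)
          rw [hφy₁, map_add, map_smul, smul_eq_mul] at this
          exact this
      · exfalso
        rw [hx] at hlim
        exact not_branch (S := S) hr2 hr3 hν0 (hty a) hu hlim fun i =>
          ⟨u i, ⟨i, x, hxY, hne i⟩, rfl⟩
    have hcount : (Set.univ : Set ℝ).Countable :=
      ((hEc.prod hEc).biUnion fun q _ => parabola_line _ _ _ _).mono hcov
    exact Cardinal.not_countable_real hcount

end Pool.Agent.R269.SS
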