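import Mathlib

/-!
# The Sierpinski space of a map from the positive integers to the rationals
-/

set_option autoImplicit false

namespace Pool.Agent.R269.Sier

/-- `Incr f C`: the map `f` is increasing on the finite set `C`. -/
def Incr (f : ℕ → ℚ) (C : Finset ℕ) : Prop := ∀ m ∈ C, ∀ n ∈ C, m < n → f m < f n

/-- The norm on finitely supported sequences: the supremum of `∑_{i ∈ C} |x i|` over the finite
sets `C` on which `f` is increasing. -/
noncomputable def sNorm (f : ℕ → ℚ) (x : ℕ →₀ ℝ) : ℝ :=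
  sSup {r : ℝ | ∃ C : Finset ℕ, Incr f C ∧ r = ∑ i ∈ C, |x i|}

theorem sum_le_supp (x : ℕ →₀ ℝ) (C : Finset ℕ) : ∑ i ∈ C, |x i| ≤ ∑ i ∈ x.support, |x i| := by
  classical
  have h1 : ∑ i ∈ C, |x i| = ∑ i ∈ C.filter (· ∈ x.support), |x i| := by
    rw [Finset.sum_filter]
    refine Finset.sum_congr rfl fun i _ => ?_
    split_ifs with h
    · rfl
    · rw [Finsupp.notMem_support_iff.1 h, abs_zero]
  rw [h1]
  exact Finset.sum_le_sum_of_subset_of_nonneg (fun i hi => (Finset.mem_filter.1 hi).2)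
    fun i _ _ => abs_nonneg _

theorem bdd (f : ℕ → ℚ) (x : ℕ →₀ ℝ) :
    BddAbove {r : ℝ | ∃ C : Finset ℕ, Incr f C ∧ r = ∑ i ∈ C, |x i|} := by
  refine ⟨∑ i ∈ x.support, |x i|, ?_⟩
  rintro _ ⟨C, -, rfl⟩
  exact sum_le_supp x C

theorem le_sNorm {f : ℕ → ℚ} {C : Finset ℕ} (hC : Incr f C) (x : ℕ →₀ ℝ) :
    ∑ i ∈ C, |x i| ≤ sNorm f x := le_csSup (bdd f x) ⟨C, hC, rfl⟩

theorem incr_empty (f : ℕ → ℚ) : Incr f ∅ := by
  intro m hm
  simp at hm

theorem incr_singleton (f : ℕ → ℚ) (i : ℕ) : Incr f {i} := by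
  intro m hm n hn h
  rw [Finset.mem_singleton] at hm hn
  omega

theorem incr_subset {f : ℕ → ℚ} {C D : Finset ℕ} (hC : Incr f C) (h : D ⊆ C) : Incr f D :=
  fun m hm n hn hmn => hC m (h hm) n (h hn) hmn

theorem sNorm_le {f : ℕ → ℚ} {x : ℕ →₀ ℝ} {r : ℝ}
    (h : ∀ C : Finset ℕ, Incr f C → ∑ i ∈ C, |x i| ≤ r) : sNorm f x ≤ r := by
  refine csSup_le ⟨0, ∅, incr_empty f, by simp⟩ ?_
  rintro _ ⟨C, hC, rfl⟩
  exact h C hC

theorem exists_lt {f : ℕ → ℚ} {x : ℕ →₀ ℝ} {r : ℝ} (h : r < sNorm f x) :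
    ∃ C : Finset ℕ, Incr f C ∧ r < ∑ i ∈ C, |x i| := by
  by_contra hc
  push Not at hc
  exact absurd (sNorm_le hc) (not_le.2 h)

theorem sNorm_nonneg (f : ℕ → ℚ) (x : ℕ →₀ ℝ) : 0 ≤ sNorm f x := by
  have := le_sNorm (incr_empty f) x
  simpa using this

theorem sNorm_add_le (f : ℕ → ℚ) (x y : ℕ →₀ ℝ) : sNorm f (x + y) ≤ sNorm f x + sNorm f y := by
  refine sNorm_le fun C hC => ?_
  calc ∑ i ∈ C, |(x + y) i| ≤ ∑ i ∈ C, (|x i| + |y i|) :=
        Finset.sum_le_sum fun i _ => by rw [Finsupp.add_apply]; exact abs_add_le _ _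
    _ = ∑ i ∈ C, |x i| + ∑ i ∈ C, |y i| := Finset.sum_add_distrib
    _ ≤ _ := add_le_add (le_sNorm hC x) (le_sNorm hC y)

theorem sNorm_smul_le (f : ℕ → ℚ) (r : ℝ) (x : ℕ →₀ ℝ) : sNorm f (r • x) ≤ |r| * sNorm f x := by
  refine sNorm_le fun C hC => ?_
  calc ∑ i ∈ C, |(r • x) i| = |r| * ∑ i ∈ C, |x i| := by
        rw [Finset.mul_sum]
        refine Finset.sum_congr rfl fun i _ => ?_
        rw [Finsupp.smul_apply, smul_eq_mul, abs_mul]
    _ ≤ _ := mul_le_mul_of_nonneg_left (le_sNorm hC x) (abs_nonneg _)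

theorem abs_apply_le (f : ℕ → ℚ) (x : ℕ →₀ ℝ) (i : ℕ) : |x i| ≤ sNorm f x := by
  have := le_sNorm (incr_singleton f i) x
  simpa using this

theorem sNorm_neg (f : ℕ → ℚ) (x : ℕ →₀ ℝ) : sNorm f (-x) = sNorm f x := by
  have h1 := sNorm_smul_le f (-1) x
  have h2 := sNorm_smul_le f (-1) (-x)
  simp only [neg_smul, one_smul, neg_neg, abs_neg, abs_one, one_mul] at h1 h2
  exact le_antisymm h1 h2

/-- The finitely supported sequences, with the norm `sNorm f`. -/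
def Pre (_f : ℕ → ℚ) : Type := ℕ →₀ ℝ

noncomputable instance (f : ℕ → ℚ) : AddCommGroup (Pre f) := inferInstanceAs (AddCommGroup (ℕ →₀ ℝ))
noncomputable instance (f : ℕ → ℚ) : Module ℝ (Pre f) := inferInstanceAs (Module ℝ (ℕ →₀ ℝ))

noncomputable instance (f : ℕ → ℚ) : NormedAddCommGroup (Pre f) :=
  AddGroupNorm.toNormedAddCommGroup
    { toFun := sNorm f
      map_zero' := by
        refine le_antisymm (sNorm_le fun C _ => ?_) (sNorm_nonneg _ _)
        exact (Finset.sum_eq_zero fun i _ => by exact abs_zero).le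
      add_le' := sNorm_add_le f
      neg' := sNorm_neg f
      eq_zero_of_map_eq_zero' := by
        intro x hx
        refine Finsupp.ext fun i => ?_
        have h1 := abs_apply_le f x i
        rw [hx] at h1
        exact abs_eq_zero.1 (le_antisymm h1 (abs_nonneg _)) }

noncomputable instance (f : ℕ → ℚ) : NormedSpace ℝ (Pre f) where
  norm_smul_le := fun r x => sNorm_smul_le f r x

/-- the underlying sequence -/
def Pre.seq {f : ℕ → ℚ} (x : Pre f) : ℕ →₀ ℝ := x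

theorem norm_pre {f : ℕ → ℚ} (x : Pre f) : ‖x‖ = sNorm f x.seq := rfl

theorem seq_add {f : ℕ → ℚ} (x y : Pre f) : (x + y).seq = x.seq + y.seq := rfl

theorem seq_smul {f : ℕ → ℚ} (r : ℝ) (x : Pre f) : (r • x).seq = r • x.seq := rfl

/-- The Sierpinski space: the completion of the finitely supported sequences. -/
abbrev Sierpinski (f : ℕ → ℚ) : Type := UniformSpace.Completion (Pre f)

end Pool.Agent.R269.Sier
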