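import Pool.Agent.R269.SierMain

/-!
# The two isometric embedding theorems
-/

set_option autoImplicit false

open scoped ENNReal ZeroAtInfty

namespace Pool.Agent.R269.Sier

theorem norm_close {f : ℕ → ℚ} {p : Sierpinski f} {y : Pre f} {ε : ℝ}
    (h : ‖p - (y : Sierpinski f)‖ ≤ ε) : sNorm f y.seq ≤ ‖p‖ + ε ∧ ‖p‖ - ε ≤ sNorm f y.seq := by
  have h1 : ‖(y : Sierpinski f)‖ = sNorm f y.seq := UniformSpace.Completion.norm_coe y
  have h2 := norm_sub_norm_le p (y : Sierpinski f)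
  have h3 := norm_sub_norm_le (y : Sierpinski f) p
  rw [norm_sub_rev] at h3
  rw [← h1]
  constructor <;> linarith

theorem norm_close_add {f : ℕ → ℚ} {p q : Sierpinski f} {y z : Pre f} {ε δ : ℝ}
    (h : ‖p - (y : Sierpinski f)‖ ≤ ε) (h' : ‖q - (z : Sierpinski f)‖ ≤ δ) :
    sNorm f (y.seq + z.seq) ≤ ‖p + q‖ + (ε + δ) ∧ ‖p + q‖ - (ε + δ) ≤ sNorm f (y.seq + z.seq) := by
  have h1 : ‖p + q - ((y + z : Pre f) : Sierpinski f)‖ ≤ ε + δ := by
    rw [UniformSpace.Completion.coe_add]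
    calc ‖p + q - ((y : Sierpinski f) + (z : Sierpinski f))‖
        = ‖(p - (y : Sierpinski f)) + (q - (z : Sierpinski f))‖ := by congr 1; abel
      _ ≤ _ := (norm_add_le _ _).trans (add_le_add h h')
  exact norm_close h1

/-- Blocks of a sequence, normalized in `ℓ₁`. -/
theorem block_one {f : ℕ → ℚ} (x : ℕ → Sierpinski f) (N : ℕ) {ε : ℝ} (hε : 0 < ε) :
    ∃ b : ℕ → ℝ, ∑ n ∈ Finset.range (N + 1), |b n| = 1 ∧
      ∃ y : Pre f, (∀ i < N, y.seq i = 0) ∧
        ‖∑ n ∈ Finset.range (N + 1), b n • x n - (y : Sierpinski f)‖ ≤ ε := by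
  obtain ⟨b, -, ⟨m, hm, hbm⟩, y, hy, hyε⟩ := block x N hε
  set s := ∑ n ∈ Finset.range (N + 1), |b n| with hs
  have hs1 : 1 ≤ s := by
    rw [← hbm, hs]
    exact Finset.single_le_sum (f := fun n => |b n|) (fun n _ => abs_nonneg _)
      (Finset.mem_range.2 hm)
  have hs0 : 0 < s := by linarith
  refine ⟨fun n => b n / s, ?_, (1 / s) • y, ?_, ?_⟩
  · have : ∀ n ∈ Finset.range (N + 1), |b n / s| = |b n| / s := fun n _ => by
      rw [abs_div, abs_of_pos hs0]
    rw [Finset.sum_congr rfl this, ← Finset.sum_div, ← hs, div_self hs0.ne']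
  · intro i hi
    rw [seq_smul, Finsupp.smul_apply, hy i hi, smul_zero]
  · have h1 : ∑ n ∈ Finset.range (N + 1), (b n / s) • x n -
        (((1 / s) • y : Pre f) : Sierpinski f) =
        (1 / s) • (∑ n ∈ Finset.range (N + 1), b n • x n - (y : Sierpinski f)) := by
      rw [UniformSpace.Completion.coe_smul, smul_sub, Finset.smul_sum]
      congr 1
      refine Finset.sum_congr rfl fun n _ => ?_
      rw [smul_smul]
      congr 1
      ring
    rw [h1, norm_smul, Real.norm_eq_abs, abs_of_pos (by positivity)]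
    calc 1 / s * ‖∑ n ∈ Finset.range (N + 1), b n • x n - (y : Sierpinski f)‖ ≤ 1 * ε :=
          mul_le_mul ((div_le_one hs0).2 hs1) hyε (norm_nonneg _) zero_le_one
      _ = ε := one_mul _

/-- the unit vectors of `ℓ₁` -/
noncomputable def uv (n : ℕ) : lp (fun _ : ℕ => ℝ) 1 := lp.single 1 n (1 : ℝ)

theorem norm_sum_uv (b : ℕ → ℝ) (N : ℕ) :
    ‖∑ n ∈ Finset.range N, b n • uv n‖ = ∑ n ∈ Finset.range N, |b n| := by
  have h := lp.norm_sum_single (E := fun _ : ℕ => ℝ) (p := 1) (by simp) b (Finset.range N)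
  simp only [ENNReal.toReal_one, Real.rpow_one, Real.norm_eq_abs] at h
  rw [← h]
  congr 1
  refine Finset.sum_congr rfl fun n _ => ?_
  rw [uv, ← lp.single_smul, smul_eq_mul, mul_one]

theorem no_l1 (f : ℕ → ℚ)
    (E : (lp (fun _ : ℕ => ℝ) 1 × lp (fun _ : ℕ => ℝ) 1) →ₗᵢ[ℝ] Sierpinski f) : False := by
  have hE : ∀ p q : lp (fun _ : ℕ => ℝ) 1, ‖E (p, q)‖ = max ‖p‖ ‖q‖ := fun p q => by
    rw [E.norm_map, Prod.norm_mk]
  have hd : DenseRange ((↑) : Pre f → Sierpinski f) := UniformSpace.Completion.denseRange_coe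
  -- first vector
  obtain ⟨y₁, hy₁⟩ := Metric.denseRange_iff.1 hd (E (uv 0, 0)) (1 / 100) (by norm_num)
  rw [dist_eq_norm] at hy₁
  obtain ⟨M₁, hM₁⟩ := exists_bound y₁
  -- second vector
  obtain ⟨b, hb, y₂, hy₂, hy₂ε⟩ := block_one (fun n => E (0, uv n)) M₁
    (ε := 1 / 100) (by norm_num)
  obtain ⟨M₂', hM₂'⟩ := exists_bound y₂
  set M₂ := max M₁ M₂' with hM₂
  -- third vector
  obtain ⟨c, hc, y₃, hy₃, hy₃ε⟩ := block_one (fun n => E (uv (n + 1), 0)) M₂
    (ε := 1 / 100) (by norm_num)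
  have e2 : ∑ n ∈ Finset.range (M₁ + 1), b n • E (0, uv n) =
      E (0, ∑ n ∈ Finset.range (M₁ + 1), b n • uv n) := by
    have : (0, ∑ n ∈ Finset.range (M₁ + 1), b n • uv n) =
        ∑ n ∈ Finset.range (M₁ + 1), b n • ((0 : lp (fun _ : ℕ => ℝ) 1), uv n) := by
      refine Prod.ext ?_ ?_
      · simp [Prod.fst_sum]
      · simp [Prod.snd_sum]
    rw [this, map_sum]
    exact Finset.sum_congr rfl fun n _ => by rw [map_smul]
  have e3 : ∑ n ∈ Finset.range (M₂ + 1), c n • E (uv (n + 1), 0) =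
      E (∑ n ∈ Finset.range (M₂ + 1), c n • uv (n + 1), 0) := by
    have : (∑ n ∈ Finset.range (M₂ + 1), c n • uv (n + 1), (0 : lp (fun _ : ℕ => ℝ) 1)) =
        ∑ n ∈ Finset.range (M₂ + 1), c n • (uv (n + 1), (0 : lp (fun _ : ℕ => ℝ) 1)) := by
      refine Prod.ext ?_ ?_
      · simp [Prod.fst_sum]
      · simp [Prod.snd_sum]
    rw [this, map_sum]
    exact Finset.sum_congr rfl fun n _ => by rw [map_smul]
  rw [e2] at hy₂ε
  rw [e3] at hy₃ε
  -- norms in `ℓ₁`
  have hu : ‖uv 0‖ = 1 := by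
    have := norm_sum_uv (fun _ => 1) 1
    simpa using this
  have hb' : ‖∑ n ∈ Finset.range (M₁ + 1), b n • uv n‖ = 1 := by rw [norm_sum_uv, hb]
  have hadd : uv 0 + ∑ n ∈ Finset.range (M₂ + 1), c n • uv (n + 1) =
      ∑ n ∈ Finset.range (M₂ + 1 + 1), (fun n => Nat.casesOn n 1 c : ℕ → ℝ) n • uv n := by
    rw [Finset.sum_range_succ' _ (M₂ + 1), add_comm]
    congr 1
    exact (one_smul ℝ _).symm
  have hc1 : ‖∑ n ∈ Finset.range (M₂ + 1), c n • uv (n + 1)‖ = 1 := by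
    have h0 : ∑ n ∈ Finset.range (M₂ + 1), c n • uv (n + 1) =
        ∑ n ∈ Finset.range (M₂ + 1 + 1), (fun n => Nat.casesOn n 0 c : ℕ → ℝ) n • uv n := by
      rw [Finset.sum_range_succ' _ (M₂ + 1)]
      simp
    rw [h0, norm_sum_uv, Finset.sum_range_succ' _ (M₂ + 1)]
    simp [hc]
  have hc2 : ‖uv 0 + ∑ n ∈ Finset.range (M₂ + 1), c n • uv (n + 1)‖ = 2 := by
    rw [hadd, norm_sum_uv, Finset.sum_range_succ' _ (M₂ + 1)]
    simp [hc]
    norm_num
  have a1 := norm_close hy₁.le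
  have a2 := norm_close hy₂ε
  have a3 := norm_close hy₃ε
  have a13 := norm_close_add hy₁.le hy₃ε
  have a12 := norm_close_add hy₁.le hy₂ε
  have a23 := norm_close_add hy₂ε hy₃ε
  rw [hE, hu, norm_zero, max_eq_left zero_le_one] at a1
  rw [hE, hb', norm_zero, max_eq_right zero_le_one] at a2
  rw [hE, hc1, norm_zero, max_eq_left zero_le_one] at a3
  rw [← map_add, Prod.mk_add_mk, hE, hc2, add_zero, norm_zero, max_eq_left zero_le_two] at a13
  rw [← map_add, Prod.mk_add_mk, hE, add_zero, zero_add, hu, hb', max_self] at a12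
  rw [← map_add, Prod.mk_add_mk, hE, add_zero, zero_add, hc1, hb', max_self] at a23
  refine obstruct_one (f := f) (M₁ := M₁) (M₂ := M₂) (le_max_left _ _) hM₁ hy₂
    (fun i hi => hM₂' i ((le_max_right _ _).trans hi)) hy₃ ?_ ?_ ?_ ?_ ?_ ?_
  · linarith [a1.1]
  · linarith [a2.2]
  · linarith [a3.1]
  · linarith [a13.2]
  · linarith [a12.1]
  · linarith [a23.1]

/-- the unit vectors of `c₀` -/
noncomputable def cv (n : ℕ) : C₀(ℕ, ℝ) where
  toFun := Pi.single n 1
  continuous_toFun := continuous_of_discreteTopology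
  zero_at_infty' := by
    rw [Filter.cocompact_eq_cofinite, Nat.cofinite_eq_atTop]
    refine tendsto_const_nhds.congr' ?_
    filter_upwards [Filter.eventually_gt_atTop n] with m hm
    have hm' : m ≠ n := Nat.ne_of_gt hm
    have h0 : (Pi.single n (1 : ℝ) : ℕ → ℝ) m = 0 := Pi.single_eq_of_ne hm' _
    exact h0.symm

theorem cv_apply (n m : ℕ) : cv n m = if m = n then 1 else 0 := by
  change (Pi.single n 1 : ℕ → ℝ) m = _
  rw [Pi.single_apply]

theorem sum_cv_apply (b : ℕ → ℝ) (N K m : ℕ) :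
    (∑ n ∈ Finset.range N, b n • cv (n + K)) m = if K ≤ m ∧ m < N + K then b (m - K) else 0 := by
  have h1 : (∑ n ∈ Finset.range N, b n • cv (n + K)) m =
      ∑ n ∈ Finset.range N, (b n • cv (n + K)) m := by
    induction N with
    | zero => simp
    | succ N ih =>
      rw [Finset.sum_range_succ, Finset.sum_range_succ, ZeroAtInftyContinuousMap.add_apply, ih]
  rw [h1]
  have h2 : ∀ n ∈ Finset.range N, (b n • cv (n + K)) m = if m = n + K then b n else 0 := by
    intro n _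
    rw [ZeroAtInftyContinuousMap.smul_apply, cv_apply, smul_eq_mul, mul_ite, mul_one, mul_zero]
  rw [Finset.sum_congr rfl h2]
  split_ifs with h
  · rw [Finset.sum_eq_single (m - K)]
    · rw [if_pos (by omega)]
    · intro n _ hn
      rw [if_neg (by omega)]
    · intro hn
      rw [Finset.mem_range] at hn
      omega
  · refine Finset.sum_eq_zero fun n hn => ?_
    rw [Finset.mem_range] at hn
    rw [if_neg (by omega)]

theorem norm_eq_one {g : C₀(ℕ, ℝ)} (h1 : ∀ n, |g n| ≤ 1) (h2 : ∃ n, |g n| = 1) : ‖g‖ = 1 := by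
  rw [← ZeroAtInftyContinuousMap.norm_toBCF_eq_norm]
  refine le_antisymm ((BoundedContinuousFunction.norm_le zero_le_one).2 h1) ?_
  obtain ⟨n, hn⟩ := h2
  rw [← hn]
  exact BoundedContinuousFunction.norm_coe_le_norm g.toBCF n

theorem no_c0' (f : ℕ → ℚ) (A B : C₀(ℕ, ℝ) →ₗ[ℝ] Sierpinski f)
    (hE : ∀ p q, ‖A p + B q‖ = ‖p‖ + ‖q‖) : False := by
  have hd : DenseRange ((↑) : Pre f → Sierpinski f) := UniformSpace.Completion.denseRange_coe
  -- first vector
  obtain ⟨y₁, hy₁⟩ := Metric.denseRange_iff.1 hd (A (cv 0)) (1 / 100) (by norm_num)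
  rw [dist_eq_norm] at hy₁
  obtain ⟨M₁, hM₁⟩ := exists_bound y₁
  -- second vector
  obtain ⟨b, hb1, ⟨mb, hmb, hmb1⟩, y₂, hy₂, hy₂ε⟩ := block (fun n => B (cv (n + 0))) M₁
    (ε := 1 / 100) (by norm_num)
  obtain ⟨M₂', hM₂'⟩ := exists_bound y₂
  set M₂ := max M₁ M₂' with hM₂
  -- third vector
  obtain ⟨c, hc1, ⟨mc, hmc, hmc1⟩, y₃, hy₃, hy₃ε⟩ := block (fun n => A (cv (n + 1))) M₂
    (ε := 1 / 100) (by norm_num)
  obtain ⟨M₃', hM₃'⟩ := exists_bound y₃
  set M₃ := max M₂ M₃' with hM₃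
  -- fourth vector
  obtain ⟨d, hd1, ⟨md, hmd, hmd1⟩, y₄, hy₄, hy₄ε⟩ := block (fun n => B (cv (n + (M₁ + 1)))) M₃
    (ε := 1 / 100) (by norm_num)
  have hsum : ∀ (T : C₀(ℕ, ℝ) →ₗ[ℝ] Sierpinski f) (b : ℕ → ℝ) (N K : ℕ),
      ∑ n ∈ Finset.range N, b n • T (cv (n + K)) =
        T (∑ n ∈ Finset.range N, b n • cv (n + K)) := by
    intro T b N K
    rw [map_sum]
    exact Finset.sum_congr rfl fun n _ => by rw [map_smul]
  rw [hsum] at hy₂ε hy₃ε hy₄ε
  set P₂ := ∑ n ∈ Finset.range (M₁ + 1), b n • cv (n + 0) with hP₂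
  set P₃ := ∑ n ∈ Finset.range (M₂ + 1), c n • cv (n + 1) with hP₃
  set P₄ := ∑ n ∈ Finset.range (M₃ + 1), d n • cv (n + (M₁ + 1)) with hP₄
  have p2 : ∀ m, P₂ m = if m < M₁ + 1 then b m else 0 := by
    intro m
    rw [hP₂, sum_cv_apply]
    simp
  have p3 : ∀ m, P₃ m = if 1 ≤ m ∧ m < M₂ + 1 + 1 then c (m - 1) else 0 := fun m => by
    rw [hP₃, sum_cv_apply]
  have p4 : ∀ m, P₄ m = if M₁ + 1 ≤ m ∧ m < M₃ + 1 + (M₁ + 1) then d (m - (M₁ + 1)) else 0 :=
    fun m => by rw [hP₄, sum_cv_apply]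
  have n1 : ‖cv 0‖ = 1 := norm_eq_one (fun n => by rw [cv_apply]; split_ifs <;> simp)
    ⟨0, by rw [cv_apply]; simp⟩
  have n2 : ‖P₂‖ = 1 := norm_eq_one (fun n => by
    rw [p2]; split_ifs
    · exact hb1 _
    · simp) ⟨mb, by rw [p2, if_pos hmb, hmb1]⟩
  have n3 : ‖P₃‖ = 1 := norm_eq_one (fun n => by
    rw [p3]; split_ifs
    · exact hc1 _
    · simp) ⟨mc + 1, by rw [p3, if_pos (by omega), Nat.add_sub_cancel, hmc1]⟩
  have n4 : ‖P₄‖ = 1 := norm_eq_one (fun n => by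
    rw [p4]; split_ifs
    · exact hd1 _
    · simp) ⟨md + (M₁ + 1), by rw [p4, if_pos (by omega), Nat.add_sub_cancel, hmd1]⟩
  have n13 : ‖cv 0 + P₃‖ = 1 := norm_eq_one (fun n => by
    rw [ZeroAtInftyContinuousMap.add_apply, p3, cv_apply]
    rcases Nat.eq_zero_or_pos n with h | h
    · subst h
      simp
    · rw [if_neg h.ne', zero_add]
      split_ifs
      · exact hc1 _
      · simp) ⟨0, by rw [ZeroAtInftyContinuousMap.add_apply, p3, cv_apply]; simp⟩
  have n24 : ‖P₂ + P₄‖ = 1 := norm_eq_one (fun n => by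
    rw [ZeroAtInftyContinuousMap.add_apply, p2, p4]
    rcases lt_or_ge n (M₁ + 1) with h | h
    · rw [if_pos h, if_neg (by omega), add_zero]
      exact hb1 _
    · rw [if_neg (by omega), zero_add]
      split_ifs
      · exact hd1 _
      · simp) ⟨mb, by
        rw [ZeroAtInftyContinuousMap.add_apply, p2, p4, if_pos hmb, if_neg (by omega), add_zero,
          hmb1]⟩
  have hA : ∀ p, ‖A p‖ = ‖p‖ := fun p => by
    have := hE p 0
    rwa [map_zero, add_zero, norm_zero, add_zero] at this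
  have hB : ∀ p, ‖B p‖ = ‖p‖ := fun p => by
    have := hE 0 p
    rwa [map_zero, zero_add, norm_zero, zero_add] at this
  have a1 := norm_close hy₁.le
  have a2 := norm_close hy₂ε
  have a3 := norm_close hy₃ε
  have a4 := norm_close hy₄ε
  have a14 := norm_close_add hy₁.le hy₄ε
  have a23 := norm_close_add hy₂ε hy₃ε
  have a13 := norm_close_add hy₁.le hy₃ε
  have a24 := norm_close_add hy₂ε hy₄ε
  rw [hA, n1] at a1
  rw [hB, n2] at a2
  rw [hA, n3] at a3
  rw [hB, n4] at a4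
  rw [hE, n1, n4] at a14
  rw [add_comm (B P₂), hE, n2, n3] at a23
  rw [← map_add, hA, n13] at a13
  rw [← map_add, hB, n24] at a24
  refine obstruct_two (f := f) (M₁ := M₁) (M₂ := M₂) (M₃ := M₃) (le_max_left _ _)
    (le_max_left _ _) hM₁ hy₂ (fun i hi => hM₂' i ((le_max_right _ _).trans hi)) hy₃
    (fun i hi => hM₃' i ((le_max_right _ _).trans hi)) hy₄ ?_ ?_ ?_ ?_ ?_ ?_ ?_ ?_
  · linarith [a1.1]
  · linarith [a2.1]
  · linarith [a3.1]
  · linarith [a4.1]
  · linarith [a14.2]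
  · linarith [a23.2]
  · linarith [a13.1]
  · linarith [a24.1]

theorem no_c0 (f : ℕ → ℚ) (E : WithLp 1 (C₀(ℕ, ℝ) × C₀(ℕ, ℝ)) →ₗᵢ[ℝ] Sierpinski f) : False := by
  refine no_c0' f
    { toFun := fun p => E (WithLp.toLp 1 (p, 0))
      map_add' := fun p q => by
        rw [← map_add]
        congr 1
        rw [← WithLp.toLp_add, Prod.mk_add_mk, add_zero]
      map_smul' := fun r p => by
        rw [RingHom.id_apply, ← map_smul]
        congr 1
        rw [← WithLp.toLp_smul, Prod.smul_mk, smul_zero] }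
    { toFun := fun p => E (WithLp.toLp 1 (0, p))
      map_add' := fun p q => by
        rw [← map_add]
        congr 1
        rw [← WithLp.toLp_add, Prod.mk_add_mk, add_zero]
      map_smul' := fun r p => by
        rw [RingHom.id_apply, ← map_smul]
        congr 1
        rw [← WithLp.toLp_smul, Prod.smul_mk, smul_zero] } ?_
  intro p q
  change ‖E (WithLp.toLp 1 (p, 0)) + E (WithLp.toLp 1 (0, q))‖ = ‖p‖ + ‖q‖
  rw [← map_add, ← WithLp.toLp_add, Prod.mk_add_mk, add_zero, zero_add, E.norm_map,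
    WithLp.prod_norm_eq_of_L1]
  rfl

end Pool.Agent.R269.Sier
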