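import Pool.Agent.R269.SierDefs

/-!
# Blocks in the Sierpinski space
-/

set_option autoImplicit false

namespace Pool.Agent.R269.Sier

theorem seq_sum {f : ℕ → ℚ} {ι : Type} (s : Finset ι) (g : ι → Pre f) :
    (∑ n ∈ s, g n).seq = ∑ n ∈ s, (g n).seq := rfl

/-- Blocks of a sequence. -/
theorem block {f : ℕ → ℚ} (x : ℕ → Sierpinski f) (N : ℕ) {ε : ℝ} (hε : 0 < ε) :
    ∃ b : ℕ → ℝ, (∀ n, |b n| ≤ 1) ∧ (∃ n < N + 1, |b n| = 1) ∧
      ∃ y : Pre f, (∀ i < N, y.seq i = 0) ∧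
        ‖∑ n ∈ Finset.range (N + 1), b n • x n - (y : Sierpinski f)‖ ≤ ε := by
  classical
  have hz : ∀ n, ∃ z : Pre f, ‖x n - (z : Sierpinski f)‖ ≤ ε / (N + 1) := by
    intro n
    have hd : DenseRange ((↑) : Pre f → Sierpinski f) := UniformSpace.Completion.denseRange_coe
    obtain ⟨z, hz⟩ := Metric.denseRange_iff.1 hd (x n) (ε / (N + 1)) (by positivity)
    exact ⟨z, by rw [← dist_eq_norm]; exact hz.le⟩
  choose z hz using hz
  let L : (Fin (N + 1) → ℝ) →ₗ[ℝ] (Fin N → ℝ) :=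
    { toFun := fun c i => ∑ n, c n * (z n).seq i
      map_add' := by
        intro c d
        funext i
        simp only [Pi.add_apply]
        rw [← Finset.sum_add_distrib]
        exact Finset.sum_congr rfl fun n _ => by ring
      map_smul' := by
        intro r c
        funext i
        simp only [Pi.smul_apply, smul_eq_mul, RingHom.id_apply]
        rw [Finset.mul_sum]
        exact Finset.sum_congr rfl fun n _ => by ring }
  have hker : LinearMap.ker L ≠ ⊥ := LinearMap.ker_ne_bot_of_finrank_lt (by simp)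
  obtain ⟨c, hc, hc0⟩ := (Submodule.ne_bot_iff _).1 hker
  obtain ⟨m, -, hm⟩ := Finset.exists_max_image Finset.univ (fun n : Fin (N + 1) => |c n|)
    ⟨0, Finset.mem_univ _⟩
  have hM : 0 < |c m| := by
    rcases (abs_nonneg (c m)).lt_or_eq with h | h
    · exact h
    · exfalso
      refine hc0 (funext fun n => ?_)
      have := hm n (Finset.mem_univ _)
      rw [← h] at this
      exact abs_eq_zero.1 (le_antisymm this (abs_nonneg _))
  let b : ℕ → ℝ := fun n => if h : n < N + 1 then c ⟨n, h⟩ / |c m| else 0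
  have hb1 : ∀ n, |b n| ≤ 1 := by
    intro n
    simp only [b]
    split_ifs with h
    · rw [abs_div, abs_abs, div_le_one hM]
      exact hm _ (Finset.mem_univ _)
    · simp
  refine ⟨b, hb1, ⟨m, m.2, ?_⟩, ∑ n ∈ Finset.range (N + 1), b n • z n, ?_, ?_⟩
  · simp only [b, dif_pos m.2, Fin.eta]
    rw [abs_div, abs_abs, div_self hM.ne']
  · intro i hi
    rw [seq_sum, Finsupp.finset_sum_apply]
    have h1 : L c ⟨i, hi⟩ = 0 := by
      rw [LinearMap.mem_ker.1 hc]
      rfl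
    have h2 : ∑ n : Fin (N + 1), c n * (z n).seq i = 0 := h1
    rw [Finset.sum_range fun n => (b n • z n).seq i]
    have h3 : ∀ n : Fin (N + 1), (b n • z n).seq i = (c n * (z n).seq i) / |c m| := by
      intro n
      rw [seq_smul, Finsupp.smul_apply, smul_eq_mul]
      simp only [b, dif_pos n.2, Fin.eta]
      ring
    rw [Finset.sum_congr rfl fun n _ => h3 n, ← Finset.sum_div, h2, zero_div]
  · have h1 : ((∑ n ∈ Finset.range (N + 1), b n • z n : Pre f) : Sierpinski f) =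
        ∑ n ∈ Finset.range (N + 1), b n • (z n : Sierpinski f) := by
      have h := map_sum (UniformSpace.Completion.toComplL (𝕜 := ℝ) (E := Pre f))
        (fun n => b n • z n) (Finset.range (N + 1))
      simp only [map_smul] at h
      exact h
    rw [h1, ← Finset.sum_sub_distrib]
    calc ‖∑ n ∈ Finset.range (N + 1), (b n • x n - b n • (z n : Sierpinski f))‖
        ≤ ∑ n ∈ Finset.range (N + 1), ‖b n • x n - b n • (z n : Sierpinski f)‖ := norm_sum_le _ _
      _ ≤ ∑ _n ∈ Finset.range (N + 1), ε / (N + 1) := by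
          refine Finset.sum_le_sum fun n _ => ?_
          rw [← smul_sub, norm_smul, Real.norm_eq_abs]
          calc |b n| * ‖x n - (z n : Sierpinski f)‖ ≤ 1 * (ε / (N + 1)) :=
                mul_le_mul (hb1 n) (hz n) (norm_nonneg _) zero_le_one
            _ = _ := one_mul _
      _ = ε := by
          rw [Finset.sum_const, Finset.card_range, nsmul_eq_mul]
          push_cast
          field_simp

/-- a bound for the support -/
theorem exists_bound {f : ℕ → ℚ} (y : Pre f) : ∃ M : ℕ, ∀ i, M ≤ i → y.seq i = 0 := by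
  refine ⟨y.seq.support.sup id + 1, fun i hi => ?_⟩
  by_contra h
  have := Finset.le_sup (f := id) (Finsupp.mem_support_iff.2 h)
  simp only [id] at this
  omega

/-- If a norming set of `y + z` (with `y` before `z`) is given, it splits. -/
theorem split {f : ℕ → ℚ} {y z : ℕ →₀ ℝ} {M : ℕ} (hy : ∀ i, M ≤ i → y i = 0)
    (hz : ∀ i, i < M → z i = 0) (hy1 : sNorm f y ≤ 1 + 1 / 100) (hz1 : sNorm f z ≤ 1 + 1 / 100)
    (h : 2 - 2 / 100 ≤ sNorm f (y + z)) :
    ∃ C D : Finset ℕ, ∃ t : ℚ, Incr f C ∧ Incr f D ∧ (∀ i ∈ C, i < M ∧ f i < t) ∧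
      (∀ i ∈ D, M ≤ i ∧ t ≤ f i) ∧ 1 - 4 / 100 ≤ ∑ i ∈ C, |y i| ∧ 1 - 4 / 100 ≤ ∑ i ∈ D, |z i| := by
  classical
  obtain ⟨C, hC, hs⟩ := exists_lt (f := f) (x := y + z) (r := 2 - 3 / 100) (by linarith)
  have hs2 : ∑ i ∈ C, |(y + z) i| = ∑ i ∈ C.filter (· < M), |y i| +
      ∑ i ∈ C.filter (¬ · < M), |z i| := by
    rw [← Finset.sum_filter_add_sum_filter_not C (· < M)]
    congr 1
    · refine Finset.sum_congr rfl fun i hi => ?_
      rw [Finsupp.add_apply, hz i (Finset.mem_filter.1 hi).2, add_zero]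
    · refine Finset.sum_congr rfl fun i hi => ?_
      rw [Finsupp.add_apply, hy i (not_lt.1 (Finset.mem_filter.1 hi).2), zero_add]
  rw [hs2] at hs
  have h1 := le_sNorm (incr_subset hC (Finset.filter_subset (· < M) C)) y
  have h2 := le_sNorm (incr_subset hC (Finset.filter_subset (¬ · < M) C)) z
  have hne : (C.filter (¬ · < M)).Nonempty := by
    by_contra hcon
    rw [Finset.not_nonempty_iff_eq_empty] at hcon
    rw [hcon, Finset.sum_empty] at hs
    linarith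
  obtain ⟨c, hc, hcmin⟩ := Finset.exists_min_image _ (fun i : ℕ => i) hne
  refine ⟨C.filter (· < M), C.filter (¬ · < M), f c, incr_subset hC (Finset.filter_subset _ _),
    incr_subset hC (Finset.filter_subset _ _), ?_, ?_, by linarith, by linarith⟩
  · intro i hi
    rw [Finset.mem_filter] at hi hc
    exact ⟨hi.2, hC i hi.1 c hc.1 (by omega)⟩
  · intro i hi
    have hi' := Finset.mem_filter.1 hi
    refine ⟨not_lt.1 hi'.2, ?_⟩
    rcases (hcmin i hi).lt_or_eq with h3 | h3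
    · exact (hC c (Finset.mem_filter.1 hc).1 i hi'.1 h3).le
    · rw [h3]

/-- Gluing of two sets, the first lying before and below the second. -/
theorem glue {f : ℕ → ℚ} {C D : Finset ℕ} {M : ℕ} {t : ℚ} (hC : Incr f C) (hD : Incr f D)
    (hC1 : ∀ i ∈ C, i < M ∧ f i < t) (hD1 : ∀ i ∈ D, M ≤ i ∧ t ≤ f i) {y z : ℕ →₀ ℝ}
    (hy : ∀ i, M ≤ i → y i = 0) (hz : ∀ i, i < M → z i = 0) :
    ∑ i ∈ C, |y i| + ∑ i ∈ D, |z i| ≤ sNorm f (y + z) := by
  classical
  have hdis : Disjoint C D := by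
    rw [Finset.disjoint_left]
    intro i hi hi'
    have := (hC1 i hi).1
    have := (hD1 i hi').1
    omega
  have hinc : Incr f (C ∪ D) := by
    intro m hm n hn hmn
    rw [Finset.mem_union] at hm hn
    rcases hm with hm | hm <;> rcases hn with hn | hn
    · exact hC m hm n hn hmn
    · exact (hC1 m hm).2.trans_le (hD1 n hn).2
    · have := (hD1 m hm).1
      have := (hC1 n hn).1
      omega
    · exact hD m hm n hn hmn
  have h1 := le_sNorm hinc (y + z)
  rw [Finset.sum_union hdis] at h1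
  have h2 : ∑ i ∈ C, |(y + z) i| = ∑ i ∈ C, |y i| := Finset.sum_congr rfl fun i hi => by
    rw [Finsupp.add_apply, hz i (hC1 i hi).1, add_zero]
  have h3 : ∑ i ∈ D, |(y + z) i| = ∑ i ∈ D, |z i| := Finset.sum_congr rfl fun i hi => by
    rw [Finsupp.add_apply, hy i (hD1 i hi).1, zero_add]
  rwa [h2, h3] at h1

/-- The first combinatorial obstruction. -/
theorem obstruct_one {f : ℕ → ℚ} {y₁ y₂ y₃ : ℕ →₀ ℝ} {M₁ M₂ : ℕ}
    (hM : M₁ ≤ M₂) (h1 : ∀ i, M₁ ≤ i → y₁ i = 0) (h2 : ∀ i, i < M₁ → y₂ i = 0)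
    (h2' : ∀ i, M₂ ≤ i → y₂ i = 0) (h3 : ∀ i, i < M₂ → y₃ i = 0)
    (n1 : sNorm f y₁ ≤ 1 + 1 / 100) (n2 : 1 - 1 / 100 ≤ sNorm f y₂)
    (n3 : sNorm f y₃ ≤ 1 + 1 / 100) (n13 : 2 - 2 / 100 ≤ sNorm f (y₁ + y₃))
    (n12 : sNorm f (y₁ + y₂) ≤ 1 + 2 / 100) (n23 : sNorm f (y₂ + y₃) ≤ 1 + 2 / 100) : False := by
  classical
  obtain ⟨C, D, t, hC, hD, hC1, hD1, hCs, hDs⟩ := split (M := M₂) (f := f) (y := y₁) (z := y₃)
    (fun i hi => h1 i (hM.trans hi)) h3 n1 n3 n13
  obtain ⟨B, hB, hBs⟩ := exists_lt (f := f) (x := y₂) (r := 1 - 2 / 100) (by linarith)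
  -- restrict everything to the right positions
  set C' := C.filter (· < M₁) with hC'
  have hCs' : ∑ i ∈ C', |y₁ i| = ∑ i ∈ C, |y₁ i| := by
    rw [hC', Finset.sum_filter]
    refine Finset.sum_congr rfl fun i _ => ?_
    split_ifs with h
    · rfl
    · rw [h1 i (not_lt.1 h), abs_zero]
  set B' := B.filter (fun i => M₁ ≤ i ∧ i < M₂) with hB'
  have hBs' : ∑ i ∈ B', |y₂ i| = ∑ i ∈ B, |y₂ i| := by
    rw [hB', Finset.sum_filter]
    refine Finset.sum_congr rfl fun i _ => ?_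
    split_ifs with h
    · rfl
    · rcases lt_or_ge i M₁ with h5 | h5
      · rw [h2 i h5, abs_zero]
      · rw [h2' i (not_lt.1 fun h6 => h ⟨h5, h6⟩), abs_zero]
  have hBi : Incr f B' := incr_subset hB (Finset.filter_subset _ _)
  have e1 := glue (M := M₂) (t := t) (C := B'.filter (f · < t)) (D := D) (y := y₂) (z := y₃)
    (incr_subset hBi (Finset.filter_subset _ _)) hD (fun i hi => by
      rw [Finset.mem_filter, hB', Finset.mem_filter] at hi
      exact ⟨hi.1.2.2, hi.2⟩) hD1 h2' h3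
  have e2 := glue (M := M₁) (t := t) (C := C') (D := B'.filter (¬ f · < t)) (y := y₁) (z := y₂)
    (incr_subset hC (Finset.filter_subset _ _)) (incr_subset hBi (Finset.filter_subset _ _))
    (fun i hi => by
      rw [hC', Finset.mem_filter] at hi
      exact ⟨hi.2, (hC1 i hi.1).2⟩) (fun i hi => by
      rw [Finset.mem_filter, hB', Finset.mem_filter] at hi
      exact ⟨hi.1.2.1, not_lt.1 hi.2⟩) h1 h2
  have e3 := Finset.sum_filter_add_sum_filter_not B' (f · < t) (fun i => |y₂ i|)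
  rw [hCs'] at e2
  linarith

/-- The second combinatorial obstruction. -/
theorem obstruct_two {f : ℕ → ℚ} {y₁ y₂ y₃ y₄ : ℕ →₀ ℝ} {M₁ M₂ M₃ : ℕ} (hM : M₁ ≤ M₂)
    (hM' : M₂ ≤ M₃) (h1 : ∀ i, M₁ ≤ i → y₁ i = 0) (h2 : ∀ i, i < M₁ → y₂ i = 0)
    (h2' : ∀ i, M₂ ≤ i → y₂ i = 0) (h3 : ∀ i, i < M₂ → y₃ i = 0)
    (h3' : ∀ i, M₃ ≤ i → y₃ i = 0) (h4 : ∀ i, i < M₃ → y₄ i = 0)
    (n1 : sNorm f y₁ ≤ 1 + 1 / 100) (n2 : sNorm f y₂ ≤ 1 + 1 / 100)
    (n3 : sNorm f y₃ ≤ 1 + 1 / 100) (n4 : sNorm f y₄ ≤ 1 + 1 / 100)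
    (n14 : 2 - 2 / 100 ≤ sNorm f (y₁ + y₄)) (n23 : 2 - 2 / 100 ≤ sNorm f (y₂ + y₃))
    (n13 : sNorm f (y₁ + y₃) ≤ 1 + 2 / 100) (n24 : sNorm f (y₂ + y₄) ≤ 1 + 2 / 100) : False := by
  classical
  obtain ⟨C, D, t, hC, hD, hC1, hD1, hCs, hDs⟩ := split (M := M₃) (f := f) (y := y₁) (z := y₄)
    (fun i hi => h1 i (hM.trans (hM'.trans hi))) h4 n1 n4 n14
  obtain ⟨C₂, D₂, s, hC₂, hD₂, hC₂1, hD₂1, hC₂s, hD₂s⟩ := split (M := M₂) (f := f) (y := y₂)
    (z := y₃) h2' h3 n2 n3 n23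
  rcases le_or_gt t s with hts | hst
  · -- glue `C` and `D₂`
    set C' := C.filter (· < M₂) with hC'
    have hCs' : ∑ i ∈ C', |y₁ i| = ∑ i ∈ C, |y₁ i| := by
      rw [hC', Finset.sum_filter]
      refine Finset.sum_congr rfl fun i _ => ?_
      split_ifs with h
      · rfl
      · rw [h1 i (hM.trans (not_lt.1 h)), abs_zero]
    have e := glue (M := M₂) (t := t) (C := C') (D := D₂) (y := y₁) (z := y₃)
      (incr_subset hC (Finset.filter_subset _ _)) hD₂ (fun i hi => by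
        rw [hC', Finset.mem_filter] at hi
        exact ⟨hi.2, (hC1 i hi.1).2⟩) (fun i hi => ⟨(hD₂1 i hi).1, hts.trans (hD₂1 i hi).2⟩)
      (fun i hi => h1 i (hM.trans hi)) h3
    rw [hCs'] at e
    linarith
  · -- glue `C₂` and `D`
    have e := glue (M := M₃) (t := t) (C := C₂) (D := D) (y := y₂) (z := y₄) hC₂ hD
      (fun i hi => ⟨(hC₂1 i hi).1.trans_le hM', (hC₂1 i hi).2.trans hst⟩) hD1
      (fun i hi => h2' i (hM'.trans hi)) h4
    linarith

end Pool.Agent.R269.Sier
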