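import Pool.Agent.R269.StopMain

/-!
The countable weak pi-base of the ball of the stopping time space.
-/

set_option autoImplicit false

open Filter Topology Metric

namespace Pool.Agent.R269.Stop

/-- basic boxes -/
def box (G : Finset Node) (v : Node →₀ ℚ) (k : ℕ) : Set StopSpace :=
  {x | x ∈ closedBall (0 : StopSpace) 1 ∧ ∀ u ∈ G, |coX u x - (v u : ℝ)| < 1 / ((k : ℝ) + 1)}

theorem box_open (G : Finset Node) (v : Node →₀ ℚ) (k : ℕ) :
    RelWeakOpen StopSpace (box G v k) := by
  refine ⟨⋂ u ∈ G, {x | |coX u ((toWeakSpace ℝ StopSpace).symm x) - (v u : ℝ)|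
    < 1 / ((k : ℝ) + 1)}, ?_, ?_⟩
  · refine isOpen_biInter_finset fun u _ => ?_
    refine isOpen_lt ?_ continuous_const
    exact ((weak_continuous (coX u)).sub continuous_const).abs
  · ext x
    simp [box]

/-- approximation by a finitely supported element of the ball -/
theorem approx {x1 : StopSpace} (h1 : ‖x1‖ ≤ 1) {δ : ℝ} (hδ : 0 < δ) :
    ∃ x0 : Fam, ‖x0‖ ≤ 1 ∧ ‖emb x0 - x1‖ ≤ 2 * δ := by
  obtain ⟨y, hy⟩ := emb_dense.exists_dist_lt x1 hδ
  rw [dist_eq_norm, ← norm_neg, neg_sub] at hy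
  have h2 : ‖y‖ ≤ 1 + δ := by
    have : ‖emb y‖ ≤ ‖emb y - x1‖ + ‖x1‖ := by
      have := norm_add_le (emb y - x1) x1
      rwa [sub_add_cancel] at this
    rw [norm_emb] at this
    linarith
  have h3 : (0 : ℝ) < 1 + δ := by linarith
  refine ⟨(1 + δ)⁻¹ • y, ?_, ?_⟩
  · rw [norm_smul, Real.norm_eq_abs, abs_of_pos (inv_pos.2 h3), inv_mul_le_iff₀ h3, mul_one]
    exact h2
  · have h4 : emb ((1 + δ)⁻¹ • y) - x1 = (emb y - x1) - (δ * (1 + δ)⁻¹) • emb y := by
      rw [map_smul]
      have : (1 + δ)⁻¹ = 1 - δ * (1 + δ)⁻¹ := by field_simp; ring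
      rw [sub_right_comm]
      congr 1
      conv_lhs => rw [this]
      rw [sub_smul, one_smul]
    rw [h4]
    refine (norm_sub_le _ _).trans ?_
    have h5 : ‖(δ * (1 + δ)⁻¹) • emb y‖ ≤ δ := by
      rw [norm_smul, norm_emb, Real.norm_eq_abs, abs_of_pos (mul_pos hδ (inv_pos.2 h3))]
      calc δ * (1 + δ)⁻¹ * ‖y‖ ≤ δ * (1 + δ)⁻¹ * (1 + δ) :=
            mul_le_mul_of_nonneg_left h2 (mul_pos hδ (inv_pos.2 h3)).le
        _ = δ := by field_simp
    linarith

theorem countable_pi_base : CountableWeakPiBase StopSpace := by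
  classical
  refine ⟨{U | U.Nonempty ∧ ∃ i : Finset Node × (Node →₀ ℚ) × ℕ, box i.1 i.2.1 i.2.2 = U},
    ?_, ?_, ?_⟩
  · refine Set.Countable.mono ?_ (Set.countable_range
      fun i : Finset Node × (Node →₀ ℚ) × ℕ => box i.1 i.2.1 i.2.2)
    rintro U ⟨-, i, hi⟩
    exact ⟨i, hi⟩
  · rintro U ⟨hU, i, rfl⟩
    exact ⟨hU, box_open _ _ _⟩
  · rintro V ⟨x1, hx1⟩ ⟨O, hO, rfl⟩
    obtain ⟨hx1b, hx1O⟩ := hx1
    rw [mem_closedBall, dist_zero_right] at hx1b
    obtain ⟨I, ε, hε, hI⟩ := weak_nhds hO hx1O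
    obtain ⟨R, hR⟩ : ∃ R : ℝ, R = 1 + ∑ F ∈ I, ‖F‖ := ⟨_, rfl⟩
    have hR1 : 1 ≤ R := by
      have : 0 ≤ ∑ F ∈ I, ‖F‖ := Finset.sum_nonneg fun _ _ => norm_nonneg _
      linarith
    have hR0 : 0 < R := by linarith
    have hFR : ∀ F ∈ I, ‖F‖ ≤ R := by
      intro F hF
      have := Finset.single_le_sum (f := fun F : StopSpace →L[ℝ] ℝ => ‖F‖)
        (fun _ _ => norm_nonneg _) hF
      linarith
    obtain ⟨x0, hx0, hx01⟩ := approx hx1b (δ := ε / (8 * R)) (by positivity)
    have hstep1 : ∀ F ∈ I, |F (emb x0) - F x1| ≤ ε / 4 := by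
      intro F hF
      rw [← map_sub, ← Real.norm_eq_abs]
      calc ‖F (emb x0 - x1)‖ ≤ ‖F‖ * ‖emb x0 - x1‖ := F.le_opNorm _
        _ ≤ R * (2 * (ε / (8 * R))) :=
          mul_le_mul (hFR F hF) hx01 (norm_nonneg _) hR0.le
        _ = ε / 4 := by field_simp; ring
    obtain ⟨N, hN⟩ : ∃ N : ℕ, ∀ t : Node, N ≤ t.length → x0.co t = 0 := by
      refine ⟨x0.co.support.sup List.length + 1, fun t ht => ?_⟩
      have : t ∉ x0.co.support := by
        intro h
        have := Finset.le_sup (f := List.length) h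
        omega
      exact Finsupp.notMem_support_iff.1 this
    -- the total functional
    obtain ⟨g, hg⟩ : ∃ g : Node → ℝ, g = fun u => ∑ F ∈ I, |F (emb (uv u))| := ⟨_, rfl⟩
    have hFg : ∀ F ∈ I, ∀ u, |F (emb (uv u))| ≤ g u := by
      intro F hF u
      rw [hg]
      exact Finset.single_le_sum (f := fun F : StopSpace →L[ℝ] ℝ => |F (emb (uv u))|)
        (fun _ _ => abs_nonneg _) hF
    have hCB : CB g R := by
      intro C hC
      rw [hg]
      rw [Finset.sum_comm, hR]
      have : ∑ F ∈ I, ∑ u ∈ C, |F (emb (uv u))| ≤ ∑ F ∈ I, ‖F‖ := by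
        refine Finset.sum_le_sum fun F _ => ?_
        refine (chain_bound (F.comp emb) C hC).trans ?_
        refine (F.opNorm_comp_le emb).trans ?_
        have : ‖emb‖ ≤ 1 := by
          refine ContinuousLinearMap.opNorm_le_bound _ zero_le_one fun x => ?_
          rw [norm_emb, one_mul]
        calc ‖F‖ * ‖emb‖ ≤ ‖F‖ * 1 := mul_le_mul_of_nonneg_left this (norm_nonneg _)
          _ = ‖F‖ := mul_one _
      linarith
    have hgood := exists_good hCB (ε := ε / 16) (by positivity)
    obtain ⟨S, m, hS, hm, hmS, hSg, hm1, hAB⟩ := exists_measure N x0.co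
      (fun t => ∀ C : Finset Node, CH C → (∀ u ∈ C, t <+: u) → ∑ u ∈ C, g u ≤ ε / 16)
      hN hgood 1 (fun A hA => (sum_le_norm x0 hA).trans hx0)
    obtain ⟨z, hz⟩ : ∃ z : Fam, z = x0 + mk S m := ⟨_, rfl⟩
    have hzco : ∀ t, z.co t = x0.co t + m t := by
      intro t
      rw [hz, co_add, mk_co]
      split_ifs with h
      · rfl
      · rw [hmS t h]
    have hzn : ‖z‖ ≤ 1 := by
      refine norm_le fun A hA => ?_
      have := hAB A hA
      simp only [hzco]
      exact this
    have hzS : ∀ t ∈ S, z.co t = m t := by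
      intro t ht
      rw [hzco, hN t (hSg t ht).2, zero_add]
    have hzS1 : ∑ t ∈ S, |coX t (emb z)| = 1 := by
      rw [← hm1]
      refine Finset.sum_congr rfl fun t ht => ?_
      rw [coX_emb, hzS t ht, abs_of_nonneg (hm t)]
    have hgS : ∀ t ∈ S, g t ≤ ε / 16 := by
      intro t ht
      have := (hSg t ht).1 {t} (by
        intro a ha b hb
        rw [Finset.mem_singleton] at ha hb
        rw [ha, hb]
        exact Or.inl List.prefix_rfl) (by
        intro u hu
        rw [Finset.mem_singleton] at hu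
        rw [hu])
      simpa using this
    have hstep2 : ∀ F ∈ I, |F (emb z) - F (emb x0)| ≤ ε / 16 := by
      intro F hF
      have h1 : F (emb z) - F (emb x0) = ∑ t ∈ S, m t * F (emb (uv t)) := by
        rw [hz, map_add, map_add, add_sub_cancel_left]
        exact map_mk (F.comp emb) S m
      rw [h1]
      refine (Finset.abs_sum_le_sum_abs _ _).trans ?_
      calc ∑ t ∈ S, |m t * F (emb (uv t))| ≤ ∑ t ∈ S, m t * (ε / 16) := by
            refine Finset.sum_le_sum fun t ht => ?_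
            rw [abs_mul, abs_of_nonneg (hm t)]
            exact mul_le_mul_of_nonneg_left ((hFg F hF t).trans (hgS t ht)) (hm t)
        _ = ε / 16 := by rw [← Finset.sum_mul, hm1, one_mul]
    have hGood : ∀ F ∈ I, Good (F.comp emb) (ε / 16) S := by
      intro F hF t ht C hC hCt
      refine le_trans (Finset.sum_le_sum fun u _ => ?_) ((hSg t ht).1 C hC hCt)
      exact hFg F hF u
    obtain ⟨K, hK⟩ : ∃ K : ℝ, K = (S.card : ℝ) + (pre S).card + 1 := ⟨_, rfl⟩
    have hK1 : 1 ≤ K := by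
      rw [hK]
      have h1 : (0 : ℝ) ≤ S.card := Nat.cast_nonneg _
      have h2 : (0 : ℝ) ≤ (pre S).card := Nat.cast_nonneg _
      linarith
    have hK0 : 0 < K := by linarith
    obtain ⟨k, hk⟩ := exists_nat_gt (64 * R * K / ε)
    have hk1 : (1 : ℝ) / ((k : ℝ) + 1) ≤ ε / (64 * R * K) := by
      rw [div_le_div_iff₀ (by positivity) (by positivity), one_mul]
      rw [div_lt_iff₀ hε] at hk
      nlinarith
    have hkpos : (0 : ℝ) < 1 / ((k : ℝ) + 1) := by positivity
    -- rational approximation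
    have hq : ∀ u : Node, ∃ q : ℚ, |z.co u - (q : ℝ)| < 1 / ((k : ℝ) + 1) := by
      intro u
      obtain ⟨q, h1, h2⟩ := exists_rat_btwn (show z.co u - 1 / ((k : ℝ) + 1) < z.co u by linarith)
      refine ⟨q, ?_⟩
      rw [abs_lt]
      constructor <;> linarith
    choose q hq using hq
    obtain ⟨v, hv⟩ : ∃ v : Node →₀ ℚ, ∀ u ∈ pre S, v u = q u := by
      refine ⟨∑ u ∈ pre S, Finsupp.single u (q u), fun u hu => ?_⟩
      rw [Finsupp.finsetSum_apply]
      simp only [Finsupp.single_apply]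
      rw [Finset.sum_ite_eq', if_pos hu]
    refine ⟨box (pre S) v k, ⟨⟨emb z, ?_, ?_⟩, ⟨(pre S, v, k), rfl⟩⟩, ?_⟩
    · rw [mem_closedBall, dist_zero_right, norm_emb]
      exact hzn
    · intro u hu
      rw [coX_emb, hv u hu]
      exact hq u
    · rintro x ⟨hxb, hxG⟩
      refine ⟨hxb, hI x fun F hF => ?_⟩
      rw [mem_closedBall, dist_zero_right] at hxb
      have hd : ∀ u ∈ pre S, |coX u x - z.co u| ≤ 2 * (ε / (64 * R * K)) := by
        intro u hu
        have h1 := hxG u hu
        rw [hv u hu] at h1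
        have h2 := hq u
        rw [abs_lt] at h1 h2
        rw [abs_le]
        constructor <;> linarith
      have hx1' := main_X F (by positivity : (0 : ℝ) ≤ ε / 16) hS (hGood F hF) x
      have hz1 := main_X F (by positivity : (0 : ℝ) ≤ ε / 16) hS (hGood F hF) (emb z)
      rw [hzS1, norm_emb] at hz1
      have hSx : 1 - ∑ t ∈ S, |coX t x| ≤ S.card * (2 * (ε / (64 * R * K))) := by
        have h1 : ∑ t ∈ S, |coX t x| ≥ ∑ t ∈ S, (m t - 2 * (ε / (64 * R * K))) := by
          refine Finset.sum_le_sum fun t ht => ?_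
          have htp : t ∈ pre S := mem_pre.2 ⟨t, ht, List.prefix_rfl⟩
          have h2 := hd t htp
          rw [hzS t ht] at h2
          have h3 := le_abs_self (coX t x)
          rw [abs_le] at h2
          linarith
        rw [Finset.sum_sub_distrib, hm1, Finset.sum_const, nsmul_eq_mul] at h1
        linarith
      have hdiff : |∑ u ∈ pre S, coX u x * F (emb (uv u)) - ∑ u ∈ pre S, coX u (emb z) * F (emb (uv u))|
          ≤ (pre S).card * (2 * (ε / (64 * R * K)) * R) := by
        rw [← Finset.sum_sub_distrib]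
        refine (Finset.abs_sum_le_sum_abs _ _).trans ?_
        rw [← nsmul_eq_mul]
        refine Finset.sum_le_card_nsmul _ _ _ fun u hu => ?_
        rw [← sub_mul, abs_mul, coX_emb]
        refine mul_le_mul (hd u hu) ?_ (abs_nonneg _) (by positivity)
        exact (hFg F hF u).trans (hCB.apply u)
      have e1 := hstep1 F hF
      have e2 := hstep2 F hF
      have hFn := hFR F hF
      have hF0 := norm_nonneg F
      -- collect the bounds
      have b1 : ε / 16 * ‖x‖ + ‖F‖ * (‖x‖ - ∑ t ∈ S, |coX t x|)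
          ≤ ε / 16 + R * (S.card * (2 * (ε / (64 * R * K)))) := by
        have h0 : 0 ≤ (S.card : ℝ) * (2 * (ε / (64 * R * K))) := by positivity
        have h1 : ‖x‖ - ∑ t ∈ S, |coX t x| ≤ S.card * (2 * (ε / (64 * R * K))) := by linarith
        have h2 : ‖F‖ * (‖x‖ - ∑ t ∈ S, |coX t x|) ≤ R * (S.card * (2 * (ε / (64 * R * K)))) :=
          (mul_le_mul_of_nonneg_left h1 hF0).trans (mul_le_mul_of_nonneg_right hFn h0)
        have h3 : ε / 16 * ‖x‖ ≤ ε / 16 * 1 := mul_le_mul_of_nonneg_left hxb (by positivity)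
        linarith
      have b2 : ε / 16 * ‖z‖ + ‖F‖ * (‖z‖ - 1) ≤ ε / 16 := by
        have h1 : ‖F‖ * (‖z‖ - 1) ≤ 0 := mul_nonpos_of_nonneg_of_nonpos hF0 (by linarith)
        have h3 : ε / 16 * ‖z‖ ≤ ε / 16 * 1 := mul_le_mul_of_nonneg_left hzn (by positivity)
        linarith
      have b3 : R * (S.card * (2 * (ε / (64 * R * K)))) + (pre S).card * (2 * (ε / (64 * R * K)) * R)
          ≤ ε / 16 := by
        have h1 : R * (S.card * (2 * (ε / (64 * R * K)))) + (pre S).card * (2 * (ε / (64 * R * K)) * R)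
            = (S.card + (pre S).card) / K * (ε / 32) := by field_simp; ring
        rw [h1]
        have h2 : ((S.card : ℝ) + (pre S).card) / K ≤ 1 := by
          rw [div_le_one hK0, hK]
          linarith
        nlinarith
      have c1 := hx1'.trans b1
      have c2 := hz1.trans b2
      rw [abs_le] at c1 c2 hdiff e1 e2
      rw [abs_lt]
      constructor <;> linarith [c1.1, c1.2, c2.1, c2.2, hdiff.1, hdiff.2, e1.1, e1.2, e2.1, e2.2]

end Pool.Agent.R269.Stop
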