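import Pool.Agent.R269.StopSpace

/-!
Combinatorics of chains and antichains of the binary tree.
-/

set_option autoImplicit false

namespace Pool.Agent.R269.Stop

/-- prepend a bit -/
def cns (b : Bool) : Node ↪ Node := ⟨fun t => b :: t, List.cons_injective⟩

theorem cns_apply (b : Bool) (t : Node) : cns b t = b :: t := rfl

/-- finite chain -/
def CH (C : Finset Node) : Prop := ∀ s ∈ C, ∀ t ∈ C, s <+: t ∨ t <+: s

/-- antichain sums are at most `M` -/
def AB (y : Node → ℝ) (M : ℝ) : Prop := ∀ A : Finset Node, AC A → ∑ t ∈ A, y t ≤ M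

/-- chain sums are at most `M` -/
def CB (y : Node → ℝ) (M : ℝ) : Prop := ∀ C : Finset Node, CH C → ∑ t ∈ C, y t ≤ M

theorem ac_iff {A : Finset Node} :
    AC A ↔ ∀ s ∈ A, ∀ t ∈ A, s <+: t → s = t := by
  unfold AC
  constructor
  · intro h s hs t ht hst
    by_contra hne
    exact h (by exact_mod_cast hs) (by exact_mod_cast ht) hne hst
  · intro h s hs t ht hne hst
    exact hne (h s (by exact_mod_cast hs) t (by exact_mod_cast ht) hst)

/-- union of the two shifted sets -/
def join (A B : Finset Node) : Finset Node := A.map (cns false) ∪ B.map (cns true)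

theorem mem_join {A B : Finset Node} {t : Node} :
    t ∈ join A B ↔ (∃ s ∈ A, t = false :: s) ∨ (∃ s ∈ B, t = true :: s) := by
  unfold join
  rw [Finset.mem_union, Finset.mem_map, Finset.mem_map]
  constructor
  · rintro (⟨s, hs, rfl⟩ | ⟨s, hs, rfl⟩)
    · exact Or.inl ⟨s, hs, rfl⟩
    · exact Or.inr ⟨s, hs, rfl⟩
  · rintro (⟨s, hs, rfl⟩ | ⟨s, hs, rfl⟩)
    · exact Or.inl ⟨s, hs, rfl⟩
    · exact Or.inr ⟨s, hs, rfl⟩

theorem sum_join (A B : Finset Node) (f : Node → ℝ) :
    ∑ t ∈ join A B, f t = ∑ t ∈ A, f (false :: t) + ∑ t ∈ B, f (true :: t) := by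
  unfold join
  rw [Finset.sum_union, Finset.sum_map, Finset.sum_map]
  · rfl
  · rw [Finset.disjoint_left]
    intro t h1 h2
    rw [Finset.mem_map] at h1 h2
    obtain ⟨s, -, rfl⟩ := h1
    obtain ⟨s', -, h⟩ := h2
    rw [cns_apply, cns_apply] at h
    have := List.head_eq_of_cons_eq h
    simp at this

theorem ac_join {A B : Finset Node} (hA : AC A) (hB : AC B) : AC (join A B) := by
  rw [ac_iff] at *
  intro s hs t ht hst
  rw [mem_join] at hs ht
  obtain ⟨s', hs', rfl⟩ | ⟨s', hs', rfl⟩ := hs <;> obtain ⟨t', ht', rfl⟩ | ⟨t', ht', rfl⟩ := ht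
  · rw [List.cons_prefix_cons] at hst
    rw [hA s' hs' t' ht' hst.2]
  · rw [List.cons_prefix_cons] at hst
    exact absurd hst.1 (by simp)
  · rw [List.cons_prefix_cons] at hst
    exact absurd hst.1 (by simp)
  · rw [List.cons_prefix_cons] at hst
    rw [hB s' hs' t' ht' hst.2]

/-- the part of `A` above the bit `b` -/
noncomputable def part (b : Bool) (A : Finset Node) : Finset Node :=
  A.preimage (cns b) ((cns b).injective.injOn)

theorem mem_part {b : Bool} {A : Finset Node} {t : Node} : t ∈ part b A ↔ b :: t ∈ A := by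
  unfold part
  rw [Finset.mem_preimage]
  rfl

theorem eq_join {A : Finset Node} (h : [] ∉ A) : A = join (part false A) (part true A) := by
  ext t
  rw [mem_join]
  constructor
  · intro ht
    match t, ht with
    | [], ht => exact absurd ht h
    | false :: s, ht => exact Or.inl ⟨s, mem_part.2 ht, rfl⟩
    | true :: s, ht => exact Or.inr ⟨s, mem_part.2 ht, rfl⟩
  · rintro (⟨s, hs, rfl⟩ | ⟨s, hs, rfl⟩)
    · exact mem_part.1 hs
    · exact mem_part.1 hs

theorem ac_part {b : Bool} {A : Finset Node} (hA : AC A) : AC (part b A) := by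
  rw [ac_iff] at *
  intro s hs t ht hst
  have := hA _ (mem_part.1 hs) _ (mem_part.1 ht) (by rw [List.cons_prefix_cons]; exact ⟨rfl, hst⟩)
  exact List.cons_injective this

theorem ac_nil {A : Finset Node} (hA : AC A) (h : [] ∈ A) : A = {[]} := by
  rw [ac_iff] at hA
  ext t
  rw [Finset.mem_singleton]
  constructor
  · intro ht
    exact (hA [] h t ht List.nil_prefix).symm
  · rintro rfl
    exact h

theorem AB.nonneg {y : Node → ℝ} {M : ℝ} (h : AB y M) : 0 ≤ M := by
  simpa using h ∅ ac_empty

theorem AB.apply {y : Node → ℝ} {M : ℝ} (h : AB y M) (t : Node) : y t ≤ M := by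
  simpa using h {t} (ac_singleton t)

theorem AB.split {y : Node → ℝ} {M : ℝ} (h : AB y M) :
    ∃ M0 M1 : ℝ, M0 + M1 = M ∧ AB (fun t => y (false :: t)) M0 ∧ AB (fun t => y (true :: t)) M1 := by
  have hb : BddAbove {r : ℝ | ∃ A : Finset Node, AC A ∧ r = ∑ t ∈ A, y (false :: t)} := by
    refine ⟨M, ?_⟩
    rintro r ⟨A, hA, rfl⟩
    have := h _ (ac_join hA ac_empty)
    rw [sum_join] at this
    simpa using this
  refine ⟨sSup {r : ℝ | ∃ A : Finset Node, AC A ∧ r = ∑ t ∈ A, y (false :: t)}, M - _,
    add_sub_cancel _ _, fun A hA => le_csSup hb ⟨A, hA, rfl⟩, fun B hB => ?_⟩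
  rw [le_sub_iff_add_le', ← le_sub_iff_add_le]
  refine csSup_le ⟨_, ∅, ac_empty, rfl⟩ ?_
  rintro r ⟨A, hA, rfl⟩
  have := h _ (ac_join hA hB)
  rw [sum_join] at this
  linarith

theorem CB.nonneg {y : Node → ℝ} {M : ℝ} (h : CB y M) : 0 ≤ M := by
  simpa using h ∅ (by intro s hs; simp at hs)

theorem CB.apply {y : Node → ℝ} {M : ℝ} (h : CB y M) (t : Node) : y t ≤ M := by
  have := h {t} (by intro s hs t' ht'; simp at hs ht'; rw [hs, ht']; left; exact List.prefix_rfl)
  simpa using this

theorem CB.part {g : Node → ℝ} {φ : ℝ} (h : CB g φ) (b : Bool) :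
    CB (fun t => g (b :: t)) (φ - g []) := by
  classical
  intro C hC
  have h1 : CH (insert [] (C.map (cns b))) := by
    intro s hs t ht
    rw [Finset.mem_insert, Finset.mem_map] at hs ht
    obtain rfl | ⟨s', hs', rfl⟩ := hs
    · exact Or.inl List.nil_prefix
    obtain rfl | ⟨t', ht', rfl⟩ := ht
    · exact Or.inr List.nil_prefix
    rw [cns_apply, cns_apply, List.cons_prefix_cons, List.cons_prefix_cons]
    obtain h | h := hC s' hs' t' ht'
    · exact Or.inl ⟨rfl, h⟩
    · exact Or.inr ⟨rfl, h⟩
  have h2 := h _ h1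
  rw [Finset.sum_insert, Finset.sum_map] at h2
  · change ∑ t ∈ C, g (b :: t) ≤ _
    have h3 : ∑ t ∈ C, g (b :: t) = ∑ x ∈ C, g (cns b x) := rfl
    linarith
  · rw [Finset.mem_map]
    rintro ⟨s, -, hs⟩
    exact List.cons_ne_nil _ _ hs

/-- Duality between chain sums and antichain sums. -/
theorem dual_le : ∀ (N : ℕ) (g y : Node → ℝ), (∀ t, 0 ≤ g t) → (∀ t, 0 ≤ y t) →
    (∀ t : Node, N ≤ t.length → y t = 0) → ∀ φ M : ℝ, CB g φ → AB y M →
    ∀ S : Finset Node, ∑ t ∈ S, g t * y t ≤ φ * M := by
  classical
  intro N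
  induction N with
  | zero =>
    intro g y hg hy hN φ M hφ hM S
    have : ∑ t ∈ S, g t * y t = 0 := by
      refine Finset.sum_eq_zero fun t _ => ?_
      rw [hN t (Nat.zero_le _), mul_zero]
    rw [this]
    exact mul_nonneg hφ.nonneg hM.nonneg
  | succ N ih =>
    intro g y hg hy hN φ M hφ hM S
    obtain ⟨M0, M1, hM01, h0, h1⟩ := hM.split
    have e0 := ih (fun t => g (false :: t)) (fun t => y (false :: t)) (fun t => hg _)
      (fun t => hy _) (fun t ht => hN _ (by simpa using ht)) _ _ (hφ.part false) h0 (part false S)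
    have e1 := ih (fun t => g (true :: t)) (fun t => y (true :: t)) (fun t => hg _)
      (fun t => hy _) (fun t ht => hN _ (by simpa using ht)) _ _ (hφ.part true) h1 (part true S)
    have h2 : ∑ t ∈ S, g t * y t ≤ g [] * y [] + ∑ t ∈ S.erase [], g t * y t := by
      by_cases hS : [] ∈ S
      · rw [← Finset.add_sum_erase S _ hS]
      · rw [Finset.erase_eq_of_notMem hS]
        have := mul_nonneg (hg []) (hy [])
        linarith
    have h3 : ∑ t ∈ S.erase [], g t * y t
        = ∑ t ∈ part false S, g (false :: t) * y (false :: t)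
          + ∑ t ∈ part true S, g (true :: t) * y (true :: t) := by
      have h4 : S.erase [] = join (part false S) (part true S) := by
        rw [eq_join (Finset.notMem_erase [] S)]
        congr 1 <;>
        · ext t
          rw [mem_part, mem_part, Finset.mem_erase]
          simp
      rw [h4, sum_join]
    have h5 : g [] * y [] ≤ g [] * M := mul_le_mul_of_nonneg_left (hM.apply []) (hg [])
    have h6 : (φ - g []) * M0 + (φ - g []) * M1 = (φ - g []) * M := by rw [← hM01]; ring
    calc ∑ t ∈ S, g t * y t ≤ g [] * M + ((φ - g []) * M0 + (φ - g []) * M1) := by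
          rw [h3] at h2
          linarith
      _ = φ * M := by rw [h6]; ring

/-- value at the root and on the two halves -/
def glue (f0 f1 : Node → ℝ) : Node → ℝ
  | [] => 0
  | false :: t => f0 t
  | true :: t => f1 t

/-- A finitely supported family of norm at most `M` is dominated by a measure of mass `M` which
lives on a finite antichain of good nodes. -/
theorem exists_measure : ∀ (N : ℕ) (y : Node → ℝ) (good : Node → Prop),
    (∀ t : Node, N ≤ t.length → y t = 0) → (∀ s : Node, ∃ t, s <+: t ∧ good t) →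
    ∀ M : ℝ, AB (fun t => |y t|) M →
    ∃ (S : Finset Node) (m : Node → ℝ), AC S ∧ (∀ t, 0 ≤ m t) ∧ (∀ t, t ∉ S → m t = 0) ∧
      (∀ t ∈ S, good t ∧ N ≤ t.length) ∧ ∑ t ∈ S, m t = M ∧ AB (fun t => |y t + m t|) M := by
  classical
  intro N
  induction N with
  | zero =>
    intro y good hN hgood M hM
    obtain ⟨t0, -, ht0⟩ := hgood []
    refine ⟨{t0}, fun t => if t = t0 then M else 0, ac_singleton t0, fun t => ?_, fun t ht => ?_,
      fun t ht => ?_, ?_, fun A hA => ?_⟩
    · dsimp only
      split_ifs
      · exact hM.nonneg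
      · exact le_rfl
    · rw [Finset.mem_singleton] at ht
      exact if_neg ht
    · rw [Finset.mem_singleton] at ht
      rw [ht]
      exact ⟨ht0, Nat.zero_le _⟩
    · simp
    · have : ∀ t ∈ A, |y t + if t = t0 then M else 0| = if t = t0 then M else 0 := by
        intro t _
        rw [hN t (Nat.zero_le _), zero_add, abs_of_nonneg]
        split_ifs
        · exact hM.nonneg
        · exact le_rfl
      rw [Finset.sum_congr rfl this, Finset.sum_ite_eq']
      split_ifs
      · exact le_rfl
      · exact hM.nonneg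
  | succ N ih =>
    intro y good hN hgood M hM
    obtain ⟨M0, M1, hM01, h0, h1⟩ := hM.split
    have hg : ∀ b : Bool, ∀ s : Node, ∃ t, s <+: t ∧ good (b :: t) := by
      intro b s
      obtain ⟨t, ht, ht'⟩ := hgood (b :: s)
      match t, ht, ht' with
      | [], ht, _ => exact absurd (List.prefix_nil.1 ht) (List.cons_ne_nil _ _)
      | c :: t, ht, ht' =>
        rw [List.cons_prefix_cons] at ht
        obtain ⟨rfl, ht⟩ := ht
        exact ⟨t, ht, ht'⟩
    obtain ⟨S0, m0, a0, b0, c0, d0, e0, f0⟩ := ih (fun t => y (false :: t))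
      (fun t => good (false :: t)) (fun t ht => hN _ (by simpa using ht)) (hg false) M0 h0
    obtain ⟨S1, m1, a1, b1, c1, d1, e1, f1⟩ := ih (fun t => y (true :: t))
      (fun t => good (true :: t)) (fun t ht => hN _ (by simpa using ht)) (hg true) M1 h1
    refine ⟨join S0 S1, glue m0 m1, ac_join a0 a1, ?_, ?_, ?_, ?_, ?_⟩
    · intro t
      match t with
      | [] => exact le_rfl
      | false :: t => exact b0 t
      | true :: t => exact b1 t
    · intro t ht
      match t, ht with
      | [], _ => rfl
      | false :: t, ht => exact c0 t fun h => ht (mem_join.2 (Or.inl ⟨t, h, rfl⟩))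
      | true :: t, ht => exact c1 t fun h => ht (mem_join.2 (Or.inr ⟨t, h, rfl⟩))
    · intro t ht
      rw [mem_join] at ht
      obtain ⟨s, hs, rfl⟩ | ⟨s, hs, rfl⟩ := ht
      · exact ⟨(d0 s hs).1, by simpa using (d0 s hs).2⟩
      · exact ⟨(d1 s hs).1, by simpa using (d1 s hs).2⟩
    · rw [sum_join]
      change ∑ t ∈ S0, m0 t + ∑ t ∈ S1, m1 t = M
      rw [e0, e1, hM01]
    · intro A hA
      by_cases hn : [] ∈ A
      · rw [ac_nil hA hn, Finset.sum_singleton]
        change |y [] + 0| ≤ M
        rw [add_zero]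
        exact hM.apply []
      · rw [eq_join hn, sum_join]
        have k0 := f0 _ (ac_part (b := false) hA)
        have k1 := f1 _ (ac_part (b := true) hA)
        rw [← hM01]
        exact add_le_add k0 k1

/-- If all chain sums of `g` are bounded, then above each node there is a node above which the
chain sums of `g` are small. -/
theorem exists_good {g : Node → ℝ} {R : ℝ} (hR : CB g R) {ε : ℝ}
    (hε : 0 < ε) (s : Node) :
    ∃ t, s <+: t ∧ ∀ C : Finset Node, CH C → (∀ u ∈ C, t <+: u) → ∑ u ∈ C, g u ≤ ε := by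
  classical
  by_contra hcon
  push Not at hcon
  have key : ∀ k : ℕ, ∃ (C : Finset Node) (t : Node), CH C ∧ s <+: t ∧
      (∀ u ∈ C, u <+: t ∧ u ≠ t) ∧ (k : ℝ) * ε ≤ ∑ u ∈ C, g u := by
    intro k
    induction k with
    | zero =>
      refine ⟨∅, s, by intro u hu; simp at hu, List.prefix_rfl, by simp, by simp⟩
    | succ k ih =>
      obtain ⟨C, t, hC, hst, hCt, hsum⟩ := ih
      obtain ⟨D, hD, hDt, hDs⟩ := hcon t hst
      have hDne : D.Nonempty := by
        rw [Finset.nonempty_iff_ne_empty]
        rintro rfl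
        simp at hDs
        linarith
      obtain ⟨d, hd, hdmax⟩ := Finset.exists_max_image D List.length hDne
      have hDd : ∀ u ∈ D, u <+: d := by
        intro u hu
        obtain h | h := hD u hu d hd
        · exact h
        · have := h.eq_of_length_le (hdmax u hu)
          rw [this]
      have hdisj : Disjoint C D := by
        rw [Finset.disjoint_left]
        intro u hu hu'
        have h1 := hCt u hu
        have h2 := hDt u hu'
        exact h1.2 (h1.1.eq_of_length_le h2.length_le)
      refine ⟨C ∪ D, d ++ [false], ?_, ?_, ?_, ?_⟩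
      · intro u hu v hv
        rw [Finset.mem_union] at hu hv
        obtain hu | hu := hu <;> obtain hv | hv := hv
        · exact hC u hu v hv
        · exact Or.inl ((hCt u hu).1.trans (hDt v hv))
        · exact Or.inr ((hCt v hv).1.trans (hDt u hu))
        · exact hD u hu v hv
      · exact (hst.trans (hDt d hd)).trans (List.prefix_append _ _)
      · intro u hu
        have hud : u <+: d := by
          rw [Finset.mem_union] at hu
          obtain hu | hu := hu
          · exact (hCt u hu).1.trans (hDt d hd)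
          · exact hDd u hu
        refine ⟨hud.trans (List.prefix_append _ _), ?_⟩
        rintro rfl
        have := hud.length_le
        simp at this
      · rw [Finset.sum_union hdisj]
        push_cast
        linarith
  obtain ⟨k, hk⟩ := exists_nat_gt (R / ε)
  obtain ⟨C, t, hC, -, -, hsum⟩ := key k
  have h1 := hR C hC
  rw [div_lt_iff₀ hε] at hk
  linarith

end Pool.Agent.R269.Stop
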