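import Pool.Agent.R269.StopComb

/-!
The ball of the stopping time space has a countable weak pi-base.
-/

set_option autoImplicit false

open Filter Topology Metric

namespace Pool.Agent.R269.Stop

theorem weak_nhds {X : Type} [NormedAddCommGroup X] [NormedSpace ℝ X] {O : Set (WeakSpace ℝ X)}
    (hO : IsOpen O) {x0 : X} (hx : toWeakSpace ℝ X x0 ∈ O) :
    ∃ (I : Finset (X →L[ℝ] ℝ)) (ε : ℝ), 0 < ε ∧
      ∀ x : X, (∀ F ∈ I, |F x - F x0| < ε) → toWeakSpace ℝ X x ∈ O := by
  classical
  have h1 : O ∈ 𝓝 (toWeakSpace ℝ X x0) := hO.mem_nhds hx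
  have h2 : O ∈ Filter.comap (fun (x : WeakSpace ℝ X) (F : X →L[ℝ] ℝ) => F ((toWeakSpace ℝ X).symm x))
      (𝓝 (fun F : X →L[ℝ] ℝ => F x0)) := by
    have h3 := nhds_induced (fun (x : WeakSpace ℝ X) (F : X →L[ℝ] ℝ) =>
      F ((toWeakSpace ℝ X).symm x)) (toWeakSpace ℝ X x0)
    have h4 : O ∈ @nhds _ (TopologicalSpace.induced (fun (x : WeakSpace ℝ X) (F : X →L[ℝ] ℝ) =>
      F ((toWeakSpace ℝ X).symm x)) Pi.topologicalSpace) (toWeakSpace ℝ X x0) := h1
    rw [h3] at h4
    exact h4
  rw [Filter.mem_comap] at h2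
  obtain ⟨t, ht, hts⟩ := h2
  rw [nhds_pi, Filter.mem_pi] at ht
  obtain ⟨I, hI, r, hr, hsub⟩ := ht
  have h5 : ∀ F : X →L[ℝ] ℝ, ∃ δ : ℝ, 0 < δ ∧ ball (F x0) δ ⊆ r F := fun F =>
    Metric.mem_nhds_iff.1 (hr F)
  choose δ hδ hball using h5
  have h6 : ∃ ε : ℝ, 0 < ε ∧ ∀ F ∈ hI.toFinset, ε ≤ δ F := by
    by_cases hne : hI.toFinset.Nonempty
    · obtain ⟨F0, hF0, hmin⟩ := Finset.exists_min_image hI.toFinset δ hne
      exact ⟨δ F0, hδ F0, hmin⟩
    · rw [Finset.not_nonempty_iff_eq_empty] at hne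
      exact ⟨1, one_pos, by rw [hne]; simp⟩
  obtain ⟨ε, hε, hle⟩ := h6
  refine ⟨hI.toFinset, ε, hε, fun x hx => hts ?_⟩
  refine hsub ?_
  intro F hF
  refine hball F ?_
  rw [mem_ball, Real.dist_eq]
  have hF' : F ∈ hI.toFinset := hI.mem_toFinset.2 hF
  exact (hx F hF').trans_le (hle F hF')

theorem weak_continuous {X : Type} [NormedAddCommGroup X] [NormedSpace ℝ X] (F : X →L[ℝ] ℝ) :
    Continuous fun x : WeakSpace ℝ X => F ((toWeakSpace ℝ X).symm x) := by
  have h : Continuous fun (x : WeakSpace ℝ X) (F : X →L[ℝ] ℝ) => F ((toWeakSpace ℝ X).symm x) :=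
    continuous_induced_dom
  exact (continuous_pi_iff.mp h) F

/-! ### coordinates -/

/-- coordinate functional on finitely supported families -/
noncomputable def coF (t : Node) : Fam →L[ℝ] ℝ :=
  LinearMap.mkContinuous
    { toFun := fun x => x.co t
      map_add' := fun x y => co_add x y t
      map_smul' := fun c x => co_smul c x t } 1
    (fun x => by rw [one_mul, Real.norm_eq_abs]; exact abs_co_le x t)

theorem coF_apply (t : Node) (x : Fam) : coF t x = x.co t := rfl

/-- the embedding into the completion -/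
noncomputable def emb : Fam →L[ℝ] StopSpace := UniformSpace.Completion.toComplL

theorem emb_apply (x : Fam) : emb x = (x : StopSpace) := rfl

theorem emb_dense : DenseRange emb := UniformSpace.Completion.denseRange_coe

theorem norm_emb (x : Fam) : ‖emb x‖ = ‖x‖ := UniformSpace.Completion.norm_coe x

theorem emb_ui : IsUniformInducing emb := UniformSpace.Completion.isUniformInducing_coe Fam

/-- coordinate functional on the stopping time space -/
noncomputable def coX (t : Node) : StopSpace →L[ℝ] ℝ := (coF t).extend emb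

theorem coX_emb (t : Node) (x : Fam) : coX t (emb x) = x.co t :=
  ContinuousLinearMap.extend_eq _ emb_dense emb_ui x

/-- unit vector -/
noncomputable def uv (t : Node) : Fam := (Finsupp.single t 1 : Node →₀ ℝ)

theorem uv_co (t s : Node) : (uv t).co s = if t = s then 1 else 0 := by
  classical
  exact Finsupp.single_apply

theorem fam_eq_sum (x : Fam) : x = ∑ t ∈ x.co.support, x.co t • uv t := by
  classical
  refine co_ext fun s => ?_
  have h : ∀ A : Finset Node, (∑ t ∈ A, x.co t • uv t).co s = ∑ t ∈ A, x.co t * (uv t).co s := by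
    intro A
    induction A using Finset.induction_on with
    | empty => simp [co_zero]
    | insert a A ha ih => rw [Finset.sum_insert ha, Finset.sum_insert ha, co_add, co_smul, ih]
  rw [h]
  simp only [uv_co, mul_ite, mul_one, mul_zero]
  rw [Finset.sum_ite_eq']
  split_ifs with hs
  · rfl
  · simpa using hs

theorem map_eq_sum (f : Fam →L[ℝ] ℝ) (x : Fam) :
    f x = ∑ t ∈ x.co.support, x.co t * f (uv t) := by
  conv_lhs => rw [fam_eq_sum x]
  rw [map_sum]
  exact Finset.sum_congr rfl fun t _ => by rw [map_smul, smul_eq_mul]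

/-- build a family from a finite set and a function -/
noncomputable def mk (S : Finset Node) (m : Node → ℝ) : Fam := ∑ t ∈ S, m t • uv t

theorem mk_co (S : Finset Node) (m : Node → ℝ) (s : Node) [Decidable (s ∈ S)] :
    (mk S m).co s = if s ∈ S then m s else 0 := by
  classical
  have h : ∀ A : Finset Node, (∑ t ∈ A, m t • uv t).co s = ∑ t ∈ A, m t * (uv t).co s := by
    intro A
    induction A using Finset.induction_on with
    | empty => simp [co_zero]
    | insert a A ha ih => rw [Finset.sum_insert ha, Finset.sum_insert ha, co_add, co_smul, ih]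
  unfold mk
  rw [h]
  simp only [uv_co, mul_ite, mul_one, mul_zero]
  rw [Finset.sum_ite_eq']
  split_ifs <;> rfl

theorem map_mk (f : Fam →L[ℝ] ℝ) (S : Finset Node) (m : Node → ℝ) :
    f (mk S m) = ∑ t ∈ S, m t * f (uv t) := by
  unfold mk
  rw [map_sum]
  exact Finset.sum_congr rfl fun t _ => by rw [map_smul, smul_eq_mul]

/-! ### chain sums of functionals -/

theorem chain_bound (f : Fam →L[ℝ] ℝ) : CB (fun u => |f (uv u)|) ‖f‖ := by
  classical
  intro C hC
  have h1 : ∑ u ∈ C, |f (uv u)| = f (mk C fun u => SignType.sign (f (uv u))) := by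
    rw [map_mk]
    refine Finset.sum_congr rfl fun u _ => ?_
    rw [sign_mul_self]
  have h2 : ‖mk C fun u => ((SignType.sign (f (uv u)) : ℝ))‖ ≤ 1 := by
    refine norm_le fun A hA => ?_
    have h3 : ∑ t ∈ A, |(mk C fun u => ((SignType.sign (f (uv u)) : ℝ))).co t|
        ≤ ∑ t ∈ A ∩ C, (1 : ℝ) := by
      rw [← Finset.sum_subset (Finset.inter_subset_left (s₁ := A) (s₂ := C))]
      · refine Finset.sum_le_sum fun t ht => ?_
        rw [mk_co]
        split_ifs
        · rcases lt_trichotomy (f (uv t)) 0 with h | h | h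
          · rw [sign_neg h]; simp
          · rw [h]; simp
          · rw [sign_pos h]; simp
        · simp
      · intro t htA ht
        have : t ∉ C := fun h => ht (Finset.mem_inter.2 ⟨htA, h⟩)
        rw [mk_co, if_neg this, abs_zero]
    refine h3.trans ?_
    rw [Finset.sum_const, nsmul_eq_mul, mul_one]
    have h4 : (A ∩ C).card ≤ 1 := by
      rw [Finset.card_le_one]
      intro a ha b hb
      rw [Finset.mem_inter] at ha hb
      rw [ac_iff] at hA
      obtain h | h := hC a ha.2 b hb.2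
      · exact hA a ha.1 b hb.1 h
      · exact (hA b hb.1 a ha.1 h).symm
    exact_mod_cast h4
  calc ∑ u ∈ C, |f (uv u)| = f (mk C fun u => SignType.sign (f (uv u))) := h1
    _ ≤ ‖f (mk C fun u => SignType.sign (f (uv u)))‖ := Real.le_norm_self _
    _ ≤ ‖f‖ * ‖mk C fun u => ((SignType.sign (f (uv u)) : ℝ))‖ := f.le_opNorm _
    _ ≤ ‖f‖ * 1 := mul_le_mul_of_nonneg_left h2 (norm_nonneg _)
    _ = ‖f‖ := mul_one _

/-- all initial segments of the nodes of `S` -/
noncomputable def pre (S : Finset Node) : Finset Node := S.biUnion fun t => t.inits.toFinset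

theorem mem_pre {S : Finset Node} {u : Node} : u ∈ pre S ↔ ∃ t ∈ S, u <+: t := by
  unfold pre
  rw [Finset.mem_biUnion]
  simp [List.mem_inits]

/-- `S` is a good antichain for the functional `f` -/
def Good (f : Fam →L[ℝ] ℝ) (ε : ℝ) (S : Finset Node) : Prop :=
  ∀ t ∈ S, ∀ C : Finset Node, CH C → (∀ u ∈ C, t <+: u) → ∑ u ∈ C, |f (uv u)| ≤ ε

theorem main_fam (f : Fam →L[ℝ] ℝ) {ε : ℝ} (hε : 0 ≤ ε) {S : Finset Node} (hS : AC S)
    (hG : Good f ε S) (x : Fam) :
    |f x - ∑ u ∈ pre S, x.co u * f (uv u)|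
      ≤ ε * ‖x‖ + ‖f‖ * (‖x‖ - ∑ t ∈ S, |x.co t|) := by
  classical
  obtain ⟨TD, hTD⟩ : ∃ T : Finset Node, T = x.co.support.filter
    fun u => u ∉ pre S ∧ ∃ t ∈ S, t <+: u := ⟨_, rfl⟩
  obtain ⟨TR, hTR⟩ : ∃ T : Finset Node, T = x.co.support.filter
    fun u => u ∉ pre S ∧ ¬ ∃ t ∈ S, t <+: u := ⟨_, rfl⟩
  have e1 : f x - ∑ u ∈ pre S, x.co u * f (uv u)
      = ∑ u ∈ TD, x.co u * f (uv u) + ∑ u ∈ TR, x.co u * f (uv u) := by
    have a1 : ∑ u ∈ pre S, x.co u * f (uv u)
        = ∑ u ∈ x.co.support.filter (fun u => u ∈ pre S), x.co u * f (uv u) := by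
      symm
      refine Finset.sum_subset ?_ ?_
      · intro u hu
        exact (Finset.mem_filter.1 hu).2
      · intro u hu hu'
        have : x.co u = 0 := by
          by_contra hne
          exact hu' (Finset.mem_filter.2 ⟨Finsupp.mem_support_iff.2 hne, hu⟩)
        rw [this, zero_mul]
    have a2 : f x = ∑ u ∈ x.co.support.filter (fun u => u ∈ pre S), x.co u * f (uv u)
        + ∑ u ∈ x.co.support.filter (fun u => u ∉ pre S), x.co u * f (uv u) := by
      rw [Finset.sum_filter_add_sum_filter_not, map_eq_sum f x]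
    have a3 : ∑ u ∈ x.co.support.filter (fun u => u ∉ pre S), x.co u * f (uv u)
        = ∑ u ∈ TD, x.co u * f (uv u) + ∑ u ∈ TR, x.co u * f (uv u) := by
      rw [hTD, hTR, ← Finset.filter_filter, ← Finset.filter_filter,
        Finset.sum_filter_add_sum_filter_not]
    rw [a2, a1, a3]
    ring
  have hmemD : ∀ u, u ∈ TD ↔ u ∈ x.co.support ∧ u ∉ pre S ∧ ∃ t ∈ S, t <+: u := by
    intro u
    rw [hTD, Finset.mem_filter]
  have hmemR : ∀ u, u ∈ TR ↔ u ∈ x.co.support ∧ u ∉ pre S ∧ ¬ ∃ t ∈ S, t <+: u := by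
    intro u
    rw [hTR, Finset.mem_filter]
  have e2 : |∑ u ∈ TD, x.co u * f (uv u)| ≤ ε * ‖x‖ := by
    have hCB : CB (fun u => if (∃ t ∈ S, t <+: u) then |f (uv u)| else 0) ε := by
      intro C hC
      rw [← Finset.sum_filter]
      by_cases hne : (C.filter fun u => ∃ t ∈ S, t <+: u).Nonempty
      · obtain ⟨u0, hu0⟩ := hne
        rw [Finset.mem_filter] at hu0
        obtain ⟨hu0C, t0, ht0, ht0u⟩ := hu0
        refine hG t0 ht0 _ ?_ ?_
        · intro a ha b hb
          exact hC a (Finset.mem_filter.1 ha).1 b (Finset.mem_filter.1 hb).1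
        · intro u hu
          rw [Finset.mem_filter] at hu
          obtain ⟨huC, t, ht, htu⟩ := hu
          obtain h | h := hC u0 hu0C u huC
          · exact ht0u.trans h
          · have h7 : t0 = t := by
              rw [ac_iff] at hS
              obtain h8 | h8 := List.prefix_or_prefix_of_prefix ht0u (htu.trans h)
              · exact hS _ ht0 _ ht h8
              · exact (hS _ ht _ ht0 h8).symm
            rw [h7]
            exact htu
      · rw [Finset.not_nonempty_iff_eq_empty] at hne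
        rw [hne]
        simpa using hε
    obtain ⟨N, hN⟩ : ∃ N : ℕ, ∀ t : Node, N ≤ t.length → |x.co t| = 0 := by
      refine ⟨x.co.support.sup List.length + 1, fun t ht => ?_⟩
      have : t ∉ x.co.support := by
        intro h
        have := Finset.le_sup (f := List.length) h
        omega
      rw [Finsupp.notMem_support_iff.1 this, abs_zero]
    have h9 := dual_le N (fun u => if (∃ t ∈ S, t <+: u) then |f (uv u)| else 0)
      (fun u => |x.co u|) (fun t => by split_ifs <;> positivity)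
      (fun t => abs_nonneg _) hN ε ‖x‖ hCB (fun A hA => sum_le_norm x hA) TD
    refine le_trans (Finset.abs_sum_le_sum_abs _ _) (le_trans (le_of_eq ?_) h9)
    refine Finset.sum_congr rfl fun u hu => ?_
    rw [if_pos ((hmemD u).1 hu).2.2, abs_mul, mul_comm]
  have e3 : |∑ u ∈ TR, x.co u * f (uv u)| ≤ ‖f‖ * (‖x‖ - ∑ t ∈ S, |x.co t|) := by
    have h1 : ∑ u ∈ TR, x.co u * f (uv u) = f (mk TR fun u => x.co u) := (map_mk f _ _).symm
    rw [h1, ← Real.norm_eq_abs]
    refine (f.le_opNorm _).trans (mul_le_mul_of_nonneg_left ?_ (norm_nonneg _))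
    refine norm_le fun A hA => ?_
    have h2 : ∑ t ∈ A, |(mk TR fun u => x.co u).co t| = ∑ t ∈ A ∩ TR, |x.co t| := by
      rw [← Finset.sum_subset (Finset.inter_subset_left (s₁ := A) (s₂ := TR))]
      · refine Finset.sum_congr rfl fun t ht => ?_
        rw [mk_co, if_pos (Finset.mem_inter.1 ht).2]
      · intro t htA ht
        have : t ∉ TR := fun h => ht (Finset.mem_inter.2 ⟨htA, h⟩)
        rw [mk_co, if_neg this, abs_zero]
    rw [h2, le_sub_iff_add_le]
    have hdisj : Disjoint (A ∩ TR) S := by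
      rw [Finset.disjoint_left]
      intro u hu hu'
      exact ((hmemR u).1 (Finset.mem_inter.1 hu).2).2.2 ⟨u, hu', List.prefix_rfl⟩
    rw [← Finset.sum_union hdisj]
    refine sum_le_norm x ?_
    rw [ac_iff] at *
    intro a ha b hb hab
    rw [Finset.mem_union] at ha hb
    obtain ha | ha := ha <;> obtain hb | hb := hb
    · exact hA a (Finset.mem_inter.1 ha).1 b (Finset.mem_inter.1 hb).1 hab
    · exact absurd (mem_pre.2 ⟨b, hb, hab⟩) ((hmemR a).1 (Finset.mem_inter.1 ha).2).2.1
    · exact absurd ⟨a, ha, hab⟩ ((hmemR b).1 (Finset.mem_inter.1 hb).2).2.2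
    · exact hS a ha b hb hab
  rw [e1]
  exact (abs_add_le _ _).trans (add_le_add e2 e3)

theorem main_X (F : StopSpace →L[ℝ] ℝ) {ε : ℝ} (hε : 0 ≤ ε) {S : Finset Node} (hS : AC S)
    (hG : Good (F.comp emb) ε S) (x : StopSpace) :
    |F x - ∑ u ∈ pre S, coX u x * F (emb (uv u))|
      ≤ ε * ‖x‖ + ‖F‖ * (‖x‖ - ∑ t ∈ S, |coX t x|) := by
  refine UniformSpace.Completion.induction_on x ?_ ?_
  · refine isClosed_le ?_ ?_
    · fun_prop
    · fun_prop
  · intro a
    rw [← emb_apply]
    have h := main_fam (F.comp emb) hε hS hG a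
    have h1 : 0 ≤ ‖a‖ - ∑ t ∈ S, |a.co t| := sub_nonneg.2 (sum_le_norm a hS)
    have h2 : ‖F.comp emb‖ ≤ ‖F‖ := by
      refine (F.opNorm_comp_le emb).trans ?_
      have : ‖emb‖ ≤ 1 := by
        refine ContinuousLinearMap.opNorm_le_bound _ zero_le_one fun x => ?_
        rw [norm_emb, one_mul]
      calc ‖F‖ * ‖emb‖ ≤ ‖F‖ * 1 := mul_le_mul_of_nonneg_left this (norm_nonneg _)
        _ = ‖F‖ := mul_one _
    simp only [coX_emb, norm_emb]
    exact h.trans (add_le_add le_rfl (mul_le_mul_of_nonneg_right h2 h1))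

end Pool.Agent.R269.Stop
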