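import Mathlib

/-!
# The stopping time space

The space of finitely supported families on the dyadic tree with the stopping time norm, and its
completion.
-/

set_option autoImplicit false

open Filter Topology

namespace Pool.Agent.R269.Stop

/-- The nodes of the infinite binary tree: finite sequences of bits. The tree order is
`s <+: t` (`s` is an initial segment of `t`). -/
abbrev Node : Type := List Bool

/-- The stopping time norm of a finitely supported family: the supremum, over all antichains `A` of
the tree, of `∑ t ∈ A, |x t|`. -/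
noncomputable def stNorm (x : Node →₀ ℝ) : ℝ :=
  sSup {r : ℝ | ∃ A : Set Node, IsAntichain (· <+: ·) A ∧
    r = ∑ t ∈ x.support, A.indicator (fun s => |x s|) t}

/-- Finitely supported real families on the tree. -/
def Fam : Type := Node →₀ ℝ

noncomputable instance : AddCommGroup Fam := inferInstanceAs (AddCommGroup (Node →₀ ℝ))
noncomputable instance : Module ℝ Fam := inferInstanceAs (Module ℝ (Node →₀ ℝ))

/-- the coordinates of a family -/
def Fam.co (x : Fam) : Node →₀ ℝ := x

theorem co_add (x y : Fam) (t : Node) : (x + y).co t = x.co t + y.co t := rfl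
theorem co_sub (x y : Fam) (t : Node) : (x - y).co t = x.co t - y.co t := rfl
theorem co_neg (x : Fam) (t : Node) : (-x).co t = -x.co t := rfl
theorem co_smul (c : ℝ) (x : Fam) (t : Node) : (c • x).co t = c * x.co t := rfl
theorem co_zero (t : Node) : (0 : Fam).co t = 0 := rfl
theorem co_ext {x y : Fam} (h : ∀ t, x.co t = y.co t) : x = y := Finsupp.ext h

/-- finite antichain -/
def AC (A : Finset Node) : Prop := IsAntichain (· <+: ·) (A : Set Node)

theorem AC.subset {A B : Finset Node} (hA : AC A) (h : B ⊆ A) : AC B :=
  IsAntichain.subset hA (by exact_mod_cast h)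

theorem sum_le_stNorm (x : Node →₀ ℝ) {A : Finset Node} (hA : AC A) :
    ∑ t ∈ A, |x t| ≤ stNorm x := by
  classical
  have hb : BddAbove {r : ℝ | ∃ A : Set Node, IsAntichain (· <+: ·) A ∧
      r = ∑ t ∈ x.support, A.indicator (fun s => |x s|) t} := by
    refine ⟨∑ t ∈ x.support, |x t|, ?_⟩
    rintro r ⟨B, -, rfl⟩
    exact Finset.sum_le_sum fun t _ => Set.indicator_le_self' (fun _ _ => abs_nonneg _) t
  refine le_trans (le_of_eq ?_) (le_csSup hb ⟨(A : Set Node), hA, rfl⟩)
  have h1 : ∑ t ∈ x.support, (A : Set Node).indicator (fun s => |x s|) t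
      = ∑ t ∈ x.support ∪ A, (A : Set Node).indicator (fun s => |x s|) t := by
    refine Finset.sum_subset Finset.subset_union_left fun t _ ht => ?_
    have : x t = 0 := by simpa using ht
    simp [Set.indicator, this]
  have h2 : ∑ t ∈ A, |x t| = ∑ t ∈ A, (A : Set Node).indicator (fun s => |x s|) t := by
    refine Finset.sum_congr rfl fun t ht => ?_
    rw [Set.indicator_of_mem (by exact_mod_cast ht)]
  rw [h1, h2]
  refine Finset.sum_subset Finset.subset_union_right fun t _ ht => ?_
  rw [Set.indicator_of_notMem (by exact_mod_cast ht)]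

theorem stNorm_le (x : Node →₀ ℝ) {c : ℝ} (h : ∀ A : Finset Node, AC A → ∑ t ∈ A, |x t| ≤ c) :
    stNorm x ≤ c := by
  classical
  refine csSup_le ⟨_, ∅, by simp [IsAntichain], rfl⟩ ?_
  rintro r ⟨A, hA, rfl⟩
  have h1 : ∑ t ∈ x.support, A.indicator (fun s => |x s|) t
      = ∑ t ∈ x.support.filter (· ∈ A), |x t| := by
    rw [Finset.sum_filter]
    refine Finset.sum_congr rfl fun t _ => ?_
    by_cases ht : t ∈ A
    · rw [Set.indicator_of_mem ht, if_pos ht]
    · rw [Set.indicator_of_notMem ht, if_neg ht]
  rw [h1]
  refine h _ (IsAntichain.subset hA ?_)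
  intro t ht
  simp only [Finset.coe_filter, Set.mem_ofPred_eq] at ht
  exact ht.2

theorem ac_empty : AC ∅ := by
  unfold AC
  simp [IsAntichain]

theorem ac_singleton (t : Node) : AC {t} := by
  unfold AC
  simp [IsAntichain]

theorem stNorm_nonneg (x : Node →₀ ℝ) : 0 ≤ stNorm x := by
  simpa using sum_le_stNorm x ac_empty

noncomputable instance : NormedAddCommGroup Fam :=
  AddGroupNorm.toNormedAddCommGroup
    { toFun := fun x => stNorm x.co
      map_zero' := by
        refine le_antisymm (stNorm_le _ fun A _ => ?_) (stNorm_nonneg _)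
        simp [co_zero]
      add_le' := by
        intro x y
        refine stNorm_le _ fun A hA => ?_
        calc ∑ t ∈ A, |(x + y).co t| ≤ ∑ t ∈ A, (|x.co t| + |y.co t|) :=
              Finset.sum_le_sum fun t _ => abs_add_le _ _
          _ = ∑ t ∈ A, |x.co t| + ∑ t ∈ A, |y.co t| := Finset.sum_add_distrib
          _ ≤ _ := add_le_add (sum_le_stNorm _ hA) (sum_le_stNorm _ hA)
      neg' := by
        intro x
        refine le_antisymm (stNorm_le _ fun A hA => ?_) (stNorm_le _ fun A hA => ?_)
        · refine le_trans (le_of_eq ?_) (sum_le_stNorm x.co hA)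
          exact Finset.sum_congr rfl fun t _ => by rw [co_neg, abs_neg]
        · refine le_trans (le_of_eq ?_) (sum_le_stNorm (-x).co hA)
          exact Finset.sum_congr rfl fun t _ => by rw [co_neg, abs_neg]
      eq_zero_of_map_eq_zero' := by
        intro x hx
        refine co_ext fun t => ?_
        have h := sum_le_stNorm x.co (ac_singleton t)
        rw [Finset.sum_singleton] at h
        have h2 : |x.co t| ≤ 0 := h.trans (le_of_eq hx)
        rw [co_zero]
        exact abs_eq_zero.1 (le_antisymm h2 (abs_nonneg _)) }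

theorem norm_def (x : Fam) : ‖x‖ = stNorm x.co := rfl

theorem sum_le_norm (x : Fam) {A : Finset Node} (hA : AC A) : ∑ t ∈ A, |x.co t| ≤ ‖x‖ :=
  sum_le_stNorm x.co hA

theorem norm_le {x : Fam} {c : ℝ} (h : ∀ A : Finset Node, AC A → ∑ t ∈ A, |x.co t| ≤ c) :
    ‖x‖ ≤ c := stNorm_le x.co h

theorem abs_co_le (x : Fam) (t : Node) : |x.co t| ≤ ‖x‖ := by
  simpa using sum_le_norm x (ac_singleton t)

noncomputable instance : NormedSpace ℝ Fam where
  norm_smul_le := by
    intro c x
    refine norm_le fun A hA => ?_
    calc ∑ t ∈ A, |(c • x).co t| = ‖c‖ * ∑ t ∈ A, |x.co t| := by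
          rw [Finset.mul_sum]
          exact Finset.sum_congr rfl fun t _ => by rw [co_smul, abs_mul, Real.norm_eq_abs]
      _ ≤ _ := mul_le_mul_of_nonneg_left (sum_le_norm x hA) (norm_nonneg _)

/-- The stopping time space: the completion of the finitely supported families. -/
abbrev StopSpace : Type := UniformSpace.Completion Fam

/-- `U` is a relatively weakly open subset of the closed unit ball of `X`. -/
def RelWeakOpen (X : Type) [NormedAddCommGroup X] [NormedSpace ℝ X] (U : Set X) : Prop :=
  ∃ O : Set (WeakSpace ℝ X), IsOpen O ∧ U = Metric.closedBall 0 1 ∩ (toWeakSpace ℝ X) ⁻¹' O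

/-- The closed unit ball of `X` with its relative weak topology has a countable pi-base: there is
a countable family of nonempty relatively weakly open subsets of the ball such that each nonempty
relatively weakly open subset of the ball contains a member of the family. -/
def CountableWeakPiBase (X : Type) [NormedAddCommGroup X] [NormedSpace ℝ X] : Prop :=
  ∃ 𝒰 : Set (Set X), 𝒰.Countable ∧ (∀ U ∈ 𝒰, U.Nonempty ∧ RelWeakOpen X U) ∧
    ∀ V : Set X, V.Nonempty → RelWeakOpen X V → ∃ U ∈ 𝒰, U ⊆ V

end Pool.Agent.R269.Stop
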